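import Pool.Agent.H60.PE.Defs

/-!
# Surfaces with an isotropic direction in which the second fundamental form is isotropic
-/

namespace Pool.H60.NC

open Pool.Agent.H99.N2 (E2 E4 pd)
open Pool.H60.PE

/-- At each point there is a complex tangent vector `r ≠ 0` with `g(r,r) = 0` and
`⟨h(r,r), h(r,r)⟩ = 0`, where `g` and the second fundamental form `h` are extended complex bilinearly.
If the induced metric is definite then `r` is a multiple of `e_1 + i e_2` or `e_1 - i e_2` for an
orthonormal basis, and the condition says `|h_11 - h_22| = 2 |h_12|`, `⟨h_11 - h_22, h_12⟩ = 0`: the ellipse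
of curvature is a circle (or a point). -/
def HasIsotropic (s : ℕ) (X : E2 → E4) (U : Set E2) : Prop :=
  ∀ x ∈ U, ∃ r : Fin 2 → ℂ, r ≠ 0 ∧
    ∑ i, ∑ j, (metric s X x i j : ℂ) * (r i * r j) = 0 ∧
    ∑ i, ∑ j, ∑ k, ∑ l, (ip s (normalPart s X x (pd i (pd j X) x))
      (normalPart s X x (pd k (pd l X) x)) : ℂ) * (r i * r j * r k * r l) = 0

end Pool.H60.NC
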