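import Pool.Agent.H60.PE.DC

/-!
# Null frames over a differential field
-/

namespace Pool.H60.NC

open Matrix
open Pool.H60.PE

variable {K : Type} [Field K]

/-- Null frame `f1`, `f2` (`<v1,v2> = 2`) of a surface with `Δ m = c m`, where `m` is the trace of
the second fundamental form; `al = h(f1,f1)`, `m = h(f1,f2)`, `be = h(f2,f2)`. -/
structure NFr (K : Type) [Field K] where
  f1 : Derivation ℤ K K
  f2 : Derivation ℤ K K
  w1 : K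
  w2 : K
  c : K
  v1 : Fin 4 → K
  v2 : Fin 4 → K
  al : Fin 4 → K
  be : Fin 4 → K
  m : Fin 4 → K
  comm : ∀ g : K, f1 (f2 g) - f2 (f1 g) = -w1 * f2 g - w2 * f1 g
  hc : c ≠ 0
  c1 : f1 c = 0
  c2 : f2 c = 0
  o11 : v1 ⬝ᵥ v1 = 0
  o12 : v1 ⬝ᵥ v2 = 2
  o22 : v2 ⬝ᵥ v2 = 0
  a1 : v1 ⬝ᵥ al = 0
  a2 : v2 ⬝ᵥ al = 0
  b1 : v1 ⬝ᵥ be = 0
  b2 : v2 ⬝ᵥ be = 0
  n1 : v1 ⬝ᵥ m = 0
  n2 : v2 ⬝ᵥ m = 0
  s11 : dv f1 v1 = w1 • v1 + al
  s12 : dv f1 v2 = -w1 • v2 + m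
  s21 : dv f2 v1 = w2 • v1 + m
  s22 : dv f2 v2 = -w2 • v2 + be
  lap : dv f1 (dv f2 m) + dv f2 (dv f1 m) + w1 • dv f2 m - w2 • dv f1 m = -(2 * c) • m

/-- exchange of the two null directions -/
def NFr.swap (N : NFr K) : NFr K where
  f1 := N.f2
  f2 := N.f1
  w1 := -N.w2
  w2 := -N.w1
  c := N.c
  v1 := N.v2
  v2 := N.v1
  al := N.be
  be := N.al
  m := N.m
  comm := fun g => by linear_combination -(N.comm g)
  hc := N.hc
  c1 := N.c2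
  c2 := N.c1
  o11 := N.o22
  o12 := by rw [dotProduct_comm]; exact N.o12
  o22 := N.o11
  a1 := N.b2
  a2 := N.b1
  b1 := N.a2
  b2 := N.a1
  n1 := N.n2
  n2 := N.n1
  s11 := N.s22
  s12 := by rw [neg_neg]; exact N.s21
  s21 := N.s12
  s22 := by rw [neg_neg]; exact N.s11
  lap := by
    rw [← N.lap]
    funext k
    simp only [Pi.add_apply, Pi.sub_apply, Pi.smul_apply, smul_eq_mul]
    ring

end Pool.H60.NC
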