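import Pool.Agent.H60.PE.CNf
import Pool.Agent.H60.NC.KNf
import Pool.Agent.H60.PE.CBf

/-!
# Null frames with isotropic `be = h(f2,f2)`: `<m,m>` is constant

Write `W = m.m`, `κ = m.be`, `A = al.be`; `be.be = 0`.  If `be = 0` take the last part of the proof with
`A = κ = 0`: it is `Pool.H60.PE.BF.const` (a `BF` with `nu = al`).  Let `be ≠ 0`.
A normal vector `x` (orthogonal to `v1`, `v2`) with `x.be = 0` is a multiple of `be`: choose a normal `y`
with `y.be = 1` (the normal part of a multiple of a unit vector); the difference `x - (x.y) be` is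
orthogonal to `v1`, `v2`, `be`, `y`, which are a basis.
If `κ = 0` then `m` is a multiple of `be`, so `W = 0`.  Let `κ ≠ 0`.

Derivatives (all from `x.v1 = x.v2 = 0` for normal `x` and from the commutator on `v1`, `v2`):
* `f1 m.v1 = -m.al`, `f1 m.v2 = -W`, `f2 m.v1 = -W`, `f2 m.v2 = -κ`.
* Codazzi (normal part of the commutator on `v2`): for each normal `x`
  `x.(f1 be) = x.(f2 m) - 2 w1 x.be`; (normal part of the commutator on `v1`):
  `x.(f2 al) = x.(f1 m) + 2 w2 x.al`.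
* Gauss (commutator on `v1`, product with `v2`): `f1 w2 - f2 w1 + 2 w1 w2 = (W - A)/2`.
* With the commutator `N.lap` becomes (L1) `f1 f2 m + w1 f2 m = -c m`, (L2) `f2 f1 m - w2 f1 m = -c m`.
  Product of (L1) with `v1`: `f1 W = -(f2 m).al`.  Product of (L2) with `v2`: `f2 W = -(f1 m).be`.

Since `be.be = 0`: `be.(f1 be) = 0`, so `be.(f2 m) = 0` by Codazzi.  The normal parts of `f1 be`,
`f2 be`, `f2 m` are orthogonal to `be`, hence multiples of `be`:
`f1 be = -(κ/2) v1 - (A/2) v2 + θ1 be`, `f2 be = -(κ/2) v2 + θ2 be`,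
`f2 m = -(κ/2) v1 - (W/2) v2 + Q be`, and `θ1 = Q - 2 w1`.  Put `P = (f1 m).be`.
1. `f2 κ = (f2 m).be + m.(f2 be) = θ2 κ`.
2. `f2 W = 2 m.(f2 m) = 2 Q κ` and `f2 W = -P`: `P = -2 κ Q`.
3. (L1).be: `-κ (W + A)/2 = -c κ`, so `A = 2c - W`.  (`(f1 f2 m).be = f1((f2 m).be) - (f2 m).(f1 be)`.)
4. (L2).be: `f2 P - κ W/2 - θ2 P - w2 P = -c κ`; with 1, 2: `f2 Q = w2 Q + (2c - W)/4`.
5. `f2 A = (f2 al).be + al.(f2 be) = P + 2 w2 A + θ2 A`, and `f2 A = -f2 W = P` by 3:
   `A (θ2 + 2 w2) = 0`.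
6. Commutator on `be`, product with a normal `y` with `y.be = 1`:
   `f1 θ2 - f2 θ1 + w1 θ2 + w2 θ1 = -A/2`.
If `A = 0` then `W = 2c` is constant.  Otherwise `θ2 = -2 w2`, and 6 with `θ1 = Q - 2 w1` and Gauss
give `f2 Q = w2 Q - W + (3/2) A`; with 4 and 3: `9 W = 10 c`, so `W` is constant.
-/

namespace Pool.H60.NC

open Matrix
open Pool.H60.PE

variable {K : Type} [Field K]

/-- a vector orthogonal to `v1`, `v2`, `m`, `y` is zero -/
private theorem kcirc_basis [CharZero K] {v1 v2 m y d : Fin 4 → K} (o11 : v1 ⬝ᵥ v1 = 0)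
    (o12 : v1 ⬝ᵥ v2 = 2) (o22 : v2 ⬝ᵥ v2 = 0) (n1 : v1 ⬝ᵥ m = 0) (n2 : v2 ⬝ᵥ m = 0)
    (hm : m ⬝ᵥ m = 0) (y1 : v1 ⬝ᵥ y = 0) (y2 : v2 ⬝ᵥ y = 0) (ym : m ⬝ᵥ y = 1)
    (d1 : v1 ⬝ᵥ d = 0) (d2 : v2 ⬝ᵥ d = 0) (dm : m ⬝ᵥ d = 0) (dy : y ⬝ᵥ d = 0) : d = 0 := by
  have h2 : (2 : K) ≠ 0 := by norm_num
  obtain ⟨t, ht⟩ : ∃ t, y ⬝ᵥ y = t := ⟨_, rfl⟩
  have hG : (Matrix.of ![v1, v2, m, y]) * (Matrix.of ![v1, v2, m, y])ᵀ
      = Matrix.of ![![0, 2, 0, 0], ![2, 0, 0, 0], ![0, 0, 0, 1], ![0, 0, 1, t]] := by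
    ext i j
    have e : ((Matrix.of ![v1, v2, m, y]) * (Matrix.of ![v1, v2, m, y])ᵀ) i j
        = (![v1, v2, m, y] i) ⬝ᵥ (![v1, v2, m, y] j) := by
      rw [Matrix.mul_apply]
      rfl
    rw [e]
    fin_cases i <;> fin_cases j <;>
      simp [o11, o12, o22, n1, n2, hm, y1, y2, ym, ht, dotProduct_comm v2 v1,
        dotProduct_comm m v1, dotProduct_comm m v2, dotProduct_comm y v1, dotProduct_comm y v2,
        dotProduct_comm y m]
  have hH : (Matrix.of ![![0, 2, 0, 0], ![2, 0, 0, 0], ![0, 0, 0, 1], ![0, 0, 1, t]] :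
      Matrix (Fin 4) (Fin 4) K) *
      Matrix.of ![![0, 2⁻¹, 0, 0], ![2⁻¹, 0, 0, 0], ![0, 0, -t, 1], ![0, 0, 1, 0]] = 1 := by
    ext i j
    fin_cases i <;> fin_cases j <;>
      simp [Matrix.mul_apply, Fin.sum_univ_four, h2]
  have h1 : (Matrix.of ![v1, v2, m, y]) * ((Matrix.of ![v1, v2, m, y])ᵀ *
      Matrix.of ![![0, 2⁻¹, 0, 0], ![2⁻¹, 0, 0, 0], ![0, 0, -t, 1], ![0, 0, 1, 0]]) = 1 := by
    rw [← Matrix.mul_assoc, hG, hH]
  have h3 := mul_eq_one_comm.mp h1
  have h4 : (Matrix.of ![v1, v2, m, y]).mulVec d = 0 := by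
    funext i
    fin_cases i
    · exact d1
    · exact d2
    · exact dm
    · exact dy
  have h5 : (((Matrix.of ![v1, v2, m, y])ᵀ *
      Matrix.of ![![0, 2⁻¹, 0, 0], ![2⁻¹, 0, 0, 0], ![0, 0, -t, 1], ![0, 0, 1, 0]]) *
      (Matrix.of ![v1, v2, m, y])).mulVec d = 0 := by
    rw [← Matrix.mulVec_mulVec, h4, Matrix.mulVec_zero]
  rw [h3, Matrix.one_mulVec] at h5
  exact h5

/-- a normal vector orthogonal to the isotropic `m` is a multiple of `m` -/
private theorem kcirc_mult [CharZero K] {v1 v2 m x : Fin 4 → K} (o11 : v1 ⬝ᵥ v1 = 0)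
    (o12 : v1 ⬝ᵥ v2 = 2) (o22 : v2 ⬝ᵥ v2 = 0) (n1 : v1 ⬝ᵥ m = 0) (n2 : v2 ⬝ᵥ m = 0)
    (hm : m ⬝ᵥ m = 0) (h0 : m ≠ 0) (x1 : v1 ⬝ᵥ x = 0) (x2 : v2 ⬝ᵥ x = 0) (xm : m ⬝ᵥ x = 0) :
    ∃ o : K, x = o • m := by
  classical
  have h2 : (2 : K) ≠ 0 := by norm_num
  obtain ⟨k, hk⟩ : ∃ k, m k ≠ 0 := by
    by_contra hc
    apply h0
    funext k
    by_contra hk
    exact hc ⟨k, hk⟩
  obtain ⟨z, hz⟩ : ∃ z : Fin 4 → K, m ⬝ᵥ z = 1 := by
    refine ⟨Pi.single k (m k)⁻¹, ?_⟩
    rw [dotProduct_single, mul_inv_cancel₀ hk]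
  obtain ⟨p, hp⟩ : ∃ p, v1 ⬝ᵥ z = p := ⟨_, rfl⟩
  obtain ⟨q, hq⟩ : ∃ q, v2 ⬝ᵥ z = q := ⟨_, rfl⟩
  have o21 : v2 ⬝ᵥ v1 = 2 := by rw [dotProduct_comm]; exact o12
  have m1 : m ⬝ᵥ v1 = 0 := by rw [dotProduct_comm]; exact n1
  have m2 : m ⬝ᵥ v2 = 0 := by rw [dotProduct_comm]; exact n2
  obtain ⟨y, y1, y2, ym⟩ : ∃ y : Fin 4 → K, v1 ⬝ᵥ y = 0 ∧ v2 ⬝ᵥ y = 0 ∧ m ⬝ᵥ y = 1 := by
    refine ⟨z - (q / 2) • v1 - (p / 2) • v2, ?_, ?_, ?_⟩
    · rw [dotProduct_sub, dotProduct_sub, dotProduct_smul, dotProduct_smul, hp, o11, o12]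
      simp only [smul_eq_mul]
      field_simp
      ring
    · rw [dotProduct_sub, dotProduct_sub, dotProduct_smul, dotProduct_smul, hq, o21, o22]
      simp only [smul_eq_mul]
      field_simp
      ring
    · rw [dotProduct_sub, dotProduct_sub, dotProduct_smul, dotProduct_smul, hz, m1, m2]
      simp
  have ym' : y ⬝ᵥ m = 1 := by rw [dotProduct_comm]; exact ym
  refine ⟨y ⬝ᵥ x, ?_⟩
  have hd : x - (y ⬝ᵥ x) • m = 0 := by
    apply kcirc_basis o11 o12 o22 n1 n2 hm y1 y2 ym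
    · rw [dotProduct_sub, dotProduct_smul, x1, n1]; simp
    · rw [dotProduct_sub, dotProduct_smul, x2, n2]; simp
    · rw [dotProduct_sub, dotProduct_smul, xm, hm]; simp
    · rw [dotProduct_sub, dotProduct_smul, ym']; simp
  exact sub_eq_zero.mp hd

theorem NFr.circ [CharZero K] (N : NFr K) (h : N.be ⬝ᵥ N.be = 0) :
    N.f1 (N.m ⬝ᵥ N.m) = 0 ∧ N.f2 (N.m ⬝ᵥ N.m) = 0 := by
  have h2 : (2 : K) ≠ 0 := two_ne_zero
  by_cases hbe : N.be = 0
  · exact BF.const { f1 := N.f1, f2 := N.f2, w1 := N.w1, w2 := N.w2, c := N.c, v1 := N.v1,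
                     v2 := N.v2, m := N.m, nu := N.al, comm := N.comm, o11 := N.o11,
                     o12 := N.o12, o22 := N.o22, n1 := N.n1, n2 := N.n2, k1 := N.a1,
                     k2 := N.a2, s11 := N.s11, s12 := N.s12, s21 := N.s21,
                     s22 := by rw [N.s22, hbe, add_zero], lap := N.lap }
  by_cases hk : N.be ⬝ᵥ N.m = 0
  · obtain ⟨o, ho⟩ := kcirc_mult N.o11 N.o12 N.o22 N.b1 N.b2 h hbe N.n1 N.n2 hk
    have hW : N.m ⬝ᵥ N.m = 0 := by
      rw [ho, smul_dotProduct, dotProduct_smul, h]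
      simp
    rw [hW]
    exact ⟨map_zero _, map_zero _⟩
  -- scalars
  obtain ⟨p, hp⟩ : ∃ p, N.be ⬝ᵥ N.m = 2 * p := ⟨(N.be ⬝ᵥ N.m) / 2, by field_simp⟩
  obtain ⟨a, ha⟩ : ∃ a, N.be ⬝ᵥ N.al = 2 * a := ⟨(N.be ⬝ᵥ N.al) / 2, by field_simp⟩
  obtain ⟨u, hu⟩ : ∃ u, N.m ⬝ᵥ N.m = 2 * u := ⟨(N.m ⬝ᵥ N.m) / 2, by field_simp⟩
  have hp0 : p ≠ 0 := by
    rintro rfl
    apply hk
    rw [hp, mul_zero]
  have o21 : N.v2 ⬝ᵥ N.v1 = 2 := by rw [dotProduct_comm]; exact N.o12
  have m1 : N.m ⬝ᵥ N.v1 = 0 := by rw [dotProduct_comm]; exact N.n1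
  have m2 : N.m ⬝ᵥ N.v2 = 0 := by rw [dotProduct_comm]; exact N.n2
  have be1 : N.be ⬝ᵥ N.v1 = 0 := by rw [dotProduct_comm]; exact N.b1
  have be2 : N.be ⬝ᵥ N.v2 = 0 := by rw [dotProduct_comm]; exact N.b2
  have hp' : N.m ⬝ᵥ N.be = 2 * p := by rw [dotProduct_comm]; exact hp
  have ha' : N.al ⬝ᵥ N.be = 2 * a := by rw [dotProduct_comm]; exact ha
  have hd2 : ∀ (D : Derivation ℤ K K) (x : K), D (2 * x) = 2 * D x := by
    intro D x
    rw [two_mul, two_mul, map_add]
  have hz : ∀ (D : Derivation ℤ K K) (v w' : Fin 4 → K) (t : K), v ⬝ᵥ w' = t →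
      dv D v ⬝ᵥ w' + v ⬝ᵥ dv D w' = D t := by
    intro D v w' t h1
    rw [← GNfAux.d_dot, h1]
  have vc : ∀ v : Fin 4 → K, dv N.f1 (dv N.f2 v) - dv N.f2 (dv N.f1 v)
      = -N.w1 • dv N.f2 v - N.w2 • dv N.f1 v := by
    intro v
    funext k
    exact N.comm (v k)
  -- products of the derivatives of `be`
  have b11 : N.v1 ⬝ᵥ dv N.f1 N.be = -(2 * a) := by
    have := hz N.f1 N.v1 N.be 0 N.b1
    rw [N.s11, add_dotProduct, smul_dotProduct, N.b1, ha', smul_eq_mul, map_zero] at this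
    linear_combination this
  have b12 : N.v2 ⬝ᵥ dv N.f1 N.be = -(2 * p) := by
    have := hz N.f1 N.v2 N.be 0 N.b2
    rw [N.s12, add_dotProduct, smul_dotProduct, N.b2, hp', smul_eq_mul, map_zero] at this
    linear_combination this
  have b21 : N.v1 ⬝ᵥ dv N.f2 N.be = -(2 * p) := by
    have := hz N.f2 N.v1 N.be 0 N.b1
    rw [N.s21, add_dotProduct, smul_dotProduct, N.b1, hp', smul_eq_mul, map_zero] at this
    linear_combination this
  have b22 : N.v2 ⬝ᵥ dv N.f2 N.be = 0 := by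
    have := hz N.f2 N.v2 N.be 0 N.b2
    rw [N.s22, add_dotProduct, smul_dotProduct, N.b2, h, smul_eq_mul, map_zero] at this
    linear_combination this
  have bb : ∀ D : Derivation ℤ K K, N.be ⬝ᵥ dv D N.be = 0 := by
    intro D
    have := hz D N.be N.be 0 h
    rw [dotProduct_comm (dv D N.be) N.be, map_zero] at this
    have h3 : 2 * (N.be ⬝ᵥ dv D N.be) = 0 := by linear_combination this
    exact (mul_eq_zero.mp h3).resolve_left h2
  obtain ⟨θ1, hθ1⟩ : ∃ θ : K, dv N.f1 N.be = -p • N.v1 + -a • N.v2 + θ • N.be := by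
    obtain ⟨o, ho⟩ := kcirc_mult (x := dv N.f1 N.be + p • N.v1 + a • N.v2) N.o11 N.o12 N.o22
      N.b1 N.b2 h hbe
      (by
        rw [dotProduct_add, dotProduct_add, dotProduct_smul, dotProduct_smul, b11, N.o11, N.o12,
          smul_eq_mul, smul_eq_mul]
        ring)
      (by
        rw [dotProduct_add, dotProduct_add, dotProduct_smul, dotProduct_smul, b12, N.o22, o21,
          smul_eq_mul, smul_eq_mul]
        ring)
      (by
        rw [dotProduct_add, dotProduct_add, dotProduct_smul, dotProduct_smul, bb, be1, be2,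
          smul_eq_mul, smul_eq_mul]
        ring)
    refine ⟨o, ?_⟩
    rw [← ho]
    funext k
    simp only [Pi.add_apply, Pi.smul_apply, smul_eq_mul]
    ring
  obtain ⟨θ2, hθ2⟩ : ∃ θ : K, dv N.f2 N.be = -p • N.v2 + θ • N.be := by
    obtain ⟨o, ho⟩ := kcirc_mult (x := dv N.f2 N.be + p • N.v2) N.o11 N.o12 N.o22
      N.b1 N.b2 h hbe
      (by
        rw [dotProduct_add, dotProduct_smul, b21, N.o12, smul_eq_mul]
        ring)
      (by
        rw [dotProduct_add, dotProduct_smul, b22, N.o22, smul_eq_mul]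
        ring)
      (by
        rw [dotProduct_add, dotProduct_smul, bb, be2, smul_eq_mul]
        ring)
    refine ⟨o, ?_⟩
    rw [← ho]
    funext k
    simp only [Pi.add_apply, Pi.smul_apply, smul_eq_mul]
    ring
  -- Codazzi and Gauss
  obtain ⟨G, hG⟩ : ∃ G, N.f1 N.w2 - N.f2 N.w1 + 2 * N.w1 * N.w2 = G := ⟨_, rfl⟩
  have q1 : dv N.f2 N.m = dv N.f1 N.be - G • N.v2 + (2 * N.w1) • N.be := by
    have e1 := vc N.v2
    rw [N.s22, N.s12] at e1
    simp only [GNfAux.dv_add, GNfAux.dv_smul, N.s22, N.s12, map_neg] at e1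
    funext k
    have := congrFun e1 k
    simp only [Pi.add_apply, Pi.sub_apply, Pi.smul_apply, smul_eq_mul] at this ⊢
    rw [← hG]
    linear_combination -this
  have q2 : dv N.f2 N.al = dv N.f1 N.m + G • N.v1 + (2 * N.w2) • N.al := by
    have e1 := vc N.v1
    rw [N.s21, N.s11] at e1
    simp only [GNfAux.dv_add, GNfAux.dv_smul, N.s21, N.s11] at e1
    funext k
    have := congrFun e1 k
    simp only [Pi.add_apply, Pi.sub_apply, Pi.smul_apply, smul_eq_mul] at this ⊢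
    rw [← hG]
    linear_combination -this
  have hGu : G = u - a := by
    have e1 := hz N.f2 N.v1 N.m 0 N.n1
    rw [N.s21, add_dotProduct, smul_dotProduct, N.n1, hu, q1, dotProduct_add, dotProduct_sub,
      b11, dotProduct_smul, dotProduct_smul, N.o12, N.b1, map_zero] at e1
    simp only [smul_eq_mul] at e1
    have : 2 * (G - (u - a)) = 0 := by linear_combination -e1
    have := (mul_eq_zero.mp this).resolve_left h2
    linear_combination this
  obtain ⟨Q, hQ⟩ : ∃ Q, θ1 = Q - 2 * N.w1 := ⟨θ1 + 2 * N.w1, by ring⟩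
  have q3 : dv N.f2 N.m = -p • N.v1 + -u • N.v2 + Q • N.be := by
    rw [q1, hθ1, hGu, hQ]
    funext k
    simp only [Pi.add_apply, Pi.sub_apply, Pi.smul_apply, smul_eq_mul]
    ring
  -- the two halves of the equation
  have L1 : dv N.f1 (dv N.f2 N.m) + N.w1 • dv N.f2 N.m = -N.c • N.m := by
    funext k
    have a1 := congrFun N.lap k
    have a2 := congrFun (vc N.m) k
    simp only [Pi.add_apply, Pi.sub_apply, Pi.smul_apply, smul_eq_mul] at a1 a2 ⊢
    have : 2 * ((dv N.f1 (dv N.f2 N.m)) k + N.w1 * (dv N.f2 N.m) k - -N.c * N.m k) = 0 := by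
      linear_combination a1 + a2
    have := (mul_eq_zero.mp this).resolve_left h2
    linear_combination this
  have L2 : dv N.f2 (dv N.f1 N.m) - N.w2 • dv N.f1 N.m = -N.c • N.m := by
    funext k
    have a1 := congrFun N.lap k
    have a2 := congrFun (vc N.m) k
    simp only [Pi.add_apply, Pi.sub_apply, Pi.smul_apply, smul_eq_mul] at a1 a2 ⊢
    have : 2 * ((dv N.f2 (dv N.f1 N.m)) k - N.w2 * (dv N.f1 N.m) k - -N.c * N.m k) = 0 := by
      linear_combination a1 - a2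
    have := (mul_eq_zero.mp this).resolve_left h2
    linear_combination this
  have L1' := L1
  rw [q3] at L1'
  simp only [GNfAux.dv_add, GNfAux.dv_smul, N.s11, N.s12, hθ1] at L1'
  -- `f1 u = - Q a`
  have t1 : N.f1 u = -(Q * a) := by
    have e1 := congrArg (fun x => N.v1 ⬝ᵥ x) L1'
    simp only [dotProduct_add, dotProduct_smul, smul_eq_mul, N.o11, N.o12, N.a1, N.b1,
      N.n1, map_neg] at e1
    have : 2 * (N.f1 u + Q * a) = 0 := by linear_combination -e1
    have := (mul_eq_zero.mp this).resolve_left h2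
    linear_combination this
  -- `f1 p`
  have t2 : N.f1 p = -((2 * N.w1 + Q) * p) := by
    have e1 := congrArg (fun x => N.v2 ⬝ᵥ x) L1'
    simp only [dotProduct_add, dotProduct_smul, smul_eq_mul, N.o22, o21, N.a2, N.b2,
      N.n2, map_neg] at e1
    have : 2 * (N.f1 p + (2 * N.w1 + Q) * p) = 0 := by linear_combination -e1
    have := (mul_eq_zero.mp this).resolve_left h2
    linear_combination this
  -- `a + u = c`
  have t3 : a = N.c - u := by
    have e1 := congrArg (fun x => N.be ⬝ᵥ x) L1'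
    simp only [dotProduct_add, dotProduct_smul, smul_eq_mul, be1, be2, h, hp, ha] at e1
    have : 2 * p * (a - (N.c - u)) = 0 := by linear_combination -e1
    have := (mul_eq_zero.mp this).resolve_left (mul_ne_zero h2 hp0)
    linear_combination this
  -- `f2 p`, `f2 u`
  have t4 : N.f2 p = θ2 * p := by
    have e1 := hz N.f2 N.m N.be _ hp'
    rw [q3, hθ2, hd2] at e1
    simp only [dotProduct_add, dotProduct_smul, add_dotProduct, smul_dotProduct, smul_eq_mul,
      N.b1, N.b2, h, m2, hp'] at e1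
    have : 2 * (N.f2 p - θ2 * p) = 0 := by linear_combination -e1
    have := (mul_eq_zero.mp this).resolve_left h2
    linear_combination this
  have t5 : N.f2 u = 2 * Q * p := by
    have e1 := hz N.f2 N.m N.m _ hu
    rw [q3, hd2] at e1
    simp only [dotProduct_add, dotProduct_smul, add_dotProduct, smul_dotProduct, smul_eq_mul,
      N.n1, N.n2, m1, m2, hp, hp'] at e1
    have : 2 * (N.f2 u - 2 * Q * p) = 0 := by linear_combination -e1
    have := (mul_eq_zero.mp this).resolve_left h2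
    linear_combination this
  -- `P = (f1 m).be`
  have t6 : dv N.f1 N.m ⬝ᵥ N.be = -(4 * Q * p) := by
    have e1 := hz N.f1 N.m N.be _ hp'
    rw [hθ1, hd2, t2] at e1
    simp only [dotProduct_add, dotProduct_smul, smul_eq_mul, m1, m2, hp'] at e1
    rw [hQ] at e1
    linear_combination e1
  have t6' : dv N.f1 N.m ⬝ᵥ N.v2 = -(2 * u) := by
    have e1 := hz N.f1 N.m N.v2 0 m2
    rw [N.s12, map_zero] at e1
    simp only [dotProduct_add, dotProduct_smul, smul_eq_mul, m2, hu] at e1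
    linear_combination e1
  -- `f2 Q`
  have t7 : 2 * N.f2 Q = 2 * N.w2 * Q + a := by
    have e1 := hz N.f2 (dv N.f1 N.m) N.be _ t6
    rw [hθ2] at e1
    simp only [dotProduct_add, dotProduct_smul, smul_eq_mul, t6, t6', map_neg,
      Derivation.leibniz, t4] at e1
    have e2 := congrArg (fun x => x ⬝ᵥ N.be) L2
    simp only [sub_dotProduct, smul_dotProduct, smul_eq_mul, t6, hp'] at e2
    have e4 : N.f2 (4 : K) = 0 := by
      have : (4 : K) = ((4 : ℤ) : K) := by norm_num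
      rw [this]
      exact Derivation.map_intCast _ _
    rw [e4] at e1
    have : 2 * p * (2 * N.f2 Q - (2 * N.w2 * Q + a)) = 0 := by
      rw [t3]
      linear_combination e1 - e2
    have := (mul_eq_zero.mp this).resolve_left (mul_ne_zero h2 hp0)
    linear_combination this
  -- `a (θ2 + 2 w2) = 0`
  have t8 : a * (θ2 + 2 * N.w2) = 0 := by
    have e1 := hz N.f2 N.al N.be _ ha'
    rw [q2, hθ2, hd2, add_dotProduct, add_dotProduct, t6] at e1
    simp only [dotProduct_add, dotProduct_smul, smul_dotProduct, smul_eq_mul, N.b1, ha'] at e1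
    have al2 : N.al ⬝ᵥ N.v2 = 0 := by rw [dotProduct_comm]; exact N.a2
    rw [al2] at e1
    have e2 : N.f2 a = -(2 * Q * p) := by
      rw [t3, map_sub, N.c2, t5]
      ring
    rw [e2] at e1
    have : 2 * (a * (θ2 + 2 * N.w2)) = 0 := by linear_combination e1
    exact (mul_eq_zero.mp this).resolve_left h2
  -- commutator on `be`
  have t9 : N.f1 θ2 - N.f2 θ1 + N.w1 * θ2 + N.w2 * θ1 = -a := by
    have e1 := vc N.be
    rw [hθ1, hθ2] at e1
    simp only [GNfAux.dv_add, GNfAux.dv_smul, N.s11, N.s12, N.s21, N.s22, hθ1, hθ2] at e1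
    have e2 := congrArg (fun x => N.m ⬝ᵥ x) e1
    simp only [dotProduct_add, dotProduct_sub, dotProduct_smul, smul_eq_mul, m1, m2, hu,
      hp'] at e2
    have : 2 * p * (N.f1 θ2 - N.f2 θ1 + N.w1 * θ2 + N.w2 * θ1 + a) = 0 := by
      linear_combination e2
    have := (mul_eq_zero.mp this).resolve_left (mul_ne_zero h2 hp0)
    linear_combination this
  -- end
  have hfin : ∀ D : Derivation ℤ K K, D N.c = 0 → D u = 0 := by
    intro D hc
    by_cases h0 : a = 0
    · have : u = N.c := by linear_combination t3 - h0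
      rw [this]
      exact hc
    · have hθ : θ2 = -(2 * N.w2) := by
        have := (mul_eq_zero.mp t8).resolve_left h0
        linear_combination this
      rw [hθ, hQ, map_neg, map_sub, hd2, hd2] at t9
      have t10 : N.f2 Q = N.w2 * Q - 2 * u + 3 * a := by
        linear_combination -t9 - 2 * hG - 2 * hGu
      have t11 : 9 * u = 5 * N.c := by
        linear_combination 2 * t10 - t7 + 5 * t3
      have h9 : D ((9 : ℤ) • u) = (9 : ℤ) • D u := map_zsmul D 9 u
      have h5 : D ((5 : ℤ) • N.c) = 0 := by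
        rw [map_zsmul, hc, smul_zero]
      have e : (9 : ℤ) • u = (5 : ℤ) • N.c := by
        rw [zsmul_eq_mul, zsmul_eq_mul]
        push_cast
        exact t11
      rw [e, h5] at h9
      have : (9 : K) * D u = 0 := by
        have h10 : (9 : ℤ) • D u = (9 : K) * D u := by
          rw [zsmul_eq_mul]
          push_cast
          rfl
        rw [← h10]
        exact h9.symm
      exact (mul_eq_zero.mp this).resolve_left (by norm_num)
  rw [hu, hd2, hd2, hfin _ N.c1, hfin _ N.c2, mul_zero]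
  exact ⟨rfl, rfl⟩

end Pool.H60.NC
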