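import Pool.Agent.H60.PE.CPf
import Pool.Agent.H60.NC.KNf

/-!
# Existence of a null frame

The frame is `f1 = e1 + i e2`, `f2 = e1 - i e2` for an orthonormal frame `e1`, `e2` (`exists_ofr`)
and `i^2 = -1`; `al = h11 - h22 + 2 i h12`, `be = h11 - h22 - 2 i h12`, `m = h11 + h22`,
`w1 = -(i p + q)`, `w2 = q - i p`.  See the second half of the proof of `Pool.H60.PE.exists_pf`,
which is the case `be = 0`.
-/

namespace Pool.H60.NC

open Matrix
open Pool.H60.PE

variable {K : Type} [Field K]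

/-- A surface over a differential field with `Δ H = c H`. -/
structure Im0 (K : Type) [Field K] where
  D : DC K
  X : Fin 4 → K
  del : K
  c : K
  hdel : del ^ 4 = gdet D X ^ 2
  hne : del ≠ 0
  hc : c ≠ 0
  hdc : ∀ i, D.d i c = 0
  hlap : ∀ k, lapK D X del (trK D X k) = c * trK D X k

theorem Im0.gdet_ne (I : Im0 K) : gdet I.D I.X ≠ 0 := by
  intro h
  apply I.hne
  have h4 : I.del ^ 4 = 0 := by rw [I.hdel, h]; ring
  exact (pow_eq_zero_iff (by norm_num)).1 h4

private theorem KEx_sum {K : Type} [Field K] (D : Fin 2 → Derivation ℤ K K) (a : Fin 2 → K)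
    (f : K) : (∑ i, a i • D i) f = a 0 * D 0 f + a 1 * D 1 f := by
  simp [Fin.sum_univ_two]

theorem exists_nfr [CharZero K] (I : Im0 K) :
    ∃ (N : NFr K) (a b : Fin 2 → K),
      (∀ f, N.f1 f = a 0 * I.D.d 0 f + a 1 * I.D.d 1 f) ∧
      (∀ f, N.f2 f = b 0 * I.D.d 0 f + b 1 * I.D.d 1 f) ∧
      a 0 * b 1 - a 1 * b 0 ≠ 0 ∧ N.v1 = dv N.f1 I.X ∧ N.v2 = dv N.f2 I.X ∧
      N.m = trK I.D I.X ∧ N.c = I.c := by
  have hg := I.gdet_ne
  obtain ⟨F⟩ := exists_ofr I.D I.X hg
  obtain ⟨i, hi'⟩ := I.D.root (-1)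
  have hi : i ^ 2 = -1 := hi'.symm
  have hi0 : i ≠ 0 := by
    rintro rfl
    norm_num at hi
  have lapF : dv F.e1 (dv F.e1 (trK I.D I.X))
      + dv F.e2 (dv F.e2 (trK I.D I.X)) - F.p • dv F.e2 (trK I.D I.X)
      - F.q • dv F.e1 (trK I.D I.X) = -I.c • trK I.D I.X := by
    ext k
    have h1 := OFr.lap_eq F I.del I.hdel (trK I.D I.X k)
    rw [I.hlap k] at h1
    simp only [dv, Pi.add_apply, Pi.sub_apply, Pi.smul_apply, smul_eq_mul]
    linear_combination h1
  set h12 := norK I.D I.X (dv F.e1 F.u2) with hh12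
  set h11 := norK I.D I.X (dv F.e1 F.u1) with hh11
  set h22 := norK I.D I.X (dv F.e2 F.u2) with hh22
  have hi1 : F.e1 i = 0 := der_i F.e1 hi
  have hi2 : F.e2 i = 0 := der_i F.e2 hi
  have g11 : dv F.e1 F.u1 = F.p • F.u2 + h11 := F.g11
  have g22 : dv F.e2 F.u2 = F.q • F.u1 + h22 := F.g22
  have g12 : dv F.e1 F.u2 = -F.p • F.u1 + h12 := F.g12
  have g21 : dv F.e2 F.u1 = -F.q • F.u2 + h12 := by
    have h := F.g21
    rw [crot_symm F hg] at h
    exact h
  have htr : trK I.D I.X = h11 + h22 := F.tr_eq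
  have o11 := F.q11
  have o12 := F.q12
  have o21 := F.q21
  have o22 := F.q22
  obtain ⟨hc1, hc2⟩ := F.const I.hdc
  have ap1 : ∀ (v : Fin 4 → K), dv (F.e1 + i • F.e2) v = dv F.e1 v + i • dv F.e2 v := by
    intro v
    funext k
    simp [dv]
  have ap2 : ∀ (v : Fin 4 → K), dv (F.e1 + (-i) • F.e2) v = dv F.e1 v + (-i) • dv F.e2 v := by
    intro v
    funext k
    simp [dv]
  have n1 : ∀ v, (F.u1 + i • F.u2) ⬝ᵥ norK I.D I.X v = 0 := by
    intro v
    rw [add_dotProduct, smul_dotProduct, F.nn1, F.nn2]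
    simp
  have n2 : ∀ v, (F.u1 + (-i) • F.u2) ⬝ᵥ norK I.D I.X v = 0 := by
    intro v
    rw [add_dotProduct, smul_dotProduct, F.nn1, F.nn2]
    simp
  have ha1 : ∀ f, F.e1 f = F.a 0 * I.D.d 0 f + F.a 1 * I.D.d 1 f := KEx_sum I.D.d F.a
  have ha2 : ∀ f, F.e2 f = F.b 0 * I.D.d 0 f + F.b 1 * I.D.d 1 f := KEx_sum I.D.d F.b
  refine ⟨{ f1 := F.e1 + i • F.e2, f2 := F.e1 + (-i) • F.e2, w1 := -(i * F.p + F.q),
            w2 := F.q - i * F.p, c := I.c, v1 := F.u1 + i • F.u2, v2 := F.u1 + (-i) • F.u2,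
            al := h11 - h22 + (2 * i) • h12, be := h11 - h22 + (-(2 * i)) • h12,
            m := h11 + h22, comm := ?_, hc := I.hc, c1 := ?_, c2 := ?_,
            o11 := ?_, o12 := ?_, o22 := ?_, a1 := ?_, a2 := ?_, b1 := ?_, b2 := ?_,
            n1 := ?_, n2 := ?_, s11 := ?_, s12 := ?_, s21 := ?_, s22 := ?_,
            lap := ?_ }, fun k => F.a k + i * F.b k, fun k => F.a k - i * F.b k,
            ?_, ?_, ?_, ?_, ?_, htr.symm, rfl⟩
  · intro g
    have hc := F.comm g
    simp only [Derivation.add_apply, Derivation.smul_apply, smul_eq_mul, map_add, map_neg,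
      Derivation.leibniz, hi1, hi2]
    linear_combination -2 * i * hc
  · simp only [Derivation.add_apply, Derivation.smul_apply, smul_eq_mul, hc1, hc2]
    ring
  · simp only [Derivation.add_apply, Derivation.smul_apply, smul_eq_mul, hc1, hc2]
    ring
  · simp only [add_dotProduct, dotProduct_add, smul_dotProduct, dotProduct_smul, smul_eq_mul,
      o11, o12, o21, o22]
    linear_combination hi
  · simp only [add_dotProduct, dotProduct_add, smul_dotProduct, dotProduct_smul, smul_eq_mul,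
      o11, o12, o21, o22]
    linear_combination -hi
  · simp only [add_dotProduct, dotProduct_add, smul_dotProduct, dotProduct_smul, smul_eq_mul,
      o11, o12, o21, o22]
    linear_combination hi
  · rw [dotProduct_add, dotProduct_sub, dotProduct_smul, n1, n1, n1, sub_zero, smul_zero,
      add_zero]
  · rw [dotProduct_add, dotProduct_sub, dotProduct_smul, n2, n2, n2, sub_zero, smul_zero,
      add_zero]
  · rw [dotProduct_add, dotProduct_sub, dotProduct_smul, n1, n1, n1, sub_zero, smul_zero,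
      add_zero]
  · rw [dotProduct_add, dotProduct_sub, dotProduct_smul, n2, n2, n2, sub_zero, smul_zero,
      add_zero]
  · rw [dotProduct_add, n1, n1, add_zero]
  · rw [dotProduct_add, n2, n2, add_zero]
  · rw [ap1, cpf_dv_add, cpf_dv_add, cpf_dv_smul, cpf_dv_smul, hi1, hi2, g11, g12, g21, g22]
    funext k
    simp only [Pi.add_apply, Pi.sub_apply, Pi.smul_apply, smul_eq_mul]
    linear_combination (F.q * F.u1 k + h22 k + F.p * F.u2 k) * hi
  · rw [ap1, cpf_dv_add, cpf_dv_add, cpf_dv_smul, cpf_dv_smul, map_neg, map_neg, hi1, hi2, g11,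
      g12, g21, g22]
    funext k
    simp only [Pi.add_apply, Pi.smul_apply, smul_eq_mul]
    linear_combination (-(F.q * F.u1 k) - h22 k + F.p * F.u2 k) * hi
  · rw [ap2, cpf_dv_add, cpf_dv_add, cpf_dv_smul, cpf_dv_smul, hi1, hi2, g11, g12, g21, g22]
    funext k
    simp only [Pi.add_apply, Pi.smul_apply, smul_eq_mul]
    linear_combination (-(F.q * F.u1 k) - h22 k + F.p * F.u2 k) * hi
  · rw [ap2, cpf_dv_add, cpf_dv_add, cpf_dv_smul, cpf_dv_smul, map_neg, map_neg, hi1, hi2, g11,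
      g12, g21, g22]
    funext k
    simp only [Pi.add_apply, Pi.sub_apply, Pi.smul_apply, smul_eq_mul]
    linear_combination (F.q * F.u1 k + h22 k + F.p * F.u2 k) * hi
  · have hl := lapF
    rw [htr] at hl
    simp only [ap1, ap2, cpf_dv_add, cpf_dv_smul, map_neg, hi1, hi2] at hl ⊢
    funext k
    have hk := congrFun hl k
    simp only [Pi.add_apply, Pi.sub_apply, Pi.smul_apply, smul_eq_mul] at hk ⊢
    linear_combination 2 * hk
      - 2 * (dv F.e2 (dv F.e2 h11) k + dv F.e2 (dv F.e2 h22) k) * hi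
      + 2 * F.p * (dv F.e2 h11 k + dv F.e2 h22 k) * hi
  · intro f
    show (F.e1 + i • F.e2) f = _
    simp only [Derivation.add_apply, Derivation.smul_apply, smul_eq_mul, ha1, ha2]
    ring
  · intro f
    show (F.e1 + (-i) • F.e2) f = _
    simp only [Derivation.add_apply, Derivation.smul_apply, smul_eq_mul, ha1, ha2]
    ring
  · intro h0
    have hd := OFr.det_sq F
    have hdet : F.a 0 * F.b 1 - F.a 1 * F.b 0 ≠ 0 := by
      intro h0
      rw [h0] at hd
      norm_num at hd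
    have h1 : (2 * i) * (F.a 0 * F.b 1 - F.a 1 * F.b 0) = 0 := by linear_combination -h0
    rcases mul_eq_zero.1 h1 with h2 | h2
    · exact mul_ne_zero two_ne_zero hi0 h2
    · exact hdet h2
  · exact (ap1 I.X).symm
  · exact (ap2 I.X).symm

end Pool.H60.NC
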