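import Pool.Agent.H60.PE.Main
import Pool.Agent.H60.NC.IsoDef
import Pool.Agent.H60.NC.KEx
import Pool.Agent.H60.NC.KCirc

/-!
# `Δ H = c H` with an isotropic direction in which `h` is isotropic: `<H,H>` is constant

`res` is the resultant of `A x^2 + B x y + C y^2` and `c0 x^4 + c1 x^3 y + c2 x^2 y^2 + c3 x y^3 + c4 y^4`.

`res_eq`: `ring` after substitution.

`res_zero`: if the two forms have a common zero `(x,y) ≠ 0` then `res = 0`.  If `y ≠ 0`:
`A X^2 + B X Y + C Y^2 = (X y - Y x)(A X / y + Y (B y + A x)/y^2)`, use `res_eq` with `l = 1`, `a = (x,y)`,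
`b = (-(B y + A x)/y^2, A / y)`.  If `y = 0` then `x ≠ 0`, `A = 0`, `c0 = 0` and the formula for `res` has the
value `0` term by term (each term contains `A` or `c0`).

`iso_const`: as `circ_const` (file `TCirc`, whose private lemmas `tcirc_im0`, `tcirc_be` may be copied).
Over the field, with `f1 = Σ a_i d_i`, `f2 = Σ b_i d_i`, `δ = a_0 b_1 - a_1 b_0`: `g(a,a) = g(b,b) = 0`, `g(a,b) = 2`
(`N.o11`, `N.o22`, `N.o12`) give `g_00 = l a_1 b_1`, `g_01 + g_10 = -l (a_1 b_0 + a_0 b_1)`, `g_11 = l a_0 b_0` with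
`l = -4/δ^2`.  With `H_ij = norK X_ij`, `S = H_01 + H_10`: `be = b_0^2 H_00 + b_0 b_1 S + b_1^2 H_11` (`tcirc_be`), and
`al` in the same way with `a` (apply `tcirc_be` to `N.swap`).  So `be.be` and `al.al` are the values of the
quartic form with `c0 = H_00.H_00`, `c1 = 2 H_00.S`, `c2 = S.S + 2 H_00.H_11`, `c3 = 2 S.H_11`, `c4 = H_11.H_11` at
`b`, `a`, and `res_eq` gives `res = l^4 (al.al)(be.be)`.  The real function `res` vanishes on `Om` by
`res_zero` (over `ℂ`) and the hypothesis, so `(al.al)(be.be) = 0` in the field: use `NFr.circ` for `N` or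
for `N.swap`.
-/

namespace Pool.H60.NC

open scoped ContDiff
open Matrix
open Pool.Agent.H99.N2 (E2 E4 pd contDiffOn_pd contDiffOn_comp)
open Pool.H60.PE

/-- resultant of a quadratic and a quartic binary form -/
def res {F : Type} [CommRing F] (A B C c0 c1 c2 c3 c4 : F) : F :=
  c0 ^ 2 * C ^ 4 - c0 * c1 * B * C ^ 3 + c0 * c2 * C ^ 2 * (B ^ 2 - 2 * A * C)
    + c0 * c3 * C * (3 * A * B * C - B ^ 3)
    + c0 * c4 * (B ^ 4 - 4 * A * B ^ 2 * C + 2 * A ^ 2 * C ^ 2)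
    + c1 ^ 2 * A * C ^ 3 - c1 * c2 * A * B * C ^ 2 + c1 * c3 * A * C * (B ^ 2 - 2 * A * C)
    + c1 * c4 * A * (3 * A * B * C - B ^ 3)
    + c2 ^ 2 * A ^ 2 * C ^ 2 - c2 * c3 * A ^ 2 * B * C + c2 * c4 * A ^ 2 * (B ^ 2 - 2 * A * C)
    + c3 ^ 2 * A ^ 3 * C - c3 * c4 * A ^ 3 * B + c4 ^ 2 * A ^ 4

theorem res_eq {F : Type} [CommRing F] (l a0 a1 b0 b1 c0 c1 c2 c3 c4 : F) :
    res (l * a1 * b1) (-(l * (a1 * b0 + a0 * b1))) (l * a0 * b0) c0 c1 c2 c3 c4
      = l ^ 4 *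
        (c0 * a0 ^ 4 + c1 * a0 ^ 3 * a1 + c2 * a0 ^ 2 * a1 ^ 2 + c3 * a0 * a1 ^ 3 + c4 * a1 ^ 4) *
        (c0 * b0 ^ 4 + c1 * b0 ^ 3 * b1 + c2 * b0 ^ 2 * b1 ^ 2 + c3 * b0 * b1 ^ 3
          + c4 * b1 ^ 4) := by
  unfold res
  ring

theorem res_zero {F : Type} [Field F] {A B C c0 c1 c2 c3 c4 x y : F} (h : x ≠ 0 ∨ y ≠ 0)
    (h2 : A * x ^ 2 + B * x * y + C * y ^ 2 = 0)
    (h4 : c0 * x ^ 4 + c1 * x ^ 3 * y + c2 * x ^ 2 * y ^ 2 + c3 * x * y ^ 3 + c4 * y ^ 4 = 0) :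
    res A B C c0 c1 c2 c3 c4 = 0 := by
  by_cases hy : y = 0
  · have hx : x ≠ 0 := by
      rcases h with h | h
      · exact h
      · exact absurd hy h
    subst hy
    have hA : A = 0 := by
      have : A * x ^ 2 = 0 := by linear_combination h2
      exact (mul_eq_zero.1 this).resolve_right (pow_ne_zero 2 hx)
    have h0 : c0 = 0 := by
      have : c0 * x ^ 4 = 0 := by linear_combination h4
      exact (mul_eq_zero.1 this).resolve_right (pow_ne_zero 4 hx)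
    rw [hA, h0]
    unfold res
    ring
  · have e1 : (1 : F) * y * (A / y) = A := by field_simp
    have e2 : -((1 : F) * (y * (-(B * y + A * x) / y ^ 2) + x * (A / y))) = B := by
      field_simp
      ring
    have e3 : (1 : F) * x * (-(B * y + A * x) / y ^ 2) = C := by
      field_simp
      linear_combination -h2
    have h := res_eq (1 : F) x y (-(B * y + A * x) / y ^ 2) (A / y) c0 c1 c2 c3 c4
    rw [e1, e2, e3, h4] at h
    rw [h]
    ring

section field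

variable {s : ℕ} {Om : Set E2} {K : Type} [Field K] [CharZero K]

/-- a surface with `Δ H = c H` over the differential field -/
private theorem tiso_im0 (B : CBr Om K) (hO : IsOpen Om) (hne : Om.Nonempty) {X : E2 → E4}
    (hX : IsSurface s X Om) {c : ℝ} (hc : c ≠ 0)
    (hH : ∀ x ∈ Om, lap s X (meanCurv s X) x = c • meanCurv s X x) :
    ∃ I : Im0 K, I.D = B.D ∧ I.X = B.Φ s X := by
  have hm := contDiffOn_meanCurv hO hX
  refine ⟨⟨B.D, B.Φ s X, delK B s X, B.φ (fun _ => c), delK_pow B hO hX, delK_ne B hO hX,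
    B.const_ne hne hc, B.const_der c, ?_⟩, rfl, rfl⟩
  intro k
  have h1 : B.Φ s (lap s X (meanCurv s X)) = B.φ (fun _ => c) • B.Φ s (meanCurv s X) := by
    rw [← B.Φ_smul s (contDiffOn_const (c := c)) hm]
    exact B.Φ_congr s (contDiffOn_lap hO hX hm) ((contDiffOn_const (c := c)).smul hm) hH
  have h2 := Φ_lap B hO hX hm k
  rw [h1] at h2
  rw [← Φ_meanCurv B hO hX]
  simp only [Pi.smul_apply, smul_eq_mul] at h2 ⊢
  have hlin : ∀ a : K, lapK B.D (B.Φ s X) (delK B s X) (2 * a)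
      = 2 * lapK B.D (B.Φ s X) (delK B s X) a := by
    intro a
    have h2a : ∀ (j : Fin 2) (b : K), B.D.d j (2 * b) = 2 * B.D.d j b := by
      intro j b
      rw [two_mul, map_add, two_mul]
    simp only [lapK, h2a]
    have : ∀ i : Fin 2, B.D.d i (∑ j, delK B s X * gi B.D (B.Φ s X) i j * (2 * B.D.d j a))
        = 2 * B.D.d i (∑ j, delK B s X * gi B.D (B.Φ s X) i j * B.D.d j a) := by
      intro i
      rw [← h2a, Finset.mul_sum]
      congr 1
      exact Finset.sum_congr rfl fun j _ => by ring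
    simp only [this, ← Finset.mul_sum]
    ring
  rw [hlin, ← h2]
  ring

variable {D : DC K} {X : Fin 4 → K}

private theorem tiso_nadd (v w : Fin 4 → K) :
    norK D X (v + w) = norK D X v + norK D X w := by
  unfold norK
  funext k
  simp only [Fin.sum_univ_two, dotProduct_add, Pi.sub_apply, Pi.add_apply, Pi.smul_apply,
    smul_eq_mul]
  ring

private theorem tiso_coord (h : gdet D X ≠ 0) (k : Fin 2) :
    norK D X (dv (D.d k) X) = 0 := by
  have hs : gm D X 1 0 = gm D X 0 1 := dotProduct_comm _ _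
  have hg : gm D X 0 0 * gm D X 1 1 - gm D X 0 1 ^ 2 ≠ 0 := h
  funext n
  have e : ∀ i, dv (D.d i) X ⬝ᵥ dv (D.d k) X = gm D X i k := fun i => rfl
  unfold norK
  simp only [e, Fin.sum_univ_two, gi, gdet, Pi.sub_apply, Pi.add_apply, Pi.smul_apply,
    smul_eq_mul, Pi.zero_apply, Matrix.of_apply, Matrix.cons_val', Matrix.cons_val_zero,
    Matrix.cons_val_one, Matrix.cons_val_fin_one]
  have hi := mul_inv_cancel₀ hg
  fin_cases k
  · simp only [Fin.zero_eta, Fin.isValue, hs]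
    linear_combination (-(dv (D.d 0) X n)) * hi
  · simp only [Fin.mk_one, Fin.isValue]
    linear_combination (-(dv (D.d 1) X n)) * hi

private theorem tiso_be (hg : gdet D X ≠ 0) (N : NFr K) {a b : Fin 2 → K}
    (h1 : ∀ f, N.f1 f = a 0 * D.d 0 f + a 1 * D.d 1 f)
    (h2 : ∀ f, N.f2 f = b 0 * D.d 0 f + b 1 * D.d 1 f)
    (hδ : a 0 * b 1 - a 1 * b 0 ≠ 0) (hv1 : N.v1 = dv N.f1 X) (hv2 : N.v2 = dv N.f2 X) :
    N.be = (b 0 * b 0) • norK D X (dv (D.d 0) (dv (D.d 0) X)) +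
      (b 0 * b 1) • (norK D X (dv (D.d 0) (dv (D.d 1) X)) +
        norK D X (dv (D.d 1) (dv (D.d 0) X))) +
      (b 1 * b 1) • norK D X (dv (D.d 1) (dv (D.d 1) X)) := by
  have e1 : N.v1 = a 0 • dv (D.d 0) X + a 1 • dv (D.d 1) X := by
    rw [hv1]
    funext k
    exact h1 (X k)
  have hdv2 : ∀ v : Fin 4 → K, dv N.f2 v = b 0 • dv (D.d 0) v + b 1 • dv (D.d 1) v := by
    intro v
    funext k
    exact h2 (v k)
  have e2 : N.v2 = b 0 • dv (D.d 0) X + b 1 • dv (D.d 1) X := by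
    rw [hv2]
    exact hdv2 X
  have p1 := N.b1
  have p2 := N.b2
  rw [e1, add_dotProduct, smul_dotProduct, smul_dotProduct, smul_eq_mul, smul_eq_mul] at p1
  rw [e2, add_dotProduct, smul_dotProduct, smul_dotProduct, smul_eq_mul, smul_eq_mul] at p2
  have z0 : dv (D.d 0) X ⬝ᵥ N.be = 0 := by
    have : (a 0 * b 1 - a 1 * b 0) * (dv (D.d 0) X ⬝ᵥ N.be) = 0 := by
      linear_combination b 1 * p1 - a 1 * p2
    exact (mul_eq_zero.mp this).resolve_left hδ
  have z1 : dv (D.d 1) X ⬝ᵥ N.be = 0 := by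
    have : (a 0 * b 1 - a 1 * b 0) * (dv (D.d 1) X ⬝ᵥ N.be) = 0 := by
      linear_combination a 0 * p2 - b 0 * p1
    exact (mul_eq_zero.mp this).resolve_left hδ
  have hn : norK D X N.be = N.be := by
    unfold norK
    simp only [Fin.sum_univ_two, z0, z1, mul_zero, zero_smul, add_zero, sub_zero]
  have hb : N.be = dv N.f2 N.v2 + N.w2 • N.v2 := by
    rw [N.s22]
    funext k
    simp only [Pi.add_apply, Pi.smul_apply, smul_eq_mul]
    ring
  have hc : dv N.f2 N.v2 + N.w2 • N.v2 =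
      (b 0 * b 0) • dv (D.d 0) (dv (D.d 0) X) +
      (b 0 * b 1) • (dv (D.d 0) (dv (D.d 1) X) + dv (D.d 1) (dv (D.d 0) X)) +
      (b 1 * b 1) • dv (D.d 1) (dv (D.d 1) X) +
      ((N.f2 (b 0) + N.w2 * b 0) • dv (D.d 0) X + (N.f2 (b 1) + N.w2 * b 1) • dv (D.d 1) X) := by
    rw [e2, cpf_dv_add, cpf_dv_smul, cpf_dv_smul, hdv2 (dv (D.d 0) X), hdv2 (dv (D.d 1) X)]
    funext k
    simp only [Pi.add_apply, Pi.smul_apply, smul_eq_mul]
    ring
  rw [← hn, hb, hc]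
  simp only [tiso_nadd, norK_smul, tiso_coord hg, smul_zero, add_zero]


/-- constants -/
private theorem tiso_int (B : CBr Om K) (n : ℤ) : B.φ (fun _ => (n : ℝ)) = (n : K) := by
  let h : ℤ →+ K := AddMonoidHom.mk' (fun n => B.φ (fun _ => (n : ℝ))) (by
    intro a b
    have := B.add (fun _ => (a : ℝ)) (fun _ => (b : ℝ)) contDiffOn_const contDiffOn_const
    rw [← this]
    congr 1
    funext x
    push_cast
    rfl)
  have h1 : h = Int.castAddHom K := by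
    apply AddMonoidHom.ext_int
    change B.φ (fun _ => ((1 : ℤ) : ℝ)) = ((1 : ℤ) : K)
    rw [Int.cast_one, Int.cast_one]
    exact B.one
  exact DFunLike.congr_fun h1 n

/-- polynomials in smooth functions -/
private theorem tiso_poly (B : CBr Om K) (f : Fin 8 → E2 → ℝ)
    (hf : ∀ i, ContDiffOn ℝ ∞ (f i) Om) (P : MvPolynomial (Fin 8) ℤ) :
    ContDiffOn ℝ ∞ (fun x => MvPolynomial.aeval (fun i => f i x) P) Om ∧
      B.φ (fun x => MvPolynomial.aeval (fun i => f i x) P)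
        = MvPolynomial.aeval (fun i => B.φ (f i)) P := by
  induction P using MvPolynomial.induction_on with
  | C a =>
    have e : (fun x : E2 => MvPolynomial.aeval (fun i => f i x) (MvPolynomial.C a))
        = fun _ => (a : ℝ) := by
      funext x
      rw [MvPolynomial.aeval_C]
      rfl
    rw [e, MvPolynomial.aeval_C, tiso_int B a]
    exact ⟨contDiffOn_const, rfl⟩
  | add p q hp hq =>
    have e : (fun x : E2 => MvPolynomial.aeval (fun i => f i x) (p + q))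
        = fun x => MvPolynomial.aeval (fun i => f i x) p
          + MvPolynomial.aeval (fun i => f i x) q := by
      funext x
      rw [map_add]
    rw [e, map_add, ← hp.2, ← hq.2]
    exact ⟨hp.1.add hq.1, B.add _ _ hp.1 hq.1⟩
  | mul_X p i hp =>
    have e : (fun x : E2 => MvPolynomial.aeval (fun i => f i x) (p * MvPolynomial.X i))
        = fun x => MvPolynomial.aeval (fun i => f i x) p * f i x := by
      funext x
      rw [map_mul, MvPolynomial.aeval_X]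
    rw [e, map_mul, MvPolynomial.aeval_X, ← hp.2]
    exact ⟨hp.1.mul (hf i), B.mul _ _ hp.1 (hf i)⟩

end field

private theorem tiso_map {R S : Type} [CommRing R] [CommRing S] (f : R →+* S)
    (A B C c0 c1 c2 c3 c4 : R) :
    f (res A B C c0 c1 c2 c3 c4) = res (f A) (f B) (f C) (f c0) (f c1) (f c2) (f c3) (f c4) := by
  simp only [res, map_add, map_sub, map_mul, map_pow, map_ofNat]

private theorem tiso_ipadd (s : ℕ) (a b c : E4) : ip s (a + b) c = ip s a c + ip s b c := by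
  simp only [ip, Fin.sum_univ_four, PiLp.add_apply]
  ring

private theorem tiso_ipcomm (s : ℕ) (a b : E4) : ip s a b = ip s b a := by
  simp only [ip, Fin.sum_univ_four]
  ring

/-- the resultant vanishes at a point -/
private theorem tiso_pt {s : ℕ} {X : E2 → E4} {x : E2}
    (h : ∃ r : Fin 2 → ℂ, r ≠ 0 ∧
      ∑ i, ∑ j, (metric s X x i j : ℂ) * (r i * r j) = 0 ∧
      ∑ i, ∑ j, ∑ k, ∑ l, (ip s (normalPart s X x (pd i (pd j X) x))
        (normalPart s X x (pd k (pd l X) x)) : ℂ) * (r i * r j * r k * r l) = 0) :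
    res (metric s X x 0 0) (metric s X x 0 1 + metric s X x 1 0) (metric s X x 1 1)
      (ip s (normalPart s X x (pd 0 (pd 0 X) x)) (normalPart s X x (pd 0 (pd 0 X) x)))
      (2 * ip s (normalPart s X x (pd 0 (pd 0 X) x))
        (normalPart s X x (pd 0 (pd 1 X) x) + normalPart s X x (pd 1 (pd 0 X) x)))
      (ip s (normalPart s X x (pd 0 (pd 1 X) x) + normalPart s X x (pd 1 (pd 0 X) x))
        (normalPart s X x (pd 0 (pd 1 X) x) + normalPart s X x (pd 1 (pd 0 X) x))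
        + 2 * ip s (normalPart s X x (pd 0 (pd 0 X) x)) (normalPart s X x (pd 1 (pd 1 X) x)))
      (2 * ip s (normalPart s X x (pd 0 (pd 1 X) x) + normalPart s X x (pd 1 (pd 0 X) x))
        (normalPart s X x (pd 1 (pd 1 X) x)))
      (ip s (normalPart s X x (pd 1 (pd 1 X) x)) (normalPart s X x (pd 1 (pd 1 X) x))) = 0 := by
  obtain ⟨r, hr, h2, h4⟩ := h
  have hxy : r 0 ≠ 0 ∨ r 1 ≠ 0 := by
    by_contra hc
    push Not at hc
    apply hr
    funext i
    fin_cases i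
    · exact hc.1
    · exact hc.2
  set h00 := normalPart s X x (pd 0 (pd 0 X) x)
  set h01 := normalPart s X x (pd 0 (pd 1 X) x)
  set h10 := normalPart s X x (pd 1 (pd 0 X) x)
  set h11 := normalPart s X x (pd 1 (pd 1 X) x)
  simp only [Fin.sum_univ_two] at h2 h4
  have k1 : ip s h00 (h01 + h10) = ip s h00 h01 + ip s h00 h10 := by
    rw [tiso_ipcomm s h00, tiso_ipadd, tiso_ipcomm s h01, tiso_ipcomm s h10]
  have k2 : ip s (h01 + h10) (h01 + h10)
      = ip s h01 h01 + 2 * ip s h01 h10 + ip s h10 h10 := by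
    rw [tiso_ipadd, tiso_ipcomm s h01, tiso_ipcomm s h10, tiso_ipadd, tiso_ipadd,
      tiso_ipcomm s h10 h01]
    ring
  have k3 : ip s (h01 + h10) h11 = ip s h01 h11 + ip s h10 h11 := tiso_ipadd s _ _ _
  rw [tiso_ipcomm s h01 h00, tiso_ipcomm s h10 h00, tiso_ipcomm s h11 h00,
    tiso_ipcomm s h10 h01, tiso_ipcomm s h11 h01, tiso_ipcomm s h11 h10] at h4
  apply Complex.ofReal_injective
  change Complex.ofRealHom _ = Complex.ofRealHom 0
  rw [map_zero, tiso_map]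
  apply res_zero (x := r 0) (y := r 1) hxy
  · simp only [Complex.ofRealHom_eq_coe]
    push_cast
    linear_combination h2
  · rw [k1, k2, k3]
    simp only [Complex.ofRealHom_eq_coe]
    push_cast
    linear_combination h4

theorem iso_const (s : ℕ) {U : Set E2} (hU : IsOpen U) {X : E2 → E4}
    (hX : IsSurface s X U) (hs : HasIsotropic s X U)
    (hH : ∃ c : ℝ, c ≠ 0 ∧ ∀ x ∈ U, lap s X (meanCurv s X) x = c • meanCurv s X x) :
    ∀ i : Fin 2, ∀ x ∈ U,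
      pd i (fun y => ip s (meanCurv s X y) (meanCurv s X y)) x = 0 := by
  obtain ⟨c, hc0, hH⟩ := hH
  have hsm : ContDiffOn ℝ ∞ (meanCurv s X) U := contDiffOn_meanCurv hU hX
  set W : E2 → ℝ := fun x => ip s (meanCurv s X x) (meanCurv s X x) with hWdef
  have hW : ContDiffOn ℝ ∞ W U := contDiffOn_ip s hsm hsm
  intro i
  by_contra hcon
  push Not at hcon
  obtain ⟨x0, hx0, hne0⟩ := hcon
  have hpd : ContDiffOn ℝ ∞ (pd i W) U := contDiffOn_pd hU hW i
  set Om : Set E2 := U ∩ pd i W ⁻¹' {0}ᶜ with hOmdef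
  have hO : IsOpen Om := hpd.continuousOn.isOpen_inter_preimage hU isOpen_compl_singleton
  have hOU : Om ⊆ U := Set.inter_subset_left
  have hne : Om.Nonempty := ⟨x0, hx0, hne0⟩
  obtain ⟨K, hF, hK, ⟨B⟩⟩ := exists_cbr Om hO hne
  have hX' : IsSurface s X Om := ⟨hX.1.mono hOU, fun x hx => hX.2 x (hOU hx)⟩
  obtain ⟨I, hD, hIX⟩ := tiso_im0 B hO hne hX' hc0 fun x hx => hH x (hOU hx)
  have h1 : B.φ (pd i W) ≠ 0 := B.ne _ (hpd.mono hOU) fun x hx => hx.2
  apply h1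
  rw [B.der i W (hW.mono hOU)]
  have h2 : B.φ W = B.Φ s (meanCurv s X) ⬝ᵥ B.Φ s (meanCurv s X) :=
    B.φ_ip s (hsm.mono hOU) (hsm.mono hOU)
  have h3 := Φ_meanCurv B hO hX'
  obtain ⟨N, a, b, q1, q2, hδ, hv1, hv2, hm, -⟩ := exists_nfr I
  have hgI := I.gdet_ne
  rw [hD, hIX] at hgI
  rw [hD] at q1 q2
  rw [hIX] at hv1 hv2
  rw [hD, hIX] at hm
  have hbe := tiso_be hgI N q1 q2 hδ hv1 hv2
  have hδ' : b 0 * a 1 - b 1 * a 0 ≠ 0 := by
    intro h0
    apply hδ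
    linear_combination -h0
  have hal := tiso_be hgI N.swap (a := b) (b := a) q2 q1 hδ' hv2 hv1
  change N.al = _ at hal
  -- the functions
  have hpd1 : ∀ j : Fin 2, ContDiffOn ℝ ∞ (pd j X) Om := fun j => contDiffOn_pd hO hX'.1 j
  have hpd2 : ∀ k j : Fin 2, ContDiffOn ℝ ∞ (pd k (pd j X)) Om := fun k j =>
    contDiffOn_pd hO (hpd1 j) k
  have hh : ∀ k j : Fin 2, ContDiffOn ℝ ∞ (fun x => normalPart s X x (pd k (pd j X) x)) Om :=
    fun k j => contDiffOn_normalPart hO hX' (hpd2 k j)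
  have hΦ : ∀ k j : Fin 2, B.Φ s (fun x => normalPart s X x (pd k (pd j X) x))
      = norK B.D (B.Φ s X) (dv (B.D.d k) (dv (B.D.d j) (B.Φ s X))) := by
    intro k j
    rw [Φ_normalPart B hO hX' (hpd2 k j), B.Φ_pd s hO (hpd1 j) k, B.Φ_pd s hO hX'.1 j]
  rw [← hΦ 0 0, ← hΦ 0 1, ← hΦ 1 0, ← hΦ 1 1] at hbe hal
  set H00 : E2 → E4 := fun x => normalPart s X x (pd 0 (pd 0 X) x) with hH00
  set H01 : E2 → E4 := fun x => normalPart s X x (pd 0 (pd 1 X) x) with hH01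
  set H10 : E2 → E4 := fun x => normalPart s X x (pd 1 (pd 0 X) x) with hH10
  set H11 : E2 → E4 := fun x => normalPart s X x (pd 1 (pd 1 X) x) with hH11
  have s00 : ContDiffOn ℝ ∞ H00 Om := hh 0 0
  have s01 : ContDiffOn ℝ ∞ H01 Om := hh 0 1
  have s10 : ContDiffOn ℝ ∞ H10 Om := hh 1 0
  have s11 : ContDiffOn ℝ ∞ H11 Om := hh 1 1
  have sS : ContDiffOn ℝ ∞ (fun x => H01 x + H10 x) Om := s01.add s10
  have hS : B.Φ s (fun x => H01 x + H10 x) = B.Φ s H01 + B.Φ s H10 := B.Φ_add s s01 s10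
  rw [← hS] at hbe hal
  have hg' : ∀ k j : Fin 2, ContDiffOn ℝ ∞ (fun x => metric s X x k j) Om := fun k j =>
    contDiffOn_metric hO hX' k j
  have hgs : ContDiffOn ℝ ∞ (fun x => metric s X x 0 1 + metric s X x 1 0) Om :=
    (hg' 0 1).add (hg' 1 0)
  have hgsφ : B.φ (fun x => metric s X x 0 1 + metric s X x 1 0)
      = gm B.D (B.Φ s X) 0 1 + gm B.D (B.Φ s X) 1 0 := by
    rw [B.add _ _ (hg' 0 1) (hg' 1 0), φ_metric B hO hX', φ_metric B hO hX']
  have two : ∀ f : E2 → ℝ, ContDiffOn ℝ ∞ f Om → B.φ (fun x => 2 * f x) = 2 * B.φ f := by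
    intro f hf
    rw [B.mul _ _ (contDiffOn_const (c := (2 : ℝ))) hf, B.two]
  have two' : ∀ f : E2 → ℝ, ContDiffOn ℝ ∞ f Om → ContDiffOn ℝ ∞ (fun x => 2 * f x) Om :=
    fun f hf => (contDiffOn_const (c := (2 : ℝ))).mul hf
  have i00 := contDiffOn_ip s s00 s00
  have i0S := contDiffOn_ip s s00 sS
  have iSS := contDiffOn_ip s sS sS
  have i01 := contDiffOn_ip s s00 s11
  have iS1 := contDiffOn_ip s sS s11
  have i11 := contDiffOn_ip s s11 s11
  -- the resultant vanishes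
  let f : Fin 8 → E2 → ℝ := ![fun x => metric s X x 0 0,
    fun x => metric s X x 0 1 + metric s X x 1 0, fun x => metric s X x 1 1,
    fun x => ip s (H00 x) (H00 x), fun x => 2 * ip s (H00 x) (H01 x + H10 x),
    fun x => ip s (H01 x + H10 x) (H01 x + H10 x) + 2 * ip s (H00 x) (H11 x),
    fun x => 2 * ip s (H01 x + H10 x) (H11 x), fun x => ip s (H11 x) (H11 x)]
  have hf : ∀ j, ContDiffOn ℝ ∞ (f j) Om := by
    intro j
    fin_cases j
    · exact hg' 0 0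
    · exact hgs
    · exact hg' 1 1
    · exact i00
    · exact two' _ i0S
    · exact iSS.add (two' _ i01)
    · exact two' _ iS1
    · exact i11
  obtain ⟨t1, t2⟩ := tiso_poly B f hf (res (MvPolynomial.X 0) (MvPolynomial.X 1)
    (MvPolynomial.X 2) (MvPolynomial.X 3) (MvPolynomial.X 4) (MvPolynomial.X 5)
    (MvPolynomial.X 6) (MvPolynomial.X 7))
  have t3 : B.φ (fun x => MvPolynomial.aeval (fun j => f j x) (res (MvPolynomial.X 0)
      (MvPolynomial.X 1) (MvPolynomial.X 2) (MvPolynomial.X 3) (MvPolynomial.X 4)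
      (MvPolynomial.X 5) (MvPolynomial.X 6) (MvPolynomial.X 7) : MvPolynomial (Fin 8) ℤ)) = 0 := by
    have e0 : B.φ (fun _ => (0 : ℝ)) = 0 := by
      have := tiso_int B 0
      rw [Int.cast_zero, Int.cast_zero] at this
      exact this
    rw [← e0]
    refine B.congr _ _ t1 contDiffOn_const fun x hx => ?_
    have e := tiso_map (MvPolynomial.aeval (fun j => f j x) :
      MvPolynomial (Fin 8) ℤ →ₐ[ℤ] ℝ).toRingHom (MvPolynomial.X 0) (MvPolynomial.X 1)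
      (MvPolynomial.X 2) (MvPolynomial.X 3) (MvPolynomial.X 4) (MvPolynomial.X 5)
      (MvPolynomial.X 6) (MvPolynomial.X 7)
    simp only [AlgHom.toRingHom_eq_coe, RingHom.coe_coe, MvPolynomial.aeval_X] at e
    rw [e]
    exact tiso_pt (hs x (hOU hx))
  have t4 := tiso_map (MvPolynomial.aeval (fun j => B.φ (f j)) :
    MvPolynomial (Fin 8) ℤ →ₐ[ℤ] K).toRingHom (MvPolynomial.X 0) (MvPolynomial.X 1)
    (MvPolynomial.X 2) (MvPolynomial.X 3) (MvPolynomial.X 4) (MvPolynomial.X 5)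
    (MvPolynomial.X 6) (MvPolynomial.X 7)
  simp only [AlgHom.toRingHom_eq_coe, RingHom.coe_coe, MvPolynomial.aeval_X] at t4
  rw [← t2, t3] at t4
  have f0 : B.φ (f 0) = gm B.D (B.Φ s X) 0 0 := φ_metric B hO hX' 0 0
  have f1 : B.φ (f 1) = gm B.D (B.Φ s X) 0 1 + gm B.D (B.Φ s X) 1 0 := hgsφ
  have f2 : B.φ (f 2) = gm B.D (B.Φ s X) 1 1 := φ_metric B hO hX' 1 1
  have f3 : B.φ (f 3) = B.Φ s H00 ⬝ᵥ B.Φ s H00 := B.φ_ip s s00 s00
  have f4 : B.φ (f 4) = 2 * (B.Φ s H00 ⬝ᵥ B.Φ s (fun x => H01 x + H10 x)) := by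
    rw [← B.φ_ip s s00 sS, ← two _ i0S]
    rfl
  have f5 : B.φ (f 5) = B.Φ s (fun x => H01 x + H10 x) ⬝ᵥ B.Φ s (fun x => H01 x + H10 x)
      + 2 * (B.Φ s H00 ⬝ᵥ B.Φ s H11) := by
    rw [← B.φ_ip s sS sS, ← B.φ_ip s s00 s11, ← two _ i01, ← B.add _ _ iSS (two' _ i01)]
    rfl
  have f6 : B.φ (f 6) = 2 * (B.Φ s (fun x => H01 x + H10 x) ⬝ᵥ B.Φ s H11) := by
    rw [← B.φ_ip s sS s11, ← two _ iS1]
    rfl
  have f7 : B.φ (f 7) = B.Φ s H11 ⬝ᵥ B.Φ s H11 := B.φ_ip s s11 s11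
  rw [f0, f1, f2, f3, f4, f5, f6, f7] at t4
  -- the metric in the null frame
  have hgsym : gm B.D (B.Φ s X) 1 0 = gm B.D (B.Φ s X) 0 1 := dotProduct_comm _ _
  have w1 : N.v1 = a 0 • dv (B.D.d 0) (B.Φ s X) + a 1 • dv (B.D.d 1) (B.Φ s X) := by
    rw [hv1]
    funext k
    exact q1 (B.Φ s X k)
  have w2 : N.v2 = b 0 • dv (B.D.d 0) (B.Φ s X) + b 1 • dv (B.D.d 1) (B.Φ s X) := by
    rw [hv2]
    funext k
    exact q2 (B.Φ s X k)
  have o11 := N.o11
  have o12 := N.o12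
  have o22 := N.o22
  rw [w1] at o11 o12
  rw [w2] at o12 o22
  simp only [add_dotProduct, dotProduct_add, smul_dotProduct, dotProduct_smul, smul_eq_mul]
    at o11 o12 o22
  have g10 : dv (B.D.d 1) (B.Φ s X) ⬝ᵥ dv (B.D.d 0) (B.Φ s X) = gm B.D (B.Φ s X) 0 1 :=
    dotProduct_comm _ _
  have g00 : dv (B.D.d 0) (B.Φ s X) ⬝ᵥ dv (B.D.d 0) (B.Φ s X) = gm B.D (B.Φ s X) 0 0 := rfl
  have g01 : dv (B.D.d 0) (B.Φ s X) ⬝ᵥ dv (B.D.d 1) (B.Φ s X) = gm B.D (B.Φ s X) 0 1 := rfl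
  have g11 : dv (B.D.d 1) (B.Φ s X) ⬝ᵥ dv (B.D.d 1) (B.Φ s X) = gm B.D (B.Φ s X) 1 1 := rfl
  rw [g10, g00, g01, g11] at o11 o12 o22
  rw [hgsym] at t4
  set δ := a 0 * b 1 - a 1 * b 0 with hδdef
  have hδ2 : δ ^ 2 ≠ 0 := pow_ne_zero 2 hδ
  have d00 : δ ^ 2 * gm B.D (B.Φ s X) 0 0 = -4 * a 1 * b 1 := by
    rw [hδdef]
    linear_combination (b 1) ^ 2 * o11 + (a 1) ^ 2 * o22 - 2 * a 1 * b 1 * o12
  have d01 : δ ^ 2 * (gm B.D (B.Φ s X) 0 1 + gm B.D (B.Φ s X) 0 1)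
      = 4 * (a 1 * b 0 + a 0 * b 1) := by
    rw [hδdef]
    linear_combination -(2 * b 0 * b 1) * o11 - (2 * a 0 * a 1) * o22
      + 2 * (a 1 * b 0 + a 0 * b 1) * o12
  have d11 : δ ^ 2 * gm B.D (B.Φ s X) 1 1 = -4 * a 0 * b 0 := by
    rw [hδdef]
    linear_combination (b 0) ^ 2 * o11 + (a 0) ^ 2 * o22 - 2 * a 0 * b 0 * o12
  have e00 : gm B.D (B.Φ s X) 0 0 = (-4 / δ ^ 2) * a 1 * b 1 := by
    field_simp
    linear_combination d00
  have e01 : gm B.D (B.Φ s X) 0 1 + gm B.D (B.Φ s X) 0 1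
      = -((-4 / δ ^ 2) * (a 1 * b 0 + a 0 * b 1)) := by
    field_simp
    linear_combination d01
  have e11 : gm B.D (B.Φ s X) 1 1 = (-4 / δ ^ 2) * a 0 * b 0 := by
    field_simp
    linear_combination d11
  rw [e00, e01, e11, res_eq] at t4
  have hbb : N.be ⬝ᵥ N.be = (B.Φ s H00 ⬝ᵥ B.Φ s H00) * b 0 ^ 4
      + 2 * (B.Φ s H00 ⬝ᵥ B.Φ s (fun x => H01 x + H10 x)) * b 0 ^ 3 * b 1
      + (B.Φ s (fun x => H01 x + H10 x) ⬝ᵥ B.Φ s (fun x => H01 x + H10 x)
        + 2 * (B.Φ s H00 ⬝ᵥ B.Φ s H11)) * b 0 ^ 2 * b 1 ^ 2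
      + 2 * (B.Φ s (fun x => H01 x + H10 x) ⬝ᵥ B.Φ s H11) * b 0 * b 1 ^ 3
      + (B.Φ s H11 ⬝ᵥ B.Φ s H11) * b 1 ^ 4 := by
    rw [hbe]
    generalize B.Φ s H00 = A0
    generalize B.Φ s H11 = A1
    generalize B.Φ s (fun x => H01 x + H10 x) = AS
    simp only [add_dotProduct, dotProduct_add, smul_dotProduct, dotProduct_smul, smul_eq_mul]
    rw [dotProduct_comm AS A0, dotProduct_comm A1 A0, dotProduct_comm A1 AS]
    ring
  have haa : N.al ⬝ᵥ N.al = (B.Φ s H00 ⬝ᵥ B.Φ s H00) * a 0 ^ 4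
      + 2 * (B.Φ s H00 ⬝ᵥ B.Φ s (fun x => H01 x + H10 x)) * a 0 ^ 3 * a 1
      + (B.Φ s (fun x => H01 x + H10 x) ⬝ᵥ B.Φ s (fun x => H01 x + H10 x)
        + 2 * (B.Φ s H00 ⬝ᵥ B.Φ s H11)) * a 0 ^ 2 * a 1 ^ 2
      + 2 * (B.Φ s (fun x => H01 x + H10 x) ⬝ᵥ B.Φ s H11) * a 0 * a 1 ^ 3
      + (B.Φ s H11 ⬝ᵥ B.Φ s H11) * a 1 ^ 4 := by
    rw [hal]
    generalize B.Φ s H00 = A0
    generalize B.Φ s H11 = A1
    generalize B.Φ s (fun x => H01 x + H10 x) = AS
    simp only [add_dotProduct, dotProduct_add, smul_dotProduct, dotProduct_smul, smul_eq_mul]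
    rw [dotProduct_comm AS A0, dotProduct_comm A1 A0, dotProduct_comm A1 AS]
    ring
  rw [← hbb, ← haa] at t4
  have hl : (-4 / δ ^ 2 : K) ^ 4 ≠ 0 :=
    pow_ne_zero 4 (div_ne_zero (neg_ne_zero.2 (by norm_num)) hδ2)
  have hr : N.f1 (N.m ⬝ᵥ N.m) = 0 ∧ N.f2 (N.m ⬝ᵥ N.m) = 0 := by
    rcases mul_eq_zero.1 t4.symm with t5 | t5
    · rcases mul_eq_zero.1 t5 with t6 | t6
      · exact absurd t6 hl
      · have := N.swap.circ t6
        exact ⟨this.2, this.1⟩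
    · exact N.circ t5
  obtain ⟨r1, r2⟩ := hr
  rw [q1] at r1
  rw [q2] at r2
  have hmm : N.m ⬝ᵥ N.m = (2 * 2) * B.φ W := by
    rw [hm, ← h3, smul_dotProduct, dotProduct_smul, smul_eq_mul, smul_eq_mul, ← h2]
    ring
  have hd : ∀ j : Fin 2, B.D.d j (N.m ⬝ᵥ N.m) = 0 := by
    intro j
    have t0 : (a 0 * b 1 - a 1 * b 0) * B.D.d 0 (N.m ⬝ᵥ N.m) = 0 := by
      linear_combination b 1 * r1 - a 1 * r2
    have t1 : (a 0 * b 1 - a 1 * b 0) * B.D.d 1 (N.m ⬝ᵥ N.m) = 0 := by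
      linear_combination a 0 * r2 - b 0 * r1
    fin_cases j
    · exact (mul_eq_zero.mp t0).resolve_left hδ
    · exact (mul_eq_zero.mp t1).resolve_left hδ
  have h4 := hd i
  rw [hmm] at h4
  have h5 : ((2 : K) * 2) = ((4 : ℕ) : K) := by norm_num
  rw [h5, ← nsmul_eq_mul, map_nsmul, nsmul_eq_mul] at h4
  rcases mul_eq_zero.1 h4 with h6 | h6
  · exact absurd h6 (by norm_num)
  · exact h6

end Pool.H60.NC
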