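import Mathlib

/-!
# Antiderivative of a smooth function on an open interval

If `S` is empty take `g = 0`.  Otherwise `g t = ∫ f` from a point of `S` to `t`; the segment lies in
`S` since `S` is an interval (`IsPreconnected.ordConnected`).  `g` is smooth on `S` since its
derivative is (`contDiffOn_infty_iff_deriv_of_isOpen`).
-/

namespace Pool.H60.NC

open scoped ContDiff

/-- antiderivative on an open interval -/
theorem exists_antideriv {S : Set ℝ} (hS : IsOpen S) (cS : IsPreconnected S) {f : ℝ → ℝ}
    (hf : ContDiffOn ℝ ∞ f S) :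
    ∃ g : ℝ → ℝ, ContDiffOn ℝ ∞ g S ∧ ∀ t ∈ S, HasDerivAt g (f t) t := by
  rcases S.eq_empty_or_nonempty with rfl | ⟨a, ha⟩
  · exact ⟨fun _ => 0, contDiffOn_const, fun t ht => absurd ht (Set.notMem_empty t)⟩
  have hoc : S.OrdConnected := cS.ordConnected
  have hcont : ContinuousOn f S := hf.continuousOn
  have hder : ∀ t ∈ S, HasDerivAt (fun u => ∫ z in a..u, f z) (f t) t := by
    intro t ht
    have hsub : Set.uIcc a t ⊆ S := hoc.uIcc_subset ha ht
    refine intervalIntegral.integral_hasDerivAt_right ?_ ?_ ?_
    · exact (hcont.mono hsub).intervalIntegrable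
    · exact hcont.stronglyMeasurableAtFilter hS t ht
    · exact hcont.continuousAt (hS.mem_nhds ht)
  refine ⟨_, ?_, hder⟩
  rw [contDiffOn_infty_iff_deriv_of_isOpen hS]
  exact ⟨fun t ht => (hder t ht).differentiableAt.differentiableWithinAt,
    hf.congr fun t ht => (hder t ht).deriv⟩

end Pool.H60.NC
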