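import Pool.Agent.H60.NC.Defs
import Pool.Agent.H99.N2.ATr

/-!
# Charts of the plane: definition
-/

namespace Pool.H60.NC

open scoped ContDiff
open Pool.Agent.H99.N2 (E2 E4 pd contDiffOn_pd contDiffOn_comp pd_comp)
open Pool.H60.PE

/-- `ψ : W → V` is a diffeomorphism between open sets with inverse `φ`; `V` is an open box. -/
structure Chart (W : Set E2) (S : Fin 2 → Set ℝ) (ψ φ : E2 → E2) : Prop where
  hW : IsOpen W
  hS : ∀ k, IsOpen (S k)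
  cS : ∀ k, IsPreconnected (S k)
  sψ : ContDiffOn ℝ ∞ ψ W
  sφ : ContDiffOn ℝ ∞ φ {y | ∀ k, y k ∈ S k}
  mψ : ∀ x ∈ W, ∀ k, ψ x k ∈ S k
  mφ : ∀ y : E2, (∀ k, y k ∈ S k) → φ y ∈ W
  li : ∀ x ∈ W, φ (ψ x) = x
  ri : ∀ y : E2, (∀ k, y k ∈ S k) → ψ (φ y) = y

theorem isOpen_box {S : Fin 2 → Set ℝ} (hS : ∀ k, IsOpen (S k)) :
    IsOpen {y : E2 | ∀ k, y k ∈ S k} := by
  have h : {y : E2 | ∀ k, y k ∈ S k} = ⋂ k : Fin 2, (fun y : E2 => y k) ⁻¹' S k := by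
    ext y
    simp
  rw [h]
  exact isOpen_iInter_of_finite fun k => (hS k).preimage (EuclideanSpace.proj k).continuous

end Pool.H60.NC
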