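import Pool.Agent.H60.NC.ChDef

/-!
# Existence of charts

The inverse function theorem (`ContDiffAt.toOpenPartialHomeomorph` or
`HasStrictFDerivAt.toOpenPartialHomeomorph`, `OpenPartialHomeomorph.contDiffAt_symm`): the derivative of
`ψ` at `x` is invertible by `hJ`.  Shrink: take an open box `{y | ∀ k, y k ∈ S k}` (open intervals
around the coordinates of `ψ x`) inside the target such that its preimage lies in `U` and such that
the inverse is smooth on it (for instance: first shrink to the open set where the Jacobian of `ψ` is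
not `0`; then `contDiffAt_symm` applies at each point of the target), and
`W` = the part of the source which `ψ` maps into the box.
-/

namespace Pool.H60.NC

open scoped ContDiff
open Pool.Agent.H99.N2 (E2 E4 pd contDiffOn_pd contDiffOn_comp pd_comp)
open Pool.H60.PE

private lemma chEx_dec (v : E2) :
    v = v 0 • EuclideanSpace.single 0 (1 : ℝ) + v 1 • EuclideanSpace.single 1 (1 : ℝ) := by
  ext k
  fin_cases k <;> simp

private lemma chEx_equiv {ψ : E2 → E2} {z : E2}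
    (hJ : pd 0 ψ z 0 * pd 1 ψ z 1 - pd 0 ψ z 1 * pd 1 ψ z 0 ≠ 0) :
    ∃ e : E2 ≃L[ℝ] E2, (e : E2 →L[ℝ] E2) = fderiv ℝ ψ z := by
  have hinj : Function.Injective (fderiv ℝ ψ z : E2 →ₗ[ℝ] E2) := by
    rw [← LinearMap.ker_eq_bot, LinearMap.ker_eq_bot']
    intro v hv
    have h1 : v 0 • pd 0 ψ z + v 1 • pd 1 ψ z = 0 := by
      have h2 : fderiv ℝ ψ z v = v 0 • pd 0 ψ z + v 1 • pd 1 ψ z := by
        conv_lhs => rw [chEx_dec v]
        rw [map_add, map_smul, map_smul]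
        rfl
      rw [← h2]
      exact hv
    have e0 : v 0 * pd 0 ψ z 0 + v 1 * pd 1 ψ z 0 = 0 := by
      have := congrArg (fun w : E2 => w 0) h1
      simpa using this
    have e1 : v 0 * pd 0 ψ z 1 + v 1 * pd 1 ψ z 1 = 0 := by
      have := congrArg (fun w : E2 => w 1) h1
      simpa using this
    have k0 : v 0 * (pd 0 ψ z 0 * pd 1 ψ z 1 - pd 0 ψ z 1 * pd 1 ψ z 0) = 0 := by
      linear_combination pd 1 ψ z 1 * e0 - pd 1 ψ z 0 * e1
    have k1 : v 1 * (pd 0 ψ z 0 * pd 1 ψ z 1 - pd 0 ψ z 1 * pd 1 ψ z 0) = 0 := by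
      linear_combination pd 0 ψ z 0 * e1 - pd 0 ψ z 1 * e0
    have z0 : v 0 = 0 := (mul_eq_zero.1 k0).resolve_right hJ
    have z1 : v 1 = 0 := (mul_eq_zero.1 k1).resolve_right hJ
    ext k
    fin_cases k
    · simpa using z0
    · simpa using z1
  refine ⟨(LinearEquiv.ofInjectiveEndo _ hinj).toContinuousLinearEquiv, ?_⟩
  ext v : 1
  rfl

private lemma chEx_box {T : Set E2} (hT : IsOpen T) {p : E2} (hp : p ∈ T) :
    ∃ δ > 0, {y : E2 | ∀ k, y k ∈ Set.Ioo (p k - δ) (p k + δ)} ⊆ T := by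
  obtain ⟨ε, hε, hb⟩ := Metric.isOpen_iff.1 hT p hp
  refine ⟨ε / 2, by positivity, fun y hy => hb ?_⟩
  rw [Metric.mem_ball, EuclideanSpace.dist_eq]
  have h0 : |y 0 - p 0| < ε / 2 := by
    have := hy 0
    rw [abs_lt]
    constructor <;> linarith [this.1, this.2]
  have h1 : |y 1 - p 1| < ε / 2 := by
    have := hy 1
    rw [abs_lt]
    constructor <;> linarith [this.1, this.2]
  rw [Fin.sum_univ_two, Real.dist_eq, Real.dist_eq]
  rw [Real.sqrt_lt' hε]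
  have q0 : |y 0 - p 0| ^ 2 < (ε / 2) ^ 2 := by
    have := abs_nonneg (y 0 - p 0)
    nlinarith
  have q1 : |y 1 - p 1| ^ 2 < (ε / 2) ^ 2 := by
    have := abs_nonneg (y 1 - p 1)
    nlinarith
  nlinarith [mul_pos hε hε]

theorem exists_chart {U : Set E2} (hU : IsOpen U) {ψ : E2 → E2} (hψ : ContDiffOn ℝ ∞ ψ U) {x : E2}
    (hx : x ∈ U) (hJ : pd 0 ψ x 0 * pd 1 ψ x 1 - pd 0 ψ x 1 * pd 1 ψ x 0 ≠ 0) :
    ∃ (W : Set E2) (S : Fin 2 → Set ℝ) (φ : E2 → E2), W ⊆ U ∧ x ∈ W ∧ Chart W S ψ φ := by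
  have hc : ∀ (i k : Fin 2), ContinuousOn (fun z => pd i ψ z k) U := fun i k =>
    (EuclideanSpace.proj k : E2 →L[ℝ] ℝ).continuous.comp_continuousOn
      (contDiffOn_pd hU hψ i).continuousOn
  have hJc : ContinuousOn (fun z => pd 0 ψ z 0 * pd 1 ψ z 1 - pd 0 ψ z 1 * pd 1 ψ z 0) U :=
    ((hc 0 0).mul (hc 1 1)).sub ((hc 0 1).mul (hc 1 0))
  set U' : Set E2 := U ∩ (fun z => pd 0 ψ z 0 * pd 1 ψ z 1 - pd 0 ψ z 1 * pd 1 ψ z 0) ⁻¹' {0}ᶜ
    with hU'def
  have hU' : IsOpen U' := hJc.isOpen_inter_preimage hU isOpen_compl_singleton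
  have hxU' : x ∈ U' := ⟨hx, hJ⟩
  have hcd : ∀ z ∈ U, ContDiffAt ℝ ∞ ψ z := fun z hz => hψ.contDiffAt (hU.mem_nhds hz)
  have hder : ∀ z ∈ U, HasFDerivAt ψ (fderiv ℝ ψ z) z := fun z hz =>
    ((hcd z hz).differentiableAt (by simp)).hasFDerivAt
  obtain ⟨e, he⟩ := chEx_equiv hJ
  have hs : HasStrictFDerivAt ψ (e : E2 →L[ℝ] E2) x := by
    rw [he]
    exact (hcd x hx).hasStrictFDerivAt (by simp)
  set Φ := hs.toOpenPartialHomeomorph ψ with hΦ
  have hΦc : ∀ z, Φ z = ψ z := fun z => rfl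
  have hxs : x ∈ Φ.source := hs.mem_toOpenPartialHomeomorph_source
  have hT : IsOpen (Φ.symm.source ∩ Φ.symm ⁻¹' U') := Φ.symm.isOpen_inter_preimage hU'
  have hpT : ψ x ∈ Φ.symm.source ∩ Φ.symm ⁻¹' U' := by
    refine ⟨Φ.map_source hxs, ?_⟩
    have h1 : Φ.symm (Φ x) = x := Φ.left_inv hxs
    change Φ.symm (Φ x) ∈ U'
    rw [h1]
    exact hxU'
  obtain ⟨δ, hδ, hbox⟩ := chEx_box hT hpT
  have hSo : ∀ k : Fin 2, IsOpen (Set.Ioo (ψ x k - δ) (ψ x k + δ)) := fun k => isOpen_Ioo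
  have hBo : IsOpen {y : E2 | ∀ k, y k ∈ Set.Ioo (ψ x k - δ) (ψ x k + δ)} := isOpen_box hSo
  have hW' : ∀ z ∈ Φ.source ∩ Φ ⁻¹' {y : E2 | ∀ k, y k ∈ Set.Ioo (ψ x k - δ) (ψ x k + δ)},
      z ∈ U' := by
    intro z hz
    have h1 := (hbox hz.2).2
    have h2 : Φ.symm (Φ z) = z := Φ.left_inv hz.1
    rw [Set.mem_preimage, h2] at h1
    exact h1
  refine ⟨Φ.source ∩ Φ ⁻¹' {y : E2 | ∀ k, y k ∈ Set.Ioo (ψ x k - δ) (ψ x k + δ)},
    fun k => Set.Ioo (ψ x k - δ) (ψ x k + δ), Φ.symm, fun z hz => (hW' z hz).1, ⟨hxs, ?_⟩, ?_⟩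
  · intro k
    rw [hΦc]
    constructor <;> linarith
  · refine ⟨Φ.isOpen_inter_preimage hBo, hSo, fun k => isPreconnected_Ioo,
      hψ.mono fun z hz => (hW' z hz).1, ?_, fun z hz k => hz.2 k, ?_, ?_, ?_⟩
    · intro y hy
      have hy1 := hbox hy
      have hy2 : Φ.symm y ∈ U' := hy1.2
      obtain ⟨e', he'⟩ := chEx_equiv hy2.2
      refine (Φ.contDiffAt_symm (f₀' := e') hy1.1 ?_ ?_).contDiffWithinAt
      · rw [he']
        exact hder _ hy2.1
      · exact hcd _ hy2.1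
    · intro y hy
      have hy1 := hbox hy
      refine ⟨Φ.symm.map_source hy1.1, ?_⟩
      have h1 : Φ (Φ.symm y) = y := Φ.right_inv hy1.1
      rw [Set.mem_preimage, h1]
      exact hy
    · intro z hz
      exact Φ.left_inv hz.1
    · intro y hy
      exact Φ.right_inv (hbox hy).1

end Pool.H60.NC
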