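import Pool.Agent.H60.NC.ChDef

/-!
# Functions of one coordinate of a chart

`h ∘ φ` has partial derivative `0` in the direction `i ≠ k`:
`∂_i (h ∘ φ)(y) = Dh(φ y)(∂_i φ y) = Σ_j (∂_i φ_j) ∂_j h = (Σ_j (∂_i φ_j) ∂_j ψ_k) • ξ
= (∂_i (ψ_k ∘ φ)) • ξ = (∂_i y_k) • ξ = 0`.  Fix a point `y0` of the box and let `g t` be the value of
`h ∘ φ` at the point whose `k`-th coordinate is `t` and whose other coordinate is that of `y0` (if `W`
is empty take `g = 0`).  `h ∘ φ` is constant on the segments of the box in the other direction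
(`cS`: intervals), so `h x = g (ψ x k)`.  `g` is smooth on `S k`, and
`pd i h x = pd i (ψ_k) x • g'(ψ x k)` is the chain rule.
-/

namespace Pool.H60.NC

open scoped ContDiff
open Pool.Agent.H99.N2 (E2 E4 pd contDiffOn_pd contDiffOn_comp pd_comp)
open Pool.H60.PE

private theorem chOne_pd_sum {F : Type} [NormedAddCommGroup F] [NormedSpace ℝ F]
    (L : E2 →L[ℝ] F) (w : E2) : L w = ∑ j, w j • L (EuclideanSpace.single j 1) := by
  conv_lhs => rw [← (EuclideanSpace.basisFun (Fin 2) ℝ).sum_repr w]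
  simp

theorem Chart.one_var {W : Set E2} {S : Fin 2 → Set ℝ} {ψ φ : E2 → E2} (C : Chart W S ψ φ)
    (k : Fin 2) {F : Type} [NormedAddCommGroup F] [NormedSpace ℝ F] {h : E2 → F}
    (hh : ContDiffOn ℝ ∞ h W) (hd : ∀ x ∈ W, ∃ ξ : F, ∀ i, pd i h x = pd i ψ x k • ξ) :
    ∃ g : ℝ → F, ContDiffOn ℝ ∞ g (S k) ∧ (∀ x ∈ W, h x = g (ψ x k)) ∧
      ∀ x ∈ W, ∀ i, pd i h x = pd i ψ x k • deriv g (ψ x k) := by
  classical
  rcases Set.eq_empty_or_nonempty W with hWe | ⟨x0, hx0⟩
  · refine ⟨fun _ => 0, contDiffOn_const, ?_, ?_⟩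
    · intro x hx
      rw [hWe] at hx
      exact absurd hx (Set.notMem_empty x)
    · intro x hx
      rw [hWe] at hx
      exact absurd hx (Set.notMem_empty x)
  set V : Set E2 := {y | ∀ k, y k ∈ S k} with hV
  have hVo : IsOpen V := isOpen_box C.hS
  set y0 : E2 := ψ x0 with hy0
  have hy0V : y0 ∈ V := C.mψ x0 hx0
  obtain ⟨j, hjk⟩ : ∃ j : Fin 2, j ≠ k := by
    fin_cases k
    · exact ⟨1, by simp⟩
    · exact ⟨0, by simp⟩
  have hcase : ∀ i : Fin 2, i = k ∨ i = j := by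
    intro i
    omega
  -- the point with coordinates t (direction k) and τ (direction j)
  let pt : ℝ → ℝ → E2 := fun t τ => EuclideanSpace.single k t + EuclideanSpace.single j τ
  have ptk : ∀ t τ, pt t τ k = t := by
    intro t τ
    simp [pt, hjk.symm]
  have ptj : ∀ t τ, pt t τ j = τ := by
    intro t τ
    simp [pt, hjk]
  have pteq : ∀ y : E2, pt (y k) (y j) = y := by
    intro y
    ext i
    rcases hcase i with rfl | rfl
    · exact ptk _ _
    · exact ptj _ _
  have ptV : ∀ t ∈ S k, ∀ τ ∈ S j, pt t τ ∈ V := by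
    intro t ht τ hτ i
    rcases hcase i with rfl | rfl
    · rw [ptk]; exact ht
    · rw [ptj]; exact hτ
  have ptsm1 : ∀ τ, ContDiff ℝ ∞ fun t => pt t τ := by
    intro τ
    have : (fun t => pt t τ) = fun t : ℝ => t • (EuclideanSpace.single k (1 : ℝ) : E2)
        + EuclideanSpace.single j τ := by
      funext t
      ext i
      simp [pt]
    rw [this]
    fun_prop
  have ptder : ∀ t τ, HasDerivAt (fun τ => pt t τ) (EuclideanSpace.single j (1 : ℝ) : E2) τ := by
    intro t τ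
    have : (fun τ => pt t τ) = fun τ : ℝ => EuclideanSpace.single k t
        + τ • (EuclideanSpace.single j (1 : ℝ) : E2) := by
      funext t
      ext i
      simp [pt]
    rw [this]
    simpa using ((hasDerivAt_id τ).smul_const (EuclideanSpace.single j (1 : ℝ) : E2)).const_add
      (EuclideanSpace.single k t : E2)
  set H : E2 → F := fun y => h (φ y) with hH
  have hHs : ContDiffOn ℝ ∞ H V := hh.comp C.sφ fun y hy => C.mφ y hy
  have hHd : ∀ y ∈ V, DifferentiableAt ℝ H y := fun y hy =>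
    (hHs.contDiffAt (hVo.mem_nhds hy)).differentiableAt (by simp)
  have D1 : ∀ y ∈ V, fderiv ℝ H y (EuclideanSpace.single j 1) = 0 := by
    intro y hy
    have hxW : φ y ∈ W := C.mφ y hy
    have dφ : DifferentiableAt ℝ φ y :=
      (C.sφ.contDiffAt (hVo.mem_nhds hy)).differentiableAt (by simp)
    have dh : DifferentiableAt ℝ h (φ y) :=
      (hh.contDiffAt (C.hW.mem_nhds hxW)).differentiableAt (by simp)
    have dψ : DifferentiableAt ℝ ψ (φ y) :=
      (C.sψ.contDiffAt (C.hW.mem_nhds hxW)).differentiableAt (by simp)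
    have e1 : fderiv ℝ H y = (fderiv ℝ h (φ y)).comp (fderiv ℝ φ y) :=
      fderiv_comp y dh dφ
    have e2 : fderiv ℝ (fun z => ψ (φ z)) y = (fderiv ℝ ψ (φ y)).comp (fderiv ℝ φ y) :=
      fderiv_comp y dψ dφ
    have e3 : fderiv ℝ (fun z => ψ (φ z)) y = ContinuousLinearMap.id ℝ E2 := by
      have : (fun z => ψ (φ z)) =ᶠ[nhds y] id := by
        filter_upwards [hVo.mem_nhds hy] with z hz using C.ri z hz
      rw [this.fderiv_eq, fderiv_id]
    set w : E2 := fderiv ℝ φ y (EuclideanSpace.single j 1) with hw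
    have e4 : fderiv ℝ ψ (φ y) w = EuclideanSpace.single j 1 := by
      have := congrArg (fun L => L (EuclideanSpace.single j (1 : ℝ))) (e2.symm.trans e3)
      exact this
    obtain ⟨ξ, hξ⟩ := hd _ hxW
    rw [e1]
    change fderiv ℝ h (φ y) w = 0
    rw [chOne_pd_sum (fderiv ℝ h (φ y)) w]
    have e5 : ∀ i, fderiv ℝ h (φ y) (EuclideanSpace.single i 1) = pd i ψ (φ y) k • ξ := hξ
    simp only [e5, smul_smul, ← Finset.sum_smul]
    have e6 : ∑ i, w i * pd i ψ (φ y) k = (fderiv ℝ ψ (φ y) w) k := by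
      rw [chOne_pd_sum (fderiv ℝ ψ (φ y)) w]
      simp [pd]
    rw [e6, e4]
    simp [hjk.symm]
  have D2 : ∀ t ∈ S k, ∀ τ ∈ S j, ∀ τ' ∈ S j, H (pt t τ) = H (pt t τ') := by
    intro t ht τ hτ τ' hτ'
    refine (C.hS j).is_const_of_deriv_eq_zero (f := fun τ => H (pt t τ)) (C.cS j) ?_ ?_ hτ hτ'
    · intro a ha
      exact ((hHd _ (ptV t ht a ha)).comp a (ptder t a).differentiableAt).differentiableWithinAt
    · intro a ha
      have h1 : HasFDerivAt H (fderiv ℝ H (pt t a)) (pt t a) := (hHd _ (ptV t ht a ha)).hasFDerivAt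
      have h2 := h1.comp_hasDerivAt a (ptder t a)
      have h3 : deriv (fun τ => H (pt t τ)) a = _ := h2.deriv
      rw [h3]
      exact D1 _ (ptV t ht a ha)
  set g : ℝ → F := fun t => H (pt t (y0 j)) with hg
  have hgs : ContDiffOn ℝ ∞ g (S k) :=
    hHs.comp (ptsm1 _).contDiffOn fun t ht => ptV t ht _ (hy0V j)
  have hEq : ∀ x ∈ W, h x = g (ψ x k) := by
    intro x hx
    have h1 : H (ψ x) = h x := by rw [hH]; simp only [C.li x hx]
    rw [← h1]
    conv_lhs => rw [← pteq (ψ x)]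
    exact D2 _ (C.mψ x hx k) _ (C.mψ x hx j) _ (hy0V j)
  refine ⟨g, hgs, hEq, ?_⟩
  intro x hx i
  have dg : DifferentiableAt ℝ g (ψ x k) :=
    (hgs.contDiffAt ((C.hS k).mem_nhds (C.mψ x hx k))).differentiableAt (by simp)
  have dψ : DifferentiableAt ℝ ψ x :=
    (C.sψ.contDiffAt (C.hW.mem_nhds hx)).differentiableAt (by simp)
  have h1 : HasFDerivAt (fun z => ψ z k)
      ((EuclideanSpace.proj k : E2 →L[ℝ] ℝ).comp (fderiv ℝ ψ x)) x :=
    ((EuclideanSpace.proj k : E2 →L[ℝ] ℝ).hasFDerivAt).comp x dψ.hasFDerivAt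
  have h2 : HasFDerivAt g (fderiv ℝ g (ψ x k)) ((fun z => ψ z k) x) := dg.hasFDerivAt
  have h3 := h2.comp x h1
  have h4 : h =ᶠ[nhds x] g ∘ fun z => ψ z k := by
    filter_upwards [C.hW.mem_nhds hx] with z hz using hEq z hz
  change fderiv ℝ h x (EuclideanSpace.single i 1) = _
  rw [h4.fderiv_eq, h3.fderiv]
  change fderiv ℝ g (ψ x k) (pd i ψ x k) = _
  rw [← fderiv_apply_one_eq_deriv, ← map_smul, smul_eq_mul, mul_one]

end Pool.H60.NC
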