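import Pool.Agent.H60.PE.Defs

/-!
# Surfaces whose curvature ellipse is a circle
-/

namespace Pool.H60.NC

open scoped ContDiff
open Pool.Agent.H99.N2 (E2 E4 pd)
open Pool.H60.PE

/-- The second fundamental form `h(a,b)` of the tangent vector with coordinates `a = b = r`:
`h(r,r) = Σ_ij r_i r_j h_ij`. -/
noncomputable def sff (s : ℕ) (X : E2 → E4) (x : E2) (r : Fin 2 → ℝ) : E4 :=
  ∑ i, ∑ j, (r i * r j) • normalPart s X x (pd i (pd j X) x)

/-- The first fundamental form `g(r,r)`. -/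
noncomputable def fff (s : ℕ) (X : E2 → E4) (x : E2) (r : Fin 2 → ℝ) : ℝ :=
  ∑ i, ∑ j, metric s X x i j * (r i * r j)

/-- The quartic form `⟨h(r,r), h(r,r)⟩` is divisible by `g(r,r)`: there is a smooth quadratic form
`Σ_ij L_ij r_i r_j` with `⟨h(r,r),h(r,r)⟩ = g(r,r) Σ_ij L_ij r_i r_j` at each point.  If the induced
metric is definite this says that the ellipse of curvature is a circle (or a point): with an
orthonormal basis `e_1`, `e_2` the condition is `⟨h(z,z),h(z,z)⟩ = 0` for `z = e_1 + i e_2`, that is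
`|h_11 - h_22| = 2 |h_12|` and `⟨h_11 - h_22, h_12⟩ = 0`. -/
def IsSuperconformal (s : ℕ) (X : E2 → E4) (U : Set E2) : Prop :=
  ∃ L : Fin 2 → Fin 2 → E2 → ℝ, (∀ i j, ContDiffOn ℝ ∞ (L i j) U) ∧
    ∀ x ∈ U, ∀ r : Fin 2 → ℝ, ip s (sff s X x r) (sff s X x r)
      = fff s X x r * ∑ i, ∑ j, L i j x * (r i * r j)

end Pool.H60.NC
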