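import Pool.Agent.H60.NC.LapC

/-!
# The Laplace operator in a flat chart

`X = f ∘ ψ` on `W`, and the metric of `f` is `diag(ε_0, ε_1)` with `ε_k = ±1`.
* `X_i = Σ_a ∂_i ψ_a f_a(ψ)`, so `g_ij = Σ_a ε_a ∂_i ψ_a ∂_j ψ_a`, that is `g = Jᵗ diag(ε) J` with the
  matrix `J_ai = ∂_i ψ_a`; `det g ≠ 0` gives `det J ≠ 0` and `gram a b = (J g⁻¹ Jᵗ)_ab = ε_a δ_ab`.
* Differentiating `<f_a,f_b> = const` and using `f_ab = f_ba`: `<f_ab, f_c> = 0`.
* `lap_chain` for `X = f ∘ ψ`: `Δ X = -Σ_a ε_a f_aa(ψ) + Σ_a (Δ ψ_a) f_a(ψ)`, and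
  `Δ X = -2 H` (`beltrami`) is orthogonal to `X_0`, `X_1` (`ip_normalPart`), hence to `f_0(ψ)`, `f_1(ψ)`
  (`f_a` is a combination of the `X_i` since `det J ≠ 0`).  The product with `f_c` gives
  `ε_c Δ ψ_c = 0`.
* `lap_chain` for `h`.
-/

namespace Pool.H60.NC

open scoped ContDiff
open Pool.Agent.H99.N2 (E2 E4 pd contDiffOn_pd contDiffOn_comp pd_comp)
open Pool.H60.PE

private theorem FlatC_pd_congr {F : Type} [NormedAddCommGroup F] [NormedSpace ℝ F]
    {f g : E2 → F} {x : E2} (h : f =ᶠ[nhds x] g) (i : Fin 2) : pd i f x = pd i g x := by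
  unfold pd
  rw [h.fderiv_eq]

private theorem FlatC_lap_congr {s : ℕ} {U : Set E2} (hU : IsOpen U) (X : E2 → E4)
    {f g : E2 → E4} (h : ∀ y ∈ U, f y = g y) {x : E2} (hx : x ∈ U) :
    lap s X f x = lap s X g x := by
  unfold lap
  congr 2
  refine Finset.sum_congr rfl fun i _ => ?_
  apply FlatC_pd_congr
  filter_upwards [hU.mem_nhds hx] with y hy
  refine Finset.sum_congr rfl fun j _ => ?_
  rw [FlatC_pd_congr (f := f) (g := g) (x := y)]
  filter_upwards [hU.mem_nhds hy] with z hz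
  exact h z hz

private theorem FlatC_comm {f : E2 → E4} {x : E2} (hf : ContDiffAt ℝ ∞ f x) (a b : Fin 2) :
    pd a (pd b f) x = pd b (pd a f) x := by
  have hs : IsSymmSndFDerivAt ℝ f x := hf.isSymmSndFDerivAt (by simp; exact ENat.LEInfty.out)
  have hd : DifferentiableAt ℝ (fderiv ℝ f) x :=
    (hf.fderiv_right (m := ∞) (by simp)).differentiableAt (by simp)
  have key : ∀ i j : Fin 2, pd i (pd j f) x =
      fderiv ℝ (fderiv ℝ f) x (EuclideanSpace.single i 1) (EuclideanSpace.single j 1) := by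
    intro i j
    have h1 : HasFDerivAt (fun y => fderiv ℝ f y (EuclideanSpace.single j (1 : ℝ)))
        ((fderiv ℝ (fderiv ℝ f) x).flip (EuclideanSpace.single j (1 : ℝ))) x := by
      have := hd.hasFDerivAt.clm_apply (hasFDerivAt_const (EuclideanSpace.single j (1 : ℝ)) x)
      simpa using this
    unfold pd
    have h2 : fderiv ℝ (fun y => fderiv ℝ f y (EuclideanSpace.single j (1 : ℝ))) x =
      ((fderiv ℝ (fderiv ℝ f) x).flip (EuclideanSpace.single j (1 : ℝ))) := h1.fderiv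
    change fderiv ℝ (fun y => fderiv ℝ f y (EuclideanSpace.single j (1 : ℝ))) x
      (EuclideanSpace.single i (1 : ℝ)) = _
    rw [h2]
    rfl
  rw [key, key]
  exact hs _ _

private theorem FlatC_pd_ip (s : ℕ) {u v : E2 → E4} {y : E2} (hu : DifferentiableAt ℝ u y)
    (hv : DifferentiableAt ℝ v y) (c : Fin 2) :
    pd c (fun z => ip s (u z) (v z)) y = ip s (pd c u y) (v y) + ip s (u y) (pd c v y) := by
  have hu' : ∀ k : Fin 4, HasFDerivAt (fun z => u z k)
      ((EuclideanSpace.proj k : E4 →L[ℝ] ℝ).comp (fderiv ℝ u y)) y := fun k =>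
    ((EuclideanSpace.proj k : E4 →L[ℝ] ℝ).hasFDerivAt).comp y hu.hasFDerivAt
  have hv' : ∀ k : Fin 4, HasFDerivAt (fun z => v z k)
      ((EuclideanSpace.proj k : E4 →L[ℝ] ℝ).comp (fderiv ℝ v y)) y := fun k =>
    ((EuclideanSpace.proj k : E4 →L[ℝ] ℝ).hasFDerivAt).comp y hv.hasFDerivAt
  have hs : HasFDerivAt (fun z => ip s (u z) (v z))
      (∑ k, sgn s k • (u y k • (EuclideanSpace.proj k : E4 →L[ℝ] ℝ).comp (fderiv ℝ v y)
        + v y k • (EuclideanSpace.proj k : E4 →L[ℝ] ℝ).comp (fderiv ℝ u y))) y := by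
    unfold ip
    exact HasFDerivAt.fun_sum fun k _ => ((hu' k).mul (hv' k)).const_mul (sgn s k)
  unfold pd
  rw [hs.fderiv]
  unfold ip
  rw [← Finset.sum_add_distrib]
  simp only [sum_apply, smul_apply, add_apply, ContinuousLinearMap.comp_apply,
    smul_eq_mul]
  refine Finset.sum_congr rfl fun k _ => ?_
  show sgn s k * (u y k * (fderiv ℝ v y (EuclideanSpace.single c 1)) k
      + v y k * (fderiv ℝ u y (EuclideanSpace.single c 1)) k) = _
  ring

private theorem FlatC_third {s : ℕ} {V : Set E2} (hV : IsOpen V) {f : E2 → E4}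
    (hf : ContDiffOn ℝ ∞ f V) {ε : Fin 2 → ℝ}
    (hff : ∀ y ∈ V, ∀ i, ip s (pd i f y) (pd i f y) = ε i)
    (hff' : ∀ y ∈ V, ip s (pd 0 f y) (pd 1 f y) = 0) {y : E2} (hy : y ∈ V) (a b c : Fin 2) :
    ip s (pd c f y) (pd a (pd b f) y) = 0 := by
  have hd : ∀ i, DifferentiableAt ℝ (pd i f) y := fun i =>
    ((contDiffOn_pd hV hf i).contDiffAt (hV.mem_nhds hy)).differentiableAt (by simp)
  have hc1 : ∀ k i : Fin 2, ip s (pd i f y) (pd k (pd i f) y) = 0 := by
    intro k i
    have h1 := FlatC_pd_ip s (hd i) (hd i) k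
    have h2 : pd k (fun z => ip s (pd i f z) (pd i f z)) y = pd k (fun _ => ε i) y := by
      apply FlatC_pd_congr
      filter_upwards [hV.mem_nhds hy] with z hz
      exact hff z hz i
    have h3 : pd k (fun _ : E2 => ε i) y = 0 := by
      unfold pd
      simp
    rw [h2, h3, ip_comm s (pd k (pd i f) y)] at h1
    linarith
  have hc2 : ∀ k : Fin 2, ip s (pd 1 f y) (pd k (pd 0 f) y)
      + ip s (pd 0 f y) (pd k (pd 1 f) y) = 0 := by
    intro k
    have h1 := FlatC_pd_ip s (hd 0) (hd 1) k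
    have h2 : pd k (fun z => ip s (pd 0 f z) (pd 1 f z)) y = pd k (fun _ => (0 : ℝ)) y := by
      apply FlatC_pd_congr
      filter_upwards [hV.mem_nhds hy] with z hz
      exact hff' z hz
    have h3 : pd k (fun _ : E2 => (0 : ℝ)) y = 0 := by
      unfold pd
      simp
    rw [h2, h3, ip_comm s (pd k (pd 0 f) y)] at h1
    linarith
  have hcm : pd 0 (pd 1 f) y = pd 1 (pd 0 f) y :=
    FlatC_comm (hf.contDiffAt (hV.mem_nhds hy)) 0 1
  have h000 := hc1 0 0
  have h010 := hc1 1 0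
  have h101 := hc1 0 1
  have h111 := hc1 1 1
  have e0 := hc2 0
  have e1 := hc2 1
  rw [hcm] at h101 e0
  have g1 : ip s (pd 1 f y) (pd 0 (pd 0 f) y) = 0 := by
    rw [h010] at e0; linarith
  have g2 : ip s (pd 0 f y) (pd 1 (pd 1 f) y) = 0 := by
    rw [h101] at e1; linarith
  fin_cases a <;> fin_cases b <;> fin_cases c
  · exact h000
  · exact g1
  · show ip s (pd 0 f y) (pd 0 (pd 1 f) y) = 0
    rw [hcm]; exact h010
  · show ip s (pd 1 f y) (pd 0 (pd 1 f) y) = 0
    rw [hcm]; exact h101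
  · exact h010
  · exact h101
  · exact g2
  · exact h111

private theorem FlatC_normal {s : ℕ} {X : E2 → E4} {x : E2} (hx : (metric s X x).det ≠ 0)
    (k : Fin 2) : ip s (pd k X x) (meanCurv s X x) = 0 := by
  unfold meanCurv
  simp only [Fin.sum_univ_two, ip_smul, ip_add, ip_normalPart s X hx]
  ring

theorem flat_chart {s : ℕ} {W V : Set E2} (hW : IsOpen W) (hV : IsOpen V) {X : E2 → E4}
    (hX : IsSurface s X W) {ψ : E2 → E2} (hψ : ContDiffOn ℝ ∞ ψ W) (hm : Set.MapsTo ψ W V)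
    {f : E2 → E4} (hf : ContDiffOn ℝ ∞ f V) (hXf : ∀ x ∈ W, X x = f (ψ x)) {ε : Fin 2 → ℝ}
    (hε : ∀ k, ε k = 1 ∨ ε k = -1) (hff : ∀ y ∈ V, ∀ i, ip s (pd i f y) (pd i f y) = ε i)
    (hff' : ∀ y ∈ V, ip s (pd 0 f y) (pd 1 f y) = 0)
    {F : Type} [NormedAddCommGroup F] [NormedSpace ℝ F] {h : E2 → F} (hh : ContDiffOn ℝ ∞ h V)
    {x : E2} (hx : x ∈ W) :
    lap s X (fun z => h (ψ z)) x = -(∑ k, ε k • pd k (pd k h) (ψ x)) := by
  have hy : ψ x ∈ V := hm hx
  have hdet := hX.2 x hx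
  have hεsq : ∀ k, ε k * ε k = 1 := by
    intro k
    rcases hε k with e | e <;> rw [e] <;> norm_num
  set p : ℝ := pd 0 ψ x 0 with hp
  set q : ℝ := pd 1 ψ x 0 with hq
  set r : ℝ := pd 0 ψ x 1 with hr
  set t : ℝ := pd 1 ψ x 1 with ht
  have hpX : ∀ i, pd i X x = ∑ a, pd i ψ x a • pd a f (ψ x) := by
    intro i
    rw [← pd_chain hW hV hψ hm hf hx i]
    apply FlatC_pd_congr
    filter_upwards [hW.mem_nhds hx] with z hz
    exact hXf z hz
  have hX0 : pd 0 X x = p • pd 0 f (ψ x) + r • pd 1 f (ψ x) := by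
    rw [hpX 0, Fin.sum_univ_two]
  have hX1 : pd 1 X x = q • pd 0 f (ψ x) + t • pd 1 f (ψ x) := by
    rw [hpX 1, Fin.sum_univ_two]
  have h00 := hff (ψ x) hy 0
  have h11 := hff (ψ x) hy 1
  have h01 := hff' (ψ x) hy
  have h10 : ip s (pd 1 f (ψ x)) (pd 0 f (ψ x)) = 0 := by rw [ip_comm]; exact h01
  have ipl : ∀ (a b : ℝ) (u v w : E4), ip s (a • u + b • v) w = a * ip s u w + b * ip s v w := by
    intro a b u v w
    rw [ip_comm, ip_add, ip_smul, ip_smul, ip_comm s w u, ip_comm s w v]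
  have ipr : ∀ (a b : ℝ) (u v w : E4), ip s w (a • u + b • v) = a * ip s w u + b * ip s w v := by
    intro a b u v w
    rw [ip_add, ip_smul, ip_smul]
  have g00 : metric s X x 0 0 = ε 0 * (p * p) + ε 1 * (r * r) := by
    rw [metric_app, hX0, ipl, ipr, ipr, h00, h11, h01, h10]; ring
  have g01 : metric s X x 0 1 = ε 0 * (p * q) + ε 1 * (r * t) := by
    rw [metric_app, hX0, hX1, ipl, ipr, ipr, h00, h11, h01, h10]; ring
  have g11 : metric s X x 1 1 = ε 0 * (q * q) + ε 1 * (t * t) := by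
    rw [metric_app, hX1, ipl, ipr, ipr, h00, h11, h01, h10]; ring
  have hD : (metric s X x).det = ε 0 * ε 1 * ((p * t - q * r) * (p * t - q * r)) := by
    rw [metric_det, g00, g01, g11]; ring
  have hJ : p * t - q * r ≠ 0 := by
    intro h0
    apply hdet
    rw [hD, h0]; ring
  have hgram : ∀ a b : Fin 2, gram s X ψ a b x = if a = b then ε a else 0 := by
    intro a b
    have e : gram s X ψ a b x * (metric s X x).det
        = metric s X x 1 1 * (pd 0 ψ x a * pd 0 ψ x b)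
          - metric s X x 0 1 * (pd 0 ψ x a * pd 1 ψ x b)
          - metric s X x 0 1 * (pd 1 ψ x a * pd 0 ψ x b)
          + metric s X x 0 0 * (pd 1 ψ x a * pd 1 ψ x b) := by
      unfold gram
      simp only [Fin.sum_univ_two, metric_inv]
      simp only [Matrix.of_apply, Matrix.cons_val', Matrix.cons_val_zero, Matrix.cons_val_one,
        Matrix.cons_val_fin_one]
      field_simp
      ring
    have h0 := hεsq 0
    have h1 := hεsq 1
    apply mul_right_cancel₀ hdet
    rw [e, hD, g00, g01, g11]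
    fin_cases a <;> fin_cases b <;>
      simp only [Fin.zero_eta, Fin.mk_one, Fin.isValue, ← hp, ← hq, ← hr, ← ht, if_true,
        zero_ne_one, one_ne_zero, if_false, zero_mul]
    · linear_combination (-(ε 1 * ((p * t - q * r) * (p * t - q * r)))) * h0
    · ring
    · ring
    · linear_combination (-(ε 0 * ((p * t - q * r) * (p * t - q * r)))) * h1
  -- `Δ ψ_a = 0`
  have hlX : lap s X X x = -(2 : ℝ) • meanCurv s X x := beltrami hW hX hx
  have hlX' : lap s X X x = -(∑ a, ∑ b, gram s X ψ a b x • pd a (pd b f) (ψ x))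
      + ∑ a, lap s X (fun z => ψ z a) x • pd a f (ψ x) := by
    rw [← lap_chain hW hV hX hψ hm hf hx]
    exact FlatC_lap_congr hW X hXf hx
  set L0 : ℝ := lap s X (fun z => ψ z 0) x with hL0
  set L1 : ℝ := lap s X (fun z => ψ z 1) x with hL1
  have hthird := fun a b c => FlatC_third hV hf hff hff' hy a b c
  have ipz : ∀ w : E4, ip s w (-w) = ip s w (-w) := fun w => rfl
  have hneg : ∀ w v : E4, ip s w (-v) = -ip s w v := by
    intro w v
    have := ip_smul s (-1) w v
    rw [neg_one_smul] at this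
    rw [this]; ring
  have hc : ∀ c : Fin 2, ip s (pd c f (ψ x)) (lap s X X x)
      = L0 * ip s (pd c f (ψ x)) (pd 0 f (ψ x)) + L1 * ip s (pd c f (ψ x)) (pd 1 f (ψ x)) := by
    intro c
    rw [hlX']
    simp only [Fin.sum_univ_two, ip_add, hneg, ip_smul, hthird, ← hL0, ← hL1]
    ring
  have hc0 := hc 0
  have hc1 := hc 1
  rw [h00, h01] at hc0
  rw [h10, h11] at hc1
  have hn : ∀ i, ip s (pd i X x) (lap s X X x) = 0 := by
    intro i
    rw [hlX, ip_smul, FlatC_normal hdet, mul_zero]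
  have hn0 := hn 0
  have hn1 := hn 1
  rw [hX0, ipl, hc0, hc1] at hn0
  rw [hX1, ipl, hc0, hc1] at hn1
  have hε0 : ε 0 ≠ 0 := by
    intro h0; have := hεsq 0; rw [h0] at this; norm_num at this
  have hε1 : ε 1 ≠ 0 := by
    intro h0; have := hεsq 1; rw [h0] at this; norm_num at this
  have hL0z : L0 = 0 := by
    have : (p * t - q * r) * (ε 0 * L0) = 0 := by linear_combination t * hn0 - r * hn1
    rcases mul_eq_zero.1 this with h' | h'
    · exact absurd h' hJ
    · exact (mul_eq_zero.1 h').resolve_left hε0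
  have hL1z : L1 = 0 := by
    have : (p * t - q * r) * (ε 1 * L1) = 0 := by linear_combination p * hn1 - q * hn0
    rcases mul_eq_zero.1 this with h' | h'
    · exact absurd h' hJ
    · exact (mul_eq_zero.1 h').resolve_left hε1
  rw [lap_chain hW hV hX hψ hm hh hx]
  simp only [Fin.sum_univ_two, ← hL0, ← hL1, hL0z, hL1z, hgram, if_true, zero_ne_one,
    one_ne_zero, if_false, zero_smul, add_zero, zero_add]

end Pool.H60.NC
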