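import Pool.Agent.H60.PE.Defs

/-!
# The list of the null 2-type surfaces in the pseudo-Euclidean 4-spaces with flat normal bundle

The three families are given as maps `F` on an open subset `V` of the plane; `c` is the eigenvalue.
The coordinates of a point `x` of the plane are `x 0` and `x 1`.
-/

namespace Pool.H60.NC

open scoped ContDiff
open Pool.Agent.H99.N2 (E2 E4 pd)
open Pool.H60.PE

/-- Family (I): cylinders over helices.  `F(u,t) = γ(u) + t v`, where `v` is a unit vector, `γ` is a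
curve parametrised by arc length and orthogonal to `v` with
`γ'' = - ε c (γ - x0 - u w)`, `γ'' ≠ 0`, for constant vectors `x0`, `w`. -/
def IsHelixCylinder (s : ℕ) (c : ℝ) (F : E2 → E4) (V : Set E2) : Prop :=
  ∃ (J : Set ℝ) (γ : ℝ → E4) (x0 w v : E4) (ε : ℝ),
    IsOpen J ∧ (∀ x ∈ V, x 0 ∈ J) ∧ ContDiffOn ℝ ∞ γ J ∧
    (ε = 1 ∨ ε = -1) ∧ (ip s v v = 1 ∨ ip s v v = -1) ∧
    (∀ u ∈ J, ip s (deriv γ u) (deriv γ u) = ε ∧ ip s (deriv γ u) v = 0 ∧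
      deriv (deriv γ) u = -(ε * c) • (γ u - x0 - u • w) ∧ deriv (deriv γ) u ≠ 0) ∧
    ∀ x ∈ V, F x = γ (x 0) + x 1 • v

/-- Family (II): B-scroll type.  `F(x,y) = p(y) + q(y) + x b(y)`, where `b` is a curve in the light
cone, `b' = m q` with a function `m` without zeros, `⟨q,q⟩ = 2/c` and `p' ≠ 0` is orthogonal to `b`
and `q`. -/
def IsBScroll (s : ℕ) (c : ℝ) (F : E2 → E4) (V : Set E2) : Prop :=
  ∃ (J : Set ℝ) (p q b : ℝ → E4) (m : ℝ → ℝ),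
    IsOpen J ∧ (∀ x ∈ V, x 1 ∈ J) ∧
    ContDiffOn ℝ ∞ p J ∧ ContDiffOn ℝ ∞ q J ∧ ContDiffOn ℝ ∞ b J ∧ ContDiffOn ℝ ∞ m J ∧
    (∀ y ∈ J, ip s (b y) (b y) = 0 ∧ ip s (q y) (q y) = 2 / c ∧ deriv b y = m y • q y ∧
      m y ≠ 0 ∧ ip s (deriv p y) (b y) = 0 ∧ ip s (deriv p y) (q y) = 0 ∧ deriv p y ≠ 0) ∧
    ∀ x ∈ V, F x = p (x 1) + q (x 1) + x 0 • b (x 1)

/-- Family (III): graphs with lightlike mean curvature vector.
`F(x) = a + x_0 b_0 + x_1 b_1 + (g_0(x) + g_1(x)) v`, where `b_0`, `b_1` are orthonormal vectors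
(`⟨b_k,b_k⟩ = ε_k = ±1`), `v ≠ 0` is a lightlike vector orthogonal to both, and `L g_0 = 0`,
`L g_1 = c g_1`, `g_1 ≠ 0` for `L = - ε_0 ∂_0^2 - ε_1 ∂_1^2`. -/
def IsNullGraph (s : ℕ) (c : ℝ) (F : E2 → E4) (V : Set E2) : Prop :=
  ∃ (a v : E4) (b : Fin 2 → E4) (ε : Fin 2 → ℝ) (g0 g1 : E2 → ℝ),
    (∀ k, ε k = 1 ∨ ε k = -1) ∧ (∀ k, ip s (b k) (b k) = ε k) ∧ ip s (b 0) (b 1) = 0 ∧
    v ≠ 0 ∧ ip s v v = 0 ∧ (∀ k, ip s (b k) v = 0) ∧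
    ContDiffOn ℝ ∞ g0 V ∧ ContDiffOn ℝ ∞ g1 V ∧
    ∀ x ∈ V, -(∑ k, ε k * pd k (pd k g0) x) = 0 ∧ -(∑ k, ε k * pd k (pd k g1) x) = c * g1 x ∧
      g1 x ≠ 0 ∧ F x = a + x 0 • b 0 + x 1 • b 1 + (g0 x + g1 x) • v

/-- Near the point `x` of `U` the surface `X` can be reparametrised such that it belongs to the
family `P`: there are an open neighbourhood `W ⊆ U` of `x`, an open set `V` of the plane and a
diffeomorphism `φ : V → W` (with inverse `ψ`) such that `X ∘ φ` satisfies `P` on `V`. -/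
def LocalForm (X : E2 → E4) (U : Set E2) (x : E2) (P : (E2 → E4) → Set E2 → Prop) : Prop :=
  ∃ (V W : Set E2) (φ ψ : E2 → E2), IsOpen V ∧ IsOpen W ∧ W ⊆ U ∧ x ∈ W ∧
    ContDiffOn ℝ ∞ φ V ∧ ContDiffOn ℝ ∞ ψ W ∧ Set.MapsTo φ V W ∧ Set.MapsTo ψ W V ∧
    (∀ y ∈ V, ψ (φ y) = y) ∧ (∀ z ∈ W, φ (ψ z) = z) ∧ P (fun y => X (φ y)) V

/-- `X = x0 + X1 + X2` with `x0` constant, `Δ X1 = 0` and `Δ X2 = c X2`. -/
def IsDecomposition (s : ℕ) (X : E2 → E4) (U : Set E2) (x0 : E4) (X1 X2 : E2 → E4) (c : ℝ) :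
    Prop :=
  ContDiffOn ℝ ∞ X1 U ∧ ContDiffOn ℝ ∞ X2 U ∧ (∀ x ∈ U, X x = x0 + X1 x + X2 x) ∧
    (∀ x ∈ U, lap s X X1 x = 0) ∧ (∀ x ∈ U, lap s X X2 x = c • X2 x)

end Pool.H60.NC
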