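import Pool.Agent.H60.PE.PBel
import Pool.Agent.H60.NC.Defs

/-!
# Rules for partial derivatives and the Laplace operator
-/

namespace Pool.H60.NC

open scoped ContDiff
open Pool.Agent.H99.N2 (E2 E4 pd contDiffOn_pd contDiffOn_comp pd_comp)
open Pool.H60.PE

variable {F : Type} [NormedAddCommGroup F] [NormedSpace ℝ F]

theorem pd_congr {f g : E2 → F} {x : E2} (h : f =ᶠ[nhds x] g) (i : Fin 2) :
    pd i f x = pd i g x := by
  unfold pd
  rw [h.fderiv_eq]

theorem pd_congr_on {U : Set E2} (hU : IsOpen U) {f g : E2 → F} (h : ∀ y ∈ U, f y = g y) {x : E2}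
    (hx : x ∈ U) (i : Fin 2) : pd i f x = pd i g x := by
  apply pd_congr
  filter_upwards [hU.mem_nhds hx] with y hy using h y hy

theorem lap_congr_on {s : ℕ} {U : Set E2} (hU : IsOpen U) (X : E2 → E4) {f g : E2 → F}
    (h : ∀ y ∈ U, f y = g y) {x : E2} (hx : x ∈ U) : lap s X f x = lap s X g x := by
  unfold lap
  congr 2
  refine Finset.sum_congr rfl fun i _ => ?_
  apply pd_congr
  filter_upwards [hU.mem_nhds hx] with y hy
  refine Finset.sum_congr rfl fun j _ => ?_
  rw [pd_congr_on hU h hy]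

theorem smooth_diffAt {U : Set E2} (hU : IsOpen U) {f : E2 → F} (hf : ContDiffOn ℝ ∞ f U) {x : E2}
    (hx : x ∈ U) : DifferentiableAt ℝ f x :=
  (hf.contDiffAt (hU.mem_nhds hx)).differentiableAt (by simp)

theorem pd_add_at {f g : E2 → F} {x : E2} (hf : DifferentiableAt ℝ f x)
    (hg : DifferentiableAt ℝ g x) (i : Fin 2) :
    pd i (fun y => f y + g y) x = pd i f x + pd i g x := by
  unfold pd
  rw [fderiv_fun_add hf hg]
  rfl

theorem pd_sub_at {f g : E2 → F} {x : E2} (hf : DifferentiableAt ℝ f x)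
    (hg : DifferentiableAt ℝ g x) (i : Fin 2) :
    pd i (fun y => f y - g y) x = pd i f x - pd i g x := by
  unfold pd
  rw [fderiv_fun_sub hf hg]
  rfl

theorem pd_const_smul_at {f : E2 → F} {x : E2} (hf : DifferentiableAt ℝ f x) (c : ℝ) (i : Fin 2) :
    pd i (fun y => c • f y) x = c • pd i f x := by
  unfold pd
  rw [fderiv_fun_const_smul hf]
  rfl

theorem pd_smul_at {a : E2 → ℝ} {f : E2 → F} {x : E2} (ha : DifferentiableAt ℝ a x)
    (hf : DifferentiableAt ℝ f x) (i : Fin 2) :
    pd i (fun y => a y • f y) x = a x • pd i f x + pd i a x • f x := by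
  unfold pd
  rw [fderiv_fun_smul ha hf]
  simp

theorem pd_mul_at {a f : E2 → ℝ} {x : E2} (ha : DifferentiableAt ℝ a x)
    (hf : DifferentiableAt ℝ f x) (i : Fin 2) :
    pd i (fun y => a y * f y) x = a x * pd i f x + pd i a x * f x :=
  pd_smul_at ha hf i

theorem pd_const_at (v : F) (x : E2) (i : Fin 2) : pd i (fun _ => v) x = 0 := by
  unfold pd
  simp

/-- derivative of the coordinates of the plane -/
theorem pd_coord (k i : Fin 2) (x : E2) : pd i (fun y : E2 => y k) x = if k = i then 1 else 0 := by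
  unfold pd
  have h : HasFDerivAt (fun y : E2 => y k) (EuclideanSpace.proj k : E2 →L[ℝ] ℝ) x :=
    (EuclideanSpace.proj k : E2 →L[ℝ] ℝ).hasFDerivAt
  rw [h.fderiv]
  simp

/-- derivative of a function of one coordinate -/
theorem pd_comp_coord {g : ℝ → F} (k i : Fin 2) {x : E2} (hg : DifferentiableAt ℝ g (x k)) :
    pd i (fun y : E2 => g (y k)) x = if k = i then deriv g (x k) else 0 := by
  have h1 : HasFDerivAt (fun y : E2 => y k) (EuclideanSpace.proj k : E2 →L[ℝ] ℝ) x :=
    (EuclideanSpace.proj k : E2 →L[ℝ] ℝ).hasFDerivAt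
  have h2 : HasFDerivAt g (fderiv ℝ g (x k)) ((fun y : E2 => y k) x) := hg.hasFDerivAt
  have h3 := h2.comp x h1
  have h4 : (fun y : E2 => g (y k)) = g ∘ fun y : E2 => y k := rfl
  unfold pd
  rw [h4, h3.fderiv]
  by_cases h : k = i
  · subst h
    simp
  · simp [h]

/-- product rule for the scalar product -/
theorem pd_ip {s : ℕ} {f g : E2 → E4} {x : E2} (hf : DifferentiableAt ℝ f x)
    (hg : DifferentiableAt ℝ g x) (i : Fin 2) :
    pd i (fun y => ip s (f y) (g y)) x = ip s (pd i f x) (g x) + ip s (f x) (pd i g x) := by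
  have hk : ∀ (f : E2 → E4), DifferentiableAt ℝ f x → ∀ k : Fin 4,
      HasFDerivAt (fun y => f y k) ((EuclideanSpace.proj k : E4 →L[ℝ] ℝ).comp (fderiv ℝ f x)) x :=
    fun f hf k => ((EuclideanSpace.proj k : E4 →L[ℝ] ℝ).hasFDerivAt).comp x hf.hasFDerivAt
  have h := HasFDerivAt.fun_sum (u := Finset.univ) fun k (_ : k ∈ Finset.univ) =>
    (((hk f hf k).mul (hk g hg k)).const_mul (sgn s k))
  have h' : HasFDerivAt (fun y => ∑ k, sgn s k * (f y k * g y k)) _ x := h
  unfold pd ip
  rw [h'.fderiv]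
  simp only [ContinuousLinearMap.sum_apply, ContinuousLinearMap.smul_apply,
    ContinuousLinearMap.add_apply, ContinuousLinearMap.comp_apply, smul_eq_mul,
    ← Finset.sum_add_distrib]
  refine Finset.sum_congr rfl fun k _ => ?_
  change sgn s k * (f x k * (fderiv ℝ g x (EuclideanSpace.single i 1)) k
    + g x k * (fderiv ℝ f x (EuclideanSpace.single i 1)) k) = _
  ring

private theorem lapR_in {s : ℕ} {U : Set E2} (hU : IsOpen U) {X : E2 → E4} (hX : IsSurface s X U)
    {f : E2 → F} (hf : ContDiffOn ℝ ∞ f U) (i : Fin 2) :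
    ContDiffOn ℝ ∞ (fun y => ∑ j, (vol s X y * (metric s X y)⁻¹ i j) • pd j f y) U := by
  apply ContDiffOn.sum
  intro j _
  exact ((contDiffOn_vol hU hX).mul (contDiffOn_metric_inv hU hX i j)).smul
    (contDiffOn_pd hU hf j)

theorem lap_add_at {s : ℕ} {U : Set E2} (hU : IsOpen U) {X : E2 → E4} (hX : IsSurface s X U)
    {f g : E2 → F} (hf : ContDiffOn ℝ ∞ f U) (hg : ContDiffOn ℝ ∞ g U) {x : E2} (hx : x ∈ U) :
    lap s X (fun y => f y + g y) x = lap s X f x + lap s X g x := by
  unfold lap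
  rw [← neg_add, ← smul_add, ← Finset.sum_add_distrib]
  congr 2
  refine Finset.sum_congr rfl fun i _ => ?_
  rw [← pd_add_at (smooth_diffAt hU (lapR_in hU hX hf i) hx)
    (smooth_diffAt hU (lapR_in hU hX hg i) hx)]
  apply pd_congr
  filter_upwards [hU.mem_nhds hx] with y hy
  rw [← Finset.sum_add_distrib]
  refine Finset.sum_congr rfl fun j _ => ?_
  rw [pd_add_at (smooth_diffAt hU hf hy) (smooth_diffAt hU hg hy), smul_add]

theorem lap_smul_at {s : ℕ} {U : Set E2} (hU : IsOpen U) {X : E2 → E4} (hX : IsSurface s X U)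
    {f : E2 → F} (hf : ContDiffOn ℝ ∞ f U) (c : ℝ) {x : E2} (hx : x ∈ U) :
    lap s X (fun y => c • f y) x = c • lap s X f x := by
  unfold lap
  rw [smul_neg c, smul_comm c _ (∑ i : Fin 2, _), Finset.smul_sum (r := c)]
  congr 2
  refine Finset.sum_congr rfl fun i _ => ?_
  rw [← pd_const_smul_at (smooth_diffAt hU (lapR_in hU hX hf i) hx)]
  apply pd_congr
  filter_upwards [hU.mem_nhds hx] with y hy
  rw [Finset.smul_sum]
  refine Finset.sum_congr rfl fun j _ => ?_
  rw [pd_const_smul_at (smooth_diffAt hU hf hy), smul_comm]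

theorem lap_const_at (s : ℕ) (X : E2 → E4) (v : F) (x : E2) : lap s X (fun _ => v) x = 0 := by
  have h : ∀ (i : Fin 2), pd i (fun _ : E2 => v) = fun _ => 0 := by
    intro i
    funext y
    exact pd_const_at v y i
  unfold lap
  simp only [h, smul_zero, Finset.sum_const_zero]
  have h2 : ∀ (i : Fin 2), pd i (fun _ : E2 => (0 : F)) x = 0 := fun i => pd_const_at 0 x i
  simp [h2]

end Pool.H60.NC
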