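import Pool.Agent.H60.NC.Ric
import Pool.Agent.H60.NC.FlatC
import Pool.Agent.H60.NC.LapR

/-!
# Converse for the cylinders

`F y = γ (y 0) + y 1 • v`: `F_0 = γ'(y 0)`, `F_1 = v`, metric `diag(ε, e)` with `e = <v,v>`.
Flat normal bundle (`flat_of_ricci`): `F_01 = F_10 = F_11 = 0`, so each term of the sum vanishes
(`normalPart` of `0` is `0`).
Null 2-type: `X1 y = y 0 • w + y 1 • v`, `X2 y = γ (y 0) - x0 - y 0 • w`.  By `flat_chart` with
`ψ = id` (`f = F`, `V = W`): `Δ h = -(ε h_00 + e h_11)`, so `Δ X1 = 0` and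
`Δ X2 = -ε γ'' = ε^2 c X2 = c X2`.  `X1` is not constant on the open nonempty set `V` (its derivative in
the direction `1` is `v ≠ 0`).  `X2` is not constant: otherwise its derivatives are `0`, so `γ'' = 0`.
-/

namespace Pool.H60.NC

open scoped ContDiff
open Pool.Agent.H99.N2 (E2 E4 pd contDiffOn_pd contDiffOn_comp pd_comp)
open Pool.H60.PE

private theorem ConA_ip0 (s : ℕ) (n : E4) : ip s 0 n = 0 := by
  unfold ip
  simp

private theorem ConA_np0 (s : ℕ) (X : E2 → E4) (x : E2) : normalPart s X x 0 = 0 := by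
  unfold normalPart
  have h : ∀ k : Fin 2, ip s (pd k X x) 0 = 0 := fun k => by unfold ip; simp
  simp [h]

/-- smoothness of a function of one coordinate -/
private theorem ConA_cd {J : Set ℝ} {γ : ℝ → E4} (hγ : ContDiffOn ℝ ∞ γ J) {V : Set E2}
    (hVJ : ∀ x ∈ V, x 0 ∈ J) : ContDiffOn ℝ ∞ (fun y : E2 => γ (y 0)) V := by
  have h1 : ContDiffOn ℝ ∞ (fun y : E2 => y 0) V :=
    (EuclideanSpace.proj (0 : Fin 2) : E2 →L[ℝ] ℝ).contDiff.contDiffOn
  exact hγ.comp h1 hVJ

private theorem ConA_co (k : Fin 2) (x : E2) : DifferentiableAt ℝ (fun y : E2 => y k) x :=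
  (EuclideanSpace.proj k : E2 →L[ℝ] ℝ).differentiableAt

private theorem ConA_cok (k : Fin 2) (V : Set E2) : ContDiffOn ℝ ∞ (fun y : E2 => y k) V :=
  (EuclideanSpace.proj k : E2 →L[ℝ] ℝ).contDiff.contDiffOn

private theorem ConA_dl (k : Fin 2) (w : E4) (x : E2) :
    DifferentiableAt ℝ (fun y : E2 => y k • w) x :=
  (ConA_co k x).smul (differentiableAt_const w)

/-- derivative of a coordinate times a constant vector -/
private theorem ConA_lin (k i : Fin 2) (w : E4) (x : E2) :
    pd i (fun y : E2 => y k • w) x = if k = i then w else 0 := by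
  rw [pd_smul_at (ConA_co k x) (differentiableAt_const w), pd_const_at, pd_coord]
  split_ifs <;> simp

theorem con_A {s : ℕ} {c : ℝ} (hc : c ≠ 0) {V : Set E2} (hV : IsOpen V) (hne : V.Nonempty)
    {F : E2 → E4} (h : IsHelixCylinder s c F V) :
    IsSurface s F V ∧ FlatNormalBundle s F V ∧ IsNullTwoType s F V := by
  obtain ⟨J, γ, x0, w, v, ε, hJ, hVJ, hγ, hε, he, hh, hF⟩ := h
  have hγ' : ContDiffOn ℝ ∞ (deriv γ) J := hγ.deriv_of_isOpen hJ (by simp)
  have hd : ∀ u ∈ J, DifferentiableAt ℝ γ u := fun u hu =>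
    (hγ.contDiffAt (hJ.mem_nhds hu)).differentiableAt (by simp)
  have hd' : ∀ u ∈ J, DifferentiableAt ℝ (deriv γ) u := fun u hu =>
    (hγ'.contDiffAt (hJ.mem_nhds hu)).differentiableAt (by simp)
  have hdc : ∀ x ∈ V, DifferentiableAt ℝ (fun y : E2 => γ (y 0)) x := fun x hx =>
    smooth_diffAt hV (ConA_cd hγ hVJ) hx
  have hdx : ∀ x ∈ V, DifferentiableAt ℝ (fun y : E2 => γ (y 0) - x0) x := fun x hx =>
    (hdc x hx).sub (differentiableAt_const x0)
  -- first derivatives
  have h0 : ∀ x ∈ V, pd 0 F x = deriv γ (x 0) := by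
    intro x hx
    rw [pd_congr_on hV hF hx, pd_add_at (hdc x hx)
      (ConA_dl 1 v x), pd_comp_coord 0 0 (hd _ (hVJ x hx)),
      ConA_lin]
    simp
  have h1 : ∀ x ∈ V, pd 1 F x = v := by
    intro x hx
    rw [pd_congr_on hV hF hx, pd_add_at (hdc x hx)
      (ConA_dl 1 v x), pd_comp_coord 0 1 (hd _ (hVJ x hx)),
      ConA_lin]
    simp
  -- second derivatives
  have h10 : ∀ x ∈ V, pd 1 (pd 0 F) x = 0 := by
    intro x hx
    rw [pd_congr_on hV h0 hx, pd_comp_coord 0 1 (hd' _ (hVJ x hx))]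
    simp
  have hi1 : ∀ x ∈ V, ∀ i, pd i (pd 1 F) x = 0 := by
    intro x hx i
    rw [pd_congr_on hV h1 hx, pd_const_at]
  have h1k : ∀ x ∈ V, ∀ k, pd 1 (pd k F) x = 0 := by
    intro x hx k
    fin_cases k
    · exact h10 x hx
    · exact hi1 x hx 1
  have hcd : ContDiffOn ℝ ∞ F V := by
    refine ContDiffOn.congr (f := fun y : E2 => γ (y 0) + y 1 • v) ?_ hF
    exact (ConA_cd hγ hVJ).add ((ConA_cok 1 V).smul contDiffOn_const)
  have hg00 : ∀ x ∈ V, ip s (pd 0 F x) (pd 0 F x) = ε := fun x hx => by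
    rw [h0 x hx]; exact (hh _ (hVJ x hx)).1
  have hg01 : ∀ x ∈ V, ip s (pd 0 F x) (pd 1 F x) = 0 := fun x hx => by
    rw [h0 x hx, h1 x hx]; exact (hh _ (hVJ x hx)).2.1
  have hg10 : ∀ x ∈ V, ip s (pd 1 F x) (pd 0 F x) = 0 := fun x hx => by
    rw [← hg01 x hx]
    unfold ip
    refine Finset.sum_congr rfl fun k _ => ?_
    ring
  have hg11 : ∀ x ∈ V, ip s (pd 1 F x) (pd 1 F x) = ip s v v := fun x hx => by
    rw [h1 x hx]
  have hdet : ∀ x ∈ V, (metric s F x).det ≠ 0 := by
    intro x hx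
    unfold metric
    rw [Matrix.det_fin_two]
    simp only [Matrix.of_apply]
    rw [hg00 x hx, hg01 x hx, hg10 x hx, hg11 x hx]
    rcases hε with h | h <;> rcases he with h' | h' <;> rw [h, h'] <;> norm_num
  have hsurf : IsSurface s F V := ⟨hcd, hdet⟩
  refine ⟨hsurf, ?_, ?_⟩
  · apply flat_of_ricci hV hsurf
    intro x hx n hn
    refine Finset.sum_eq_zero fun k _ => Finset.sum_eq_zero fun l _ => ?_
    rw [h1k x hx k, h1k x hx l, ConA_ip0, ConA_np0]
    simp
  · -- Laplace operator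
    have hlap : ∀ {h : E2 → E4}, ContDiffOn ℝ ∞ h V → ∀ x ∈ V,
        lap s F h x = -(ε • pd 0 (pd 0 h) x + ip s v v • pd 1 (pd 1 h) x) := by
      intro h hh' x hx
      have h3 := flat_chart (s := s) hV hV hsurf (ψ := fun y => y) contDiffOn_id
        (fun y hy => hy) hcd (fun x _ => rfl) (ε := ![ε, ip s v v])
        (fun k => by
          fin_cases k
          · exact hε
          · exact he)
        (fun y hy i => by
          fin_cases i
          · exact hg00 y hy
          · exact hg11 y hy)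
        hg01 hh' hx
      rw [Fin.sum_univ_two] at h3
      exact h3
    have hv0 : v ≠ 0 := by
      intro h
      rw [h, ConA_ip0] at he
      rcases he with h | h <;> norm_num at h
    have hX1d : ∀ x i, pd i (fun y : E2 => y 0 • w + y 1 • v) x =
        (if (0 : Fin 2) = i then w else 0) + if (1 : Fin 2) = i then v else 0 := by
      intro x i
      rw [pd_add_at (ConA_dl 0 w x)
        (ConA_dl 1 v x), ConA_lin, ConA_lin]
    have hX1c : ContDiffOn ℝ ∞ (fun y : E2 => y 0 • w + y 1 • v) V :=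
      ((ConA_cok 0 V).smul contDiffOn_const).add ((ConA_cok 1 V).smul contDiffOn_const)
    have hX2c : ContDiffOn ℝ ∞ (fun y : E2 => γ (y 0) - x0 - y 0 • w) V :=
      ((ConA_cd hγ hVJ).sub contDiffOn_const).sub ((ConA_cok 0 V).smul contDiffOn_const)
    have hX20 : ∀ x ∈ V, pd 0 (fun y : E2 => γ (y 0) - x0 - y 0 • w) x = deriv γ (x 0) - w := by
      intro x hx
      rw [pd_sub_at (hdx x hx)
        (ConA_dl 0 w x), pd_sub_at (hdc x hx)
        (differentiableAt_const x0), pd_const_at, ConA_lin, pd_comp_coord 0 0 (hd _ (hVJ x hx))]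
      simp
    have hX21 : ∀ x ∈ V, pd 1 (fun y : E2 => γ (y 0) - x0 - y 0 • w) x = 0 := by
      intro x hx
      rw [pd_sub_at (hdx x hx)
        (ConA_dl 0 w x), pd_sub_at (hdc x hx)
        (differentiableAt_const x0), pd_const_at, ConA_lin, pd_comp_coord 0 1 (hd _ (hVJ x hx))]
      simp
    have hX200 : ∀ x ∈ V, pd 0 (pd 0 (fun y : E2 => γ (y 0) - x0 - y 0 • w)) x =
        deriv (deriv γ) (x 0) := by
      intro x hx
      rw [pd_congr_on hV hX20 hx]
      have hdd : DifferentiableAt ℝ (fun y : E2 => deriv γ (y 0)) x :=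
        smooth_diffAt hV (ConA_cd hγ' hVJ) hx
      rw [pd_sub_at hdd (differentiableAt_const w), pd_const_at,
        pd_comp_coord 0 0 (hd' _ (hVJ x hx))]
      simp
    refine ⟨x0, fun y => y 0 • w + y 1 • v, fun y => γ (y 0) - x0 - y 0 • w, c, hc, hX1c, hX2c,
      ?_, ?_, ?_, ?_, ?_⟩
    · intro x hx
      rw [hF x hx]
      dsimp only
      abel
    · intro x hx
      rw [hlap hX1c x hx]
      have e0 : pd 0 (fun y : E2 => y 0 • w + y 1 • v) = fun _ => w := by
        funext x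
        rw [hX1d]
        simp
      have e1 : pd 1 (fun y : E2 => y 0 • w + y 1 • v) = fun _ => v := by
        funext x
        rw [hX1d]
        simp
      rw [e0, e1, pd_const_at, pd_const_at]
      simp
    · intro x hx
      rw [hlap hX2c x hx, hX200 x hx, pd_congr_on hV hX21 hx, pd_const_at,
        (hh _ (hVJ x hx)).2.2.1]
      have hεε : ε * ε = 1 := by rcases hε with h | h <;> rw [h] <;> norm_num
      rw [smul_zero, add_zero, smul_smul, ← neg_smul]
      congr 1
      linear_combination c * hεε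
    · rintro ⟨u, hu⟩
      obtain ⟨x, hx⟩ := hne
      have h3 : pd 1 (fun y : E2 => y 0 • w + y 1 • v) x = pd 1 (fun _ : E2 => u) x :=
        pd_congr_on hV hu hx 1
      rw [hX1d, pd_const_at] at h3
      simp at h3
      exact hv0 h3
    · rintro ⟨u, hu⟩
      obtain ⟨x, hx⟩ := hne
      have h3 : ∀ y ∈ V, pd 0 (fun y : E2 => γ (y 0) - x0 - y 0 • w) y = 0 := by
        intro y hy
        rw [pd_congr_on hV hu hy, pd_const_at]
      have h4 := hX200 x hx
      rw [pd_congr_on hV h3 hx, pd_const_at] at h4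
      exact (hh _ (hVJ x hx)).2.2.2 h4.symm

end Pool.H60.NC
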