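import Pool.Agent.H60.NC.Ric
import Pool.Agent.H60.NC.LapR

/-!
# Converse for the B-scrolls: surface with flat normal bundle

`F x = p(x 1) + q(x 1) + x 0 • b(x 1)`.  `F_0 = b`, `F_1 = p' + q' + x 0 • b'`, `b' = m q`.
`<q,b> = 0` (differentiate `<b,b> = 0`), `<q',q> = 0`, `<b,q'> = -<b',q> = -m (2/c)`.
Metric: `g_00 = 0`, `g_01 = <b, p' + q'> + x 0 <b,b'> = -2m/c ≠ 0`, so `det g = -g_01^2 ≠ 0`.
Flat normal bundle by `flat_of_ricci`: `F_00 = 0`, `g^11 = g_00/det g = 0`, so only the terms with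
`(k,l) = (0,1), (1,0)` could contribute (for `(0,0)`: `normalPart (∂_0 F_0) = 0` and
`<∂_0 F_0, n> = 0`).  `(0,1)`: `<∂_1 F_0, n> normalPart(∂_0 F_1) - 0`; `(1,0)`:
`<∂_1 F_1, n> normalPart(∂_0 F_0) - <∂_0 F_1, n> normalPart(∂_1 F_0)
= -<∂_0 F_1, n> normalPart(∂_1 F_0)`; they cancel since `∂_0 F_1 = ∂_1 F_0 = b'`.
-/

namespace Pool.H60.NC

open scoped ContDiff
open Pool.Agent.H99.N2 (E2 E4 pd contDiffOn_pd contDiffOn_comp pd_comp)
open Pool.H60.PE

private theorem conB1_ip {s : ℕ} {f g : ℝ → E4} {y : ℝ} {f' g' : E4} (hf : HasDerivAt f f' y)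
    (hg : HasDerivAt g g' y) :
    HasDerivAt (fun y => ip s (f y) (g y)) (ip s f' (g y) + ip s (f y) g') y := by
  have hk : ∀ (f : ℝ → E4) (f' : E4), HasDerivAt f f' y → ∀ k : Fin 4,
      HasDerivAt (fun y => f y k) (f' k) y :=
    fun f f' hf k => ((EuclideanSpace.proj k : E4 →L[ℝ] ℝ).hasFDerivAt).comp_hasDerivAt y hf
  have h := HasDerivAt.fun_sum (u := Finset.univ) fun k (_ : k ∈ Finset.univ) =>
    (((hk f f' hf k).mul (hk g g' hg k)).const_mul (sgn s k))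
  refine HasDerivAt.congr_deriv h ?_
  unfold ip
  rw [← Finset.sum_add_distrib]
  refine Finset.sum_congr rfl fun k _ => ?_
  ring

private theorem conB1_coord {J : Set ℝ} {g : ℝ → E4} (hg : ContDiffOn ℝ ∞ g J) {V : Set E2}
    (k : Fin 2) (hV : ∀ x ∈ V, x k ∈ J) : ContDiffOn ℝ ∞ (fun x : E2 => g (x k)) V :=
  hg.comp ((EuclideanSpace.proj k : E2 →L[ℝ] ℝ).contDiff.contDiffOn) fun x hx => hV x hx

private theorem conB1_deriv {J : Set ℝ} (hJ : IsOpen J) {g : ℝ → E4} (hg : ContDiffOn ℝ ∞ g J) :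
    ContDiffOn ℝ ∞ (deriv g) J := by
  exact hg.deriv_of_isOpen hJ (by simp)

private theorem conB1_diff {J : Set ℝ} (hJ : IsOpen J) {g : ℝ → E4} (hg : ContDiffOn ℝ ∞ g J)
    {y : ℝ} (hy : y ∈ J) : DifferentiableAt ℝ g y :=
  (hg.contDiffAt (hJ.mem_nhds hy)).differentiableAt (by simp)

theorem con_B1 {s : ℕ} {c : ℝ} (hc : c ≠ 0) {V : Set E2} (hV : IsOpen V)
    {F : E2 → E4} (h : IsBScroll s c F V) : IsSurface s F V ∧ FlatNormalBundle s F V := by
  obtain ⟨J, p, q, b, m, hJ, hVJ, hp, hq, hb, hm, hy, hF⟩ := h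
  have hip0 : ∀ v : E4, ip s 0 v = 0 := by
    intro v
    unfold ip
    simp
  have hip0' : ∀ v : E4, ip s v 0 = 0 := by
    intro v
    unfold ip
    simp
  -- the curve identities
  have hbb' : ∀ y ∈ J, ip s (b y) (deriv b y) = 0 := by
    intro y hyJ
    have h1 := conB1_ip (s := s) (conB1_diff hJ hb hyJ).hasDerivAt (conB1_diff hJ hb hyJ).hasDerivAt
    have h2 : (fun y => ip s (b y) (b y)) =ᶠ[nhds y] fun _ => (0 : ℝ) := by
      filter_upwards [hJ.mem_nhds hyJ] with z hz using (hy z hz).1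
    have h3 : HasDerivAt (fun y => ip s (b y) (b y)) 0 y :=
      (hasDerivAt_const y (0 : ℝ)).congr_of_eventuallyEq h2
    have h4 := h1.unique h3
    rw [ip_comm s (deriv b y) (b y)] at h4
    linarith
  have hbq : ∀ y ∈ J, ip s (b y) (q y) = 0 := by
    intro y hyJ
    have h1 := hbb' y hyJ
    rw [(hy y hyJ).2.2.1, ip_smul] at h1
    exact (mul_eq_zero.1 h1).resolve_left (hy y hyJ).2.2.2.1
  have hbq' : ∀ y ∈ J, ip s (b y) (deriv q y) = -(m y * (2 / c)) := by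
    intro y hyJ
    have h1 := conB1_ip (s := s) (conB1_diff hJ hb hyJ).hasDerivAt (conB1_diff hJ hq hyJ).hasDerivAt
    have h2 : (fun y => ip s (b y) (q y)) =ᶠ[nhds y] fun _ => (0 : ℝ) := by
      filter_upwards [hJ.mem_nhds hyJ] with z hz using hbq z hz
    have h3 : HasDerivAt (fun y => ip s (b y) (q y)) 0 y :=
      (hasDerivAt_const y (0 : ℝ)).congr_of_eventuallyEq h2
    have h4 := h1.unique h3
    rw [(hy y hyJ).2.2.1, ip_comm s (m y • q y) (q y), ip_smul, (hy y hyJ).2.1] at h4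
    linarith
  -- smoothness
  have hpV := conB1_coord hp 1 hVJ
  have hqV := conB1_coord hq 1 hVJ
  have hbV := conB1_coord hb 1 hVJ
  have hp'V := conB1_coord (conB1_deriv hJ hp) 1 hVJ
  have hq'V := conB1_coord (conB1_deriv hJ hq) 1 hVJ
  have hb'V := conB1_coord (conB1_deriv hJ hb) 1 hVJ
  have hc0 : ContDiffOn ℝ ∞ (fun x : E2 => x 0) V :=
    (EuclideanSpace.proj 0 : E2 →L[ℝ] ℝ).contDiff.contDiffOn
  have hFs : ContDiffOn ℝ ∞ F V :=
    ((hpV.add hqV).add (hc0.smul hbV)).congr fun x hx => hF x hx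
  -- first derivatives
  have hd0 : ∀ x ∈ V, pd 0 F x = b (x 1) := by
    intro x hx
    rw [pd_congr_on hV hF hx 0, pd_add_at ((smooth_diffAt hV hpV hx).fun_add (smooth_diffAt hV hqV hx))
      ((smooth_diffAt hV hc0 hx).fun_smul (smooth_diffAt hV hbV hx)),
      pd_add_at (smooth_diffAt hV hpV hx) (smooth_diffAt hV hqV hx),
      pd_smul_at (smooth_diffAt hV hc0 hx) (smooth_diffAt hV hbV hx),
      pd_comp_coord 1 0 (conB1_diff hJ hp (hVJ x hx)), pd_comp_coord 1 0 (conB1_diff hJ hq (hVJ x hx)),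
      pd_comp_coord 1 0 (conB1_diff hJ hb (hVJ x hx)), pd_coord]
    simp
  have hd1 : ∀ x ∈ V, pd 1 F x = deriv p (x 1) + deriv q (x 1) + x 0 • deriv b (x 1) := by
    intro x hx
    rw [pd_congr_on hV hF hx 1, pd_add_at ((smooth_diffAt hV hpV hx).fun_add (smooth_diffAt hV hqV hx))
      ((smooth_diffAt hV hc0 hx).fun_smul (smooth_diffAt hV hbV hx)),
      pd_add_at (smooth_diffAt hV hpV hx) (smooth_diffAt hV hqV hx),
      pd_smul_at (smooth_diffAt hV hc0 hx) (smooth_diffAt hV hbV hx),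
      pd_comp_coord 1 1 (conB1_diff hJ hp (hVJ x hx)), pd_comp_coord 1 1 (conB1_diff hJ hq (hVJ x hx)),
      pd_comp_coord 1 1 (conB1_diff hJ hb (hVJ x hx)), pd_coord]
    simp
  -- second derivatives
  have hd00 : ∀ x ∈ V, pd 0 (pd 0 F) x = 0 := by
    intro x hx
    rw [pd_congr_on hV hd0 hx 0, pd_comp_coord 1 0 (conB1_diff hJ hb (hVJ x hx))]
    simp
  have hd10 : ∀ x ∈ V, pd 1 (pd 0 F) x = deriv b (x 1) := by
    intro x hx
    rw [pd_congr_on hV hd0 hx 1, pd_comp_coord 1 1 (conB1_diff hJ hb (hVJ x hx))]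
    simp
  have hd01 : ∀ x ∈ V, pd 0 (pd 1 F) x = deriv b (x 1) := by
    intro x hx
    rw [pd_congr_on hV hd1 hx 0,
      pd_add_at ((smooth_diffAt hV hp'V hx).fun_add (smooth_diffAt hV hq'V hx))
      ((smooth_diffAt hV hc0 hx).fun_smul (smooth_diffAt hV hb'V hx)),
      pd_add_at (smooth_diffAt hV hp'V hx) (smooth_diffAt hV hq'V hx),
      pd_smul_at (smooth_diffAt hV hc0 hx) (smooth_diffAt hV hb'V hx),
      pd_comp_coord 1 0 (conB1_diff hJ (conB1_deriv hJ hp) (hVJ x hx)),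
      pd_comp_coord 1 0 (conB1_diff hJ (conB1_deriv hJ hq) (hVJ x hx)),
      pd_comp_coord 1 0 (conB1_diff hJ (conB1_deriv hJ hb) (hVJ x hx)), pd_coord]
    simp
  -- the metric
  have hg00 : ∀ x ∈ V, metric s F x 0 0 = 0 := by
    intro x hx
    rw [metric_app, hd0 x hx]
    exact (hy (x 1) (hVJ x hx)).1
  have hg01 : ∀ x ∈ V, metric s F x 0 1 = -(m (x 1) * (2 / c)) := by
    intro x hx
    have hxJ := hVJ x hx
    rw [metric_app, hd0 x hx, hd1 x hx, ip_add, ip_add, ip_smul, hbb' _ hxJ, hbq' _ hxJ,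
      ip_comm s (b (x 1)) (deriv p (x 1)), (hy _ hxJ).2.2.2.2.1]
    ring
  have hdet : ∀ x ∈ V, (metric s F x).det ≠ 0 := by
    intro x hx
    have hm0 := (hy (x 1) (hVJ x hx)).2.2.2.1
    have h2 : metric s F x 0 1 ≠ 0 := by
      rw [hg01 x hx]
      exact neg_ne_zero.2 (mul_ne_zero hm0 (div_ne_zero two_ne_zero hc))
    rw [metric_det, hg00 x hx, zero_mul, zero_sub]
    exact neg_ne_zero.2 (mul_ne_zero h2 h2)
  have hS : IsSurface s F V := ⟨hFs, hdet⟩
  refine ⟨hS, flat_of_ricci hV hS ?_⟩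
  intro x hx n hn
  have hN0 : normalPart s F x 0 = 0 := by
    apply normalPart_eq (hdet x hx) (a := 0) (b := 0) (n := 0)
    · simp
    · intro k
      exact hip0' _
  have h11 : (metric s F x)⁻¹ 1 1 = 0 := by
    rw [metric_inv]
    simp [hg00 x hx]
  have hsym : (metric s F x)⁻¹ 1 0 = (metric s F x)⁻¹ 0 1 := by
    rw [metric_inv, metric_inv]
    simp
  simp only [Fin.sum_univ_two]
  rw [h11, hsym, hd00 x hx, hd01 x hx, hd10 x hx, hN0, hip0]
  simp

end Pool.H60.NC
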