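import Pool.Agent.H60.NC.ConB1
import Pool.Agent.H60.NC.LapR

/-!
# Converse for the B-scrolls: null 2-type

`F x = p(x 1) + q(x 1) + x 0 • b(x 1)`, notation as in `ConB1`; `f = g_01 = -2m/c` is a function of
`x 1` without zeros, `g_00 = 0`, `g_11 = G = <F_1,F_1>`, `det g = -f^2`, `vol = |f|`,
`g^00 = -G/f^2`, `g^01 = 1/f`, `g^11 = 0`.  From the definition of `lap`
(`|f|` and `f` differ by a locally constant sign):
`Δ h = -(1/f) (2 ∂_0 ∂_1 h - ∂_0 (G ∂_0 h)/f)`.
`X1 x = p(x 1)`: `∂_0 X1 = 0`, `Δ X1 = 0`, not constant since `p' ≠ 0` and `V` is open and nonempty.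
`X2 x = q(x 1) + x 0 • b(x 1)`: `∂_0 X2 = b`, `∂_0 ∂_1 X2 = b' = m q`, `∂_0 ∂_0 X2 = 0`,
`∂_0 G = 2 <F_1, b'> = 2 m <F_1, q> = 2 m (x 0) m <q,q> = 4 m^2 (x 0)/c` (`<p',q> = <q',q> = 0`), so
`Δ X2 = -(1/f)(2 m q - (∂_0 G) b/f) = c q + (∂_0 G/f^2) b = c q + c (x 0) b = c X2`.  `X2` is not
constant: `∂_0 X2 = b ≠ 0` (`b' = m q ≠ 0`; if `b(y) = 0` then `f(y) = <b,q'> = 0`, a contradiction).
-/

namespace Pool.H60.NC

open scoped ContDiff
open Pool.Agent.H99.N2 (E2 E4 pd contDiffOn_pd contDiffOn_comp pd_comp)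
open Pool.H60.PE

private theorem ConB2_ip_deriv (s : ℕ) {a b : ℝ → E4} {a' b' : E4} {t : ℝ}
    (ha : HasDerivAt a a' t) (hb : HasDerivAt b b' t) :
    HasDerivAt (fun t => ip s (a t) (b t)) (ip s a' (b t) + ip s (a t) b') t := by
  have hk : ∀ {a : ℝ → E4} {a' : E4}, HasDerivAt a a' t → ∀ k : Fin 4,
      HasDerivAt (fun y => a y k) (a' k) t := fun {a a'} h k =>
    ((EuclideanSpace.proj k : E4 →L[ℝ] ℝ).hasFDerivAt).comp_hasDerivAt t h
  have h := HasDerivAt.fun_sum (u := Finset.univ) fun k (_ : k ∈ Finset.univ) =>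
    (((hk ha k).mul (hk hb k)).const_mul (sgn s k))
  have h' : HasDerivAt (fun t => ip s (a t) (b t)) _ t := h
  convert h' using 1
  unfold ip
  rw [← Finset.sum_add_distrib]
  exact Finset.sum_congr rfl fun k _ => by ring

private theorem ConB2_diff {J : Set ℝ} (hJ : IsOpen J) {a : ℝ → E4} (ha : ContDiffOn ℝ ∞ a J) {t : ℝ}
    (ht : t ∈ J) : HasDerivAt a (deriv a t) t :=
  ((ha.contDiffAt (hJ.mem_nhds ht)).differentiableAt (by simp)).hasDerivAt

private theorem ConB2_smooth {J : Set ℝ} (hJ : IsOpen J) {a : ℝ → E4} (ha : ContDiffOn ℝ ∞ a J) :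
    ContDiffOn ℝ ∞ (deriv a) J :=
  ha.deriv_of_isOpen hJ (by simp)

private theorem ConB2_lap {s : ℕ} {V : Set E2} (hV : IsOpen V) {X : E2 → E4} (hX : IsSurface s X V)
    {f : E2 → ℝ} (hf : ContDiffOn ℝ ∞ f V) (hfne : ∀ y ∈ V, f y ≠ 0)
    (h00 : ∀ y ∈ V, metric s X y 0 0 = 0) (h01 : ∀ y ∈ V, metric s X y 0 1 = f y)
    {h : E2 → E4} (hh : ContDiffOn ℝ ∞ h V) {x : E2} (hx : x ∈ V) :
    lap s X h x = -((f x)⁻¹ • (pd 0 (fun y => -(metric s X y 1 1 / f y) • pd 0 h y + pd 1 h y) x +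
      pd 1 (fun y => pd 0 h y) x)) := by
  have hdet : ∀ y ∈ V, (metric s X y).det = -(f y) ^ 2 := by
    intro y hy
    rw [metric_det, h00 y hy, h01 y hy]; ring
  have hvol : ∀ y ∈ V, vol s X y = |f y| := by
    intro y hy
    unfold vol
    rw [hdet y hy, abs_neg, abs_of_nonneg (sq_nonneg _), Real.sqrt_sq_eq_abs]
  have hi00 : ∀ y ∈ V, (metric s X y)⁻¹ 0 0 = -(metric s X y 1 1) / (f y) ^ 2 := by
    intro y hy
    rw [metric_inv, hdet y hy]
    show metric s X y 1 1 / _ = _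
    rw [div_neg, neg_div]
  have hi01 : ∀ y ∈ V, (metric s X y)⁻¹ 0 1 = 1 / f y := by
    intro y hy
    rw [metric_inv, hdet y hy]
    show -metric s X y 0 1 / _ = _
    rw [h01 y hy]
    have := hfne y hy
    field_simp
  have hi10 : ∀ y ∈ V, (metric s X y)⁻¹ 1 0 = 1 / f y := by
    intro y hy
    rw [metric_inv, hdet y hy]
    show -metric s X y 0 1 / _ = _
    rw [h01 y hy]
    have := hfne y hy
    field_simp
  have hi11 : ∀ y ∈ V, (metric s X y)⁻¹ 1 1 = 0 := by
    intro y hy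
    rw [metric_inv, hdet y hy]
    show metric s X y 0 0 / _ = _
    rw [h00 y hy, zero_div]
  -- the sign
  set σ : ℝ := |f x| / f x with hσ
  have hfx := hfne x hx
  have hσne : σ ≠ 0 := div_ne_zero (abs_ne_zero.2 hfx) hfx
  have hsig : ∀ᶠ y in nhds x, y ∈ V ∧ |f y| = σ * f y := by
    have hc : ContinuousAt f x := (hf.contDiffAt (hV.mem_nhds hx)).continuousAt
    have hpos : ∀ᶠ y in nhds x, 0 < f y * f x := by
      have h1 : ContinuousAt (fun y => f y * f x) x := hc.mul continuousAt_const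
      exact h1.eventually (lt_mem_nhds (by
        show 0 < f x * f x
        exact mul_self_pos.2 hfx))
    filter_upwards [hV.mem_nhds hx, hpos] with y hy hp
    refine ⟨hy, ?_⟩
    rw [hσ]
    rcases lt_or_gt_of_ne hfx with h1 | h1
    · have h2 : f y < 0 := by
        by_contra h3
        push Not at h3
        have := mul_nonpos_of_nonneg_of_nonpos h3 h1.le
        linarith
      rw [abs_of_neg h1, abs_of_neg h2]
      field_simp
    · have h2 : 0 < f y := by
        by_contra h3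
        push Not at h3
        have := mul_nonpos_of_nonpos_of_nonneg h3 h1.le
        linarith
      rw [abs_of_pos h1, abs_of_pos h2]
      field_simp
  have hG := contDiffOn_metric hV hX 1 1
  have hd0 : DifferentiableAt ℝ (fun y => -(metric s X y 1 1 / f y) • pd 0 h y + pd 1 h y) x := by
    apply smooth_diffAt hV _ hx
    exact (((hG.div hf hfne).neg).smul (contDiffOn_pd hV hh 0)).add (contDiffOn_pd hV hh 1)
  have hd1 : DifferentiableAt ℝ (fun y => pd 0 h y) x :=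
    smooth_diffAt hV (contDiffOn_pd hV hh 0) hx
  unfold lap
  rw [Fin.sum_univ_two]
  have e0 : pd 0 (fun y => ∑ j, (vol s X y * (metric s X y)⁻¹ 0 j) • pd j h y) x =
      σ • pd 0 (fun y => -(metric s X y 1 1 / f y) • pd 0 h y + pd 1 h y) x := by
    rw [← pd_const_smul_at hd0]
    apply pd_congr
    filter_upwards [hsig] with y hy
    obtain ⟨hy, hs⟩ := hy
    have hfy := hfne y hy
    rw [Fin.sum_univ_two, hvol y hy, hi00 y hy, hi01 y hy, hs, smul_add, smul_smul]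
    congr 1
    · congr 1
      field_simp
    · congr 1
      field_simp
  have e1 : pd 1 (fun y => ∑ j, (vol s X y * (metric s X y)⁻¹ 1 j) • pd j h y) x =
      σ • pd 1 (fun y => pd 0 h y) x := by
    rw [← pd_const_smul_at hd1]
    apply pd_congr
    filter_upwards [hsig] with y hy
    obtain ⟨hy, hs⟩ := hy
    have hfy := hfne y hy
    rw [Fin.sum_univ_two, hvol y hy, hi10 y hy, hi11 y hy, hs, mul_zero, zero_smul, add_zero]
    congr 1
    field_simp
  rw [e0, e1, ← smul_add, smul_smul, hvol x hx]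
  congr 2
  rw [hσ]
  have h5 : |f x| ≠ 0 := abs_ne_zero.2 hfx
  field_simp

theorem con_B2 {s : ℕ} {c : ℝ} (hc : c ≠ 0) {V : Set E2} (hV : IsOpen V) (hne : V.Nonempty)
    {F : E2 → E4} (h : IsBScroll s c F V) : IsNullTwoType s F V := by
  obtain ⟨hX, -⟩ := con_B1 hc hV h
  obtain ⟨J, p, q, b, m, hJ, hVJ, hp, hq, hb, hm, hrel, hF⟩ := h
  -- relations on the interval
  have hdp := fun y (hy : y ∈ J) => ConB2_diff hJ hp hy
  have hdq := fun y (hy : y ∈ J) => ConB2_diff hJ hq hy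
  have hdb := fun y (hy : y ∈ J) => ConB2_diff hJ hb hy
  have ev : ∀ y ∈ J, ∀ᶠ z in nhds y, z ∈ J := fun y hy => hJ.mem_nhds hy
  have r1 : ∀ y ∈ J, ip s (q y) (b y) = 0 := by
    intro y hy
    have h1 := ConB2_ip_deriv s (hdb y hy) (hdb y hy)
    have h2 : HasDerivAt (fun t => ip s (b t) (b t)) 0 y := by
      apply (hasDerivAt_const y (0 : ℝ)).congr_of_eventuallyEq
      filter_upwards [ev y hy] with z hz
      exact (hrel z hz).1
    have h3 := h1.unique h2
    rw [(hrel y hy).2.2.1, ip_comm s _ (b y), ip_smul] at h3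
    have h4 : m y * ip s (b y) (q y) = 0 := by linarith
    rw [ip_comm]
    exact (mul_eq_zero.1 h4).resolve_left (hrel y hy).2.2.2.1
  have r2 : ∀ y ∈ J, ip s (deriv q y) (b y) = -(2 * m y / c) := by
    intro y hy
    have h1 := ConB2_ip_deriv s (hdq y hy) (hdb y hy)
    have h2 : HasDerivAt (fun t => ip s (q t) (b t)) 0 y := by
      apply (hasDerivAt_const y (0 : ℝ)).congr_of_eventuallyEq
      filter_upwards [ev y hy] with z hz
      exact r1 z hz
    have h3 := h1.unique h2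
    rw [(hrel y hy).2.2.1, ip_smul, (hrel y hy).2.1] at h3
    have h5 : m y * (2 / c) = 2 * m y / c := by ring
    rw [h5] at h3
    linarith
  have r3 : ∀ y ∈ J, ip s (deriv q y) (q y) = 0 := by
    intro y hy
    have h1 := ConB2_ip_deriv s (hdq y hy) (hdq y hy)
    have h2 : HasDerivAt (fun t => ip s (q t) (q t)) 0 y := by
      apply (hasDerivAt_const y (2 / c : ℝ)).congr_of_eventuallyEq
      filter_upwards [ev y hy] with z hz
      exact (hrel z hz).2.1
    have h3 := h1.unique h2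
    rw [ip_comm s (q y)] at h3
    linarith
  -- derivatives of the functions of one coordinate
  have c1 : ∀ {a : ℝ → E4}, ContDiffOn ℝ ∞ a J → ∀ y ∈ V, DifferentiableAt ℝ a (y 1) :=
    fun ha y hy => (ConB2_diff hJ ha (hVJ y hy)).differentiableAt
  have hcoordS : ∀ k : Fin 2, ContDiffOn ℝ ∞ (fun y : E2 => y k) V := fun k =>
    (EuclideanSpace.proj k : E2 →L[ℝ] ℝ).contDiff.contDiffOn
  have cS : ∀ {a : ℝ → E4}, ContDiffOn ℝ ∞ a J → ContDiffOn ℝ ∞ (fun y : E2 => a (y 1)) V :=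
    fun ha => ha.comp (hcoordS 1) hVJ
  have cd : ∀ {a : ℝ → E4}, ContDiffOn ℝ ∞ a J → ∀ y ∈ V,
      DifferentiableAt ℝ (fun y : E2 => a (y 1)) y := fun ha y hy => smooth_diffAt hV (cS ha) hy
  have p0 : ∀ {a : ℝ → E4}, ContDiffOn ℝ ∞ a J → ∀ y ∈ V, pd 0 (fun y : E2 => a (y 1)) y = 0 := by
    intro a ha y hy
    rw [pd_comp_coord 1 0 (c1 ha y hy), if_neg (by decide)]
  have p1 : ∀ {a : ℝ → E4}, ContDiffOn ℝ ∞ a J → ∀ y ∈ V,
      pd 1 (fun y : E2 => a (y 1)) y = deriv a (y 1) := by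
    intro a ha y hy
    rw [pd_comp_coord 1 1 (c1 ha y hy), if_pos rfl]
  have dk : ∀ (k : Fin 2) (y : E2), y ∈ V → DifferentiableAt ℝ (fun y : E2 => y k) y :=
    fun k y hy => smooth_diffAt hV (hcoordS k) hy
  have q0 : ∀ {a : ℝ → E4}, ContDiffOn ℝ ∞ a J → ∀ y ∈ V,
      pd 0 (fun y : E2 => y 0 • a (y 1)) y = a (y 1) := by
    intro a ha y hy
    rw [pd_smul_at (dk 0 y hy) (cd ha y hy), p0 ha y hy, pd_coord, if_pos rfl, smul_zero, zero_add,
      one_smul]
  have q1 : ∀ {a : ℝ → E4}, ContDiffOn ℝ ∞ a J → ∀ y ∈ V,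
      pd 1 (fun y : E2 => y 0 • a (y 1)) y = y 0 • deriv a (y 1) := by
    intro a ha y hy
    rw [pd_smul_at (dk 0 y hy) (cd ha y hy), p1 ha y hy, pd_coord, if_neg (by decide), zero_smul,
      add_zero]
  have cs : ∀ {a : ℝ → E4}, ContDiffOn ℝ ∞ a J →
      ContDiffOn ℝ ∞ (fun y : E2 => y 0 • a (y 1)) V := fun ha => (hcoordS 0).smul (cS ha)
  -- the two parts
  have X2S : ContDiffOn ℝ ∞ (fun y : E2 => q (y 1) + y 0 • b (y 1)) V := (cS hq).add (cs hb)
  have X2_0 : ∀ y ∈ V, pd 0 (fun y : E2 => q (y 1) + y 0 • b (y 1)) y = b (y 1) := by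
    intro y hy
    rw [pd_add_at (cd hq y hy) (smooth_diffAt hV (cs hb) hy), p0 hq y hy, q0 hb y hy, zero_add]
  have X2_1 : ∀ y ∈ V, pd 1 (fun y : E2 => q (y 1) + y 0 • b (y 1)) y =
      deriv q (y 1) + y 0 • deriv b (y 1) := by
    intro y hy
    rw [pd_add_at (cd hq y hy) (smooth_diffAt hV (cs hb) hy), p1 hq y hy, q1 hb y hy]
  have hFe : ∀ y ∈ V, F y = p (y 1) + (q (y 1) + y 0 • b (y 1)) := by
    intro y hy
    rw [hF y hy, add_assoc]
  have F0 : ∀ y ∈ V, pd 0 F y = b (y 1) := by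
    intro y hy
    rw [pd_congr_on hV hFe hy, pd_add_at (cd hp y hy) (smooth_diffAt hV X2S hy), p0 hp y hy,
      X2_0 y hy, zero_add]
  have F1 : ∀ y ∈ V, pd 1 F y = deriv p (y 1) + (deriv q (y 1) + y 0 • deriv b (y 1)) := by
    intro y hy
    rw [pd_congr_on hV hFe hy, pd_add_at (cd hp y hy) (smooth_diffAt hV X2S hy), p1 hp y hy,
      X2_1 y hy]
  -- the metric
  have hmne : ∀ y ∈ V, m (y 1) ≠ 0 := fun y hy => (hrel _ (hVJ y hy)).2.2.2.1
  have g00 : ∀ y ∈ V, metric s F y 0 0 = 0 := by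
    intro y hy
    show ip s (pd 0 F y) (pd 0 F y) = 0
    rw [F0 y hy]
    exact (hrel _ (hVJ y hy)).1
  have g01 : ∀ y ∈ V, metric s F y 0 1 = -(2 * m (y 1) / c) := by
    intro y hy
    show ip s (pd 0 F y) (pd 1 F y) = _
    have hr := hrel _ (hVJ y hy)
    rw [F0 y hy, F1 y hy, ip_add, ip_add, ip_smul, hr.2.2.1, ip_smul, ip_comm s (b (y 1)),
      hr.2.2.2.2.1, ip_comm s (b (y 1)), r2 _ (hVJ y hy), ip_comm s (b (y 1)), r1 _ (hVJ y hy)]
    ring
  have hmS : ContDiffOn ℝ ∞ (fun y : E2 => m (y 1)) V := hm.comp (hcoordS 1) hVJ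
  have fS : ContDiffOn ℝ ∞ (fun y : E2 => -(2 * m (y 1) / c)) V :=
    ((contDiffOn_const.mul hmS).div_const c).neg
  have fne : ∀ y ∈ V, -(2 * m (y 1) / c) ≠ 0 := fun y hy =>
    neg_ne_zero.2 (div_ne_zero (mul_ne_zero two_ne_zero (hmne y hy)) hc)
  have hlap := fun {h : E2 → E4} (hh : ContDiffOn ℝ ∞ h V) {x : E2} (hx : x ∈ V) =>
    ConB2_lap hV hX fS fne g00 g01 hh hx
  have hm0 : ∀ y ∈ V, pd 0 (fun y : E2 => m (y 1)) y = 0 := by
    intro y hy
    have : DifferentiableAt ℝ m (y 1) :=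
      (hm.contDiffAt (hJ.mem_nhds (hVJ y hy))).differentiableAt (by simp)
    rw [pd_comp_coord 1 0 this, if_neg (by decide)]
  refine ⟨0, fun y => p (y 1), fun y => q (y 1) + y 0 • b (y 1), c, hc, cS hp, X2S, ?_, ?_, ?_, ?_,
    ?_⟩
  · intro y hy
    rw [hFe y hy, zero_add]
  · intro x hx
    rw [hlap (cS hp) hx]
    have e0 : pd 0 (fun y => -(metric s F y 1 1 / -(2 * m (y 1) / c)) •
        pd 0 (fun y : E2 => p (y 1)) y + pd 1 (fun y : E2 => p (y 1)) y) x = 0 := by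
      rw [pd_congr_on hV (g := fun y : E2 => deriv p (y 1)) (fun y hy => by
        rw [p0 hp y hy, p1 hp y hy, smul_zero, zero_add]) hx]
      exact p0 (ConB2_smooth hJ hp) x hx
    have e1 : pd 1 (fun y => pd 0 (fun y : E2 => p (y 1)) y) x = 0 := by
      rw [pd_congr_on hV (g := fun _ : E2 => (0 : E4)) (fun y hy => p0 hp y hy) hx]
      exact pd_const_at 0 x 1
    rw [e0, e1, add_zero, smul_zero, neg_zero]
  · intro x hx
    rw [hlap X2S hx]
    have hr := hrel _ (hVJ x hx)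
    have e1 : pd 1 (fun y => pd 0 (fun y : E2 => q (y 1) + y 0 • b (y 1)) y) x =
        m (x 1) • q (x 1) := by
      rw [pd_congr_on hV (g := fun y : E2 => b (y 1)) (fun y hy => X2_0 y hy) hx, p1 hb x hx,
        hr.2.2.1]
    -- derivative of `G`
    have hF1S : ContDiffOn ℝ ∞ (fun y : E2 => deriv p (y 1) + (deriv q (y 1) +
        y 0 • deriv b (y 1))) V :=
      (cS (ConB2_smooth hJ hp)).add ((cS (ConB2_smooth hJ hq)).add (cs (ConB2_smooth hJ hb)))
    have hF1_0 : pd 0 (fun y : E2 => deriv p (y 1) + (deriv q (y 1) + y 0 • deriv b (y 1))) x =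
        deriv b (x 1) := by
      rw [pd_add_at (cd (ConB2_smooth hJ hp) x hx) (smooth_diffAt hV
        ((cS (ConB2_smooth hJ hq)).add (cs (ConB2_smooth hJ hb))) hx),
        pd_add_at (cd (ConB2_smooth hJ hq) x hx) (smooth_diffAt hV (cs (ConB2_smooth hJ hb)) hx),
        p0 (ConB2_smooth hJ hp) x hx, p0 (ConB2_smooth hJ hq) x hx, q0 (ConB2_smooth hJ hb) x hx,
        zero_add, zero_add]
    have hGd : pd 0 (fun y => metric s F y 1 1) x = 4 * (m (x 1)) ^ 2 * x 0 / c := by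
      rw [pd_congr_on hV (g := fun y : E2 => ip s (deriv p (y 1) + (deriv q (y 1) +
        y 0 • deriv b (y 1))) (deriv p (y 1) + (deriv q (y 1) + y 0 • deriv b (y 1)))) (fun y hy => by
          show ip s (pd 1 F y) (pd 1 F y) = _
          rw [F1 y hy]) hx, pd_ip (smooth_diffAt hV hF1S hx) (smooth_diffAt hV hF1S hx), hF1_0,
        ip_comm s _ (deriv b (x 1)), hr.2.2.1, ip_comm s (m (x 1) • q (x 1)), ip_smul,
        ip_comm s _ (q (x 1)), ip_add, ip_add, ip_smul, ip_smul, hr.2.1, ip_comm s (q (x 1)),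
        hr.2.2.2.2.2.1, ip_comm s (q (x 1)), r3 _ (hVJ x hx)]
      ring
    have hGS := contDiffOn_metric hV hX 1 1
    have hfd0 : pd 0 (fun y : E2 => -(metric s F y 1 1 / -(2 * m (y 1) / c))) x = 2 * m (x 1) * x 0 := by
      have h1 : DifferentiableAt ℝ (fun y => metric s F y 1 1) x := smooth_diffAt hV hGS hx
      have h2S : ContDiffOn ℝ ∞ (fun y : E2 => c / (2 * m (y 1))) V :=
        contDiffOn_const.div (contDiffOn_const.mul hmS)
          (fun y hy => mul_ne_zero two_ne_zero (hmne y hy))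
      have h2 : DifferentiableAt ℝ (fun y : E2 => c / (2 * m (y 1))) x := smooth_diffAt hV h2S hx
      have h3 : pd 0 (fun y : E2 => c / (2 * m (y 1))) x = 0 := by
        have hd : DifferentiableAt ℝ (fun u : ℝ => c / (2 * m u)) (x 1) := by
          have h4 : DifferentiableAt ℝ m (x 1) :=
            (hm.contDiffAt (hJ.mem_nhds (hVJ x hx))).differentiableAt (by simp)
          exact (differentiableAt_const c).div ((differentiableAt_const (2 : ℝ)).mul h4)
            (mul_ne_zero two_ne_zero (hmne x hx))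
        have := pd_comp_coord (g := fun u : ℝ => c / (2 * m u)) 1 0 hd
        rw [this, if_neg (by decide)]
      rw [pd_congr_on hV (g := fun y => metric s F y 1 1 * (c / (2 * m (y 1)))) (fun y hy => by
        have := hmne y hy
        field_simp) hx, pd_mul_at h1 h2, h3, hGd]
      have := hmne x hx
      field_simp
      ring
    have e0 : pd 0 (fun y => -(metric s F y 1 1 / -(2 * m (y 1) / c)) •
        pd 0 (fun y : E2 => q (y 1) + y 0 • b (y 1)) y +
          pd 1 (fun y : E2 => q (y 1) + y 0 • b (y 1)) y) x =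
        (2 * m (x 1) * x 0) • b (x 1) + m (x 1) • q (x 1) := by
      rw [pd_congr_on hV (g := fun y : E2 => -(metric s F y 1 1 / -(2 * m (y 1) / c)) • b (y 1) +
        (deriv q (y 1) + y 0 • deriv b (y 1))) (fun y hy => by
        rw [X2_0 y hy, X2_1 y hy]) hx]
      have s1 : ContDiffOn ℝ ∞ (fun y : E2 => -(metric s F y 1 1 / -(2 * m (y 1) / c))) V :=
        (hGS.div fS fne).neg
      have s2 : ContDiffOn ℝ ∞ (fun y : E2 => -(metric s F y 1 1 / -(2 * m (y 1) / c)) •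
          b (y 1)) V := s1.smul (cS hb)
      rw [pd_add_at (smooth_diffAt hV s2 hx) (smooth_diffAt hV
          ((cS (ConB2_smooth hJ hq)).add (cs (ConB2_smooth hJ hb))) hx),
        pd_smul_at (smooth_diffAt hV s1 hx) (cd hb x hx), p0 hb x hx, hfd0, smul_zero, zero_add,
        pd_add_at (cd (ConB2_smooth hJ hq) x hx) (smooth_diffAt hV (cs (ConB2_smooth hJ hb)) hx),
        p0 (ConB2_smooth hJ hq) x hx, q0 (ConB2_smooth hJ hb) x hx, zero_add, hr.2.2.1]
    rw [e0, e1]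
    have hmx := hmne x hx
    have e5 : (2 * m (x 1) * x 0) • b (x 1) + m (x 1) • q (x 1) + m (x 1) • q (x 1) =
        (2 * m (x 1)) • (q (x 1) + x 0 • b (x 1)) := by
      module
    rw [e5, smul_smul, ← neg_smul]
    congr 1
    field_simp
  · rintro ⟨v, hv⟩
    obtain ⟨x, hx⟩ := hne
    apply (hrel _ (hVJ x hx)).2.2.2.2.2.2
    rw [← p1 hp x hx, pd_congr_on hV (g := fun _ : E2 => v) (fun y hy => hv y hy) hx, pd_const_at]
  · rintro ⟨v, hv⟩
    obtain ⟨x, hx⟩ := hne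
    have h1 : b (x 1) = 0 := by
      rw [← X2_0 x hx, pd_congr_on hV (g := fun _ : E2 => v) (fun y hy => hv y hy) hx, pd_const_at]
    have h2 := r2 _ (hVJ x hx)
    rw [h1] at h2
    have h3 : ip s (deriv q (x 1)) (0 : E4) = 0 := by
      have := ip_smul s 0 (deriv q (x 1)) (0 : E4)
      rw [zero_smul, zero_mul] at this
      exact this
    rw [h3] at h2
    exact fne x hx h2.symm

end Pool.H60.NC
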