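import Pool.Agent.H60.NC.Ric
import Pool.Agent.H60.NC.FlatC
import Pool.Agent.H60.NC.LapR

/-!
# Converse for the graphs with lightlike mean curvature vector

`F x = a + x 0 • b 0 + x 1 • b 1 + (g0 x + g1 x) • v`, `F_k = b k + G_k v` with `G = g0 + g1`; metric
`diag(ε)` (`v` is isotropic and orthogonal to the `b k`).
`F_ik = G_ik v` and `v` is normal, `normalPart v = v` (`normalPart_eq`).  Flat normal bundle
(`flat_of_ricci`): `g^kl = ε_k δ_kl`, the sum is
`Σ_k ε_k (G_1k <v,n> G_0k - G_0k <v,n> G_1k) v = 0`.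
Null 2-type: `x0 = a`, `X1 x = x 0 • b 0 + x 1 • b 1 + g0 x • v`, `X2 x = g1 x • v`; `flat_chart` with
`ψ = id`: `Δ h = -Σ ε_k h_kk`.  `X1` is not constant: `∂_0 X1 = b 0 + (∂_0 g0) v`, its product with
`b 0` is `ε_0 ≠ 0`.  `X2` is not constant on `V`: otherwise `g1` is locally constant, so
`c g1 = -Σ ε_k (g1)_kk = 0`.
-/

namespace Pool.H60.NC

open scoped ContDiff
open Pool.Agent.H99.N2 (E2 E4 pd contDiffOn_pd contDiffOn_comp pd_comp)
open Pool.H60.PE

private theorem ConC_coord (k : Fin 2) : ContDiff ℝ ∞ fun y : E2 => y k :=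
  (EuclideanSpace.proj k : E2 →L[ℝ] ℝ).contDiff

private theorem ConC_smooth {V : Set E2} {g : E2 → ℝ} (hg : ContDiffOn ℝ ∞ g V) (a v : E4)
    (b : Fin 2 → E4) :
    ContDiffOn ℝ ∞ (fun y : E2 => a + y 0 • b 0 + y 1 • b 1 + g y • v) V := by
  have h0 : ContDiffOn ℝ ∞ (fun y : E2 => y 0 • b 0) V :=
    ((ConC_coord 0).smul contDiff_const).contDiffOn
  have h1 : ContDiffOn ℝ ∞ (fun y : E2 => y 1 • b 1) V :=
    ((ConC_coord 1).smul contDiff_const).contDiffOn
  exact ((contDiffOn_const.add h0).add h1).add (hg.smul contDiffOn_const)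

private theorem ConC_pd {V : Set E2} (hV : IsOpen V) {g : E2 → ℝ} (hg : ContDiffOn ℝ ∞ g V)
    (a v : E4) (b : Fin 2 → E4) {x : E2} (hx : x ∈ V) (i : Fin 2) :
    pd i (fun y : E2 => a + y 0 • b 0 + y 1 • b 1 + g y • v) x = b i + pd i g x • v := by
  have h0 : DifferentiableAt ℝ (fun y : E2 => y 0) x :=
    ((ConC_coord 0).differentiable (by simp)) x
  have h1 : DifferentiableAt ℝ (fun y : E2 => y 1) x :=
    ((ConC_coord 1).differentiable (by simp)) x
  have hgx : DifferentiableAt ℝ g x := smooth_diffAt hV hg hx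
  have hca : DifferentiableAt ℝ (fun _ : E2 => a) x := differentiableAt_const _
  have hcv : ∀ w : E4, DifferentiableAt ℝ (fun _ : E2 => w) x := fun w => differentiableAt_const _
  have hs0 : DifferentiableAt ℝ (fun y : E2 => y 0 • b 0) x := h0.smul (hcv _)
  have hs1 : DifferentiableAt ℝ (fun y : E2 => y 1 • b 1) x := h1.smul (hcv _)
  have hsg : DifferentiableAt ℝ (fun y : E2 => g y • v) x := hgx.smul (hcv _)
  rw [pd_add_at (f := fun y : E2 => a + y 0 • b 0 + y 1 • b 1) ((hca.add hs0).add hs1) hsg,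
    pd_add_at (f := fun y : E2 => a + y 0 • b 0) (hca.add hs0) hs1,
    pd_add_at (f := fun _ : E2 => a) hca hs0, pd_const_at,
    pd_smul_at h0 (hcv (b 0)), pd_smul_at h1 (hcv (b 1)), pd_smul_at hgx (hcv v),
    pd_const_at, pd_const_at, pd_const_at, pd_coord, pd_coord]
  fin_cases i <;> simp

private theorem ConC_pd2 {V : Set E2} (hV : IsOpen V) {g : E2 → ℝ} (hg : ContDiffOn ℝ ∞ g V)
    (a v : E4) (b : Fin 2 → E4) {x : E2} (hx : x ∈ V) (i k : Fin 2) :
    pd k (pd i (fun y : E2 => a + y 0 • b 0 + y 1 • b 1 + g y • v)) x = pd k (pd i g) x • v := by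
  have h1 : pd k (pd i (fun y : E2 => a + y 0 • b 0 + y 1 • b 1 + g y • v)) x =
      pd k (fun y => b i + pd i g y • v) x :=
    pd_congr_on hV (fun y hy => ConC_pd hV hg a v b hy i) hx k
  have hd : DifferentiableAt ℝ (pd i g) x := smooth_diffAt hV (contDiffOn_pd hV hg i) hx
  have hcv : ∀ w : E4, DifferentiableAt ℝ (fun _ : E2 => w) x := fun w => differentiableAt_const _
  have hs : DifferentiableAt ℝ (fun y : E2 => pd i g y • v) x := hd.smul (hcv v)
  rw [h1, pd_add_at (f := fun _ : E2 => b i) (hcv _) hs, pd_const_at,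
    pd_smul_at hd (hcv v), pd_const_at]
  simp

private theorem ConC_pdv {V : Set E2} (hV : IsOpen V) {g : E2 → ℝ} (hg : ContDiffOn ℝ ∞ g V)
    (v : E4) {x : E2} (hx : x ∈ V) (k : Fin 2) :
    pd k (pd k (fun y : E2 => g y • v)) x = pd k (pd k g) x • v := by
  have h1 : pd k (pd k (fun y : E2 => g y • v)) x = pd k (fun y => pd k g y • v) x := by
    refine pd_congr_on hV (fun y hy => ?_) hx k
    rw [pd_smul_at (smooth_diffAt hV hg hy) (differentiableAt_const v), pd_const_at]
    simp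
  have hd : DifferentiableAt ℝ (pd k g) x := smooth_diffAt hV (contDiffOn_pd hV hg k) hx
  rw [h1, pd_smul_at hd (differentiableAt_const v), pd_const_at]
  simp

theorem con_C {s : ℕ} {c : ℝ} (hc : c ≠ 0) {V : Set E2} (hV : IsOpen V) (hne : V.Nonempty)
    {F : E2 → E4} (h : IsNullGraph s c F V) :
    IsSurface s F V ∧ FlatNormalBundle s F V ∧ IsNullTwoType s F V := by
  obtain ⟨a, v, b, ε, g0, g1, hε, hbb, hb01, hv0, hvv, hbv, hg0, hg1, hall⟩ := h
  have hG : ContDiffOn ℝ ∞ (fun y => g0 y + g1 y) V := hg0.add hg1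
  have hε0 : ∀ k, ε k ≠ 0 := fun k => by rcases hε k with h | h <;> rw [h] <;> norm_num
  have hεε : ∀ k, ε k * ε k = 1 := fun k => by rcases hε k with h | h <;> rw [h] <;> norm_num
  have hFe : ∀ y ∈ V, F y = a + y 0 • b 0 + y 1 • b 1 + (g0 y + g1 y) • v := fun y hy =>
    (hall y hy).2.2.2
  have hFs : ContDiffOn ℝ ∞ F V := (ConC_smooth hG a v b).congr hFe
  have hF1 : ∀ x ∈ V, ∀ i, pd i F x = b i + pd i (fun y => g0 y + g1 y) x • v := by
    intro x hx i
    rw [pd_congr_on hV hFe hx i]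
    exact ConC_pd hV hG a v b hx i
  have hF2 : ∀ x ∈ V, ∀ k i, pd k (pd i F) x = pd k (pd i (fun y => g0 y + g1 y)) x • v := by
    intro x hx k i
    rw [pd_congr_on hV (fun y hy => pd_congr_on hV hFe hy i) hx k]
    exact ConC_pd2 hV hG a v b hx i k
  have hvb : ∀ k, ip s v (b k) = 0 := fun k => by rw [ip_comm]; exact hbv k
  have hFv : ∀ x ∈ V, ∀ k, ip s (pd k F x) v = 0 := by
    intro x hx k
    rw [hF1 x hx k, ip_comm, ip_add, ip_smul, hvb, hvv]
    ring
  have hFF : ∀ x ∈ V, ∀ i j, ip s (pd i F x) (pd j F x) = ip s (b i) (b j) := by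
    intro x hx i j
    have e1 : ip s (pd i F x) (pd j F x) = ip s (pd i F x) (b j) := by
      conv_lhs => rw [hF1 x hx j]
      rw [ip_add, ip_smul, hFv x hx i]
      ring
    rw [e1, ip_comm, hF1 x hx i, ip_add, ip_smul, hbv j, ip_comm s (b j) (b i)]
    ring
  have hm00 : ∀ x ∈ V, metric s F x 0 0 = ε 0 := fun x hx => by
    rw [metric_app, hFF x hx, hbb]
  have hm11 : ∀ x ∈ V, metric s F x 1 1 = ε 1 := fun x hx => by
    rw [metric_app, hFF x hx, hbb]
  have hm01 : ∀ x ∈ V, metric s F x 0 1 = 0 := fun x hx => by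
    rw [metric_app, hFF x hx, hb01]
  have hdet : ∀ x ∈ V, (metric s F x).det = ε 0 * ε 1 := fun x hx => by
    rw [metric_det, hm00 x hx, hm11 x hx, hm01 x hx]
    ring
  have hS : IsSurface s F V :=
    ⟨hFs, fun x hx => by rw [hdet x hx]; exact mul_ne_zero (hε0 0) (hε0 1)⟩
  have hn : ∀ x ∈ V, ∀ r : ℝ, normalPart s F x (r • v) = r • v := by
    intro x hx r
    refine normalPart_eq (hS.2 x hx) (a := 0) (b := 0) (by simp) fun k => ?_
    rw [ip_smul, hFv x hx k, mul_zero]
  have hff : ∀ y ∈ V, ∀ i, ip s (pd i F y) (pd i F y) = ε i := fun y hy i => by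
    rw [hFF y hy, hbb]
  have hff' : ∀ y ∈ V, ip s (pd 0 F y) (pd 1 F y) = 0 := fun y hy => by
    rw [hFF y hy, hb01]
  refine ⟨hS, ?_, ?_⟩
  · refine flat_of_ricci hV hS fun x hx n hnn => ?_
    have i00 : (metric s F x)⁻¹ 0 1 = 0 := by
      rw [metric_inv]
      simp [hm01 x hx]
    have i10 : (metric s F x)⁻¹ 1 0 = 0 := by
      rw [metric_inv]
      simp [hm01 x hx]
    simp only [Fin.sum_univ_two, i00, i10, zero_smul, add_zero, zero_add]
    rw [hF2 x hx 1 0, hF2 x hx 0 0, hF2 x hx 1 1, hF2 x hx 0 1, hn x hx, hn x hx, hn x hx,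
      hn x hx]
    have e2 : ∀ r : ℝ, ip s (r • v) n = r * ip s v n := fun r => by
      rw [ip_comm, ip_smul, ip_comm]
    simp only [e2, smul_smul]
    rw [← sub_smul, ← sub_smul, smul_smul, smul_smul, ← add_smul]
    have e3 : ∀ p q A B C D N : ℝ, p * (A * N * B - B * N * A) + q * (C * N * D - D * N * C) = 0 := by
      intro p q A B C D N
      ring
    rw [e3, zero_smul]
  · refine ⟨a, fun x => (0 : E4) + x 0 • b 0 + x 1 • b 1 + g0 x • v, fun x => g1 x • v, c, hc,
      ConC_smooth hg0 0 v b, hg1.smul contDiffOn_const, ?_, ?_, ?_, ?_, ?_⟩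
    · intro x hx
      have e1 : ∀ p q r t u : E4, p + q + r + (t + u) = p + (0 + q + r + t) + u := by
        intro p q r t u
        abel
      rw [hFe x hx, add_smul]
      exact e1 _ _ _ _ _
    · intro x hx
      have h1 := flat_chart hV hV hS (ψ := fun z => z) contDiffOn_id (fun z hz => hz) hFs
        (fun z _ => rfl) hε hff hff' (ConC_smooth hg0 0 v b) hx
      rw [h1]
      have h2 := (hall x hx).1
      simp only [Fin.sum_univ_two] at h2 ⊢
      rw [ConC_pd2 hV hg0 0 v b hx, ConC_pd2 hV hg0 0 v b hx, smul_smul, smul_smul, ← add_smul,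
        ← neg_smul, h2, zero_smul]
    · intro x hx
      have h1 := flat_chart hV hV hS (ψ := fun z => z) contDiffOn_id (fun z hz => hz) hFs
        (fun z _ => rfl) hε hff hff' (h := fun y => g1 y • v) (hg1.smul contDiffOn_const) hx
      rw [h1]
      have h2 := (hall x hx).2.1
      simp only [Fin.sum_univ_two] at h2 ⊢
      rw [ConC_pdv hV hg1 v hx, ConC_pdv hV hg1 v hx, smul_smul, smul_smul, ← add_smul,
        ← neg_smul, h2, smul_smul]
    · rintro ⟨w, hw⟩
      obtain ⟨x, hx⟩ := hne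
      have h1 := ConC_pd hV hg0 0 v b hx 0
      rw [pd_congr_on hV hw hx 0, pd_const_at] at h1
      have h2 : ip s (b 0) 0 = ip s (b 0) (b 0 + pd 0 g0 x • v) := by rw [← h1]
      rw [ip_add, ip_smul, hbb, hbv, mul_zero, add_zero] at h2
      have h3 : ip s (b 0) (0 : E4) = 0 := by
        have := ip_smul s 0 (b 0) (0 : E4)
        simpa using this
      rw [h3] at h2
      exact hε0 0 h2.symm
    · rintro ⟨w, hw⟩
      obtain ⟨x, hx⟩ := hne
      have h1 : ∀ y ∈ V, g1 y = g1 x := by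
        intro y hy
        have h2 : (g1 y - g1 x) • v = 0 := by
          rw [sub_smul, sub_eq_zero]
          exact (hw y hy).trans (hw x hx).symm
        rcases smul_eq_zero.1 h2 with h3 | h3
        · linarith
        · exact (hv0 h3).elim
      have h2 : ∀ k : Fin 2, ∀ y ∈ V, pd k g1 y = 0 := fun k y hy => by
        rw [pd_congr_on hV h1 hy k, pd_const_at]
      have h3 : ∀ k : Fin 2, pd k (pd k g1) x = 0 := fun k => by
        rw [pd_congr_on hV (h2 k) hx k, pd_const_at]
      have h4 := (hall x hx).2.1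
      simp only [h3, mul_zero, Finset.sum_const_zero, neg_zero] at h4
      rcases mul_eq_zero.1 h4.symm with h5 | h5
      · exact hc h5
      · exact (hall x hx).2.2.1 h5

end Pool.H60.NC
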