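import Pool.Agent.H60.NC.TrS

/-!
# Cylinders, step 1: the constant vector

Choose `j0` with `Z_{j0}(x) ≠ 0` (by `tra`, otherwise `0 = 1`) and `k0` with `(Z_{j0}(x))_{k0} ≠ 0`, and
a ball `O` around `x` in `U` on which `(Z_{j0})_{k0} ≠ 0`.  By `dir` the derivative of
`Z_{j0}/(Z_{j0})_{k0}` vanishes on `O`, so `Z_{j0} = (Z_{j0})_{k0} v'` with a constant vector `v'`, and by
`par` each `Z_j` is a multiple of `v'` on `O`.  `v'` is not isotropic: otherwise `<Z_j,Z_l> = 0` for all
`j`, `l`, by `prj` `<X_j,Z_l> = 0`, against `tra`.  `v = v'/√|<v',v'>|`, `e = <v,v> = ±1`,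
`Z_j = z_j v`; by `prj` for `l = j0`: `z_j z_{j0} e = z_{j0} <X_j,v>`, so `z_j = e <X_j,v>`.
-/

namespace Pool.H60.NC

open scoped ContDiff
open Pool.Agent.H99.N2 (E2 E4 pd contDiffOn_pd contDiffOn_comp pd_comp)
open Pool.H60.PE

private theorem DA1_ip (s : ℕ) (a b : ℝ) (v w : E4) :
    ip s (a • v) (b • w) = a * b * ip s v w := by
  simp only [ip, PiLp.smul_apply, smul_eq_mul, Finset.mul_sum]
  exact Finset.sum_congr rfl fun k _ => by ring

private theorem DA1_ip_right (s : ℕ) (b : ℝ) (v w : E4) :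
    ip s v (b • w) = b * ip s v w := by
  simp only [ip, PiLp.smul_apply, smul_eq_mul, Finset.mul_sum]
  exact Finset.sum_congr rfl fun k _ => by ring

private theorem DA1_ip_left (s : ℕ) (a : ℝ) (v w : E4) :
    ip s (a • v) w = a * ip s v w := by
  simp only [ip, PiLp.smul_apply, smul_eq_mul, Finset.mul_sum]
  exact Finset.sum_congr rfl fun k _ => by ring

private theorem DA1_fderiv_zero (r : E2 → ℝ) (y : E2) (h : ∀ i : Fin 2, pd i r y = 0) :
    fderiv ℝ r y = 0 := by
  refine ContinuousLinearMap.ext fun w => ?_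
  have hw : w = ∑ i, w i • (EuclideanSpace.single i (1 : ℝ) : E2) := by
    ext j
    fin_cases j <;> simp
  rw [hw, map_sum]
  simp only [map_smul]
  have h' : ∀ i : Fin 2, fderiv ℝ r y (EuclideanSpace.single i (1 : ℝ)) = 0 := h
  simp [h']

private theorem DA1_quot {Z : E2 → E4} {O : Set E2} (hO : IsOpen O) (hc : IsPreconnected O)
    (hZ : ContDiffOn ℝ ∞ Z O) (k l : Fin 4) (hk : ∀ y ∈ O, Z y k ≠ 0)
    (hd : ∀ y ∈ O, ∀ i : Fin 2, Z y k * pd i Z y l = Z y l * pd i Z y k) {x y : E2}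
    (hx : x ∈ O) (hy : y ∈ O) : Z y l / Z y k = Z x l / Z x k := by
  set A : E2 → ℝ := fun y => Z y l with hA
  set B : E2 → ℝ := fun y => Z y k with hB
  have hl : ContDiffOn ℝ ∞ A O := contDiffOn_comp hZ l
  have hk' : ContDiffOn ℝ ∞ B O := contDiffOn_comp hZ k
  have hdl : ∀ z ∈ O, DifferentiableAt ℝ A z := fun z hz =>
    (hl.contDiffAt (hO.mem_nhds hz)).differentiableAt (by simp)
  have hdk : ∀ z ∈ O, DifferentiableAt ℝ B z := fun z hz =>
    (hk'.contDiffAt (hO.mem_nhds hz)).differentiableAt (by simp)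
  have hBn : ∀ z ∈ O, B z ≠ 0 := hk
  have hinv : ∀ z ∈ O, HasFDerivAt (fun y => (B y)⁻¹) (-(B z ^ 2)⁻¹ • fderiv ℝ B z) z :=
    fun z hz => (hasDerivAt_inv (hBn z hz)).comp_hasFDerivAt z (hdk z hz).hasFDerivAt
  have hq : ∀ z ∈ O, HasFDerivAt (fun y => A y * (B y)⁻¹)
      (A z • (-(B z ^ 2)⁻¹ • fderiv ℝ B z) + (B z)⁻¹ • fderiv ℝ A z) z :=
    fun z hz => (hdl z hz).hasFDerivAt.mul (hinv z hz)
  have key : A y * (B y)⁻¹ = A x * (B x)⁻¹ := by
    refine hO.is_const_of_fderiv_eq_zero (f := fun y => A y * (B y)⁻¹) (𝕜 := ℝ) hc ?_ ?_ hy hx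
    · intro z hz
      exact (hq z hz).differentiableAt.differentiableWithinAt
    · intro z hz
      apply DA1_fderiv_zero
      intro i
      have e : pd i (fun y => A y * (B y)⁻¹) z
          = (B z * pd i A z - A z * pd i B z) / B z ^ 2 := by
        unfold pd
        rw [(hq z hz).fderiv]
        have hne := hBn z hz
        simp only [add_apply, smul_apply, smul_eq_mul,
          neg_apply, neg_smul]
        field_simp
        ring
      have e1 : pd i A z = pd i Z z l := pd_comp hO hZ i l hz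
      have e2 : pd i B z = pd i Z z k := pd_comp hO hZ i k hz
      have e3 := hd z hz i
      have e4 : B z * pd i A z - A z * pd i B z = 0 := by
        rw [e1, e2]
        exact sub_eq_zero.2 e3
      rw [e, e4, zero_div]
  show A y / B y = A x / B x
  rw [div_eq_mul_inv, div_eq_mul_inv, key]

theorem dir_A1 {s : ℕ} {X : E2 → E4} {U : Set E2} {c W : ℝ} (h : Hyp s X U c W)
    (hA : IdA s X U W) {x : E2} (hx : x ∈ U) :
    ∃ (O : Set E2) (v : E4) (e : ℝ), IsOpen O ∧ x ∈ O ∧ O ⊆ U ∧ (e = 1 ∨ e = -1) ∧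
      ip s v v = e ∧ ∀ y ∈ O, ∀ j, Zv s X W j y = (e * ip s (pd j X y) v) • v := by
  -- a component which does not vanish
  have h1 : ∃ (j0 : Fin 2) (k0 : Fin 4), Zv s X W j0 x k0 ≠ 0 := by
    by_contra hcon
    push Not at hcon
    have ht := hA.tra x hx
    have h0 : ∀ j l : Fin 2, ip s (pd j X x) (Zv s X W l x) = 0 := by
      intro j l
      simp [ip, hcon l]
    simp [h0] at ht
  obtain ⟨j0, k0, hjk⟩ := h1
  have hZs := h.Z_smooth j0
  have hfc : ContinuousOn (fun y => Zv s X W j0 y k0) U :=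
    (contDiffOn_comp hZs k0).continuousOn
  have hopen : IsOpen (U ∩ (fun y => Zv s X W j0 y k0) ⁻¹' {0}ᶜ) :=
    hfc.isOpen_inter_preimage h.hU isOpen_compl_singleton
  obtain ⟨r, hr, hball⟩ := Metric.isOpen_iff.1 hopen x ⟨hx, hjk⟩
  set O : Set E2 := Metric.ball x r with hOdef
  have hOo : IsOpen O := Metric.isOpen_ball
  have hOU : O ⊆ U := fun y hy => (hball hy).1
  have hOne : ∀ y ∈ O, Zv s X W j0 y k0 ≠ 0 := fun y hy => (hball hy).2
  have hxO : x ∈ O := Metric.mem_ball_self hr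
  have hOc : IsPreconnected O := (convex_ball x r).isPreconnected
  set f : E2 → ℝ := fun y => Zv s X W j0 y k0 with hf
  set v' : E4 := (f x)⁻¹ • Zv s X W j0 x with hv'
  have hv'l : ∀ l, v' l = Zv s X W j0 x l / f x := by
    intro l
    rw [hv', PiLp.smul_apply, smul_eq_mul, div_eq_inv_mul]
  clear_value v'
  -- `Z_{j0} = f v'`
  have hZ0 : ∀ y ∈ O, Zv s X W j0 y = f y • v' := by
    intro y hy
    ext l
    rw [PiLp.smul_apply, smul_eq_mul, hv'l]
    have hq := DA1_quot hOo hOc (hZs.mono hOU) k0 l hOne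
      (fun z hz i => hA.dir z (hOU hz) j0 i k0 l) hxO hy
    have hne : f y ≠ 0 := hOne y hy
    have hq' : Zv s X W j0 y l / f y = Zv s X W j0 x l / f x := hq
    rw [← hq']
    field_simp
  have hfx : f x ≠ 0 := hjk
  -- all `Z_j` are multiples of `v'`
  have hpar : ∀ y ∈ U, ∀ (j : Fin 2) (k l : Fin 4),
      Zv s X W j y k * Zv s X W j0 y l = Zv s X W j y l * Zv s X W j0 y k := by
    intro y hy j k l
    have hp := hA.par y hy k l
    fin_cases j <;> fin_cases j0
    · exact mul_comm _ _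
    · exact hp
    · have hp' := hA.par y hy l k
      show Zv s X W 1 y k * Zv s X W 0 y l = Zv s X W 1 y l * Zv s X W 0 y k
      linarith [hp']
    · exact mul_comm _ _
  have hZj : ∀ y ∈ O, ∀ j, Zv s X W j y = (Zv s X W j y k0) • v' := by
    intro y hy j
    ext l
    rw [PiLp.smul_apply, smul_eq_mul]
    have hp := hpar y (hOU hy) j k0 l
    have h2 : Zv s X W j0 y l = f y * v' l := by
      rw [hZ0 y hy, PiLp.smul_apply, smul_eq_mul]
    have hne : f y ≠ 0 := hOne y hy
    rw [h2] at hp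
    have h3 : Zv s X W j y l * f y = Zv s X W j y k0 * v' l * f y := by
      have : Zv s X W j0 y k0 = f y := rfl
      rw [this] at hp
      linarith
    exact mul_right_cancel₀ hne h3
  set q : ℝ := ip s v' v' with hq
  have hqne : q ≠ 0 := by
    intro hq0
    have ht := hA.tra x hx
    have h0 : ∀ j l : Fin 2, ip s (pd j X x) (Zv s X W l x) = 0 := by
      intro j l
      rw [← hA.prj x hx j l, hZj x hxO j, hZj x hxO l, DA1_ip, ← hq, hq0, mul_zero]
    simp [h0] at ht
  have habs : 0 < |q| := abs_pos.2 hqne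
  have hsq : Real.sqrt |q| ≠ 0 := (Real.sqrt_pos.2 habs).ne'
  have hsq2 : Real.sqrt |q| * Real.sqrt |q| = |q| := Real.mul_self_sqrt habs.le
  refine ⟨O, (Real.sqrt |q|)⁻¹ • v', q / |q|, hOo, hxO, hOU, ?_, ?_, ?_⟩
  · rcases lt_or_gt_of_ne hqne with hlt | hgt
    · right
      rw [abs_of_neg hlt, div_neg, div_self hqne]
    · left
      rw [abs_of_pos hgt, div_self hqne]
  · rw [DA1_ip, ← hq, ← mul_inv, hsq2, div_eq_inv_mul]
  · intro y hy j
    have hp := hA.prj y (hOU hy) j j0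
    rw [hZ0 y hy, DA1_ip_right] at hp
    rw [hZj y hy j, DA1_ip_left, DA1_ip_right, ← hq] at hp
    have hne : f y ≠ 0 := hOne y hy
    have h4 : Zv s X W j y k0 * q = ip s (pd j X y) v' := by
      have : f y * (Zv s X W j y k0 * q) = f y * ip s (pd j X y) v' := by linarith
      exact mul_left_cancel₀ hne this
    have h5 : Zv s X W j y k0 = ip s (pd j X y) v' / q := by
      rw [← h4]; field_simp
    rw [DA1_ip_right, smul_smul]
    conv_lhs => rw [hZj y hy j]
    congr 1
    rw [h5]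
    have h6 : |q| * |q| = q * q := abs_mul_abs_self q
    have h7 : q / |q| * ((Real.sqrt |q|)⁻¹ * ip s (pd j X y) v') * (Real.sqrt |q|)⁻¹
        = q * ip s (pd j X y) v' / (|q| * (Real.sqrt |q| * Real.sqrt |q|)) := by
      field_simp
    rw [h7, hsq2, h6]
    field_simp

end Pool.H60.NC
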