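import Pool.Agent.H60.NC.DA1
import Pool.Agent.H60.NC.ChEx
import Pool.Agent.H60.NC.ChOne
import Pool.Agent.H60.NC.Anti

/-!
# Cylinders, step 2: the chart

`O`, `v`, `e` from `dir_A1`.  `t y = e <X y, v>`, `Y = X - t v`; `Y_i = X_i - t_i v`, `<Y_i, v> = 0`.
`v` is tangential at each `y ∈ O`: some `z_j = e <X_j,v>` is not `0` (otherwise `Z_0 = Z_1 = 0`, against
`tra`) and `Z_j` is a combination of the `X_i` (`Zv`, `tanPart`, `normalPart`).  Write
`v = Σ c_i X_i`; then `Σ c_i Y_i = v - (Σ c_i t_i) v = 0`, since `Σ c_i t_i = e <v,v> = 1`.  So `Y_0`,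
`Y_1` are linearly dependent, and not both `0` (`det g ≠ 0`).
Choose `i0`, `k` with `(Y_{i0}(x))_k ≠ 0` and put `r = Y_k` (coordinate).  Where `∂_{i0} r ≠ 0`:
`Y_i = ∂_i r • ξ` with `ξ = Y_{i0}/∂_{i0} r`, and
`g_ij = <Y_i,Y_j> + e t_i t_j = <ξ,ξ> r_i r_j + e t_i t_j`, `det g = <ξ,ξ> e (r_0 t_1 - r_1 t_0)^2`: so
`<ξ,ξ> ≠ 0` and `(r,t)` has nonzero Jacobian.  First chart `ψ = (r,t)` (`exists_chart`);
`Chart.one_var` for `Y`: `Y = y(r)`, `Y_i = r_i y'(r)`, so `<y',y'> ≠ 0` on the interval `S 0`, of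
constant sign `ε`.  `σ` = antiderivative of `√(ε <y',y'>)` (`exists_antideriv`).  Second chart
`ψ = (σ(r), t)`, its Jacobian at `x` is `σ'(r)` times the first one; `u = σ(r)`,
`Y_i = u_i • (y'(r)/σ'(r))`, `Chart.one_var`: `Y = γ(u)`, `γ' = y'/σ'` (each point of `S 0` is a value
of `u`; some `u_i ≠ 0`), so `<γ',γ'> = ε` and `<γ',v> = 0`.
-/

namespace Pool.H60.NC

open scoped ContDiff
open Pool.Agent.H99.N2 (E2 E4 pd contDiffOn_pd contDiffOn_comp pd_comp)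
open Pool.H60.PE

private lemma DA2_ipl_sub (s : ℕ) (u v w : E4) : ip s (u - v) w = ip s u w - ip s v w := by
  rw [ip_comm, ip_sub, ip_comm s w u, ip_comm s w v]

private lemma DA2_ipl_add (s : ℕ) (u v w : E4) : ip s (u + v) w = ip s u w + ip s v w := by
  rw [ip_comm, ip_add, ip_comm s w u, ip_comm s w v]

private lemma DA2_ipl_smul (s : ℕ) (a : ℝ) (u v : E4) : ip s (a • u) v = a * ip s u v := by
  rw [ip_comm, ip_smul, ip_comm s v u]

private noncomputable def DA2_L (s : ℕ) (e : ℝ) (v : E4) : E4 →L[ℝ] ℝ :=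
  LinearMap.toContinuousLinearMap
    { toFun := fun w => e * ip s w v
      map_add' := fun a b => by rw [DA2_ipl_add]; ring
      map_smul' := fun a b => by rw [DA2_ipl_smul, RingHom.id_apply, smul_eq_mul]; ring }

private lemma DA2_L_apply (s : ℕ) (e : ℝ) (v w : E4) : DA2_L s e v w = e * ip s w v := rfl

private noncomputable def DA2_P (s : ℕ) (e : ℝ) (v : E4) : E4 →L[ℝ] E4 :=
  ContinuousLinearMap.id ℝ E4 - (DA2_L s e v).smulRight v

private lemma DA2_P_apply (s : ℕ) (e : ℝ) (v w : E4) : DA2_P s e v w = w - DA2_L s e v w • v := rfl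

private lemma DA2_pdL {F G : Type} [NormedAddCommGroup F] [NormedSpace ℝ F] [NormedAddCommGroup G]
    [NormedSpace ℝ G] (L : F →L[ℝ] G) {f : E2 → F} {y : E2} (hf : DifferentiableAt ℝ f y)
    (i : Fin 2) : pd i (fun z => L (f z)) y = L (pd i f y) := by
  have h1 : HasFDerivAt (fun z => L (f z)) (L.comp (fderiv ℝ f y)) y :=
    L.hasFDerivAt.comp y hf.hasFDerivAt
  unfold pd
  rw [h1.fderiv]
  rfl

private lemma DA2_Zspan (s : ℕ) (X : E2 → E4) (W : ℝ) (j : Fin 2) (y : E2) :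
    ∃ a b : ℝ, a • pd 0 X y + b • pd 1 X y = Zv s X W j y := by
  rw [← Submodule.mem_span_pair (R := ℝ)]
  have hs : ∀ l : Fin 2, pd l X y ∈ Submodule.span ℝ ({pd 0 X y, pd 1 X y} : Set E4) := by
    intro l
    apply Submodule.subset_span
    fin_cases l
    · exact Or.inl rfl
    · exact Or.inr rfl
  unfold Zv tanPart normalPart
  rw [sub_sub_cancel]
  refine Submodule.add_mem _ (hs j) (Submodule.smul_mem _ _ ?_)
  exact Submodule.sum_mem _ fun i _ => Submodule.sum_mem _ fun l _ => Submodule.smul_mem _ _ (hs l)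

private lemma DA2_parallel {s : ℕ} {e : ℝ} {v X0 X1 : E4} (he : e = 1 ∨ e = -1) (hv : ip s v v = e)
    {c0 c1 : ℝ} (hc : c0 • X0 + c1 • X1 = v) (k l : Fin 4) :
    DA2_P s e v X0 k * DA2_P s e v X1 l = DA2_P s e v X0 l * DA2_P s e v X1 k := by
  have hee : e * e = 1 := by rcases he with h | h <;> rw [h] <;> norm_num
  have he0 : e ≠ 0 := by rcases he with h | h <;> rw [h] <;> norm_num
  have h1 : ∀ m : Fin 4, c0 * DA2_P s e v X0 m + c1 * DA2_P s e v X1 m = 0 := by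
    intro m
    have h2 : c0 • DA2_P s e v X0 + c1 • DA2_P s e v X1 = 0 := by
      rw [← map_smul, ← map_smul, ← map_add, hc, DA2_P_apply, DA2_L_apply, hv, hee, one_smul, sub_self]
    have h3 := congrArg (fun w : E4 => w m) h2
    simpa using h3
  have hne : c0 ≠ 0 ∨ c1 ≠ 0 := by
    by_contra hcon
    push Not at hcon
    rw [hcon.1, hcon.2, zero_smul, zero_smul, add_zero] at hc
    have h4 : ip s v v = 0 := by
      have h5 := ip_smul s 0 v v
      rw [zero_smul, zero_mul] at h5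
      rw [← hc] at h5 ⊢
      exact h5
    exact he0 (hv.symm.trans h4)
  rcases hne with h | h
  · refine mul_left_cancel₀ h ?_
    linear_combination DA2_P s e v X1 l * h1 k - DA2_P s e v X1 k * h1 l
  · refine mul_left_cancel₀ h ?_
    linear_combination DA2_P s e v X0 k * h1 l - DA2_P s e v X0 l * h1 k

private lemma DA2_orth {s : ℕ} {e : ℝ} {v : E4} (he : e = 1 ∨ e = -1) (hv : ip s v v = e) (w : E4) :
    ip s (DA2_P s e v w) v = 0 := by
  have hee : e * e = 1 := by rcases he with h | h <;> rw [h] <;> norm_num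
  rw [DA2_P_apply, DA2_ipl_sub, DA2_ipl_smul, hv, DA2_L_apply]
  linear_combination - ip s w v * hee

private lemma DA2_split (s : ℕ) (e : ℝ) (v w : E4) : w = DA2_P s e v w + DA2_L s e v w • v := by
  rw [DA2_P_apply, sub_add_cancel]

/-- the metric in terms of the parts -/
private lemma DA2_gram {s : ℕ} {e : ℝ} {v : E4} (he : e = 1 ∨ e = -1) (hv : ip s v v = e) (w z : E4) :
    ip s w z = ip s (DA2_P s e v w) (DA2_P s e v z) + e * (DA2_L s e v w * DA2_L s e v z) := by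
  conv_lhs => rw [DA2_split s e v w, DA2_split s e v z]
  rw [DA2_ipl_add, ip_add, ip_add, ip_smul, ip_smul, DA2_ipl_smul, DA2_ipl_smul, hv,
    DA2_orth he hv, ip_comm s v, DA2_orth he hv]
  ring

private lemma DA2_loc {s : ℕ} {X : E2 → E4} {U : Set E2} {c W : ℝ} (h : Hyp s X U c W)
    (hA : IdA s X U W) {x : E2} (hx : x ∈ U) :
    ∃ (O : Set E2) (v : E4) (e : ℝ) (k0 : Fin 4) (i0 : Fin 2), IsOpen O ∧ x ∈ O ∧ O ⊆ U ∧
      (e = 1 ∨ e = -1) ∧ ip s v v = e ∧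
      ∀ y ∈ O, DA2_P s e v (pd i0 X y) k0 ≠ 0 ∧
        DA2_P s e v (pd 0 X y) k0 * DA2_L s e v (pd 1 X y) -
          DA2_L s e v (pd 0 X y) * DA2_P s e v (pd 1 X y) k0 ≠ 0 ∧
        ∃ ξ : E4, ip s ξ ξ ≠ 0 ∧ ip s ξ v = 0 ∧
          ∀ i, DA2_P s e v (pd i X y) = DA2_P s e v (pd i X y) k0 • ξ := by
  obtain ⟨O₀, v, e, hO, hxO, hOU, he, hv, hZ⟩ := dir_A1 h hA hx
  have he0 : e ≠ 0 := by rcases he with h | h <;> rw [h] <;> norm_num
  have hsp : ∀ y ∈ O₀, ∃ c0 c1 : ℝ, c0 • pd 0 X y + c1 • pd 1 X y = v := by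
    intro y hy
    have h1 : ∃ j : Fin 2, e * ip s (pd j X y) v ≠ 0 := by
      by_contra hcon
      push Not at hcon
      have h2 := hA.tra y (hOU hy)
      have h3 : ∑ j, ∑ l, (metric s X y)⁻¹ j l * ip s (pd j X y) (Zv s X W l y) = 0 := by
        refine Finset.sum_eq_zero fun j _ => Finset.sum_eq_zero fun l _ => ?_
        rw [hZ y hy l, hcon l, ip_smul, zero_mul, mul_zero]
      rw [h3] at h2
      exact zero_ne_one h2
    obtain ⟨j, hj⟩ := h1
    obtain ⟨a, b, hab⟩ := DA2_Zspan s X W j y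
    refine ⟨(e * ip s (pd j X y) v)⁻¹ * a, (e * ip s (pd j X y) v)⁻¹ * b, ?_⟩
    rw [mul_smul, mul_smul, ← smul_add, hab, hZ y hy j, smul_smul, inv_mul_cancel₀ hj, one_smul]
  have hpar : ∀ y ∈ O₀, ∀ k l : Fin 4, DA2_P s e v (pd 0 X y) k * DA2_P s e v (pd 1 X y) l =
      DA2_P s e v (pd 0 X y) l * DA2_P s e v (pd 1 X y) k := by
    intro y hy k l
    obtain ⟨c0, c1, hc⟩ := hsp y hy
    exact DA2_parallel he hv hc k l
  have hpar' : ∀ y ∈ O₀, ∀ (i j : Fin 2) (k l : Fin 4),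
      DA2_P s e v (pd i X y) k * DA2_P s e v (pd j X y) l =
      DA2_P s e v (pd i X y) l * DA2_P s e v (pd j X y) k := by
    intro y hy i j k l
    have h1 := hpar y hy k l
    fin_cases i <;> fin_cases j
    · exact mul_comm _ _
    · exact h1
    · change DA2_P s e v (pd 1 X y) k * DA2_P s e v (pd 0 X y) l =
        DA2_P s e v (pd 1 X y) l * DA2_P s e v (pd 0 X y) k
      linear_combination - h1
    · exact mul_comm _ _
  have hne : ∃ (i0 : Fin 2) (k0 : Fin 4), DA2_P s e v (pd i0 X x) k0 ≠ 0 := by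
    by_contra hcon
    push Not at hcon
    have h0 : ∀ i, DA2_P s e v (pd i X x) = 0 := by
      intro i
      ext k
      exact hcon i k
    have hz : ip s (0 : E4) 0 = 0 := by
      have h5 := ip_smul s 0 (0 : E4) 0
      rw [smul_zero, zero_mul] at h5
      exact h5
    refine h.hX.2 x hx ?_
    rw [metric_det, metric_app, metric_app, metric_app, DA2_gram he hv (pd 0 X x) (pd 0 X x),
      DA2_gram he hv (pd 1 X x) (pd 1 X x), DA2_gram he hv (pd 0 X x) (pd 1 X x), h0 0, h0 1, hz]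
    ring
  obtain ⟨i0, k0, hik⟩ := hne
  have hXs : ContDiffOn ℝ ∞ X O₀ := h.hX.1.mono hOU
  have hcont : ContinuousOn (fun y => DA2_P s e v (pd i0 X y) k0) O₀ := by
    have h1 := (contDiffOn_pd hO hXs i0).continuousOn
    exact (EuclideanSpace.proj k0).continuous.comp_continuousOn
      ((DA2_P s e v).continuous.comp_continuousOn h1)
  refine ⟨O₀ ∩ (fun y => DA2_P s e v (pd i0 X y) k0) ⁻¹' {0}ᶜ, v, e, k0, i0,
    hcont.isOpen_inter_preimage hO isOpen_compl_singleton, ⟨hxO, hik⟩,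
    fun y hy => hOU hy.1, he, hv, ?_⟩
  rintro y ⟨hy, hy0⟩
  have hy0' : DA2_P s e v (pd i0 X y) k0 ≠ 0 := hy0
  set ξ : E4 := (DA2_P s e v (pd i0 X y) k0)⁻¹ • DA2_P s e v (pd i0 X y) with hξ
  have hY : ∀ i, DA2_P s e v (pd i X y) = DA2_P s e v (pd i X y) k0 • ξ := by
    intro i
    ext l
    rw [hξ]
    simp only [PiLp.smul_apply, smul_eq_mul]
    have h1 := hpar' y hy i i0 l k0
    field_simp
    linear_combination h1
  have hdet := h.hX.2 y (hOU hy)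
  rw [metric_det, metric_app, metric_app, metric_app, DA2_gram he hv (pd 0 X y) (pd 0 X y),
    DA2_gram he hv (pd 1 X y) (pd 1 X y), DA2_gram he hv (pd 0 X y) (pd 1 X y)] at hdet
  have hg : ∀ i j, ip s (DA2_P s e v (pd i X y)) (DA2_P s e v (pd j X y)) =
      DA2_P s e v (pd i X y) k0 * DA2_P s e v (pd j X y) k0 * ip s ξ ξ := by
    intro i j
    conv_lhs => rw [hY i, hY j]
    rw [DA2_ipl_smul, ip_smul]
    ring
  rw [hg, hg, hg] at hdet
  have hfac : ip s ξ ξ * e * (DA2_P s e v (pd 0 X y) k0 * DA2_L s e v (pd 1 X y) -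
      DA2_L s e v (pd 0 X y) * DA2_P s e v (pd 1 X y) k0) ^ 2 ≠ 0 := by
    intro h0
    apply hdet
    linear_combination h0
  refine ⟨hy0', ?_, ξ, ?_, ?_, hY⟩
  · intro h0
    apply hfac
    rw [h0]
    ring
  · intro h0
    apply hfac
    rw [h0]
    ring
  · rw [hξ, DA2_ipl_smul, DA2_orth he hv, mul_zero]

private noncomputable def DA2_pair (a b : E2 → ℝ) (y : E2) : E2 := WithLp.toLp 2 ![a y, b y]

private lemma DA2_pair_smooth {a b : E2 → ℝ} {O : Set E2} (ha : ContDiffOn ℝ ∞ a O)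
    (hb : ContDiffOn ℝ ∞ b O) : ContDiffOn ℝ ∞ (DA2_pair a b) O := by
  refine contDiffOn_euclidean.2 fun k => ?_
  fin_cases k
  · exact ha
  · exact hb

private lemma DA2_pair_pd {a b : E2 → ℝ} {O : Set E2} (hO : IsOpen O) (ha : ContDiffOn ℝ ∞ a O)
    (hb : ContDiffOn ℝ ∞ b O) {y : E2} (hy : y ∈ O) (i : Fin 2) :
    pd i (DA2_pair a b) y 0 = pd i a y ∧ pd i (DA2_pair a b) y 1 = pd i b y := by
  have hd : DifferentiableAt ℝ (DA2_pair a b) y :=
    ((DA2_pair_smooth ha hb).contDiffAt (hO.mem_nhds hy)).differentiableAt (by simp)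
  have h1 := fun k : Fin 2 => DA2_pdL (EuclideanSpace.proj k : E2 →L[ℝ] ℝ) hd i
  exact ⟨(h1 0).symm, (h1 1).symm⟩

private lemma DA2_ip_smooth (s : ℕ) {f g : ℝ → E4} {S : Set ℝ} (hf : ContDiffOn ℝ ∞ f S)
    (hg : ContDiffOn ℝ ∞ g S) : ContDiffOn ℝ ∞ (fun u => ip s (f u) (g u)) S := by
  unfold ip
  exact ContDiffOn.sum fun k _ => contDiffOn_const.mul
    ((contDiffOn_euclidean.1 hf k).mul (contDiffOn_euclidean.1 hg k))

private lemma DA2_sign {S : Set ℝ} (hS : IsPreconnected S) {N : ℝ → ℝ} (hN : ContinuousOn N S)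
    (h0 : ∀ u ∈ S, N u ≠ 0) : ∃ ε : ℝ, (ε = 1 ∨ ε = -1) ∧ ∀ u ∈ S, 0 < ε * N u := by
  by_cases h : ∃ u ∈ S, N u < 0
  · obtain ⟨a, ha, hNa⟩ := h
    refine ⟨-1, Or.inr rfl, fun u hu => ?_⟩
    by_contra hcon
    push Not at hcon
    have h1 : 0 ≤ N u := by linarith
    obtain ⟨z, hz, hz0⟩ := hS.intermediate_value ha hu hN ⟨hNa.le, h1⟩
    exact h0 z hz hz0
  · push Not at h
    refine ⟨1, Or.inl rfl, fun u hu => ?_⟩
    rw [one_mul]
    exact lt_of_le_of_ne (h u hu) (h0 u hu).symm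

theorem dir_A2 {s : ℕ} {X : E2 → E4} {U : Set E2} {c W : ℝ} (h : Hyp s X U c W)
    (hA : IdA s X U W) {x : E2} (hx : x ∈ U) :
    ∃ (O : Set E2) (S : Fin 2 → Set ℝ) (ψ φ : E2 → E2) (γ : ℝ → E4) (v : E4) (e ε : ℝ),
      O ⊆ U ∧ x ∈ O ∧ Chart O S ψ φ ∧ (e = 1 ∨ e = -1) ∧ (ε = 1 ∨ ε = -1) ∧ ip s v v = e ∧
      ContDiffOn ℝ ∞ γ (S 0) ∧
      (∀ u ∈ S 0, ip s (deriv γ u) (deriv γ u) = ε ∧ ip s (deriv γ u) v = 0) ∧
      ∀ y ∈ O, X y = γ (ψ y 0) + ψ y 1 • v := by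
  classical
  obtain ⟨O₀, v, e, k0, i0, hO, hxO, hOU, he, hv, hloc⟩ := DA2_loc h hA hx
  have hXs : ContDiffOn ℝ ∞ X O₀ := h.hX.1.mono hOU
  have hXd : ∀ y ∈ O₀, DifferentiableAt ℝ X y := fun y hy =>
    (hXs.contDiffAt (hO.mem_nhds hy)).differentiableAt (by simp)
  -- the functions
  set t : E2 → ℝ := fun y => DA2_L s e v (X y) with ht
  set Y : E2 → E4 := fun y => DA2_P s e v (X y) with hY
  set r : E2 → ℝ := fun y => DA2_P s e v (X y) k0 with hr
  have hts : ContDiffOn ℝ ∞ t O₀ := (DA2_L s e v).contDiff.comp_contDiffOn hXs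
  have hYs : ContDiffOn ℝ ∞ Y O₀ := (DA2_P s e v).contDiff.comp_contDiffOn hXs
  have hrs : ContDiffOn ℝ ∞ r O₀ := contDiffOn_comp hYs k0
  have hpt : ∀ y ∈ O₀, ∀ i, pd i t y = DA2_L s e v (pd i X y) := fun y hy i =>
    DA2_pdL _ (hXd y hy) i
  have hpY : ∀ y ∈ O₀, ∀ i, pd i Y y = DA2_P s e v (pd i X y) := fun y hy i =>
    DA2_pdL _ (hXd y hy) i
  have hpr : ∀ y ∈ O₀, ∀ i, pd i r y = DA2_P s e v (pd i X y) k0 := by
    intro y hy i
    have h1 := pd_comp hO hYs i k0 hy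
    rw [hpY y hy i] at h1
    exact h1
  have hXY : ∀ y, X y = Y y + t y • v := fun y => DA2_split s e v (X y)
  -- the first chart
  have hJ1 : pd 0 (DA2_pair r t) x 0 * pd 1 (DA2_pair r t) x 1 -
      pd 0 (DA2_pair r t) x 1 * pd 1 (DA2_pair r t) x 0 ≠ 0 := by
    have h0 := DA2_pair_pd hO hrs hts hxO 0
    have h1 := DA2_pair_pd hO hrs hts hxO 1
    rw [h0.1, h0.2, h1.1, h1.2, hpr x hxO, hpr x hxO, hpt x hxO, hpt x hxO]
    exact (hloc x hxO).2.1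
  obtain ⟨W₁, S₁, φ₁, hW1, hxW, C₁⟩ := exists_chart hO (DA2_pair_smooth hrs hts) hxO hJ1
  obtain ⟨yy, hyys, hyyv, hyyd⟩ := C₁.one_var 0 (hYs.mono hW1) (fun y hy => by
    obtain ⟨ξ, -, -, h3⟩ := (hloc y (hW1 hy)).2.2
    refine ⟨ξ, fun i => ?_⟩
    rw [(DA2_pair_pd hO hrs hts (hW1 hy) i).1, hpr y (hW1 hy), hpY y (hW1 hy)]
    exact h3 i)
  -- every point of the interval is a value of `r`
  have hval1 : ∀ u ∈ S₁ 0, ∃ y ∈ W₁, r y = u := by
    intro u hu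
    have hp : ∀ k, (DA2_pair (fun _ => u) (fun _ => t x) x) k ∈ S₁ k := by
      intro k
      fin_cases k
      · exact hu
      · exact C₁.mψ x hxW 1
    refine ⟨φ₁ _, C₁.mφ _ hp, ?_⟩
    exact congrArg (fun z : E2 => z 0) (C₁.ri _ hp)
  have hyy1 : ∀ y ∈ W₁, ip s (deriv yy (r y)) (deriv yy (r y)) ≠ 0 ∧
      ip s (deriv yy (r y)) v = 0 := by
    intro y hy
    obtain ⟨h1, -, ξ, h2, h3, h4⟩ := hloc y (hW1 hy)
    have h5 := hyyd y hy i0
    rw [(DA2_pair_pd hO hrs hts (hW1 hy) i0).1, hpr y (hW1 hy), hpY y (hW1 hy)] at h5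
    have h6 : ξ = deriv yy (r y) := smul_right_injective E4 h1 ((h4 i0).symm.trans h5)
    rw [← h6]
    exact ⟨h2, h3⟩
  have hyyn : ∀ u ∈ S₁ 0, ip s (deriv yy u) (deriv yy u) ≠ 0 ∧ ip s (deriv yy u) v = 0 := by
    intro u hu
    obtain ⟨y, hy, rfl⟩ := hval1 u hu
    exact hyy1 y hy
  have hrm : ∀ y ∈ W₁, r y ∈ S₁ 0 := fun y hy => C₁.mψ y hy 0
  have hdyy : ContDiffOn ℝ ∞ (deriv yy) (S₁ 0) := hyys.deriv_of_isOpen (C₁.hS 0) (by simp)
  have hNs : ContDiffOn ℝ ∞ (fun u => ip s (deriv yy u) (deriv yy u)) (S₁ 0) :=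
    DA2_ip_smooth s hdyy hdyy
  obtain ⟨ε, hε, hεN⟩ := DA2_sign (C₁.cS 0) hNs.continuousOn (fun u hu => (hyyn u hu).1)
  have hε0 : ε ≠ 0 := by rcases hε with h | h <;> rw [h] <;> norm_num
  set f : ℝ → ℝ := fun u => Real.sqrt (ε * ip s (deriv yy u) (deriv yy u)) with hf
  have hfs : ContDiffOn ℝ ∞ f (S₁ 0) :=
    (contDiffOn_const.mul hNs).sqrt fun u hu => (hεN u hu).ne'
  have hfpos : ∀ u ∈ S₁ 0, 0 < f u := fun u hu => Real.sqrt_pos.2 (hεN u hu)
  obtain ⟨σ, hσs, hσd⟩ := exists_antideriv (C₁.hS 0) (C₁.cS 0) hfs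
  -- the second chart
  have hrs1 : ContDiffOn ℝ ∞ r W₁ := hrs.mono hW1
  have hts1 : ContDiffOn ℝ ∞ t W₁ := hts.mono hW1
  have hus : ContDiffOn ℝ ∞ (fun y => σ (r y)) W₁ := hσs.comp hrs1 hrm
  have hpu : ∀ y ∈ W₁, ∀ i, pd i (fun y => σ (r y)) y = f (r y) * pd i r y := by
    intro y hy i
    have h1 : HasFDerivAt r (fderiv ℝ r y) y :=
      ((hrs1.contDiffAt (C₁.hW.mem_nhds hy)).differentiableAt (by simp)).hasFDerivAt
    have h2 := (hσd (r y) (hrm y hy)).comp_hasFDerivAt y h1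
    unfold pd
    have h3 : fderiv ℝ (fun y => σ (r y)) y = f (r y) • fderiv ℝ r y := h2.fderiv
    rw [h3]
    rfl
  have hJ2 : pd 0 (DA2_pair (fun y => σ (r y)) t) x 0 * pd 1 (DA2_pair (fun y => σ (r y)) t) x 1 -
      pd 0 (DA2_pair (fun y => σ (r y)) t) x 1 * pd 1 (DA2_pair (fun y => σ (r y)) t) x 0 ≠ 0 := by
    have h0 := DA2_pair_pd C₁.hW hus hts1 hxW 0
    have h1 := DA2_pair_pd C₁.hW hus hts1 hxW 1
    rw [h0.1, h0.2, h1.1, h1.2, hpu x hxW, hpu x hxW]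
    have h2 := mul_ne_zero (hfpos _ (hrm x hxW)).ne' (hloc x hxO).2.1
    rw [← hpr x hxO, ← hpr x hxO, ← hpt x hxO, ← hpt x hxO] at h2
    intro h3
    apply h2
    linear_combination h3
  obtain ⟨O, S, φ, hOW, hxO', C⟩ := exists_chart C₁.hW (DA2_pair_smooth hus hts1) hxW hJ2
  obtain ⟨γ, hγs, hγv, hγd⟩ := C.one_var 0 ((hYs.mono hW1).mono hOW) (fun y hy => by
    refine ⟨(f (r y))⁻¹ • deriv yy (r y), fun i => ?_⟩
    rw [(DA2_pair_pd C₁.hW hus hts1 (hOW hy) i).1, hpu y (hOW hy), hyyd y (hOW hy) i,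
      (DA2_pair_pd hO hrs hts (hW1 (hOW hy)) i).1, smul_smul]
    congr 1
    have := (hfpos _ (hrm y (hOW hy))).ne'
    field_simp)
  refine ⟨O, S, _, φ, γ, v, e, ε, fun y hy => hOU (hW1 (hOW hy)), hxO', C, he, hε, hv, hγs, ?_, ?_⟩
  · intro u hu
    have hp : ∀ k, (DA2_pair (fun _ => u) (fun _ => t x) x) k ∈ S k := by
      intro k
      fin_cases k
      · exact hu
      · exact C.mψ x hxO' 1
    obtain ⟨y, hy, hyu⟩ : ∃ y ∈ O, σ (r y) = u :=
      ⟨φ _, C.mφ _ hp, congrArg (fun z : E2 => z 0) (C.ri _ hp)⟩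
    have hy1 := hOW hy
    have hy2 := hW1 hy1
    have hfy := hfpos _ (hrm y hy1)
    have h5 := hγd y hy i0
    rw [(DA2_pair_pd C₁.hW hus hts1 hy1 i0).1, hpu y hy1, hyyd y hy1 i0,
      (DA2_pair_pd hO hrs hts hy2 i0).1, hpr y hy2] at h5
    have h1 := (hloc y hy2).1
    have h6 : deriv yy (r y) = f (r y) • deriv γ (σ (r y)) := by
      refine smul_right_injective E4 h1 ?_
      change _ • _ = _ • _ • _
      rw [smul_smul, mul_comm]
      exact h5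
    rw [hyu] at h6
    have h7 : deriv γ u = (f (r y))⁻¹ • deriv yy (r y) := by
      rw [h6, smul_smul, inv_mul_cancel₀ hfy.ne', one_smul]
    rw [h7, DA2_ipl_smul, ip_smul, DA2_ipl_smul, (hyy1 y hy1).2, mul_zero]
    refine ⟨?_, rfl⟩
    have h8 : f (r y) ^ 2 = ε * ip s (deriv yy (r y)) (deriv yy (r y)) :=
      Real.sq_sqrt (hεN _ (hrm y hy1)).le
    have hεε : ε * ε = 1 := by rcases hε with h | h <;> rw [h] <;> norm_num
    field_simp
    linear_combination (-ε) * h8 - ip s (deriv yy (r y)) (deriv yy (r y)) * hεε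
  · intro y hy
    rw [hXY y, hγv y hy]
    rfl

end Pool.H60.NC
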