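import Pool.Agent.H60.NC.DA2
import Pool.Agent.H60.NC.FlatC

/-!
# Cylinders, step 3: the equation of the curve

From `dir_A2`: `X = f ∘ ψ` with `f y = γ (y 0) + y 1 • v`; the metric of `f` is `diag(ε, e)`.
`flat_chart` for `h = f`: `Δ X = -(ε f_00 + e f_11) = -ε γ''(u)`, and `Δ X = -2H = -M` (`beltrami`), so
`M = ε γ''(u)` on `O`; in particular `γ'' ≠ 0` since `<M,M> = W ≠ 0` (each point of `S 0` is a value of
`u`: `S 1` is not empty, use `φ`).  `flat_chart` for `h y = ε γ''(y 0)` and `Δ M = c M`: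
`-γ'''' = c ε γ''` on `S 0` (`ε^2 = 1`).  So `γ'' + ε c γ` has second derivative `0` on the interval
`S 0`: it is `ε c (x0 + u w)` for constant vectors `x0`, `w` (`ε c ≠ 0`).
-/

namespace Pool.H60.NC

open scoped ContDiff
open Pool.Agent.H99.N2 (E2 E4 pd contDiffOn_pd contDiffOn_comp pd_comp)
open Pool.H60.PE

private theorem DA3_pd_congr {F : Type} [NormedAddCommGroup F] [NormedSpace ℝ F] {f g : E2 → F}
    {x : E2} (h : f =ᶠ[nhds x] g) (i : Fin 2) : pd i f x = pd i g x := by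
  unfold pd
  rw [h.fderiv_eq]

private theorem DA3_pd_congr_on {F : Type} [NormedAddCommGroup F] [NormedSpace ℝ F] {U : Set E2}
    (hU : IsOpen U) {f g : E2 → F} (h : ∀ y ∈ U, f y = g y) {x : E2} (hx : x ∈ U) (i : Fin 2) :
    pd i f x = pd i g x := by
  apply DA3_pd_congr
  filter_upwards [hU.mem_nhds hx] with y hy using h y hy

private theorem DA3_lap_congr {s : ℕ} {U : Set E2} (hU : IsOpen U) (X : E2 → E4) {f g : E2 → E4}
    (h : ∀ y ∈ U, f y = g y) {x : E2} (hx : x ∈ U) : lap s X f x = lap s X g x := by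
  unfold lap
  congr 2
  refine Finset.sum_congr rfl fun i _ => ?_
  apply DA3_pd_congr
  filter_upwards [hU.mem_nhds hx] with y hy
  refine Finset.sum_congr rfl fun j _ => ?_
  rw [DA3_pd_congr_on hU h hy]

private theorem DA3_pd0 {F : Type} [NormedAddCommGroup F] [NormedSpace ℝ F] {G : ℝ → F} {y : E2}
    (hG : DifferentiableAt ℝ G (y 0)) (i : Fin 2) :
    pd i (fun z : E2 => G (z 0)) y = (if i = 0 then (1 : ℝ) else 0) • deriv G (y 0) := by
  have h1 : HasFDerivAt (fun z : E2 => z 0) (EuclideanSpace.proj 0 : E2 →L[ℝ] ℝ) y :=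
    (EuclideanSpace.proj 0 : E2 →L[ℝ] ℝ).hasFDerivAt
  have h2 : HasFDerivAt (fun z : E2 => G (z 0))
      ((fderiv ℝ G (y 0)).comp (EuclideanSpace.proj 0 : E2 →L[ℝ] ℝ)) y :=
    hG.hasFDerivAt.comp y h1
  unfold pd
  rw [h2.fderiv, ContinuousLinearMap.comp_apply, fderiv_eq_smul_deriv]
  congr 1
  fin_cases i <;> simp [EuclideanSpace.proj]

private theorem DA3_pd1 {y : E2} (v : E4) (i : Fin 2) :
    pd i (fun z : E2 => z 1 • v) y = (if i = 1 then (1 : ℝ) else 0) • v := by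
  have h1 : HasFDerivAt (fun z : E2 => z 1) (EuclideanSpace.proj 1 : E2 →L[ℝ] ℝ) y :=
    (EuclideanSpace.proj 1 : E2 →L[ℝ] ℝ).hasFDerivAt
  have h2 := h1.smul_const v
  unfold pd
  rw [h2.fderiv]
  fin_cases i <;> simp [EuclideanSpace.proj]

private theorem DA3_affine {S : Set ℝ} (hS : IsOpen S) (cS : IsPreconnected S) {g : ℝ → E4}
    (hg : ContDiffOn ℝ ∞ g S) (h2 : ∀ u ∈ S, deriv (deriv g) u = 0) :
    ∃ a b : E4, ∀ u ∈ S, g u = b + u • a := by
  have hg1 : DifferentiableOn ℝ g S := hg.differentiableOn (by simp)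
  have hg2 : DifferentiableOn ℝ (deriv g) S :=
    (hg.deriv_of_isOpen (m := ∞) hS (by simp)).differentiableOn (by simp)
  obtain ⟨a, ha⟩ := hS.exists_is_const_of_deriv_eq_zero cS hg2 (fun u hu => h2 u hu)
  have hg3 : DifferentiableOn ℝ (fun u => g u - u • a) S :=
    hg1.sub ((differentiable_id.smul_const a).differentiableOn)
  have h3 : Set.EqOn (deriv (fun u => g u - u • a)) 0 S := by
    intro u hu
    have hgu : HasDerivAt g (deriv g u) u := ((hg1 u hu).differentiableAt (hS.mem_nhds hu)).hasDerivAt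
    have h4 : HasDerivAt (fun u : ℝ => u • a) ((1 : ℝ) • a) u := (hasDerivAt_id u).smul_const a
    have h5 := (hgu.sub h4).deriv
    have h6 : deriv (fun u => g u - u • a) u = deriv g u - (1 : ℝ) • a := h5
    rw [h6, ha u hu, one_smul, sub_self]
    rfl
  obtain ⟨b, hb⟩ := hS.exists_is_const_of_deriv_eq_zero cS hg3 h3
  exact ⟨a, b, fun u hu => by rw [← hb u hu]; abel⟩

theorem dir_A {s : ℕ} {X : E2 → E4} {U : Set E2} {c W : ℝ} (h : Hyp s X U c W) (hW : W ≠ 0)
    (hA : IdA s X U W) {x : E2} (hx : x ∈ U) : LocalForm X U x (IsHelixCylinder s c) := by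
  obtain ⟨O, S, ψ, φ, γ, v, e, ε, hOU, hxO, hC, he, hε, hvv, hγ, hγ', hXγ⟩ := dir_A2 h hA hx
  have hV : IsOpen {y : E2 | ∀ k, y k ∈ S k} := isOpen_box hC.hS
  have hS0 : IsOpen (S 0) := hC.hS 0
  have hXO : IsSurface s X O := ⟨h.hX.1.mono hOU, fun y hy => h.hX.2 y (hOU hy)⟩
  have hγ1 : ContDiffOn ℝ ∞ (deriv γ) (S 0) := hγ.deriv_of_isOpen hS0 (by simp)
  have hγ2 : ContDiffOn ℝ ∞ (deriv (deriv γ)) (S 0) := hγ1.deriv_of_isOpen hS0 (by simp)
  have hγ3 : ContDiffOn ℝ ∞ (deriv (deriv (deriv γ))) (S 0) := hγ2.deriv_of_isOpen hS0 (by simp)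
  have hdiff : ∀ {G : ℝ → E4}, ContDiffOn ℝ ∞ G (S 0) → ∀ u ∈ S 0, DifferentiableAt ℝ G u :=
    fun {G} hG u hu => (hG.contDiffAt (hS0.mem_nhds hu)).differentiableAt (by simp)
  have hproj : ∀ {G : ℝ → E4}, ContDiffOn ℝ ∞ G (S 0) →
      ContDiffOn ℝ ∞ (fun y : E2 => G (y 0)) {y : E2 | ∀ k, y k ∈ S k} := by
    intro G hG
    have h1 : ContDiff ℝ ∞ (fun y : E2 => y 0) := (EuclideanSpace.proj 0 : E2 →L[ℝ] ℝ).contDiff
    exact hG.comp h1.contDiffOn fun y hy => hy 0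
  have hvsm : ContDiffOn ℝ ∞ (fun y : E2 => y 1 • v) {y : E2 | ∀ k, y k ∈ S k} := by
    have h1 : ContDiff ℝ ∞ (fun y : E2 => y 1) := (EuclideanSpace.proj 1 : E2 →L[ℝ] ℝ).contDiff
    exact (h1.smul contDiff_const).contDiffOn
  have hf : ContDiffOn ℝ ∞ (fun y : E2 => γ (y 0) + y 1 • v) {y : E2 | ∀ k, y k ∈ S k} :=
    (hproj hγ).add hvsm
  have hpdf : ∀ y ∈ {y : E2 | ∀ k, y k ∈ S k}, ∀ i : Fin 2,
      pd i (fun y : E2 => γ (y 0) + y 1 • v) y =
        (if i = 0 then (1 : ℝ) else 0) • deriv γ (y 0) + (if i = 1 then (1 : ℝ) else 0) • v := by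
    intro y hy i
    have d1 : DifferentiableAt ℝ (fun y : E2 => γ (y 0)) y :=
      ((hproj hγ).contDiffAt (hV.mem_nhds hy)).differentiableAt (by simp)
    have d2 : DifferentiableAt ℝ (fun y : E2 => y 1 • v) y :=
      (hvsm.contDiffAt (hV.mem_nhds hy)).differentiableAt (by simp)
    have h3 : pd i (fun y : E2 => γ (y 0) + y 1 • v) y =
        pd i (fun y : E2 => γ (y 0)) y + pd i (fun y : E2 => y 1 • v) y := by
      unfold pd
      rw [fderiv_fun_add d1 d2]
      rfl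
    rw [h3, DA3_pd0 (hdiff hγ _ (hy 0)), DA3_pd1]
  have hm : Set.MapsTo ψ O {y : E2 | ∀ k, y k ∈ S k} := fun y hy => hC.mψ y hy
  have hff : ∀ y ∈ {y : E2 | ∀ k, y k ∈ S k}, ∀ i : Fin 2,
      ip s (pd i (fun y : E2 => γ (y 0) + y 1 • v) y) (pd i (fun y : E2 => γ (y 0) + y 1 • v) y) =
        (![ε, e] : Fin 2 → ℝ) i := by
    intro y hy i
    rw [hpdf y hy i]
    fin_cases i
    · simpa using (hγ' _ (hy 0)).1
    · simpa using hvv
  have hff' : ∀ y ∈ {y : E2 | ∀ k, y k ∈ S k},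
      ip s (pd 0 (fun y : E2 => γ (y 0) + y 1 • v) y) (pd 1 (fun y : E2 => γ (y 0) + y 1 • v) y) =
        0 := by
    intro y hy
    rw [hpdf y hy 0, hpdf y hy 1]
    simpa using (hγ' _ (hy 0)).2
  have hε' : ∀ k : Fin 2, (![ε, e] : Fin 2 → ℝ) k = 1 ∨ (![ε, e] : Fin 2 → ℝ) k = -1 := by
    intro k
    fin_cases k
    · simpa using hε
    · simpa using he
  have hεε : ε * ε = 1 := by rcases hε with rfl | rfl <;> norm_num
  -- the Laplacian of a function of the first variable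
  have key : ∀ {G : ℝ → E4}, ContDiffOn ℝ ∞ G (S 0) → ∀ y ∈ O,
      lap s X (fun z => G (ψ z 0)) y = -(ε • deriv (deriv G) (ψ y 0)) := by
    intro G hG y hy
    have h1 := flat_chart hC.hW hV hXO hC.sψ hm hf hXγ hε' hff hff' (hproj hG) hy
    have hG1 : ContDiffOn ℝ ∞ (deriv G) (S 0) := hG.deriv_of_isOpen hS0 (by simp)
    have e0 : pd 0 (pd 0 (fun z : E2 => G (z 0))) (ψ y) = deriv (deriv G) (ψ y 0) := by
      rw [DA3_pd_congr_on hV (g := fun z : E2 => deriv G (z 0)) (fun z hz => ?_) (hm hy) 0]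
      · rw [DA3_pd0 (hdiff hG1 _ (hm hy 0))]
        simp
      · rw [DA3_pd0 (hdiff hG _ (hz 0))]
        simp
    have e1 : pd 1 (pd 1 (fun z : E2 => G (z 0))) (ψ y) = 0 := by
      rw [DA3_pd_congr_on hV (g := fun _ : E2 => (0 : E4)) (fun z hz => ?_) (hm hy) 1]
      · unfold pd
        simp
      · rw [DA3_pd0 (hdiff hG _ (hz 0))]
        simp
    have h2 : lap s X (fun z => G (ψ z 0)) y =
        -(∑ k, (![ε, e] : Fin 2 → ℝ) k • pd k (pd k (fun z : E2 => G (z 0))) (ψ y)) := h1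
    rw [h2, Fin.sum_univ_two, e0, e1]
    simp
  -- the mean curvature
  have hH : ∀ y ∈ O, meanCurv s X y = (ε / 2) • deriv (deriv γ) (ψ y 0) := by
    intro y hy
    have h1 : lap s X X y = -(2 : ℝ) • meanCurv s X y := beltrami hC.hW hXO hy
    have h2 := flat_chart hC.hW hV hXO hC.sψ hm hf hXγ hε' hff hff' hf hy
    have e0 : pd 0 (pd 0 (fun y : E2 => γ (y 0) + y 1 • v)) (ψ y) = deriv (deriv γ) (ψ y 0) := by
      rw [DA3_pd_congr_on hV (g := fun z : E2 => deriv γ (z 0)) (fun z hz => ?_) (hm hy) 0]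
      · rw [DA3_pd0 (hdiff hγ1 _ (hm hy 0))]
        simp
      · rw [hpdf z hz 0]
        simp
    have e1 : pd 1 (pd 1 (fun y : E2 => γ (y 0) + y 1 • v)) (ψ y) = 0 := by
      rw [DA3_pd_congr_on hV (g := fun _ : E2 => v) (fun z hz => ?_) (hm hy) 1]
      · unfold pd
        simp
      · rw [hpdf z hz 1]
        simp
    have h3 : lap s X (fun z => γ (ψ z 0) + ψ z 1 • v) y = -(ε • deriv (deriv γ) (ψ y 0)) := by
      have h4 : lap s X (fun z => γ (ψ z 0) + ψ z 1 • v) y =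
        -(∑ k, (![ε, e] : Fin 2 → ℝ) k •
          pd k (pd k (fun y : E2 => γ (y 0) + y 1 • v)) (ψ y)) := h2
      rw [h4, Fin.sum_univ_two, e0, e1]
      simp
    have h4 : lap s X X y = -(ε • deriv (deriv γ) (ψ y 0)) := by
      rw [← h3]
      exact DA3_lap_congr hC.hW X hXγ hy
    have h5 : (2 : ℝ) • meanCurv s X y = ε • deriv (deriv γ) (ψ y 0) := by
      rw [h1, neg_smul] at h4
      exact neg_injective h4
    calc meanCurv s X y = (1 / 2 : ℝ) • ((2 : ℝ) • meanCurv s X y) := by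
          rw [smul_smul]; norm_num
      _ = (ε / 2) • deriv (deriv γ) (ψ y 0) := by
          rw [h5, smul_smul]; congr 1; ring
  -- every `u` in `S 0` is a value
  have hval : ∀ u ∈ S 0, ∃ y ∈ O, ψ y 0 = u := by
    intro u hu
    have hz : ∀ k : Fin 2, (WithLp.toLp 2 ![u, ψ x 1] : E2) k ∈ S k := by
      intro k
      fin_cases k
      · exact hu
      · exact hC.mψ x hxO 1
    refine ⟨φ (WithLp.toLp 2 ![u, ψ x 1]), hC.mφ _ hz, ?_⟩
    rw [hC.ri _ hz]
    rfl
  have hne2 : ∀ u ∈ S 0, deriv (deriv γ) u ≠ 0 := by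
    intro u hu h0
    obtain ⟨y, hy, rfl⟩ := hval u hu
    have h1 := h.hW y (hOU hy)
    apply hW
    rw [← h1]
    unfold trc
    rw [hH y hy, h0]
    simp [ip]
  have h4 : ∀ u ∈ S 0, deriv (deriv (deriv (deriv γ))) u = -(ε * c) • deriv (deriv γ) u := by
    intro u hu
    obtain ⟨y, hy, rfl⟩ := hval u hu
    have hsm : ContDiffOn ℝ ∞ (fun u => (ε / 2) • deriv (deriv γ) u) (S 0) := hγ2.const_smul _
    have h1 := key hsm y hy
    have h2 : lap s X (meanCurv s X) y = lap s X (fun z => (ε / 2) • deriv (deriv γ) (ψ z 0)) y :=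
      DA3_lap_congr hC.hW X hH hy
    rw [h.hM y (hOU hy), hH y hy, h1] at h2
    have h3 : deriv (deriv (fun u => (ε / 2) • deriv (deriv γ) u)) (ψ y 0) =
        (ε / 2) • deriv (deriv (deriv (deriv γ))) (ψ y 0) := by
      have h5 : deriv (fun u => (ε / 2) • deriv (deriv γ) u) =ᶠ[nhds (ψ y 0)]
          fun u => (ε / 2) • deriv (deriv (deriv γ)) u := by
        filter_upwards [hS0.mem_nhds (hm hy 0)] with t ht
        exact deriv_fun_const_smul (ε / 2) (hdiff hγ2 t ht)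
      rw [h5.deriv_eq]
      exact deriv_fun_const_smul (ε / 2) (hdiff hγ3 _ (hm hy 0))
    rw [h3] at h2
    have h6 : (1 / 2 : ℝ) • deriv (deriv (deriv (deriv γ))) (ψ y 0) =
        -(c • (ε / 2) • deriv (deriv γ) (ψ y 0)) := by
      rw [h2, neg_neg, smul_smul]
      congr 1
      linear_combination (-1 / 2 : ℝ) * hεε
    calc deriv (deriv (deriv (deriv γ))) (ψ y 0)
        = (2 : ℝ) • ((1 / 2 : ℝ) • deriv (deriv (deriv (deriv γ))) (ψ y 0)) := by
          rw [smul_smul]; norm_num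
      _ = -(ε * c) • deriv (deriv γ) (ψ y 0) := by
          rw [h6, smul_neg, smul_smul, smul_smul, ← neg_smul]
          congr 1
          ring
  have hec : ε * c ≠ 0 := mul_ne_zero (by rcases hε with rfl | rfl <;> norm_num) h.hc
  obtain ⟨a, b, hab⟩ := DA3_affine hS0 (hC.cS 0)
    (g := fun u => deriv (deriv γ) u + (ε * c) • γ u) (hγ2.add (hγ.const_smul _)) (by
      intro u hu
      have h5 : deriv (fun u => deriv (deriv γ) u + (ε * c) • γ u) =ᶠ[nhds u]
          fun u => deriv (deriv (deriv γ)) u + (ε * c) • deriv γ u := by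
        filter_upwards [hS0.mem_nhds hu] with t ht
        have e1 : HasDerivAt (deriv (deriv γ)) (deriv (deriv (deriv γ)) t) t :=
          (hdiff hγ2 t ht).hasDerivAt
        have e2 : HasDerivAt (fun u => (ε * c) • γ u) ((ε * c) • deriv γ t) t :=
          (hdiff hγ t ht).hasDerivAt.const_smul (ε * c)
        exact (e1.add e2).deriv
      rw [h5.deriv_eq]
      have e1 : HasDerivAt (deriv (deriv (deriv γ))) (deriv (deriv (deriv (deriv γ))) u) u :=
        (hdiff hγ3 u hu).hasDerivAt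
      have e2 : HasDerivAt (fun u => (ε * c) • deriv γ u) ((ε * c) • deriv (deriv γ) u) u :=
        (hdiff hγ1 u hu).hasDerivAt.const_smul (ε * c)
      have e3 : deriv (fun u => deriv (deriv (deriv γ)) u + (ε * c) • deriv γ u) u =
          deriv (deriv (deriv (deriv γ))) u + (ε * c) • deriv (deriv γ) u := (e1.add e2).deriv
      rw [e3, h4 u hu, ← add_smul]
      simp)
  refine ⟨{y : E2 | ∀ k, y k ∈ S k}, O, φ, ψ, hV, hC.hW, hOU, hxO, hC.sφ, hC.sψ,
    fun y hy => hC.mφ y hy, hm, fun y hy => hC.ri y hy, fun z hz => hC.li z hz, ?_⟩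
  refine ⟨S 0, γ, (ε * c)⁻¹ • b, (ε * c)⁻¹ • a, v, ε, hS0, fun y hy => hy 0, hγ, hε, ?_, ?_, ?_⟩
  · rcases he with rfl | rfl
    · exact Or.inl hvv
    · exact Or.inr hvv
  · intro u hu
    refine ⟨(hγ' u hu).1, (hγ' u hu).2, ?_, hne2 u hu⟩
    have h5 : deriv (deriv γ) u + (ε * c) • γ u = b + u • a := hab u hu
    have h6 : deriv (deriv γ) u = b + u • a - (ε * c) • γ u := by rw [← h5]; abel
    rw [h6, smul_sub, smul_sub, smul_smul, smul_comm u, smul_smul]
    have h7 : -(ε * c) * (ε * c)⁻¹ = -1 := by rw [neg_mul, mul_inv_cancel₀ hec]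
    rw [h7, neg_smul, neg_smul, neg_smul, one_smul, one_smul]
    abel
  · intro y hy
    show X (φ y) = _
    rw [hXγ _ (hC.mφ y hy), hC.ri y hy]

end Pool.H60.NC
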