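import Pool.Agent.H60.NC.TrS
import Pool.Agent.H60.NC.LapR

/-!
# B-scrolls, step 1: the null direction

`P = X + M/c` (`Pv`).  Choose `a` with `(∂_0 P_a(x), ∂_1 P_a(x)) ≠ 0` and put `b' = (∂_1 P_a, -∂_0 P_a)`,
`B' = Bv s X c a = Σ b'_i X_i`; `B'(x) ≠ 0` since `X_0`, `X_1` are independent.  Choose `k0` with
`B'_{k0}(x) ≠ 0`, and `O` = the open subset of `U` where `B'_{k0} ≠ 0` and one of the `∂_i P` is not `0`
(for instance `∂_{i0} P_l ≠ 0` for suitable `i0`, `l`).  `lam = B'_{k0}`, `b = b'/lam`,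
`B = B'/lam`: `B_{k0} = 1`.  `rank`: `Σ b_i ∂_i P = 0`.  `null`, `orth`: `<B,B> = 0`, `<B,∂_i P> = 0`.
`dir` divided by `lam^2`, with `∂_i B' = lam_i B + lam ∂_i B`:
`∂_i B - (1/2) <B,X_i> M = κ B` for some `κ`; the coordinate `k0` gives `κ = -(1/2) <B,X_i> M_{k0}`, so
`∂_i B = (1/2) <B,X_i> (M - M_{k0} B)`.  Finally `Σ b_i ∂_i B = (1/2) <B,B> (...) = 0`.
-/

namespace Pool.H60.NC

open scoped ContDiff
open Pool.Agent.H99.N2 (E2 E4 pd contDiffOn_pd contDiffOn_comp pd_comp)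
open Pool.H60.PE

private theorem DB1_ip_smul_left (s : ℕ) (a : ℝ) (u v : E4) : ip s (a • u) v = a * ip s u v := by
  rw [ip_comm, ip_smul, ip_comm]

private theorem DB1_indep {s : ℕ} {X : E2 → E4} {x : E2} (hd : (metric s X x).det ≠ 0)
    {p q : ℝ} (h : p • pd 0 X x - q • pd 1 X x = 0) : p = 0 ∧ q = 0 := by
  have h0 : p * ip s (pd 0 X x) (pd 0 X x) - q * ip s (pd 0 X x) (pd 1 X x) = 0 := by
    have := congrArg (fun v => ip s (pd 0 X x) v) h
    simp only [ip_sub, ip_smul] at this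
    rw [this]
    simp [ip]
  have h1 : p * ip s (pd 1 X x) (pd 0 X x) - q * ip s (pd 1 X x) (pd 1 X x) = 0 := by
    have := congrArg (fun v => ip s (pd 1 X x) v) h
    simp only [ip_sub, ip_smul] at this
    rw [this]
    simp [ip]
  have hc := ip_comm s (pd 0 X x) (pd 1 X x)
  have hD : (metric s X x).det = ip s (pd 0 X x) (pd 0 X x) * ip s (pd 1 X x) (pd 1 X x)
      - ip s (pd 0 X x) (pd 1 X x) * ip s (pd 1 X x) (pd 0 X x) := by
    rw [Matrix.det_fin_two]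
    rfl
  constructor
  · have : p * (metric s X x).det = 0 := by
      rw [hD]
      linear_combination ip s (pd 1 X x) (pd 1 X x) * h0 - ip s (pd 0 X x) (pd 1 X x) * h1
    exact (mul_eq_zero.1 this).resolve_right hd
  · have : q * (metric s X x).det = 0 := by
      rw [hD]
      linear_combination ip s (pd 1 X x) (pd 0 X x) * h0 - ip s (pd 0 X x) (pd 0 X x) * h1
    exact (mul_eq_zero.1 this).resolve_right hd

private theorem DB1_alg {l bk dk d0 dl w mk m0 : ℝ} (hl : l ≠ 0) (e2 : l⁻¹ * d0 + dl * l = 0)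
    (e4 : (dk - 2⁻¹ * w * mk) * l = (d0 - 2⁻¹ * w * m0) * bk) :
    l⁻¹ * dk + dl * bk = 2⁻¹ * (l⁻¹ * w) * (mk - m0 * (l⁻¹ * bk)) := by
  have e5 : dl = -(d0 / l ^ 2) := by
    field_simp at e2 ⊢
    linear_combination e2
  rw [e5]
  field_simp
  linear_combination 2 * e4

private theorem DB1_comb {p q u v : ℝ} (R : E4) (h : p * u + q * v = 0) :
    p • u • R + q • v • R = 0 := by
  rw [smul_smul, smul_smul, ← add_smul, h, zero_smul]

private theorem DB1_coord {v : E4} (h : v ≠ 0) : ∃ k, v k ≠ 0 := by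
  by_contra hcon
  push Not at hcon
  apply h
  ext k
  simpa using hcon k

theorem dir_B1 {s : ℕ} {X : E2 → E4} {U : Set E2} {c W : ℝ} (h : Hyp s X U c W)
    (hB : IdB s X U c) {x : E2} (hx : x ∈ U) (hne : ∃ i, pd i (Pv s X c) x ≠ 0) :
    ∃ (O : Set E2) (B : E2 → E4) (b : Fin 2 → E2 → ℝ) (k0 : Fin 4), IsOpen O ∧ x ∈ O ∧ O ⊆ U ∧
      ContDiffOn ℝ ∞ B O ∧ (∀ i, ContDiffOn ℝ ∞ (b i) O) ∧
      ∀ y ∈ O, B y k0 = 1 ∧ B y = ∑ i, b i y • pd i X y ∧ ∑ i, b i y • pd i (Pv s X c) y = 0 ∧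
        ∑ i, b i y • pd i B y = 0 ∧ ip s (B y) (B y) = 0 ∧
        (∀ i, ip s (B y) (pd i (Pv s X c) y) = 0) ∧ (∃ i, pd i (Pv s X c) y ≠ 0) ∧
        ∀ i, pd i B y = (2⁻¹ * ip s (B y) (pd i X y)) • (trc s X y - trc s X y k0 • B y) := by
  obtain ⟨i0, hi0⟩ := hne
  obtain ⟨a, ha⟩ := DB1_coord hi0
  -- the vector B' at x is not zero
  have hB'x : Bv s X c a x ≠ 0 := by
    intro h0
    have h1 := DB1_indep (h.hX.2 x hx) (p := pd 1 (Pv s X c) x a) (q := pd 0 (Pv s X c) x a) h0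
    fin_cases i0
    · exact ha h1.2
    · exact ha h1.1
  obtain ⟨k0, hk0⟩ := DB1_coord hB'x
  have hlamU : ContDiffOn ℝ ∞ (fun y => Bv s X c a y k0) U := contDiffOn_comp (h.B_smooth a) k0
  have hpU : ∀ i, ContDiffOn ℝ ∞ (fun y => pd i (Pv s X c) y a) U := fun i =>
    contDiffOn_comp (contDiffOn_pd h.hU h.P_smooth i) a
  have hO : IsOpen (U ∩ (fun y => Bv s X c a y k0 * pd i0 (Pv s X c) y a) ⁻¹' {0}ᶜ) :=
    (hlamU.mul (hpU i0)).continuousOn.isOpen_inter_preimage h.hU isOpen_compl_singleton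
  obtain ⟨O, hOdef⟩ : ∃ O, O = U ∩ (fun y => Bv s X c a y k0 * pd i0 (Pv s X c) y a) ⁻¹' {0}ᶜ :=
    ⟨_, rfl⟩
  rw [← hOdef] at hO
  have hOU : O ⊆ U := by rw [hOdef]; exact Set.inter_subset_left
  have hlam : ∀ y ∈ O, Bv s X c a y k0 ≠ 0 := by
    intro y hy
    rw [hOdef] at hy
    have := hy.2
    simp only [Set.mem_preimage, Set.mem_compl_iff, Set.mem_singleton_iff] at this
    exact fun h0 => this (by rw [h0, zero_mul])
  have hpne : ∀ y ∈ O, pd i0 (Pv s X c) y ≠ 0 := by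
    intro y hy h0
    rw [hOdef] at hy
    have := hy.2
    simp only [Set.mem_preimage, Set.mem_compl_iff, Set.mem_singleton_iff] at this
    exact this (by rw [h0]; simp)
  have hxO : x ∈ O := by
    rw [hOdef]
    refine ⟨hx, ?_⟩
    simp only [Set.mem_preimage, Set.mem_compl_iff, Set.mem_singleton_iff]
    exact mul_ne_zero hk0 ha
  have hinv : ContDiffOn ℝ ∞ (fun y => (Bv s X c a y k0)⁻¹) O := (hlamU.mono hOU).inv hlam
  have hBO : ContDiffOn ℝ ∞ (Bv s X c a) O := (h.B_smooth a).mono hOU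
  have hBs : ContDiffOn ℝ ∞ (fun y => (Bv s X c a y k0)⁻¹ • Bv s X c a y) O := hinv.smul hBO
  -- the main derivative formula
  have hB1 : ∀ y ∈ O, ((Bv s X c a y k0)⁻¹ • Bv s X c a y) k0 = 1 := by
    intro y hy
    show (Bv s X c a y k0)⁻¹ * Bv s X c a y k0 = 1
    exact inv_mul_cancel₀ (hlam y hy)
  have hdir : ∀ y ∈ O, ∀ i, pd i (fun y => (Bv s X c a y k0)⁻¹ • Bv s X c a y) y
      = (2⁻¹ * ip s ((Bv s X c a y k0)⁻¹ • Bv s X c a y) (pd i X y)) •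
        (trc s X y - trc s X y k0 • ((Bv s X c a y k0)⁻¹ • Bv s X c a y)) := by
    intro y hy i
    have hl := hlam y hy
    have e1 := pd_smul_at (smooth_diffAt hO hinv hy) (smooth_diffAt hO hBO hy) i
    have e2 : pd i (fun y => (Bv s X c a y k0)⁻¹ • Bv s X c a y) y k0 = 0 := by
      rw [← pd_comp hO hBs i k0 hy, pd_congr_on hO (g := fun _ => (1 : ℝ)) hB1 hy, pd_const_at]
    rw [e1] at e2
    rw [e1]
    have e3 : ∀ k, (pd i (Bv s X c a) y k - 2⁻¹ * ip s (Bv s X c a y) (pd i X y) * trc s X y k)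
        * Bv s X c a y k0
        = (pd i (Bv s X c a) y k0 - 2⁻¹ * ip s (Bv s X c a y) (pd i X y) * trc s X y k0)
          * Bv s X c a y k := fun k => hB.dir y (hOU hy) a i k k0
    have e2' : (Bv s X c a y k0)⁻¹ * pd i (Bv s X c a) y k0
        + pd i (fun y => (Bv s X c a y k0)⁻¹) y * Bv s X c a y k0 = 0 := e2
    rw [DB1_ip_smul_left]
    ext k
    show (Bv s X c a y k0)⁻¹ * pd i (Bv s X c a) y k
        + pd i (fun y => (Bv s X c a y k0)⁻¹) y * Bv s X c a y k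
        = (2⁻¹ * ((Bv s X c a y k0)⁻¹ * ip s (Bv s X c a y) (pd i X y)))
          * (trc s X y k - trc s X y k0 * ((Bv s X c a y k0)⁻¹ * Bv s X c a y k))
    exact DB1_alg hl e2' (e3 k)
  refine ⟨O, fun y => (Bv s X c a y k0)⁻¹ • Bv s X c a y,
    ![fun y => (Bv s X c a y k0)⁻¹ * pd 1 (Pv s X c) y a,
      fun y => -((Bv s X c a y k0)⁻¹ * pd 0 (Pv s X c) y a)], k0, hO, hxO, hOU, hBs, ?_, ?_⟩
  · intro i
    fin_cases i
    · exact hinv.mul ((hpU 1).mono hOU)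
    · exact (hinv.mul ((hpU 0).mono hOU)).neg
  intro y hy
  have hl := hlam y hy
  have c2 : (Bv s X c a y k0)⁻¹ • Bv s X c a y
      = ((Bv s X c a y k0)⁻¹ * pd 1 (Pv s X c) y a) • pd 0 X y
        + (-((Bv s X c a y k0)⁻¹ * pd 0 (Pv s X c) y a)) • pd 1 X y := by
    ext k
    show (Bv s X c a y k0)⁻¹ * (pd 1 (Pv s X c) y a * pd 0 X y k - pd 0 (Pv s X c) y a * pd 1 X y k)
      = ((Bv s X c a y k0)⁻¹ * pd 1 (Pv s X c) y a) * pd 0 X y k
        + (-((Bv s X c a y k0)⁻¹ * pd 0 (Pv s X c) y a)) * pd 1 X y k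
    ring
  have c5 : ip s ((Bv s X c a y k0)⁻¹ • Bv s X c a y) ((Bv s X c a y k0)⁻¹ • Bv s X c a y) = 0 := by
    rw [ip_smul, DB1_ip_smul_left, hB.null y (hOU hy) a]
    ring
  refine ⟨hB1 y hy, ?_, ?_, ?_, c5, ?_, ⟨i0, hpne y hy⟩, hdir y hy⟩
  · rw [Fin.sum_univ_two]
    exact c2
  · rw [Fin.sum_univ_two]
    ext l
    show ((Bv s X c a y k0)⁻¹ * pd 1 (Pv s X c) y a) * pd 0 (Pv s X c) y l
      + (-((Bv s X c a y k0)⁻¹ * pd 0 (Pv s X c) y a)) * pd 1 (Pv s X c) y l = 0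
    have := hB.rank y (hOU hy) a l
    linear_combination (-(Bv s X c a y k0)⁻¹) * this
  · rw [Fin.sum_univ_two, hdir y hy 0, hdir y hy 1]
    refine DB1_comb _ ?_
    have e : ((Bv s X c a y k0)⁻¹ * pd 1 (Pv s X c) y a)
        * (2⁻¹ * ip s ((Bv s X c a y k0)⁻¹ • Bv s X c a y) (pd 0 X y))
        + (-((Bv s X c a y k0)⁻¹ * pd 0 (Pv s X c) y a))
          * (2⁻¹ * ip s ((Bv s X c a y k0)⁻¹ • Bv s X c a y) (pd 1 X y)) = 0 := by
      have e6 : ip s ((Bv s X c a y k0)⁻¹ • Bv s X c a y)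
          (((Bv s X c a y k0)⁻¹ * pd 1 (Pv s X c) y a) • pd 0 X y
            + (-((Bv s X c a y k0)⁻¹ * pd 0 (Pv s X c) y a)) • pd 1 X y) = 0 := by
        rw [← c2]
        exact c5
      rw [ip_add, ip_smul, ip_smul] at e6
      linear_combination 2⁻¹ * e6
    exact e
  · intro i
    show ip s ((Bv s X c a y k0)⁻¹ • Bv s X c a y) (pd i (Pv s X c) y) = 0
    rw [DB1_ip_smul_left, hB.orth y (hOU hy) a i, mul_zero]

end Pool.H60.NC
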