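import Pool.Agent.H60.NC.DB1
import Pool.Agent.H60.NC.ChEx
import Pool.Agent.H60.NC.ChOne

/-!
# B-scrolls, step 2: the chart and the normal form

`O`, `B`, `b`, `k0` from `dir_B1`; `W = 2c`.  `q = -M/c`, `u = q_{k0}`, `q0 = q - u B`, so `(q0)_{k0} = 0`
and `∂_i B = -(c/2) <B,X_i> q0`.  `X = P + q`.
* `<q,q> = W/c^2 = 2/c`, `<q,X_i> = 0` (`ip_normalPart`), `<q,B> = 0`, `<q0,q0> = 2/c`;
  `<q,q_i> = 0` (differentiate) and `<q,P_i> = <q,X_i> - <q,q_i> = 0`.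
* `Σ b_i q_i = Σ b_i X_i - Σ b_i P_i = B`, so `Σ b_i u_i = 1` and `Σ b_i ∂_i q0 = B - B - 0 = 0`.
* `q0 ≠ 0`; some `<B,X_i> ≠ 0` at `x` (`B` is tangential and not `0`, `det g ≠ 0`), so `∂_i B(x) ≠ 0` for
  some `i`: choose `k1` with `∂_i B_{k1}(x) ≠ 0` and put `y = B_{k1}` (a function on `O`).
  `Σ b_i y_i = 0`, `Σ b_i u_i = 1`: the Jacobian of `ψ = (u, y)` at `x` is not `0`.  Chart
  (`exists_chart`, applied on the open subset of `O` where the gradient of `y` is not `0`).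
* `P`, `q0`, `B` satisfy `Σ b_i ∂_i = 0`, hence their differentials are multiples of that of `y`:
  `Chart.one_var` (`k = 1`): `P = p(y)`, `q0 = q(y)`, `B = b(y)` with smooth curves.
* `X = P + q0 + u B = p(y) + q(y) + u b(y)`.  The `k1`-coordinate of `b(y)` is `y`, so `b' ≠ 0`, and
  `y_i b'(y) = ∂_i B = -(c/2) <B,X_i> q0` shows `b' = m q` with `m = (c/2) <b',q>`, smooth and nowhere
  `0`.  `<p',b> = 0` from `<P_i,B> = 0`; `<p',q> = 0` from `<P_i,q0> = <P_i,q> - u <P_i,B> = 0`;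
  `p' ≠ 0` since some `∂_i P ≠ 0`.  (Each point of `S 1` is a value of `y`: use `φ` and a point of
  `S 0`.)  The first coordinate of the normal form is `x 0 = u`, the second `x 1 = y`.
-/

namespace Pool.H60.NC

open scoped ContDiff
open Pool.Agent.H99.N2 (E2 E4 pd contDiffOn_pd contDiffOn_comp pd_comp)
open Pool.H60.PE

section aux

variable {F : Type} [NormedAddCommGroup F] [NormedSpace ℝ F]

private lemma DB2_sub {f g : E2 → F} {x : E2} (hf : DifferentiableAt ℝ f x)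
    (hg : DifferentiableAt ℝ g x) (i : Fin 2) :
    pd i (fun y => f y - g y) x = pd i f x - pd i g x := by
  unfold pd
  rw [fderiv_fun_sub hf hg]
  rfl

private lemma DB2_add {f g : E2 → F} {x : E2} (hf : DifferentiableAt ℝ f x)
    (hg : DifferentiableAt ℝ g x) (i : Fin 2) :
    pd i (fun y => f y + g y) x = pd i f x + pd i g x := by
  unfold pd
  rw [fderiv_fun_add hf hg]
  rfl

private lemma DB2_cs {f : E2 → F} {x : E2} (hf : DifferentiableAt ℝ f x) (c : ℝ) (i : Fin 2) :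
    pd i (fun y => c • f y) x = c • pd i f x := by
  unfold pd
  rw [fderiv_fun_const_smul hf]
  rfl

private lemma DB2_smul {f : E2 → ℝ} {g : E2 → F} {x : E2} (hf : DifferentiableAt ℝ f x)
    (hg : DifferentiableAt ℝ g x) (i : Fin 2) :
    pd i (fun y => f y • g y) x = f x • pd i g x + pd i f x • g x := by
  unfold pd
  rw [fderiv_fun_smul hf hg]
  rfl

private lemma DB2_congr {f g : E2 → F} {x : E2} (h : f =ᶠ[nhds x] g) (i : Fin 2) :
    pd i f x = pd i g x := by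
  unfold pd
  rw [h.fderiv_eq]

private lemma DB2_dep (b0 b1 u0 u1 y0 y1 : ℝ) (h0 h1 : F) (e1 : b0 * u0 + b1 * u1 = 1)
    (e2 : b0 * y0 + b1 * y1 = 0) (e3 : b0 • h0 + b1 • h1 = 0) (ne : y0 ≠ 0 ∨ y1 ≠ 0) :
    u0 * y1 - u1 * y0 ≠ 0 ∧ ∃ ξ : F, h0 = y0 • ξ ∧ h1 = y1 • ξ := by
  have hy1 : y1 = b0 * (u0 * y1 - u1 * y0) := by
    linear_combination (-y1) * e1 + u1 * e2
  have hy0 : y0 = -b1 * (u0 * y1 - u1 * y0) := by
    linear_combination (-y0) * e1 + u0 * e2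
  have hJ : u0 * y1 - u1 * y0 ≠ 0 := by
    intro hJ
    rw [hJ] at hy1 hy0
    rcases ne with h | h
    · exact h (by rw [hy0]; ring)
    · exact h (by rw [hy1]; ring)
  refine ⟨hJ, (u0 * y1 - u1 * y0)⁻¹ • (u0 • h1 - u1 • h0), ?_, ?_⟩
  · have h2 : h0 = (-b1) • (u0 • h1 - u1 • h0) := by
      have h3 : (-b1) • (u0 • h1 - u1 • h0)
          = (b0 * u0 + b1 * u1) • h0 - u0 • (b0 • h0 + b1 • h1) := by module
      rw [h3, e1, e3]
      simp
    rw [smul_smul, show y0 * (u0 * y1 - u1 * y0)⁻¹ = -b1 by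
      rw [← div_eq_mul_inv, div_eq_iff hJ]; exact hy0]
    exact h2
  · have h2 : h1 = b0 • (u0 • h1 - u1 • h0) := by
      have h3 : b0 • (u0 • h1 - u1 • h0)
          = (b0 * u0 + b1 * u1) • h1 - u1 • (b0 • h0 + b1 • h1) := by module
      rw [h3, e1, e3]
      simp
    rw [smul_smul, show y1 * (u0 * y1 - u1 * y0)⁻¹ = b0 by
      rw [← div_eq_mul_inv, div_eq_iff hJ]; exact hy1]
    exact h2

private lemma DB2_open {O : Set E2} (hO : IsOpen O) {f : E2 → ℝ} (hf : ContDiffOn ℝ ∞ f O) :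
    IsOpen {z | z ∈ O ∧ (pd 0 f z ≠ 0 ∨ pd 1 f z ≠ 0)} := by
  have h : {z | z ∈ O ∧ (pd 0 f z ≠ 0 ∨ pd 1 f z ≠ 0)}
      = (O ∩ pd 0 f ⁻¹' {0}ᶜ) ∪ (O ∩ pd 1 f ⁻¹' {0}ᶜ) := by
    ext z
    simp only [Set.mem_ofPred_eq, Set.mem_union, Set.mem_inter_iff, Set.mem_preimage,
      Set.mem_compl_iff, Set.mem_singleton_iff]
    tauto
  rw [h]
  exact ((contDiffOn_pd hO hf 0).continuousOn.isOpen_inter_preimage hO isOpen_compl_singleton).union
    ((contDiffOn_pd hO hf 1).continuousOn.isOpen_inter_preimage hO isOpen_compl_singleton)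

end aux

private lemma DB2_coord2 {f : E2 → E2} {x : E2} (hf : DifferentiableAt ℝ f x) (i k : Fin 2) :
    pd i (fun y => f y k) x = pd i f x k := by
  have h1 : HasFDerivAt (fun y => f y k)
      ((EuclideanSpace.proj k : E2 →L[ℝ] ℝ).comp (fderiv ℝ f x)) x :=
    (EuclideanSpace.proj k : E2 →L[ℝ] ℝ).hasFDerivAt.comp x hf.hasFDerivAt
  unfold pd
  rw [h1.fderiv]
  rfl

private lemma DB2_coord4 {f : E2 → E4} {x : E2} (hf : DifferentiableAt ℝ f x) (i : Fin 2)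
    (k : Fin 4) : pd i (fun y => f y k) x = pd i f x k := by
  have h1 : HasFDerivAt (fun y => f y k)
      ((EuclideanSpace.proj k : E4 →L[ℝ] ℝ).comp (fderiv ℝ f x)) x :=
    (EuclideanSpace.proj k : E4 →L[ℝ] ℝ).hasFDerivAt.comp x hf.hasFDerivAt
  unfold pd
  rw [h1.fderiv]
  rfl

private lemma DB2_mul {f g : E2 → ℝ} {x : E2} (hf : DifferentiableAt ℝ f x)
    (hg : DifferentiableAt ℝ g x) (i : Fin 2) :
    pd i (fun y => f y * g y) x = f x * pd i g x + g x * pd i f x := by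
  unfold pd
  rw [fderiv_fun_mul hf hg]
  simp

private lemma DB2_ip (s : ℕ) {f g : E2 → E4} {x : E2} (hf : DifferentiableAt ℝ f x)
    (hg : DifferentiableAt ℝ g x) (i : Fin 2) :
    pd i (fun y => ip s (f y) (g y)) x = ip s (pd i f x) (g x) + ip s (f x) (pd i g x) := by
  have hfk : ∀ k : Fin 4, DifferentiableAt ℝ (fun y => f y k) x := fun k =>
    ((EuclideanSpace.proj k : E4 →L[ℝ] ℝ).differentiableAt).comp x hf
  have hgk : ∀ k : Fin 4, DifferentiableAt ℝ (fun y => g y k) x := fun k =>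
    ((EuclideanSpace.proj k : E4 →L[ℝ] ℝ).differentiableAt).comp x hg
  have h0 : ∀ k : Fin 4, DifferentiableAt ℝ (fun y => sgn s k * (f y k * g y k)) x := fun k =>
    ((hfk k).mul (hgk k)).const_mul _
  have h1 : pd i (fun y => ip s (f y) (g y)) x
      = ∑ k, pd i (fun y => sgn s k * (f y k * g y k)) x := by
    unfold pd ip
    rw [fderiv_fun_sum fun k _ => h0 k]
    simp
  rw [h1]
  unfold ip
  rw [← Finset.sum_add_distrib]
  refine Finset.sum_congr rfl fun k _ => ?_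
  have h2 := DB2_cs ((hfk k).mul (hgk k)) (sgn s k) i
  have h3 := DB2_mul (hfk k) (hgk k) i
  rw [DB2_coord4 hf i k, DB2_coord4 hg i k] at h3
  have h4 : pd i (fun y => sgn s k * (f y k * g y k)) x
      = sgn s k * pd i (fun y => f y k * g y k) x := h2
  rw [h4, h3]
  ring

theorem dir_B {s : ℕ} {X : E2 → E4} {U : Set E2} {c W : ℝ} (h : Hyp s X U c W)
    (hW : W = 2 * c) (hB : IdB s X U c) {x : E2} (hx : x ∈ U)
    (hne : ∃ i, pd i (Pv s X c) x ≠ 0) : LocalForm X U x (IsBScroll s c) := by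
  obtain ⟨O, B, b, k0, hO, hxO, hOU, hBs, hbs, hall⟩ := dir_B1 h hB hx hne
  have hc : c ≠ 0 := h.hc
  have hdet : ∀ y ∈ O, (metric s X y).det ≠ 0 := fun y hy => h.hX.2 y (hOU hy)
  have hXs : ContDiffOn ℝ ∞ X O := h.hX.1.mono hOU
  have hMs : ContDiffOn ℝ ∞ (trc s X) O := h.trc_smooth.mono hOU
  have hPs : ContDiffOn ℝ ∞ (Pv s X c) O := h.P_smooth.mono hOU
  have hd : ∀ {F : Type} [NormedAddCommGroup F] [NormedSpace ℝ F] {f : E2 → F},
      ContDiffOn ℝ ∞ f O → ∀ y ∈ O, DifferentiableAt ℝ f y := by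
    intro F _ _ f hf y hy
    exact (hf.contDiffAt (hO.mem_nhds hy)).differentiableAt (by simp)
  have hMM : ∀ y ∈ O, ip s (trc s X y) (trc s X y) = 2 * c := fun y hy => by
    rw [h.hW y (hOU hy), hW]
  have hXM : ∀ y ∈ O, ∀ i, ip s (pd i X y) (trc s X y) = 0 := by
    intro y hy i
    unfold trc meanCurv
    simp only [ip_smul, Fin.sum_univ_two, ip_add, ip_normalPart s X (hdet y hy)]
    ring
  have hMX : ∀ y ∈ O, ∀ i, ip s (trc s X y) (pd i X y) = 0 := fun y hy i => by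
    rw [ip_comm]; exact hXM y hy i
  have hMMi : ∀ y ∈ O, ∀ i, ip s (trc s X y) (pd i (trc s X) y) = 0 := by
    intro y hy i
    have h1 := DB2_ip s (hd hMs y hy) (hd hMs y hy) i
    have h2 : pd i (fun y => ip s (trc s X y) (trc s X y)) y = pd i (fun _ : E2 => 2 * c) y := by
      apply DB2_congr
      filter_upwards [hO.mem_nhds hy] with z hz using hMM z hz
    have h3 : pd i (fun _ : E2 => 2 * c) y = 0 := by
      unfold pd
      simp
    rw [h2, h3, ip_comm s (pd i (trc s X) y)] at h1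
    linarith
  have hPi : ∀ y ∈ O, ∀ i, pd i (Pv s X c) y = pd i X y + c⁻¹ • pd i (trc s X) y := by
    intro y hy i
    have h1 := DB2_add (hd hXs y hy) ((hd hMs y hy).const_smul c⁻¹) i
    rw [← DB2_cs (hd hMs y hy) c⁻¹ i]
    exact h1
  have hMP : ∀ y ∈ O, ∀ i, ip s (trc s X y) (pd i (Pv s X c) y) = 0 := by
    intro y hy i
    rw [hPi y hy i, ip_add, ip_smul, hMX y hy i, hMMi y hy i]
    ring
  have hMB : ∀ y ∈ O, ip s (trc s X y) (B y) = 0 := by
    intro y hy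
    rw [(hall y hy).2.1]
    simp only [Fin.sum_univ_two, ip_add, ip_smul, hMX y hy]
    ring
  -- the functions u and q0
  obtain ⟨u, hu⟩ : ∃ u : E2 → ℝ, ∀ y, u y = (-c⁻¹) * trc s X y k0 := ⟨_, fun y => rfl⟩
  have hu' : u = fun y => (-c⁻¹) * trc s X y k0 := funext hu
  obtain ⟨q0, hq0⟩ : ∃ q0 : E2 → E4, ∀ y, q0 y = (-c⁻¹) • trc s X y - u y • B y :=
    ⟨_, fun y => rfl⟩
  have hq0' : q0 = fun y => (-c⁻¹) • trc s X y - u y • B y := funext hq0
  have hus : ContDiffOn ℝ ∞ u O := by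
    rw [hu']
    exact contDiffOn_const.mul (contDiffOn_comp hMs k0)
  have hq0s : ContDiffOn ℝ ∞ q0 O := by
    rw [hq0']
    have e0 : ContDiffOn ℝ ∞ (fun _ : E2 => (-c⁻¹ : ℝ)) O := contDiffOn_const
    have e1 : ContDiffOn ℝ ∞ (fun y => (-c⁻¹) • trc s X y) O := e0.smul hMs
    have e2 : ContDiffOn ℝ ∞ (fun y => u y • B y) O := hus.smul hBs
    exact e1.sub e2
  have hui : ∀ y ∈ O, ∀ i, pd i u y = (-c⁻¹) * pd i (trc s X) y k0 := by
    intro y hy i
    have h1 := DB2_cs (hd (contDiffOn_comp hMs k0) y hy) (-c⁻¹) i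
    rw [DB2_coord4 (hd hMs y hy) i k0] at h1
    rw [hu']
    exact h1
  have hMi : ∀ y ∈ O, ∑ i, b i y • pd i (trc s X) y = (-c) • B y := by
    intro y hy
    have h1 := (hall y hy).2.2.1
    have h2 := (hall y hy).2.1
    simp only [Fin.sum_univ_two, hPi y hy] at h1 h2 ⊢
    have e : c * c⁻¹ = 1 := mul_inv_cancel₀ hc
    ext k
    have h1k := congrArg (fun v : E4 => v k) h1
    have h2k := congrArg (fun v : E4 => v k) h2
    simp only [PiLp.add_apply, PiLp.smul_apply, smul_eq_mul, PiLp.zero_apply] at h1k h2k ⊢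
    linear_combination c * h1k + c * h2k
      - (b 0 y * pd 0 (trc s X) y k + b 1 y * pd 1 (trc s X) y k) * e
  have hbu : ∀ y ∈ O, b 0 y * pd 0 u y + b 1 y * pd 1 u y = 1 := by
    intro y hy
    have h1 := congrArg (fun v : E4 => v k0) (hMi y hy)
    simp only [Fin.sum_univ_two, PiLp.add_apply, PiLp.smul_apply, smul_eq_mul,
      (hall y hy).1] at h1
    rw [hui y hy 0, hui y hy 1]
    have e : c⁻¹ * c = 1 := inv_mul_cancel₀ hc
    linear_combination (-c⁻¹) * h1 + e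
  have hq0i : ∀ y ∈ O, ∀ i, pd i q0 y
      = (-c⁻¹) • pd i (trc s X) y - (u y • pd i B y + pd i u y • B y) := by
    intro y hy i
    have h1 := DB2_sub ((hd hMs y hy).const_smul (-c⁻¹)) ((hd hus y hy).smul (hd hBs y hy)) i
    have h2 := DB2_cs (hd hMs y hy) (-c⁻¹) i
    have h3 := DB2_smul (hd hus y hy) (hd hBs y hy) i
    rw [hq0', ← h2, ← h3]
    exact h1
  have hbq0 : ∀ y ∈ O, b 0 y • pd 0 q0 y + b 1 y • pd 1 q0 y = 0 := by
    intro y hy
    have h1 := hMi y hy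
    have h2 := (hall y hy).2.2.2.1
    have h3 := hbu y hy
    simp only [Fin.sum_univ_two] at h1 h2
    rw [hq0i y hy 0, hq0i y hy 1]
    have e : c⁻¹ * c = 1 := inv_mul_cancel₀ hc
    have h4 : b 0 y • ((-c⁻¹) • pd 0 (trc s X) y - (u y • pd 0 B y + pd 0 u y • B y))
        + b 1 y • ((-c⁻¹) • pd 1 (trc s X) y - (u y • pd 1 B y + pd 1 u y • B y))
        = (-c⁻¹) • (b 0 y • pd 0 (trc s X) y + b 1 y • pd 1 (trc s X) y)
          - u y • (b 0 y • pd 0 B y + b 1 y • pd 1 B y)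
          - (b 0 y * pd 0 u y + b 1 y * pd 1 u y) • B y := by module
    rw [h4, h1, h2, h3, smul_smul (-c⁻¹) (-c) (B y), show -c⁻¹ * -c = 1 by linear_combination e]
    simp
  have hBB : ∀ y ∈ O, ip s (B y) (B y) = 0 := fun y hy => (hall y hy).2.2.2.2.1
  have hBM : ∀ y ∈ O, ip s (B y) (trc s X y) = 0 := fun y hy => by rw [ip_comm]; exact hMB y hy
  have hBP : ∀ y ∈ O, ∀ i, ip s (B y) (pd i (Pv s X c) y) = 0 :=
    fun y hy => (hall y hy).2.2.2.2.2.1
  have hq0q0 : ∀ y ∈ O, ip s (q0 y) (q0 y) = 2 / c := by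
    intro y hy
    have h1 : ip s (q0 y) (q0 y)
        = (-c⁻¹) * ip s (q0 y) (trc s X y) - u y * ip s (q0 y) (B y) := by
      conv_lhs => rw [hq0 y, ip_sub, ip_smul, ip_smul]
      rw [← hq0 y]
    have h2 : ip s (q0 y) (trc s X y) = (-c⁻¹) * (2 * c) := by
      rw [ip_comm, hq0 y, ip_sub, ip_smul, ip_smul, hMM y hy, hMB y hy]
      ring
    have h3 : ip s (q0 y) (B y) = 0 := by
      rw [ip_comm, hq0 y, ip_sub, ip_smul, ip_smul, hBM y hy, hBB y hy]
      ring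
    rw [h1, h2, h3]
    field_simp
    ring
  have hPq0 : ∀ y ∈ O, ∀ i, ip s (pd i (Pv s X c) y) (q0 y) = 0 := by
    intro y hy i
    have h1 := hMP y hy i
    have h2 := hBP y hy i
    rw [ip_comm] at h1 h2
    rw [hq0 y, ip_sub, ip_smul, ip_smul, h1, h2]
    ring
  have hBi : ∀ y ∈ O, ∀ i, pd i B y = (-(c / 2) * ip s (B y) (pd i X y)) • q0 y := by
    intro y hy i
    rw [(hall y hy).2.2.2.2.2.2.2 i, hq0 y, hu y]
    have e : c * c⁻¹ = 1 := mul_inv_cancel₀ hc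
    ext k
    simp only [PiLp.sub_apply, PiLp.smul_apply, smul_eq_mul]
    linear_combination (-(2⁻¹ : ℝ) * ip s (B y) (pd i X y)
      * (trc s X y k - trc s X y k0 * B y k)) * e
  -- a function with nonzero gradient
  have hBX : ∃ i, ip s (B x) (pd i X x) ≠ 0 := by
    by_contra hcon
    push Not at hcon
    have h1 := (hall x hxO).2.1
    have g0 := hcon 0
    have g1 := hcon 1
    rw [ip_comm, h1] at g0 g1
    simp only [Fin.sum_univ_two, ip_add, ip_smul] at g0 g1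
    have m01 : ip s (pd 1 X x) (pd 0 X x) = ip s (pd 0 X x) (pd 1 X x) := ip_comm _ _ _
    have hD : ip s (pd 0 X x) (pd 0 X x) * ip s (pd 1 X x) (pd 1 X x)
        - ip s (pd 0 X x) (pd 1 X x) * ip s (pd 0 X x) (pd 1 X x) ≠ 0 := by
      have := hdet x hxO
      rw [metric_det] at this
      exact this
    rw [m01] at g1
    have hb0 : b 0 x = 0 := by
      have : b 0 x * (ip s (pd 0 X x) (pd 0 X x) * ip s (pd 1 X x) (pd 1 X x)
        - ip s (pd 0 X x) (pd 1 X x) * ip s (pd 0 X x) (pd 1 X x)) = 0 := by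
        linear_combination ip s (pd 1 X x) (pd 1 X x) * g0 - ip s (pd 0 X x) (pd 1 X x) * g1
      exact (mul_eq_zero.1 this).resolve_right hD
    have hb1 : b 1 x = 0 := by
      have : b 1 x * (ip s (pd 0 X x) (pd 0 X x) * ip s (pd 1 X x) (pd 1 X x)
        - ip s (pd 0 X x) (pd 1 X x) * ip s (pd 0 X x) (pd 1 X x)) = 0 := by
        linear_combination ip s (pd 0 X x) (pd 0 X x) * g1 - ip s (pd 0 X x) (pd 1 X x) * g0
      exact (mul_eq_zero.1 this).resolve_right hD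
    have h2 := (hall x hxO).1
    rw [h1] at h2
    simp [Fin.sum_univ_two, hb0, hb1] at h2
  have hq0ne : ∀ y ∈ O, q0 y ≠ 0 := by
    intro y hy h0
    have h1 := hq0q0 y hy
    rw [h0] at h1
    have h2 : ip s (0 : E4) 0 = 0 := by simp [ip]
    rw [h2] at h1
    exact (div_ne_zero two_ne_zero hc) h1.symm
  obtain ⟨i1, hi1⟩ := hBX
  have hBne : pd i1 B x ≠ 0 := by
    rw [hBi x hxO i1]
    exact smul_ne_zero (mul_ne_zero (neg_ne_zero.2 (div_ne_zero hc two_ne_zero)) hi1)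
      (hq0ne x hxO)
  obtain ⟨k1, hk1⟩ : ∃ k1, pd i1 B x k1 ≠ 0 := by
    by_contra hcon
    push Not at hcon
    exact hBne (by ext k; simpa using hcon k)
  obtain ⟨yy, hyy⟩ : ∃ yy : E2 → ℝ, ∀ z, yy z = B z k1 := ⟨_, fun z => rfl⟩
  have hyy' : yy = fun z => B z k1 := funext hyy
  have hys : ContDiffOn ℝ ∞ yy O := by
    rw [hyy']
    exact contDiffOn_comp hBs k1
  have hyi : ∀ z ∈ O, ∀ i, pd i yy z = pd i B z k1 := by
    intro z hz i
    rw [hyy']
    exact DB2_coord4 (hd hBs z hz) i k1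
  have hby : ∀ z ∈ O, b 0 z * pd 0 yy z + b 1 z * pd 1 yy z = 0 := by
    intro z hz
    have h1 := congrArg (fun v : E4 => v k1) (hall z hz).2.2.2.1
    simp only [Fin.sum_univ_two, PiLp.add_apply, PiLp.smul_apply, smul_eq_mul,
      PiLp.zero_apply] at h1
    rw [hyi z hz 0, hyi z hz 1]
    exact h1
  -- the chart
  obtain ⟨O', hO'⟩ : ∃ O' : Set E2, O' = {z | z ∈ O ∧ (pd 0 yy z ≠ 0 ∨ pd 1 yy z ≠ 0)} :=
    ⟨_, rfl⟩
  have hO'o : IsOpen O' := by rw [hO']; exact DB2_open hO hys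
  have hO'O : O' ⊆ O := by rw [hO']; exact fun z hz => hz.1
  have hO'ne : ∀ z ∈ O', pd 0 yy z ≠ 0 ∨ pd 1 yy z ≠ 0 := by
    rw [hO']; exact fun z hz => hz.2
  have hxO' : x ∈ O' := by
    rw [hO']
    refine ⟨hxO, ?_⟩
    have : pd i1 yy x ≠ 0 := by rw [hyi x hxO i1]; exact hk1
    fin_cases i1
    · exact Or.inl this
    · exact Or.inr this
  obtain ⟨ψ, hψ⟩ : ∃ ψ : E2 → E2, ∀ z, ψ z = !₂[u z, yy z] := ⟨_, fun z => rfl⟩
  have hψ0 : ∀ z, ψ z 0 = u z := fun z => by rw [hψ]; rfl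
  have hψ1 : ∀ z, ψ z 1 = yy z := fun z => by rw [hψ]; rfl
  have hψs : ContDiffOn ℝ ∞ ψ O := by
    rw [contDiffOn_euclidean]
    intro k
    fin_cases k
    · exact hus.congr fun z _ => hψ0 z
    · exact hys.congr fun z _ => hψ1 z
  have hψi0 : ∀ z ∈ O, ∀ i, pd i ψ z 0 = pd i u z := by
    intro z hz i
    rw [← DB2_coord2 (hd hψs z hz) i 0]
    congr 1
    funext z
    exact hψ0 z
  have hψi1 : ∀ z ∈ O, ∀ i, pd i ψ z 1 = pd i yy z := by
    intro z hz i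
    rw [← DB2_coord2 (hd hψs z hz) i 1]
    congr 1
    funext z
    exact hψ1 z
  have hJ : pd 0 ψ x 0 * pd 1 ψ x 1 - pd 0 ψ x 1 * pd 1 ψ x 0 ≠ 0 := by
    rw [hψi0 x hxO, hψi0 x hxO, hψi1 x hxO, hψi1 x hxO]
    have h1 := (DB2_dep (b 0 x) (b 1 x) (pd 0 u x) (pd 1 u x) (pd 0 yy x) (pd 1 yy x)
      (0 : ℝ) 0 (hbu x hxO) (hby x hxO) (by simp) (hO'ne x hxO')).1
    rwa [mul_comm (pd 0 yy x)]
  obtain ⟨W', S, φ, hW'O, hxW, C⟩ := exists_chart hO'o (hψs.mono hO'O) hxO' hJ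
  have hWO : W' ⊆ O := hW'O.trans hO'O
  have hdep : ∀ {h : E2 → E4}, (∀ z ∈ O, b 0 z • pd 0 h z + b 1 z • pd 1 h z = 0) →
      ∀ z ∈ W', ∃ ξ : E4, ∀ i, pd i h z = pd i ψ z 1 • ξ := by
    intro h hh z hz
    obtain ⟨ξ, h0, h1⟩ := (DB2_dep (b 0 z) (b 1 z) (pd 0 u z) (pd 1 u z) (pd 0 yy z) (pd 1 yy z)
      (pd 0 h z) (pd 1 h z) (hbu z (hWO hz)) (hby z (hWO hz)) (hh z (hWO hz))
      (hO'ne z (hW'O hz))).2
    refine ⟨ξ, fun i => ?_⟩
    rw [hψi1 z (hWO hz)]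
    fin_cases i
    · exact h0
    · exact h1
  obtain ⟨p, hps, hpv, hpd⟩ := C.one_var 1 (hPs.mono hWO) (hdep fun z hz => by
    have := (hall z hz).2.2.1
    rwa [Fin.sum_univ_two] at this)
  obtain ⟨qq, hqs, hqv, hqd⟩ := C.one_var 1 (hq0s.mono hWO) (hdep hbq0)
  obtain ⟨bb, hbbs, hbbv, hbbd⟩ := C.one_var 1 (hBs.mono hWO) (hdep fun z hz => by
    have := (hall z hz).2.2.2.1
    rwa [Fin.sum_univ_two] at this)
  have hcurve : ∀ {f : ℝ → E4}, ContDiffOn ℝ ∞ f (S 1) → ContDiffOn ℝ ∞ (deriv f) (S 1) :=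
    fun hf => hf.deriv_of_isOpen (C.hS 1) (by simp)
  have hcoord : ∀ {f : ℝ → E4}, ContDiffOn ℝ ∞ f (S 1) → ∀ k,
      ContDiffOn ℝ ∞ (fun t => f t k) (S 1) := fun hf k => (contDiffOn_euclidean.1 hf) k
  refine ⟨{y | ∀ k, y k ∈ S k}, W', φ, ψ, isOpen_box C.hS, C.hW, hWO.trans hOU, hxW, C.sφ, C.sψ,
    fun y hy => C.mφ y hy, fun z hz => C.mψ z hz, fun y hy => C.ri y hy, C.li, ?_⟩
  refine ⟨S 1, p, qq, bb, fun t => (c / 2) * ip s (deriv bb t) (qq t), C.hS 1,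
    fun y hy => hy 1, hps, hqs, hbbs, ?_, ?_, ?_⟩
  · unfold ip
    exact contDiffOn_const.mul (ContDiffOn.sum fun k _ =>
      contDiffOn_const.mul ((hcoord (hcurve hbbs) k).mul (hcoord hqs k)))
  · intro t ht
    obtain ⟨z, hz, hzt⟩ : ∃ z ∈ W', ψ z 1 = t := by
      have hbox : ∀ k, (!₂[ψ x 0, t] : E2) k ∈ S k := by
        intro k
        fin_cases k
        · exact C.mψ x hxW 0
        · exact ht
      exact ⟨φ !₂[ψ x 0, t], C.mφ _ hbox, by rw [C.ri _ hbox]; rfl⟩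
    have hzO := hWO hz
    subst hzt
    rw [← hbbv z hz, ← hqv z hz]
    obtain ⟨i, hi⟩ : ∃ i, pd i ψ z 1 ≠ 0 := by
      rcases hO'ne z (hW'O hz) with h1 | h1
      · exact ⟨0, by rw [hψi1 z hzO]; exact h1⟩
      · exact ⟨1, by rw [hψi1 z hzO]; exact h1⟩
    obtain ⟨mu, hmu⟩ : ∃ mu : ℝ, deriv bb (ψ z 1) = mu • q0 z := by
      refine ⟨(pd i ψ z 1)⁻¹ * (-(c / 2) * ip s (B z) (pd i X z)), ?_⟩
      rw [← smul_smul, ← hBi z hzO i, hbbd z hz i, smul_smul, inv_mul_cancel₀ hi, one_smul]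
    have hm : c / 2 * ip s (deriv bb (ψ z 1)) (q0 z) = mu := by
      rw [hmu, ip_comm, ip_smul, hq0q0 z hzO]
      field_simp
    have hmune : mu ≠ 0 := by
      intro h0
      rw [h0, zero_smul] at hmu
      have h1 := hbbd z hz i
      rw [hmu, smul_zero] at h1
      have h2 := congrArg (fun v : E4 => v k1) h1
      simp only [PiLp.zero_apply] at h2
      rw [← hyi z hzO i, ← hψi1 z hzO i] at h2
      exact hi h2
    have hm2 : (fun t => c / 2 * ip s (deriv bb t) (qq t)) (ψ z 1) = mu := by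
      show c / 2 * ip s (deriv bb (ψ z 1)) (qq (ψ z 1)) = mu
      rw [← hqv z hz]
      exact hm
    rw [hm2]
    refine ⟨hBB z hzO, hq0q0 z hzO, hmu, hmune, ?_, ?_, ?_⟩
    · have h1 := hBP z hzO i
      rw [hpd z hz i, ip_smul] at h1
      rw [ip_comm]
      exact (mul_eq_zero.1 h1).resolve_left hi
    · have h1 := hPq0 z hzO i
      rw [hpd z hz i, ip_comm, ip_smul] at h1
      rw [ip_comm]
      exact (mul_eq_zero.1 h1).resolve_left hi
    · intro h0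
      obtain ⟨j, hj⟩ := (hall z hzO).2.2.2.2.2.2.1
      apply hj
      rw [hpd z hz j, h0, smul_zero]
  · intro y hy
    have hw := C.mφ y hy
    have hr := C.ri y hy
    have h1 : ψ (φ y) 1 = y 1 := by rw [hr]
    have h0 : u (φ y) = y 0 := by rw [← hψ0, hr]
    rw [← h1, ← hpv _ hw, ← hqv _ hw, ← hbbv _ hw, ← h0, hq0 (φ y)]
    unfold Pv
    module

end Pool.H60.NC
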