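import Pool.Agent.H60.NC.TrS

/-!
# Lightlike mean curvature vector, step 1: its direction is constant

Choose `k` with `M_k(x) ≠ 0` and a ball `O` around `x` in `U` on which `M_k ≠ 0`.  By `Id0` the
derivative of `M/M_k` vanishes on `O`, so `M = ρ v` with `ρ = M_k` and a constant vector `v`
(`v_k = 1`).  `<M,M> = 0` and `<X_i,M> = 0` (`ip_normalPart` and the definition of `meanCurv`) give the
rest.
-/

namespace Pool.H60.NC

open scoped ContDiff
open Pool.Agent.H99.N2 (E2 E4 pd contDiffOn_pd contDiffOn_comp pd_comp)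
open Pool.H60.PE

private theorem DC1_zero {L : E2 →L[ℝ] E4} (h : ∀ i, L (EuclideanSpace.single i 1) = 0) :
    L = 0 := by
  ext1 w
  have hw : w = w 0 • EuclideanSpace.single 0 1 + w 1 • EuclideanSpace.single 1 1 := by
    ext j
    fin_cases j <;> simp
  rw [hw, map_add, map_smul, map_smul, h, h]
  simp

private theorem DC1_quot {M : E2 → E4} {k : Fin 4} {y : E2} (hM : DifferentiableAt ℝ M y)
    (hk : M y k ≠ 0)
    (h : ∀ (i : Fin 2) (l : Fin 4), M y k * pd i M y l = M y l * pd i M y k) :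
    HasFDerivAt (fun z => (M z k)⁻¹ • M z) (0 : E2 →L[ℝ] E4) y := by
  have h1 : HasFDerivAt (fun z => M z k)
      ((EuclideanSpace.proj k : E4 →L[ℝ] ℝ).comp (fderiv ℝ M y)) y :=
    ((EuclideanSpace.proj k : E4 →L[ℝ] ℝ).hasFDerivAt).comp y hM.hasFDerivAt
  have h2 : HasFDerivAt (fun z => (M z k)⁻¹) _ y := (hasDerivAt_inv hk).comp_hasFDerivAt y h1
  have h3 := h2.smul hM.hasFDerivAt
  refine h3.congr_fderiv (DC1_zero fun i => ?_)
  ext l
  have h4 := h i l
  unfold pd at h4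
  simp only [ContinuousLinearMap.add_apply, ContinuousLinearMap.smul_apply,
    ContinuousLinearMap.smulRight_apply, ContinuousLinearMap.comp_apply, PiLp.add_apply,
    PiLp.smul_apply, smul_eq_mul, PiLp.zero_apply]
  change (M y k)⁻¹ * (fderiv ℝ M y (EuclideanSpace.single i 1)) l
    + -(M y k ^ 2)⁻¹ * (fderiv ℝ M y (EuclideanSpace.single i 1)) k * M y l = 0
  have h5 : (M y k)⁻¹ = (M y k ^ 2)⁻¹ * M y k := by
    field_simp
  rw [h5]
  linear_combination (M y k ^ 2)⁻¹ * h4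

private theorem DC1_nor {s : ℕ} {X : E2 → E4} {y : E2} (hy : (metric s X y).det ≠ 0)
    (i : Fin 2) : ip s (pd i X y) (trc s X y) = 0 := by
  unfold trc meanCurv
  simp only [Fin.sum_univ_two, ip_smul, ip_add, ip_normalPart s X hy, mul_zero, add_zero]

theorem dir_C1 {s : ℕ} {X : E2 → E4} {U : Set E2} {c : ℝ} (h : Hyp s X U c 0)
    (h0 : Id0 s X U) {x : E2} (hx : x ∈ U) (hne : trc s X x ≠ 0) :
    ∃ (O : Set E2) (v : E4) (ρ : E2 → ℝ), IsOpen O ∧ x ∈ O ∧ O ⊆ U ∧ v ≠ 0 ∧ ip s v v = 0 ∧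
      ContDiffOn ℝ ∞ ρ O ∧
      ∀ y ∈ O, ρ y ≠ 0 ∧ trc s X y = ρ y • v ∧ ∀ i, ip s (pd i X y) v = 0 := by
  obtain ⟨k, hk⟩ : ∃ k, trc s X x k ≠ 0 := by
    by_contra hcon
    push Not at hcon
    exact hne (by ext l; simpa using hcon l)
  have hM := h.trc_smooth
  have hMk : ContDiffOn ℝ ∞ (fun y => trc s X y k) U := contDiffOn_comp hM k
  have hopen : IsOpen {y | y ∈ U ∧ trc s X y k ≠ 0} := by
    have := hMk.continuousOn.isOpen_inter_preimage h.hU (isOpen_compl_singleton (x := (0 : ℝ)))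
    exact this
  obtain ⟨r, hr, hball⟩ := Metric.isOpen_iff.1 hopen x ⟨hx, hk⟩
  have hOU : Metric.ball x r ⊆ U := fun y hy => (hball hy).1
  have hxO : x ∈ Metric.ball x r := Metric.mem_ball_self hr
  have hd : ∀ y ∈ Metric.ball x r,
      HasFDerivAt (fun z => (trc s X z k)⁻¹ • trc s X z) (0 : E2 →L[ℝ] E4) y := fun y hy =>
    DC1_quot ((hM.contDiffAt (h.hU.mem_nhds (hOU hy))).differentiableAt (by simp)) (hball hy).2
      fun i l => h0 y (hOU hy) i k l
  have hcst : ∀ y ∈ Metric.ball x r,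
      (trc s X y k)⁻¹ • trc s X y = (trc s X x k)⁻¹ • trc s X x := fun y hy =>
    Metric.isOpen_ball.is_const_of_fderiv_eq_zero (convex_ball x r).isPreconnected
      (fun z hz => (hd z hz).differentiableAt.differentiableWithinAt)
      (fun z hz => (hd z hz).fderiv) hy hxO
  refine ⟨Metric.ball x r, (trc s X x k)⁻¹ • trc s X x, fun y => trc s X y k, Metric.isOpen_ball,
    hxO, hOU, smul_ne_zero (inv_ne_zero hk) hne, ?_, hMk.mono hOU, fun y hy => ?_⟩
  · rw [ip_smul, ip_comm, ip_smul, h.hW x hx, mul_zero, mul_zero]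
  · have hky : trc s X y k ≠ 0 := (hball hy).2
    refine ⟨hky, ?_, fun i => ?_⟩
    · rw [← hcst y hy, smul_smul, mul_inv_cancel₀ hky, one_smul]
    · rw [← hcst y hy, ip_smul, DC1_nor (h.hX.2 y (hOU hy)) i, mul_zero]

end Pool.H60.NC
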