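import Pool.Agent.H60.PE.PNor
import Pool.Agent.H60.NC.Defs

/-!
# Linear algebra: an orthonormal basis of a nondegenerate plane orthogonal to a lightlike vector

`y0`, `y1` span a nondegenerate plane `T` orthogonal to the isotropic vector `v ≠ 0`.
`T` has an orthonormal basis `b 0`, `b 1` (`<b k, b k> = ε k = ±1`): if `<y0,y0> ≠ 0` or
`<y1,y1> ≠ 0` or `<y0+y1,y0+y1> ≠ 0`, start with this vector and use Gram-Schmidt (one of the three is
nonzero since the determinant is not `0`).  `b 0`, `b 1`, `v` are linearly independent, and a vector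
`z` orthogonal to them is a multiple of `v`: the map
`z ↦ (<z,b 0>, <z,b 1>, <z,v>)` from `R^4` to `R^3` is surjective (the scalar product is
nondegenerate), so its kernel is a line, and it contains `v`.  For `<z,v> = 0` apply this to
`z - Σ ε_k <z,b k> b k`.
-/

namespace Pool.H60.NC

open scoped ContDiff
open Pool.Agent.H99.N2 (E2 E4 pd)
open Pool.H60.PE

private lemma DC2_sgn (s : ℕ) (k : Fin 4) : sgn s k ≠ 0 := by
  unfold sgn
  split_ifs <;> norm_num

private lemma DC2_add_left (s : ℕ) (u w z : E4) : ip s (u + w) z = ip s u z + ip s w z := by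
  rw [ip_comm s (u + w) z, ip_add, ip_comm s z u, ip_comm s z w]

private lemma DC2_sub_left (s : ℕ) (u w z : E4) : ip s (u - w) z = ip s u z - ip s w z := by
  rw [ip_comm s (u - w) z, ip_sub, ip_comm s z u, ip_comm s z w]

private lemma DC2_smul_left (s : ℕ) (a : ℝ) (u z : E4) : ip s (a • u) z = a * ip s u z := by
  rw [ip_comm s (a • u) z, ip_smul, ip_comm s z u]

private lemma DC2_line {s : ℕ} {b0 b1 v z : E4} (h00 : ip s b0 b0 ≠ 0) (h11 : ip s b1 b1 ≠ 0)
    (h01 : ip s b0 b1 = 0) (h0v : ip s b0 v = 0) (h1v : ip s b1 v = 0) (hv : v ≠ 0)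
    (hvv : ip s v v = 0) (hz0 : ip s z b0 = 0) (hz1 : ip s z b1 = 0) (hzv : ip s z v = 0) :
    ∃ κ : ℝ, z = κ • v := by
  let M : Matrix (Fin 4) (Fin 4) ℝ := fun i k => (![b0, b1, v, z] i) k
  have hM : M.det = 0 := by
    rw [← Matrix.exists_mulVec_eq_zero_iff]
    refine ⟨fun k => sgn s k * v k, ?_, ?_⟩
    · intro h
      apply hv
      ext k
      have h2 := congrFun h k
      simp only [Pi.zero_apply, mul_eq_zero] at h2
      rcases h2 with h2 | h2
      · exact absurd h2 (DC2_sgn s k)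
      · exact h2
    · have key : ∀ w : E4, ∑ k, w k * (sgn s k * v k) = ip s w v := by
        intro w
        unfold ip
        exact Finset.sum_congr rfl fun k _ => by ring
      funext i
      show ∑ k, M i k * (sgn s k * v k) = 0
      fin_cases i
      · exact (key b0).trans h0v
      · exact (key b1).trans h1v
      · exact (key v).trans hvv
      · exact (key z).trans hzv
  obtain ⟨c, hc, hc2⟩ := Matrix.exists_vecMul_eq_zero_iff.2 hM
  have hs : c 0 • b0 + c 1 • b1 + c 2 • v + c 3 • z = 0 := by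
    ext k
    have h2 := congrFun hc2 k
    have h3 : ∑ i, c i * M i k = 0 := h2
    rw [Fin.sum_univ_four] at h3
    exact h3
  have i0 := congrArg (fun w => ip s w b0) hs
  have i1 := congrArg (fun w => ip s w b1) hs
  have hz : ∀ w : E4, ip s 0 w = 0 := by
    intro w
    unfold ip
    exact Finset.sum_eq_zero fun k _ => by simp
  simp only [DC2_add_left, DC2_smul_left, hz] at i0 i1
  rw [ip_comm s b1 b0, h01, ip_comm s v b0, h0v, hz0] at i0
  rw [h01, ip_comm s v b1, h1v, hz1] at i1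
  have c0 : c 0 = 0 := by
    have : c 0 * ip s b0 b0 = 0 := by linarith
    exact (mul_eq_zero.1 this).resolve_right h00
  have c1 : c 1 = 0 := by
    have : c 1 * ip s b1 b1 = 0 := by linarith
    exact (mul_eq_zero.1 this).resolve_right h11
  rw [c0, c1, zero_smul, zero_smul, zero_add, zero_add] at hs
  have c3 : c 3 ≠ 0 := by
    intro h3
    rw [h3, zero_smul, add_zero] at hs
    have c2 : c 2 = 0 := (smul_eq_zero.1 hs).resolve_right hv
    apply hc
    funext i
    fin_cases i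
    · exact c0
    · exact c1
    · exact c2
    · exact h3
  refine ⟨-(c 2 / c 3), ?_⟩
  have h4 : c 3 • z = -(c 2 • v) := by
    rw [eq_neg_iff_add_eq_zero, add_comm]
    exact hs
  calc z = (c 3)⁻¹ • (c 3 • z) := by rw [smul_smul, inv_mul_cancel₀ c3, one_smul]
    _ = (c 3)⁻¹ • (-(c 2 • v)) := by rw [h4]
    _ = -(c 2 / c 3) • v := by
        rw [smul_neg, smul_smul, neg_smul, div_eq_inv_mul]

private lemma DC2_gram {s : ℕ} {y0 y1 v : E4} (h0 : ip s y0 v = 0)
    (h1 : ip s y1 v = 0) (hd : ip s y0 y0 * ip s y1 y1 - ip s y0 y1 * ip s y0 y1 ≠ 0) :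
    ∃ e0 e1 : E4, ip s e0 e0 ≠ 0 ∧ ip s e1 e1 ≠ 0 ∧ ip s e0 e1 = 0 ∧ ip s e0 v = 0 ∧
      ip s e1 v = 0 := by
  have gs : ∀ y0 y1 : E4, ip s y0 v = 0 → ip s y1 v = 0 →
      ip s y0 y0 * ip s y1 y1 - ip s y0 y1 * ip s y0 y1 ≠ 0 → ip s y0 y0 ≠ 0 →
      ∃ e0 e1 : E4, ip s e0 e0 ≠ 0 ∧ ip s e1 e1 ≠ 0 ∧ ip s e0 e1 = 0 ∧ ip s e0 v = 0 ∧
      ip s e1 v = 0 := by
    intro y0 y1 h0 h1 hd hy
    refine ⟨y0, y1 - (ip s y0 y1 / ip s y0 y0) • y0, hy, ?_, ?_, h0, ?_⟩
    · have e1 : ip s (y1 - (ip s y0 y1 / ip s y0 y0) • y0) (y1 - (ip s y0 y1 / ip s y0 y0) • y0) =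
          (ip s y0 y0 * ip s y1 y1 - ip s y0 y1 * ip s y0 y1) / ip s y0 y0 := by
        rw [DC2_sub_left, ip_sub, ip_sub, DC2_smul_left, DC2_smul_left, ip_smul, ip_smul,
          ip_comm s y1 y0]
        field_simp
        ring
      rw [e1]
      exact div_ne_zero hd hy
    · rw [ip_sub, ip_smul, div_mul_cancel₀ _ hy, sub_self]
    · rw [DC2_sub_left, DC2_smul_left, h0, h1, mul_zero, sub_zero]
  by_cases hy0 : ip s y0 y0 = 0
  · by_cases hy1 : ip s y1 y1 = 0
    · have h01 : ip s y0 y1 ≠ 0 := by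
        intro h
        apply hd
        rw [hy0, h]
        ring
      refine ⟨y0 + y1, y0 - y1, ?_, ?_, ?_, ?_, ?_⟩
      · rw [DC2_add_left, ip_add, ip_add, hy0, hy1, ip_comm s y1 y0]
        intro h
        apply h01
        linarith
      · rw [DC2_sub_left, ip_sub, ip_sub, hy0, hy1, ip_comm s y1 y0]
        intro h
        apply h01
        linarith
      · rw [DC2_add_left, ip_sub, ip_sub, hy0, hy1, ip_comm s y1 y0]
        ring
      · rw [DC2_add_left, h0, h1, add_zero]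
      · rw [DC2_sub_left, h0, h1, sub_zero]
    · refine gs y1 y0 h1 h0 ?_ hy1
      rw [ip_comm s y1 y0]
      intro h
      apply hd
      linarith
  · exact gs y0 y1 h0 h1 hd hy0

private lemma DC2_unit {s : ℕ} {e : E4} (he : ip s e e ≠ 0) :
    ∃ (t ε : ℝ), (ε = 1 ∨ ε = -1) ∧ ip s (t • e) (t • e) = ε := by
  have habs : 0 < |ip s e e| := abs_pos.2 he
  have hsq : Real.sqrt |ip s e e| * Real.sqrt |ip s e e| = |ip s e e| :=
    Real.mul_self_sqrt habs.le
  have hs : Real.sqrt |ip s e e| ≠ 0 := (Real.sqrt_pos.2 habs).ne'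
  have key : ip s ((Real.sqrt |ip s e e|)⁻¹ • e) ((Real.sqrt |ip s e e|)⁻¹ • e) =
      ip s e e / |ip s e e| := by
    rw [DC2_smul_left, ip_smul, ← mul_assoc, ← mul_inv, hsq, div_eq_inv_mul]
  rcases lt_or_gt_of_ne he with h | h
  · refine ⟨(Real.sqrt |ip s e e|)⁻¹, -1, Or.inr rfl, ?_⟩
    rw [key, abs_of_neg h, div_neg, div_self he]
  · refine ⟨(Real.sqrt |ip s e e|)⁻¹, 1, Or.inl rfl, ?_⟩
    rw [key, abs_of_pos h, div_self he]

theorem dir_C2 {s : ℕ} {y0 y1 v : E4} (hv : v ≠ 0) (hvv : ip s v v = 0) (h0 : ip s y0 v = 0)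
    (h1 : ip s y1 v = 0) (hd : ip s y0 y0 * ip s y1 y1 - ip s y0 y1 * ip s y0 y1 ≠ 0) :
    ∃ (b : Fin 2 → E4) (ε : Fin 2 → ℝ), (∀ k, ε k = 1 ∨ ε k = -1) ∧
      (∀ k, ip s (b k) (b k) = ε k) ∧ ip s (b 0) (b 1) = 0 ∧ (∀ k, ip s (b k) v = 0) ∧
      ∀ z : E4, ip s z v = 0 → ∃ κ : ℝ, z = (∑ k, (ε k * ip s z (b k)) • b k) + κ • v := by
  obtain ⟨e0, e1, g0, g1, g01, g0v, g1v⟩ := DC2_gram h0 h1 hd
  obtain ⟨t0, ε0, hε0, hb0⟩ := DC2_unit g0
  obtain ⟨t1, ε1, hε1, hb1⟩ := DC2_unit g1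
  have n0 : ε0 ≠ 0 := by rcases hε0 with h | h <;> rw [h] <;> norm_num
  have n1 : ε1 ≠ 0 := by rcases hε1 with h | h <;> rw [h] <;> norm_num
  have q0 : ε0 * ε0 = 1 := by rcases hε0 with h | h <;> rw [h] <;> norm_num
  have q1 : ε1 * ε1 = 1 := by rcases hε1 with h | h <;> rw [h] <;> norm_num
  have b01 : ip s (t0 • e0) (t1 • e1) = 0 := by
    rw [DC2_smul_left, ip_smul, g01, mul_zero, mul_zero]
  have b0v : ip s (t0 • e0) v = 0 := by rw [DC2_smul_left, g0v, mul_zero]
  have b1v : ip s (t1 • e1) v = 0 := by rw [DC2_smul_left, g1v, mul_zero]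
  generalize t0 • e0 = b0 at hb0 b01 b0v
  generalize t1 • e1 = b1 at hb1 b01 b1v
  refine ⟨![b0, b1], ![ε0, ε1], ?_, ?_, b01, ?_, ?_⟩
  · intro k
    fin_cases k
    · exact hε0
    · exact hε1
  · intro k
    fin_cases k
    · exact hb0
    · exact hb1
  · intro k
    fin_cases k
    · exact b0v
    · exact b1v
  · intro z hz
    obtain ⟨κ, hκ⟩ := DC2_line (s := s) (b0 := b0) (b1 := b1) (v := v)
      (z := z - ((ε0 * ip s z b0) • b0 + (ε1 * ip s z b1) • b1))
      (by rw [hb0]; exact n0) (by rw [hb1]; exact n1) b01 b0v b1v hv hvv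
      (by
        rw [DC2_sub_left, DC2_add_left, DC2_smul_left, DC2_smul_left, hb0, ip_comm s b1 b0, b01]
        linear_combination (-(ip s z b0)) * q0)
      (by
        rw [DC2_sub_left, DC2_add_left, DC2_smul_left, DC2_smul_left, hb1, b01]
        linear_combination (-(ip s z b1)) * q1)
      (by
        rw [DC2_sub_left, DC2_add_left, DC2_smul_left, DC2_smul_left, b0v, b1v, hz]
        ring)
    refine ⟨κ, ?_⟩
    rw [Fin.sum_univ_two]
    simp only [Matrix.cons_val_zero, Matrix.cons_val_one]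
    rw [← hκ]
    abel

end Pool.H60.NC
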