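import Pool.Agent.H60.NC.DC1
import Pool.Agent.H60.NC.DC2
import Pool.Agent.H60.NC.ChEx
import Pool.Agent.H60.NC.FlatC
import Pool.Agent.H60.NC.LapR

/-!
# Lightlike mean curvature vector, step 2: the graph

`O`, `v`, `ρ` from `dir_C1` (shrink `O` to a ball around `x`), `b`, `ε` from `dir_C2` for `y0 = X_0(x)`,
`y1 = X_1(x)`.  `<X(y) - X(x), v> = 0` on the ball `O` (its derivative is `<X_i,v> = 0`), so
`X(y) = X(x) + Σ ψ_k(y) b k + g(y) v`, `ψ_k = ε_k <X(y) - X(x), b k>`, where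
`g(y) = (X(y) - X(x) - Σ ψ_k b k)_l / v_l` for a coordinate with `v_l ≠ 0` is smooth.
`X_i = Σ ∂_i ψ_k b k + ∂_i g v`, so `g_ij = Σ ε_k ∂_i ψ_k ∂_j ψ_k`, and `det g ≠ 0` gives that the
Jacobian of `ψ` at `x` is not `0`: chart.  `G = g ∘ φ`, `R = ρ ∘ φ` on the box,
`f y = X(x) + Σ y_k b k + G(y) v`, `X = f ∘ ψ`, the metric of `f` is `diag(ε)`.
`flat_chart` with `h = f`: `Δ X = -(Σ ε_k G_kk)(ψ) v`, and `Δ X = -2H = -M = -ρ v` (`beltrami`), so
`Σ ε_k G_kk = R`.  `flat_chart` with `h = R • v`, and `Δ M = c M` (from `h.hM`, `M = 2H`):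
`-Σ ε_k R_kk = c R`.  Put `g1 = -R/c`, `g0 = G + R/c`: `Σ ε_k (g0)_kk = R + (1/c)(-c R) = 0`,
`-Σ ε_k (g1)_kk = (1/c) Σ ε_k R_kk = -R = c g1`, `g1 ≠ 0`.
-/

namespace Pool.H60.NC

open scoped ContDiff
open Pool.Agent.H99.N2 (E2 E4 pd contDiffOn_pd contDiffOn_comp pd_comp)
open Pool.H60.PE

private theorem dC3_dec (v : E2) : v = ∑ a : Fin 2, v a • EuclideanSpace.single a (1 : ℝ) := by
  ext k
  fin_cases k <;> simp [Fin.sum_univ_two]

/-- a function on a ball whose partial derivatives vanish is constant -/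
private theorem dC3_const {r : ℝ} {x : E2} {q : E2 → ℝ} (hq : ContDiffOn ℝ ∞ q (Metric.ball x r))
    (h : ∀ y ∈ Metric.ball x r, ∀ i, pd i q y = 0) {y : E2} (hy : y ∈ Metric.ball x r) :
    q y = q x := by
  have hx : x ∈ Metric.ball x r := by
    rw [Metric.mem_ball, dist_self]
    exact lt_of_le_of_lt dist_nonneg (Metric.mem_ball.1 hy)
  refine Metric.isOpen_ball.is_const_of_fderiv_eq_zero (convex_ball x r).isPreconnected
    (hq.differentiableOn (by simp)) (fun z hz => ?_) hy hx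
  ext w
  rw [dC3_dec w, map_sum]
  simp only [map_smul]
  refine Finset.sum_eq_zero fun a _ => ?_
  have h1 : fderiv ℝ q z (EuclideanSpace.single a 1) = 0 := h z hz a
  rw [h1, smul_zero]

private theorem dC3_ip_add' (s : ℕ) (u w v : E4) : ip s (u + w) v = ip s u v + ip s w v := by
  rw [ip_comm, ip_add, ip_comm s v u, ip_comm s v w]

private theorem dC3_ip_smul' (s : ℕ) (a : ℝ) (u v : E4) : ip s (a • u) v = a * ip s u v := by
  rw [ip_comm, ip_smul, ip_comm s v u]

/-- scalar product of two vectors `Σ p_k b_k + t v` -/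
private theorem dC3_ip {s : ℕ} {b : Fin 2 → E4} {ε : Fin 2 → ℝ} {v : E4}
    (hb : ∀ k, ip s (b k) (b k) = ε k) (hb' : ip s (b 0) (b 1) = 0) (hvv : ip s v v = 0)
    (hbv : ∀ k, ip s (b k) v = 0) (p p' : Fin 2 → ℝ) (t t' : ℝ) :
    ip s ((∑ k, p k • b k) + t • v) ((∑ k, p' k • b k) + t' • v) = ∑ k, ε k * (p k * p' k) := by
  have hb'' : ip s (b 1) (b 0) = 0 := by rw [ip_comm]; exact hb'
  have hvb : ∀ k, ip s v (b k) = 0 := fun k => by rw [ip_comm]; exact hbv k
  simp only [Fin.sum_univ_two, ip_add, dC3_ip_add', ip_smul, dC3_ip_smul', hb, hb', hb'', hvv,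
    hbv, hvb]
  ring

theorem dir_C {s : ℕ} {X : E2 → E4} {U : Set E2} {c : ℝ} (h : Hyp s X U c 0)
    (h0 : Id0 s X U) {x : E2} (hx : x ∈ U) (hne : trc s X x ≠ 0) :
    LocalForm X U x (IsNullGraph s c) := by
  classical
  obtain ⟨O, v, ρ, hO, hxO, hOU, hv, hvv, hρ, hall⟩ := dir_C1 h h0 hx hne
  obtain ⟨r, hr, hball⟩ := Metric.isOpen_iff.1 hO x hxO
  have hxB : x ∈ Metric.ball x r := Metric.mem_ball_self hr
  have hBo : IsOpen (Metric.ball x r) := Metric.isOpen_ball
  have hXB : ContDiffOn ℝ ∞ X (Metric.ball x r) := h.hX.1.mono (hball.trans hOU)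
  have hdx : (metric s X x).det ≠ 0 := h.hX.2 x hx
  obtain ⟨b, ε, hε, hb, hb', hbv, hz⟩ := dir_C2 (s := s) (y0 := pd 0 X x) (y1 := pd 1 X x) hv hvv
    ((hall x hxO).2.2 0) ((hall x hxO).2.2 1) (by
      have h1 := hdx
      rw [metric_det] at h1
      exact h1)
  -- the tangential part of the difference
  have hq : ∀ y ∈ Metric.ball x r, ip s (X y - X x) v = 0 := by
    intro y hy
    have hqs : ContDiffOn ℝ ∞ (fun y => ip s (X y - X x) v) (Metric.ball x r) :=
      contDiffOn_ip s (hXB.sub contDiffOn_const) contDiffOn_const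
    have h1 := dC3_const hqs (fun z hz' i => by
      have h2 : DifferentiableAt ℝ (fun y => X y - X x) z :=
        (smooth_diffAt hBo hXB hz').sub (differentiableAt_const _)
      rw [pd_ip h2 (differentiableAt_const v), pd_const_at,
        pd_sub_at (smooth_diffAt hBo hXB hz') (differentiableAt_const _), pd_const_at, sub_zero,
        (hall z (hball hz')).2.2 i, ip_comm]
      unfold ip
      simp) hy
    rw [h1, sub_self, ip_comm]
    unfold ip
    simp
  obtain ⟨l, hl⟩ : ∃ l, v l ≠ 0 := by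
    by_contra hcon
    push Not at hcon
    exact hv (by ext l; exact hcon l)
  let ψ : E2 → E2 := fun y => WithLp.toLp 2 fun k => ε k * ip s (X y - X x) (b k)
  let g : E2 → ℝ := fun y => (X y l - X x l - ∑ k, ψ y k * b k l) / v l
  have hψk : ∀ y k, ψ y k = ε k * ip s (X y - X x) (b k) := fun y k => rfl
  have hψs' : ∀ k, ContDiffOn ℝ ∞ (fun y => ψ y k) (Metric.ball x r) := fun k =>
    contDiffOn_const.mul (contDiffOn_ip s (hXB.sub contDiffOn_const) contDiffOn_const)
  have hψs : ContDiffOn ℝ ∞ ψ (Metric.ball x r) := by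
    rw [contDiffOn_euclidean]
    exact hψs'
  have hgs : ContDiffOn ℝ ∞ g (Metric.ball x r) := by
    refine ContDiffOn.div_const ?_ _
    refine ((contDiffOn_comp hXB l).sub contDiffOn_const).sub ?_
    exact ContDiffOn.sum fun k _ => (hψs' k).mul contDiffOn_const
  have hXeq : ∀ y ∈ Metric.ball x r, X y = X x + (∑ k, ψ y k • b k) + g y • v := by
    intro y hy
    obtain ⟨κ, hκ⟩ := hz (X y - X x) (hq y hy)
    have h1 : κ = g y := by
      have h2 := congrArg (fun w : E4 => w l) hκ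
      simp only [PiLp.sub_apply, PiLp.add_apply, PiLp.smul_apply, smul_eq_mul,
        WithLp.ofLp_sum, Finset.sum_apply] at h2
      simp only [g, hψk]
      rw [eq_div_iff hl]
      linarith
    have h3 : X y = X x + (X y - X x) := by abel
    rw [h3, hκ, h1, ← add_assoc]
  have hψd : ∀ y ∈ Metric.ball x r, ∀ k, DifferentiableAt ℝ (fun y => ψ y k) y := fun y hy k =>
    smooth_diffAt hBo (hψs' k) hy
  -- the tangent vectors
  have hXi : ∀ y ∈ Metric.ball x r, ∀ i, pd i X y =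
      (∑ k, pd i (fun z => ψ z k) y • b k) + pd i g y • v := by
    intro y hy i
    rw [pd_congr_on hBo hXeq hy]
    have h1 : ∀ k, DifferentiableAt ℝ (fun y => ψ y k • b k) y := fun k =>
      (hψd y hy k).smul_const _
    have h2 : DifferentiableAt ℝ (fun y => g y • v) y := (smooth_diffAt hBo hgs hy).smul_const _
    have h3 : DifferentiableAt ℝ (fun y => ∑ k, ψ y k • b k) y :=
      DifferentiableAt.fun_sum fun k _ => h1 k
    have h4 : DifferentiableAt ℝ (fun y => X x + ∑ k, ψ y k • b k) y :=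
      (differentiableAt_const _).add h3
    rw [pd_add_at h4 h2, pd_add_at (differentiableAt_const _) h3, pd_const_at, zero_add,
      pd_smul_at (smooth_diffAt hBo hgs hy) (differentiableAt_const v), pd_const_at, smul_zero,
      zero_add]
    congr 1
    simp only [Fin.sum_univ_two]
    rw [pd_add_at (h1 0) (h1 1), pd_smul_at (hψd y hy 0) (differentiableAt_const _),
      pd_smul_at (hψd y hy 1) (differentiableAt_const _), pd_const_at, pd_const_at, smul_zero,
      smul_zero, zero_add, zero_add]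
  have hmet : ∀ y ∈ Metric.ball x r, ∀ i j, metric s X y i j =
      ∑ k, ε k * (pd i (fun z => ψ z k) y * pd j (fun z => ψ z k) y) := by
    intro y hy i j
    rw [metric_app, hXi y hy i, hXi y hy j]
    exact dC3_ip hb hb' hvv hbv _ _ _ _
  -- the Jacobian
  have hpd : ∀ i k, pd i (fun z => ψ z k) x = pd i ψ x k := by
    intro i k
    unfold pd
    have h2 : HasFDerivAt (fun z => ψ z k) ((EuclideanSpace.proj k : E2 →L[ℝ] ℝ).comp
        (fderiv ℝ ψ x)) x :=
      ((EuclideanSpace.proj k : E2 →L[ℝ] ℝ).hasFDerivAt).comp x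
        (smooth_diffAt hBo hψs hxB).hasFDerivAt
    rw [h2.fderiv]
    rfl
  have hJ : pd 0 ψ x 0 * pd 1 ψ x 1 - pd 0 ψ x 1 * pd 1 ψ x 0 ≠ 0 := by
    intro hJ0
    apply hdx
    rw [metric_det, hmet x hxB, hmet x hxB, hmet x hxB]
    simp only [Fin.sum_univ_two, hpd]
    have h1 : (ε 0 * (pd 0 ψ x 0 * pd 0 ψ x 0) + ε 1 * (pd 0 ψ x 1 * pd 0 ψ x 1)) *
        (ε 0 * (pd 1 ψ x 0 * pd 1 ψ x 0) + ε 1 * (pd 1 ψ x 1 * pd 1 ψ x 1)) -
        (ε 0 * (pd 0 ψ x 0 * pd 1 ψ x 0) + ε 1 * (pd 0 ψ x 1 * pd 1 ψ x 1)) *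
        (ε 0 * (pd 0 ψ x 0 * pd 1 ψ x 0) + ε 1 * (pd 0 ψ x 1 * pd 1 ψ x 1)) =
        ε 0 * ε 1 * (pd 0 ψ x 0 * pd 1 ψ x 1 - pd 0 ψ x 1 * pd 1 ψ x 0) ^ 2 := by ring
    rw [h1, hJ0]
    ring
  obtain ⟨W, S, φ, hWB, hxW, hC⟩ := exists_chart hBo hψs hxB hJ
  have hVo : IsOpen {y : E2 | ∀ k, y k ∈ S k} := isOpen_box hC.hS
  set V : Set E2 := {y : E2 | ∀ k, y k ∈ S k} with hV
  have hWO : W ⊆ O := hWB.trans hball
  have hWU : W ⊆ U := hWO.trans hOU
  have hmψ : Set.MapsTo ψ W V := fun z hz' k => hC.mψ z hz' k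
  have hmφ : Set.MapsTo φ V W := fun y hy => hC.mφ y hy
  let G : E2 → ℝ := fun y => g (φ y)
  let R : E2 → ℝ := fun y => ρ (φ y)
  have hG : ContDiffOn ℝ ∞ G V := hgs.comp hC.sφ fun y hy => hWB (hmφ hy)
  have hR : ContDiffOn ℝ ∞ R V := hρ.comp hC.sφ fun y hy => hWO (hmφ hy)
  let f : E2 → E4 := fun y => X x + (∑ k, y k • b k) + G y • v
  have hcoord : ∀ k : Fin 2, ContDiff ℝ ∞ fun y : E2 => y k := fun k =>
    (EuclideanSpace.proj k : E2 →L[ℝ] ℝ).contDiff
  have hf : ContDiffOn ℝ ∞ f V := by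
    refine (contDiffOn_const.add (ContDiffOn.sum fun k _ => ?_)).add (hG.smul contDiffOn_const)
    exact (hcoord k).contDiffOn.smul contDiffOn_const
  have hXf : ∀ z ∈ W, X z = f (ψ z) := by
    intro z hz'
    rw [hXeq z (hWB hz')]
    simp only [f, G]
    rw [hC.li z hz']
  have hfi : ∀ y ∈ V, ∀ i, pd i f y = b i + pd i G y • v := by
    intro y hy i
    have h1 : ∀ k : Fin 2, DifferentiableAt ℝ (fun y : E2 => y k) y := fun k =>
      ((hcoord k).differentiable (by simp)) y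
    have h1' : ∀ k : Fin 2, DifferentiableAt ℝ (fun y : E2 => y k • b k) y := fun k =>
      (h1 k).smul_const _
    have h2 : DifferentiableAt ℝ (fun y => G y • v) y := (smooth_diffAt hVo hG hy).smul_const _
    have h3 : DifferentiableAt ℝ (fun y : E2 => ∑ k, y k • b k) y :=
      DifferentiableAt.fun_sum fun k _ => h1' k
    have h4 : DifferentiableAt ℝ (fun y : E2 => X x + ∑ k, y k • b k) y :=
      (differentiableAt_const _).add h3
    change pd i (fun y : E2 => X x + (∑ k, y k • b k) + G y • v) y = _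
    rw [pd_add_at h4 h2, pd_add_at (differentiableAt_const _) h3, pd_const_at, zero_add,
      pd_smul_at (smooth_diffAt hVo hG hy) (differentiableAt_const v), pd_const_at, smul_zero,
      zero_add]
    congr 1
    simp only [Fin.sum_univ_two]
    rw [pd_add_at (h1' 0) (h1' 1), pd_smul_at (h1 0) (differentiableAt_const _),
      pd_smul_at (h1 1) (differentiableAt_const _), pd_const_at, pd_const_at, smul_zero,
      smul_zero, zero_add, zero_add, pd_coord, pd_coord]
    fin_cases i <;> simp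
  have hvb : ∀ k, ip s v (b k) = 0 := fun k => by rw [ip_comm]; exact hbv k
  have hff : ∀ y ∈ V, ∀ i, ip s (pd i f y) (pd i f y) = ε i := by
    intro y hy i
    rw [hfi y hy i]
    simp only [ip_add, dC3_ip_add', ip_smul, dC3_ip_smul', hb, hvv, hbv, hvb]
    ring
  have hff' : ∀ y ∈ V, ip s (pd 0 f y) (pd 1 f y) = 0 := by
    intro y hy
    rw [hfi y hy 0, hfi y hy 1]
    simp only [ip_add, dC3_ip_add', ip_smul, dC3_ip_smul', hb', hvv, hbv, hvb]
    ring
  have hXW : IsSurface s X W := ⟨h.hX.1.mono hWU, fun z hz' => h.hX.2 z (hWU hz')⟩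
  have hvec : ∀ a a' : ℝ, a • v = a' • v → a = a' := fun a a' haa => by
    have h1 := congrArg (fun w : E4 => w l) haa
    simp only [PiLp.smul_apply, smul_eq_mul] at h1
    exact mul_right_cancel₀ hl h1
  -- second derivatives of a function times a constant vector plus a constant
  have hsec : ∀ (P : E2 → ℝ), ContDiffOn ℝ ∞ P V → ∀ y ∈ V, ∀ k,
      pd k (pd k fun z => P z • v) y = pd k (pd k P) y • v := by
    intro P hP y hy k
    have h1 : ∀ z ∈ V, pd k (fun z => P z • v) z = pd k P z • v := fun z hz' => by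
      rw [pd_smul_at (smooth_diffAt hVo hP hz') (differentiableAt_const v), pd_const_at, smul_zero,
        zero_add]
    rw [pd_congr_on hVo h1 hy, pd_smul_at (smooth_diffAt hVo (contDiffOn_pd hVo hP k) hy)
      (differentiableAt_const v), pd_const_at, smul_zero, zero_add]
  have hsecf : ∀ y ∈ V, ∀ k, pd k (pd k f) y = pd k (pd k G) y • v := by
    intro y hy k
    rw [pd_congr_on hVo (fun z hz' => hfi z hz' k) hy, pd_add_at (differentiableAt_const _)
      ((smooth_diffAt hVo (contDiffOn_pd hVo hG k) hy).smul_const _), pd_const_at, zero_add,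
      pd_smul_at (smooth_diffAt hVo (contDiffOn_pd hVo hG k) hy) (differentiableAt_const v),
      pd_const_at, smul_zero, zero_add]
  have hmean : ∀ z ∈ W, meanCurv s X z = (1 / 2 * ρ z) • v := by
    intro z hz'
    have h1 : (2 : ℝ) • meanCurv s X z = ρ z • v := (hall z (hWO hz')).2.1
    rw [mul_smul, ← h1, smul_smul]
    norm_num
  -- the two equations
  have heq1 : ∀ y ∈ V, ∑ k, ε k * pd k (pd k G) y = R y := by
    intro y hy
    have hz' : φ y ∈ W := hmφ hy
    have h1 := flat_chart hC.hW hVo hXW (hC.sψ) hmψ hf hXf hε hff hff' hf hz'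
    have h2 : lap s X (fun z => f (ψ z)) (φ y) = lap s X X (φ y) :=
      lap_congr_on hC.hW X (fun z hz'' => (hXf z hz'').symm) hz'
    rw [h2, beltrami hC.hW hXW hz', hmean _ hz', hC.ri y hy] at h1
    have h3 : (∑ k, ε k • pd k (pd k f) y) = (∑ k, ε k * pd k (pd k G) y) • v := by
      rw [Finset.sum_smul]
      exact Finset.sum_congr rfl fun k _ => by rw [hsecf y hy k, smul_smul]
    rw [h3, smul_smul, ← neg_smul] at h1
    have h4 := hvec _ _ h1
    change _ = ρ (φ y)
    linarith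
  have heq2 : ∀ y ∈ V, -(∑ k, ε k * pd k (pd k R) y) = c * R y := by
    intro y hy
    have hz' : φ y ∈ W := hmφ hy
    have hR2 : ContDiffOn ℝ ∞ (fun y => 1 / 2 * R y) V := contDiffOn_const.mul hR
    have h1 := flat_chart hC.hW hVo hXW (hC.sψ) hmψ hf hXf hε hff hff'
      (h := fun y => (1 / 2 * R y) • v) (hR2.smul contDiffOn_const) hz'
    have h2 : lap s X (fun z => (1 / 2 * R (ψ z)) • v) (φ y) = lap s X (meanCurv s X) (φ y) :=
      lap_congr_on hC.hW X (fun z hz'' => by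
        rw [hmean z hz'']
        simp only [R]
        rw [hC.li z hz'']) hz'
    rw [h2, h.hM _ (hWU hz'), hmean _ hz', hC.ri y hy] at h1
    have h3 : (∑ k, ε k • pd k (pd k fun y => (1 / 2 * R y) • v) y) =
        (∑ k, ε k * (1 / 2 * pd k (pd k R) y)) • v := by
      rw [Finset.sum_smul]
      refine Finset.sum_congr rfl fun k _ => ?_
      rw [hsec _ hR2 y hy k, smul_smul]
      congr 2
      have h5 : ∀ z ∈ V, pd k (fun y => 1 / 2 * R y) z = 1 / 2 * pd k R z := fun z hz'' => by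
        rw [pd_mul_at (differentiableAt_const _) (smooth_diffAt hVo hR hz''), pd_const_at,
          zero_mul, add_zero]
      rw [pd_congr_on hVo h5 hy, pd_mul_at (differentiableAt_const _)
        (smooth_diffAt hVo (contDiffOn_pd hVo hR k) hy), pd_const_at, zero_mul, add_zero]
    rw [h3, smul_smul, ← neg_smul] at h1
    have h4 := hvec _ _ h1
    have h6 : ∑ k, ε k * (1 / 2 * pd k (pd k R) y) = 1 / 2 * ∑ k, ε k * pd k (pd k R) y := by
      rw [Finset.mul_sum]
      exact Finset.sum_congr rfl fun k _ => by ring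
    rw [h6] at h4
    change _ = c * ρ (φ y)
    linarith
  have hc := h.hc
  have hcR : ∀ a : ℝ, ∀ y ∈ V, ∀ k, pd k (pd k fun y => a * R y) y = a * pd k (pd k R) y := by
    intro a y hy k
    have h5 : ∀ z ∈ V, pd k (fun y => a * R y) z = a * pd k R z := fun z hz'' => by
      rw [pd_mul_at (differentiableAt_const _) (smooth_diffAt hVo hR hz''), pd_const_at,
        zero_mul, add_zero]
    rw [pd_congr_on hVo h5 hy, pd_mul_at (differentiableAt_const _)
      (smooth_diffAt hVo (contDiffOn_pd hVo hR k) hy), pd_const_at, zero_mul, add_zero]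
  have haR : ∀ a : ℝ, ContDiffOn ℝ ∞ (fun y => a * R y) V := fun a => contDiffOn_const.mul hR
  refine ⟨V, W, φ, ψ, hVo, hC.hW, hWU, hxW, hC.sφ, hC.sψ, hmφ, hmψ, fun y hy => hC.ri y hy,
    fun z hz' => hC.li z hz', X x, v, b, ε, fun y => G y + c⁻¹ * R y, fun y => -c⁻¹ * R y, hε, hb,
    hb', hv, hvv, hbv, hG.add (haR _), haR _, fun y hy => ⟨?_, ?_, ?_, ?_⟩⟩
  · have h1 : ∀ k, pd k (pd k fun y => G y + c⁻¹ * R y) y =
        pd k (pd k G) y + c⁻¹ * pd k (pd k R) y := by
      intro k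
      have h5 : ∀ z ∈ V, pd k (fun y => G y + c⁻¹ * R y) z =
          pd k G z + pd k (fun y => c⁻¹ * R y) z := fun z hz'' =>
        pd_add_at (smooth_diffAt hVo hG hz'') (smooth_diffAt hVo (haR _) hz'') k
      rw [pd_congr_on hVo h5 hy, pd_add_at (smooth_diffAt hVo (contDiffOn_pd hVo hG k) hy)
        (smooth_diffAt hVo (contDiffOn_pd hVo (haR _) k) hy), hcR _ y hy k]
    simp only [h1]
    have h2 := heq1 y hy
    have h3 := heq2 y hy
    simp only [Fin.sum_univ_two] at h2 h3 ⊢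
    have h6 : c⁻¹ * c = 1 := inv_mul_cancel₀ hc
    linear_combination (-1) * h2 + c⁻¹ * h3 + R y * h6
  · simp only [hcR _ y hy]
    have h3 := heq2 y hy
    simp only [Fin.sum_univ_two] at h3 ⊢
    have h6 : c⁻¹ * c = 1 := inv_mul_cancel₀ hc
    linear_combination (-c⁻¹) * h3
  · change -c⁻¹ * ρ (φ y) ≠ 0
    exact mul_ne_zero (neg_ne_zero.2 (inv_ne_zero hc)) (hall _ (hWO (hmφ hy))).1
  · have h1 := hXf (φ y) (hmφ hy)
    rw [hC.ri y hy] at h1
    change X (φ y) = _
    rw [h1]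
    simp only [f, Fin.sum_univ_two]
    have h2 : G y = G y + c⁻¹ * R y + -c⁻¹ * R y := by ring
    rw [← h2, ← add_assoc]

end Pool.H60.NC
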