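import Pool.Agent.H60.NC.KId

/-!
# The identities for cylinders over the differential field

`E = 0` (and `δ^2 E = (m.al)(m.be) - W^2`, see `KDich`) excludes the types 2 to 4 of `NFr.tri`
(there `δ^2 E = -4c^2 ≠ 0`).  First type: `al = a m`, `be = b m`, `a b = 1`.  Put `N = v2 - b v1`.
`N.N = -4 b ≠ 0`; `f1 N = -w1 N`, `f2 N = -w2 N`.  Write `T_v = tan(v)`:
`T_v = (1/2)((v.v2) v1 + (v.v1) v2)` (the tangential part in the null frame, equal to
`tanK D X v`: both are the part of `v` in the span of `X_0`, `X_1`, the rest being orthogonal to it).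
`tan(f1 m) = -(W/2)(v1 + a v2)`, `tan(f2 m) = -(W/2)(b v1 + v2)`, so
`v1 + (1/W) tan(f1 m) = (1/2)(v1 - a v2) = -(a/2) N = (v1.N) N / (N.N)` and
`v2 + (1/W) tan(f2 m) = (1/2)(v2 - b v1) = (1/2) N = (v2.N) N / (N.N)`.
Hence, `X_j` being a combination of `v1`, `v2`: `Z_j = (X_j.N) N / (N.N)`.
This gives all identities: `Z_j` is a multiple `z_j N` of `N` and `d_i N` is a multiple of `N`;
`Z_j.Z_l = (X_j.N)(X_l.N)/(N.N) = X_j.Z_l`; the last sum is
`sum g^{jl} (X_j.N)(X_l.N)/(N.N) = 1` since `N` is tangential.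
-/

namespace Pool.H60.NC

open Matrix
open Pool.H60.PE

variable {K : Type} [Field K]

private theorem KA_gi [CharZero K] (D : DC K) (X : Fin 4 → K) (a b : Fin 2 → K)
    (hδ : a 0 * b 1 - a 1 * b 0 ≠ 0)
    (o11 : a 0 ^ 2 * gm D X 0 0 + 2 * a 0 * a 1 * gm D X 0 1 + a 1 ^ 2 * gm D X 1 1 = 0)
    (o12 : a 0 * b 0 * gm D X 0 0 + (a 0 * b 1 + a 1 * b 0) * gm D X 0 1
      + a 1 * b 1 * gm D X 1 1 = 2)
    (o22 : b 0 ^ 2 * gm D X 0 0 + 2 * b 0 * b 1 * gm D X 0 1 + b 1 ^ 2 * gm D X 1 1 = 0)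
    (i j : Fin 2) :
    gi D X i j = 2⁻¹ * (a i * b j + a j * b i) := by
  obtain ⟨δ, hd⟩ : ∃ δ : K, a 0 * b 1 - a 1 * b 0 = δ := ⟨_, rfl⟩
  rw [hd] at hδ
  have g00 : δ ^ 2 * gm D X 0 0 = -4 * (a 1 * b 1) := by
    rw [← hd]
    linear_combination b 1 ^ 2 * o11 - 2 * a 1 * b 1 * o12 + a 1 ^ 2 * o22
  have g11 : δ ^ 2 * gm D X 1 1 = -4 * (a 0 * b 0) := by
    rw [← hd]
    linear_combination b 0 ^ 2 * o11 - 2 * a 0 * b 0 * o12 + a 0 ^ 2 * o22
  have g01 : δ ^ 2 * gm D X 0 1 = 2 * (a 0 * b 1 + a 1 * b 0) := by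
    rw [← hd]
    linear_combination -(b 0 * b 1) * o11 + (a 0 * b 1 + a 1 * b 0) * o12 - (a 0 * a 1) * o22
  have h2 : δ ^ 2 ≠ 0 := pow_ne_zero 2 hδ
  have hg : δ ^ 2 * gdet D X = -4 := by
    have h4 : δ ^ 2 * (δ ^ 2 * gdet D X) = δ ^ 2 * (-4) := by
      unfold gdet
      have e : δ ^ 2 * (δ ^ 2 * (gm D X 0 0 * gm D X 1 1 - gm D X 0 1 ^ 2))
          = (δ ^ 2 * gm D X 0 0) * (δ ^ 2 * gm D X 1 1) - (δ ^ 2 * gm D X 0 1) ^ 2 := by ring
      rw [e, g00, g11, g01, ← hd]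
      ring
    exact mul_left_cancel₀ h2 h4
  have hgne : gdet D X ≠ 0 := by
    intro h
    rw [h, mul_zero] at hg
    norm_num at hg
  have key : ∀ x y : K, δ ^ 2 * x = -4 * y → x / gdet D X = y := by
    intro x y h
    rw [div_eq_iff hgne]
    apply mul_left_cancel₀ h2
    linear_combination h - y * hg
  fin_cases i <;> fin_cases j
  · show gm D X 1 1 / gdet D X = 2⁻¹ * (a 0 * b 0 + a 0 * b 0)
    rw [key _ (a 0 * b 0) g11]
    field_simp
    ring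
  · show -gm D X 0 1 / gdet D X = 2⁻¹ * (a 0 * b 1 + a 1 * b 0)
    apply key
    rw [mul_neg, g01]
    ring
  · show -gm D X 0 1 / gdet D X = 2⁻¹ * (a 1 * b 0 + a 0 * b 1)
    apply key
    rw [mul_neg, g01]
    ring
  · show gm D X 0 0 / gdet D X = 2⁻¹ * (a 1 * b 1 + a 1 * b 1)
    rw [key _ (a 1 * b 1) g00]
    field_simp
    ring

theorem k_A [CharZero K] (I : Im0 K) (hW : trK I.D I.X ⬝ᵥ trK I.D I.X ≠ 0)
    (hd : ∀ i, I.D.d i (trK I.D I.X ⬝ᵥ trK I.D I.X) = 0) (hE : EK I.D I.X = 0) :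
    (∀ (j i : Fin 2) (k l : Fin 4), ZK I.D I.X j k * I.D.d i (ZK I.D I.X j l)
      = ZK I.D I.X j l * I.D.d i (ZK I.D I.X j k)) ∧
    (∀ k l : Fin 4, ZK I.D I.X 0 k * ZK I.D I.X 1 l = ZK I.D I.X 0 l * ZK I.D I.X 1 k) ∧
    (∀ j l : Fin 2, ZK I.D I.X j ⬝ᵥ ZK I.D I.X l = dv (I.D.d j) I.X ⬝ᵥ ZK I.D I.X l) ∧
    ∑ j, ∑ l, gi I.D I.X j l * (dv (I.D.d j) I.X ⬝ᵥ ZK I.D I.X l) = 1 := by
  obtain ⟨N, a, b, hf1, hf2, hδ, hv1, hv2, hm, hc⟩ := exists_nfr I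
  have ht := N.tri I.D.root (by rw [hm]; exact hW) (by rw [hm, hf1, hd, hd]; ring)
    (by rw [hm, hf2, hd, hd]; ring)
  have dvf1 : ∀ v, dv N.f1 v = a 0 • dv (I.D.d 0) v + a 1 • dv (I.D.d 1) v := fun v => by
    funext k
    simp [dv, hf1]
  have dvf2 : ∀ v, dv N.f2 v = b 0 • dv (I.D.d 0) v + b 1 • dv (I.D.d 1) v := fun v => by
    funext k
    simp [dv, hf2]
  have hgi : ∀ i j : Fin 2, gi I.D I.X i j = 2⁻¹ * (a i * b j + a j * b i) := by
    have e : dv (I.D.d 1) I.X ⬝ᵥ dv (I.D.d 0) I.X = dv (I.D.d 0) I.X ⬝ᵥ dv (I.D.d 1) I.X :=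
      dotProduct_comm _ _
    apply KA_gi I.D I.X a b hδ
    · have h := N.o11
      rw [hv1, dvf1] at h
      simp only [add_dotProduct, dotProduct_add, smul_dotProduct, dotProduct_smul, smul_eq_mul,
        e] at h
      unfold gm
      linear_combination h
    · have h := N.o12
      rw [hv1, hv2, dvf1, dvf2] at h
      simp only [add_dotProduct, dotProduct_add, smul_dotProduct, dotProduct_smul, smul_eq_mul,
        e] at h
      unfold gm
      linear_combination h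
    · have h := N.o22
      rw [hv2, dvf2] at h
      simp only [add_dotProduct, dotProduct_add, smul_dotProduct, dotProduct_smul, smul_eq_mul,
        e] at h
      unfold gm
      linear_combination h
  obtain ⟨δ, hdd⟩ : ∃ δ : K, a 0 * b 1 - a 1 * b 0 = δ := ⟨_, rfl⟩
  rw [hdd] at hδ
  have i0 : ∀ v, dv (I.D.d 0) v = δ⁻¹ • (b 1 • dv N.f1 v - a 1 • dv N.f2 v) := by
    intro v
    rw [dvf1, dvf2, ← hdd]
    rw [← hdd] at hδ
    funext k
    simp only [Pi.add_apply, Pi.sub_apply, Pi.smul_apply, smul_eq_mul]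
    field_simp
    ring
  have i1 : ∀ v, dv (I.D.d 1) v = δ⁻¹ • (a 0 • dv N.f2 v - b 0 • dv N.f1 v) := by
    intro v
    rw [dvf1, dvf2, ← hdd]
    rw [← hdd] at hδ
    funext k
    simp only [Pi.add_apply, Pi.sub_apply, Pi.smul_apply, smul_eq_mul]
    field_simp
    ring
  -- products
  have p11 : N.v1 ⬝ᵥ dv N.f1 N.m = -(N.al ⬝ᵥ N.m) := by
    have h := cpf_der_dot N.f1 N.v1 N.m
    rw [N.n1, map_zero, N.s11, add_dotProduct, smul_dotProduct, N.n1, smul_zero] at h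
    linear_combination -h
  have p12 : N.v2 ⬝ᵥ dv N.f1 N.m = -(N.m ⬝ᵥ N.m) := by
    have h := cpf_der_dot N.f1 N.v2 N.m
    rw [N.n2, map_zero, N.s12, add_dotProduct, smul_dotProduct, N.n2, smul_zero] at h
    linear_combination -h
  have p21 : N.v1 ⬝ᵥ dv N.f2 N.m = -(N.m ⬝ᵥ N.m) := by
    have h := cpf_der_dot N.f2 N.v1 N.m
    rw [N.n1, map_zero, N.s21, add_dotProduct, smul_dotProduct, N.n1, smul_zero] at h
    linear_combination -h
  have p22 : N.v2 ⬝ᵥ dv N.f2 N.m = -(N.be ⬝ᵥ N.m) := by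
    have h := cpf_der_dot N.f2 N.v2 N.m
    rw [N.n2, map_zero, N.s22, add_dotProduct, smul_dotProduct, N.n2, smul_zero] at h
    linear_combination -h
  have hEE : (N.al ⬝ᵥ N.m) * (N.be ⬝ᵥ N.m) = (N.m ⬝ᵥ N.m) ^ 2 := by
    have q11 := p11
    have q12 := p12
    have q21 := p21
    have q22 := p22
    rw [hv1, dvf1, dvf1] at q11
    rw [hv2, dvf1, dvf2] at q12
    rw [hv1, dvf1, dvf2] at q21
    rw [hv2, dvf2, dvf2] at q22
    have h := hE
    unfold EK at h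
    rw [← hm] at h
    have c00 := dotProduct_comm (dv (I.D.d 0) N.m) (dv (I.D.d 0) I.X)
    have c01 := dotProduct_comm (dv (I.D.d 0) N.m) (dv (I.D.d 1) I.X)
    have c10 := dotProduct_comm (dv (I.D.d 1) N.m) (dv (I.D.d 0) I.X)
    have c11 := dotProduct_comm (dv (I.D.d 1) N.m) (dv (I.D.d 1) I.X)
    rw [c00, c01, c10, c11] at h
    simp only [add_dotProduct, dotProduct_add, smul_dotProduct, dotProduct_smul, smul_eq_mul]
      at q11 q12 q21 q22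
    have e1 : (N.al ⬝ᵥ N.m) * (N.be ⬝ᵥ N.m) - (N.m ⬝ᵥ N.m) * (N.m ⬝ᵥ N.m)
        = (-(N.al ⬝ᵥ N.m)) * (-(N.be ⬝ᵥ N.m)) - (-(N.m ⬝ᵥ N.m)) * (-(N.m ⬝ᵥ N.m)) := by ring
    have e2 : (N.al ⬝ᵥ N.m) * (N.be ⬝ᵥ N.m) - (N.m ⬝ᵥ N.m) * (N.m ⬝ᵥ N.m) = 0 := by
      rw [e1]
      nth_rewrite 1 [← q12]
      rw [← q11, ← q22, ← q21]
      linear_combination (a 0 * b 1 - a 1 * b 0) ^ 2 * h
    linear_combination e2
  have hWm : N.m ⬝ᵥ N.m ≠ 0 := by rw [hm]; exact hW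
  have hty : ∃ a b : K, N.al = a • N.m ∧ N.be = b • N.m ∧ a * b = 1 ∧
      N.f1 b = -(2 * N.w1 * b) ∧ N.f2 b = -(2 * N.w2 * b) := by
    rcases ht with h | ⟨_, ⟨h, _⟩ | ⟨h, _⟩ | ⟨h, _⟩⟩
    · exact h
    · exfalso
      rw [h, zero_dotProduct, mul_zero] at hEE
      exact hWm ((pow_eq_zero_iff two_ne_zero).1 hEE.symm)
    · exfalso
      rw [h, zero_dotProduct, zero_mul] at hEE
      exact hWm ((pow_eq_zero_iff two_ne_zero).1 hEE.symm)
    · exfalso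
      rw [dotProduct_comm] at h
      rw [h, zero_mul] at hEE
      exact hWm ((pow_eq_zero_iff two_ne_zero).1 hEE.symm)
  obtain ⟨x, y, hal, hbe, hxy, hy1, hy2⟩ := hty
  -- the vector `n = v2 - y v1`
  obtain ⟨n, hn⟩ : ∃ n : Fin 4 → K, n = N.v2 - y • N.v1 := ⟨_, rfl⟩
  have o21 : N.v2 ⬝ᵥ N.v1 = 2 := by rw [dotProduct_comm]; exact N.o12
  have v1n : N.v1 ⬝ᵥ n = 2 := by
    rw [hn, dotProduct_sub, dotProduct_smul, N.o11, N.o12, smul_zero, sub_zero]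
  have v2n : N.v2 ⬝ᵥ n = -2 * y := by
    rw [hn, dotProduct_sub, dotProduct_smul, N.o22, o21, smul_eq_mul]
    ring
  have nn : n ⬝ᵥ n = -4 * y := by
    nth_rewrite 1 [hn]
    rw [sub_dotProduct, smul_dotProduct, v1n, v2n, smul_eq_mul]
    ring
  have f1n : dv N.f1 n = (-N.w1) • n := by
    have h1 := N.s11
    have h2 := N.s12
    rw [hal] at h1
    funext k
    have h1k := congrFun h1 k
    have h2k := congrFun h2 k
    simp only [dv, Pi.add_apply, Pi.smul_apply, smul_eq_mul] at h1k h2k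
    rw [hn]
    simp only [dv, Pi.sub_apply, Pi.smul_apply, smul_eq_mul, map_sub, Derivation.leibniz, hy1, h1k,
      h2k]
    linear_combination -(N.m k) * hxy
  have f2n : dv N.f2 n = (-N.w2) • n := by
    have h1 := N.s21
    have h2 := N.s22
    rw [hbe] at h2
    funext k
    have h1k := congrFun h1 k
    have h2k := congrFun h2 k
    simp only [dv, Pi.add_apply, Pi.smul_apply, smul_eq_mul] at h1k h2k
    rw [hn]
    simp only [dv, Pi.sub_apply, Pi.smul_apply, smul_eq_mul, map_sub, Derivation.leibniz, hy2, h1k,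
      h2k]
    ring
  -- derivatives of `n`
  obtain ⟨r, hr⟩ : ∃ r : Fin 2 → K, ∀ i, dv (I.D.d i) n = r i • n := by
    refine ⟨![δ⁻¹ * (a 1 * N.w2 - b 1 * N.w1), δ⁻¹ * (b 0 * N.w1 - a 0 * N.w2)], ?_⟩
    intro i
    fin_cases i
    · show dv (I.D.d 0) n = (δ⁻¹ * (a 1 * N.w2 - b 1 * N.w1)) • n
      rw [i0, f1n, f2n]
      funext k
      simp only [Pi.sub_apply, Pi.smul_apply, smul_eq_mul]
      ring
    · show dv (I.D.d 1) n = (δ⁻¹ * (b 0 * N.w1 - a 0 * N.w2)) • n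
      rw [i1, f1n, f2n]
      funext k
      simp only [Pi.sub_apply, Pi.smul_apply, smul_eq_mul]
      ring
  -- the tangential part
  have htan : ∀ v, tanK I.D I.X v
      = (2⁻¹ : K) • ((N.v2 ⬝ᵥ v) • N.v1 + (N.v1 ⬝ᵥ v) • N.v2) := by
    intro v
    rw [hv1, hv2, dvf1, dvf2]
    unfold tanK norK
    funext k
    simp only [Fin.sum_univ_two, hgi, add_dotProduct, smul_dotProduct, Pi.sub_apply, Pi.add_apply,
      Pi.smul_apply, smul_eq_mul]
    field_simp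
    ring
  have z1 : N.v1 + (N.m ⬝ᵥ N.m)⁻¹ • tanK I.D I.X (dv N.f1 N.m) = (-(2⁻¹ * x)) • n := by
    rw [htan, p11, p12, hal, smul_dotProduct, hn]
    funext k
    simp only [Pi.sub_apply, Pi.add_apply, Pi.smul_apply, smul_eq_mul]
    field_simp
    linear_combination -(N.v1 k) * hxy
  have z2 : N.v2 + (N.m ⬝ᵥ N.m)⁻¹ • tanK I.D I.X (dv N.f2 N.m) = (2⁻¹ : K) • n := by
    rw [htan, p21, p22, hbe, smul_dotProduct, hn]
    funext k
    simp only [Pi.sub_apply, Pi.add_apply, Pi.smul_apply, smul_eq_mul]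
    field_simp
    ring
  rw [htan, p11, p12] at z1
  rw [htan, p21, p22] at z2
  obtain ⟨ζ, hζ0, hζ1⟩ : ∃ ζ : Fin 2 → K, ζ 0 = δ⁻¹ * (-(2⁻¹ * x) * b 1 - 2⁻¹ * a 1) ∧
      ζ 1 = δ⁻¹ * (2⁻¹ * a 0 + 2⁻¹ * x * b 0) := ⟨![_, _], rfl, rfl⟩
  have hZ : ∀ j, ZK I.D I.X j = ζ j • n := by
    intro j
    fin_cases j
    · show dv (I.D.d 0) I.X + (trK I.D I.X ⬝ᵥ trK I.D I.X)⁻¹ •
        tanK I.D I.X (dv (I.D.d 0) (trK I.D I.X)) = ζ 0 • n
      rw [← hm, htan, i0 I.X, i0 N.m, ← hv1, ← hv2, hζ0]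
      simp only [dotProduct_smul, dotProduct_sub, p11, p12, p21, p22]
      funext k
      have e1 := congrFun z1 k
      have e2 := congrFun z2 k
      simp only [Pi.sub_apply, Pi.add_apply, Pi.smul_apply, smul_eq_mul] at e1 e2 ⊢
      linear_combination δ⁻¹ * b 1 * e1 - δ⁻¹ * a 1 * e2
    · show dv (I.D.d 1) I.X + (trK I.D I.X ⬝ᵥ trK I.D I.X)⁻¹ •
        tanK I.D I.X (dv (I.D.d 1) (trK I.D I.X)) = ζ 1 • n
      rw [← hm, htan, i1 I.X, i1 N.m, ← hv1, ← hv2, hζ1]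
      simp only [dotProduct_smul, dotProduct_sub, p11, p12, p21, p22]
      funext k
      have e1 := congrFun z1 k
      have e2 := congrFun z2 k
      simp only [Pi.sub_apply, Pi.add_apply, Pi.smul_apply, smul_eq_mul] at e1 e2 ⊢
      linear_combination δ⁻¹ * a 0 * e2 - δ⁻¹ * b 0 * e1
  have hX : ∀ j, dv (I.D.d j) I.X ⬝ᵥ n = ζ j * (-4 * y) := by
    intro j
    fin_cases j
    · show dv (I.D.d 0) I.X ⬝ᵥ n = ζ 0 * (-4 * y)
      rw [i0 I.X, ← hv1, ← hv2, hζ0, smul_dotProduct, sub_dotProduct, smul_dotProduct,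
        smul_dotProduct, v1n, v2n]
      simp only [smul_eq_mul]
      linear_combination -(2 * δ⁻¹ * b 1) * hxy
    · show dv (I.D.d 1) I.X ⬝ᵥ n = ζ 1 * (-4 * y)
      rw [i1 I.X, ← hv1, ← hv2, hζ1, smul_dotProduct, sub_dotProduct, smul_dotProduct,
        smul_dotProduct, v1n, v2n]
      simp only [smul_eq_mul]
      linear_combination (2 * δ⁻¹ * b 0) * hxy
  refine ⟨?_, ?_, ?_, ?_⟩
  · intro j i k l
    have ek : I.D.d i (n k) = r i * n k := congrFun (hr i) k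
    have el : I.D.d i (n l) = r i * n l := congrFun (hr i) l
    rw [hZ]
    simp only [Pi.smul_apply, smul_eq_mul, Derivation.leibniz, ek, el]
    ring
  · intro k l
    rw [hZ, hZ]
    simp only [Pi.smul_apply, smul_eq_mul]
    ring
  · intro j l
    rw [hZ, hZ, smul_dotProduct, dotProduct_smul, dotProduct_smul, nn, hX]
    simp only [smul_eq_mul]
    ring
  · have ha : a 0 * ζ 0 + a 1 * ζ 1 = -(2⁻¹ * x) := by
      rw [hζ0, hζ1]
      have e : δ⁻¹ * (a 0 * b 1 - a 1 * b 0) = 1 := by rw [hdd]; exact inv_mul_cancel₀ hδ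
      linear_combination -(2⁻¹ * x) * e
    have hb : b 0 * ζ 0 + b 1 * ζ 1 = 2⁻¹ := by
      rw [hζ0, hζ1]
      have e : δ⁻¹ * (a 0 * b 1 - a 1 * b 0) = 1 := by rw [hdd]; exact inv_mul_cancel₀ hδ
      linear_combination 2⁻¹ * e
    simp only [Fin.sum_univ_two, hgi, hZ, dotProduct_smul, hX, smul_eq_mul]
    have e : (a 0 * ζ 0 + a 1 * ζ 1) * (b 0 * ζ 0 + b 1 * ζ 1) * (-4 * y) = 1 := by
      rw [ha, hb]
      linear_combination hxy
    linear_combination e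

end Pool.H60.NC
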