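import Pool.Agent.H60.NC.Tr
import Pool.Agent.H60.NC.KA

/-!
# The identities for cylinders, for smooth functions

Transfer of `k_A` with `vanish`: on each open `Om ⊆ U` one has `EK = B.φ (Edet s X) = 0` by
`B.congr` and `B.zero`.  The last identity is `vanish` for
`∑ g^{jl} <X_j,Z_l> - 1` with `φ_metric_inv`.
-/

namespace Pool.H60.NC

open scoped ContDiff
open Matrix
open Pool.Agent.H99.N2 (E2 E4 pd contDiffOn_pd contDiffOn_comp)
open Pool.H60.PE

variable {s : ℕ} {X : E2 → E4} {U : Set E2} {c W : ℝ}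

private theorem ta_key {Om : Set E2} (h : Hyp s X Om c W) (hne : Om.Nonempty) (hW : W ≠ 0)
    (hE : ∀ x ∈ Om, Edet s X x = 0) {K : Type} [Field K] [CharZero K] (B : CBr Om K) :
    (∀ (j i : Fin 2) (k l : Fin 4), B.Φ s (Zv s X W j) k * B.D.d i (B.Φ s (Zv s X W j) l)
      = B.Φ s (Zv s X W j) l * B.D.d i (B.Φ s (Zv s X W j) k)) ∧
    (∀ k l : Fin 4, B.Φ s (Zv s X W 0) k * B.Φ s (Zv s X W 1) l
      = B.Φ s (Zv s X W 0) l * B.Φ s (Zv s X W 1) k) ∧
    (∀ j l : Fin 2, B.Φ s (Zv s X W j) ⬝ᵥ B.Φ s (Zv s X W l)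
      = B.Φ s (pd j X) ⬝ᵥ B.Φ s (Zv s X W l)) ∧
    ∑ j, ∑ l, gi B.D (B.Φ s X) j l * (B.Φ s (pd j X) ⬝ᵥ B.Φ s (Zv s X W l)) = 1 := by
  obtain ⟨I, hD, hX, -⟩ := exists_im0 B hne h
  have hw : trK I.D I.X ⬝ᵥ trK I.D I.X = B.φ (fun _ => W) := by
    rw [hD, hX]
    exact φ_W B h
  have h1 : trK I.D I.X ⬝ᵥ trK I.D I.X ≠ 0 := by
    rw [hw]
    exact B.const_ne hne hW
  have h2 : ∀ i, I.D.d i (trK I.D I.X ⬝ᵥ trK I.D I.X) = 0 := by
    intro i
    rw [hw, hD]
    exact B.const_der W i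
  have h3 : EK I.D I.X = 0 := by
    rw [hD, hX, ← φ_E B h, ← B.zero]
    exact B.congr _ _ h.E_smooth contDiffOn_const hE
  have key := k_A I h1 h2 h3
  rw [hD, hX] at key
  simp only [← Φ_Zv B h hW] at key
  simp only [← B.Φ_pd s h.hU h.hX.1] at key
  exact key

theorem t_A (h : Hyp s X U c W) (hW : W ≠ 0) (hE : ∀ x ∈ U, Edet s X x = 0) : IdA s X U W := by
  have hZ : ∀ j, ContDiffOn ℝ ∞ (Zv s X W j) U := fun j => h.Z_smooth j
  refine ⟨?_, ?_, ?_, ?_⟩
  · intro x hx j i k l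
    have hk := contDiffOn_comp (hZ j) k
    have hl := contDiffOn_comp (hZ j) l
    have hdk := contDiffOn_comp (contDiffOn_pd h.hU (hZ j) i) k
    have hdl := contDiffOn_comp (contDiffOn_pd h.hU (hZ j) i) l
    have hv := vanish h.hU ((hk.mul hdl).sub (hl.mul hdk)) (fun Om hO hs hne _ K _ _ B => by
      obtain ⟨k1, -, -, -⟩ := ta_key (h.mono hO hs) hne hW (fun y hy => hE y (hs hy)) B
      have hZ' : ContDiffOn ℝ ∞ (Zv s X W j) Om := (hZ j).mono hs
      have e := k1 j i k l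
      have e1 : ∀ m : Fin 4, B.D.d i (B.Φ s (Zv s X W j) m)
          = B.eta s m * B.φ (fun x => pd i (Zv s X W j) x m) := by
        intro m
        exact (congrFun (B.Φ_pd s hO hZ' i) m).symm
      rw [e1, e1] at e
      change (B.eta s k * B.φ (fun x => Zv s X W j x k)) *
        (B.eta s l * B.φ (fun x => pd i (Zv s X W j) x l))
        = (B.eta s l * B.φ (fun x => Zv s X W j x l)) *
        (B.eta s k * B.φ (fun x => pd i (Zv s X W j) x k)) at e
      have e2 := B.sub ((hk.mul hdl).mono hs) ((hl.mul hdk).mono hs)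
      refine e2.trans ?_
      rw [B.mul _ _ (hk.mono hs) (hdl.mono hs), B.mul _ _ (hl.mono hs) (hdk.mono hs)]
      have e3 := B.eta_ne s k
      have e4 := B.eta_ne s l
      have e5 := mul_ne_zero e3 e4
      apply mul_left_cancel₀ e5
      linear_combination e) x hx
    exact sub_eq_zero.1 hv
  · intro x hx k l
    have h0k := contDiffOn_comp (hZ 0) k
    have h0l := contDiffOn_comp (hZ 0) l
    have h1k := contDiffOn_comp (hZ 1) k
    have h1l := contDiffOn_comp (hZ 1) l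
    have hv := vanish h.hU ((h0k.mul h1l).sub (h0l.mul h1k)) (fun Om hO hs hne _ K _ _ B => by
      obtain ⟨-, k2, -, -⟩ := ta_key (h.mono hO hs) hne hW (fun y hy => hE y (hs hy)) B
      have e := k2 k l
      change (B.eta s k * B.φ (fun x => Zv s X W 0 x k)) *
        (B.eta s l * B.φ (fun x => Zv s X W 1 x l))
        = (B.eta s l * B.φ (fun x => Zv s X W 0 x l)) *
        (B.eta s k * B.φ (fun x => Zv s X W 1 x k)) at e
      have e2 := B.sub ((h0k.mul h1l).mono hs) ((h0l.mul h1k).mono hs)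
      refine e2.trans ?_
      rw [B.mul _ _ (h0k.mono hs) (h1l.mono hs), B.mul _ _ (h0l.mono hs) (h1k.mono hs)]
      have e3 := B.eta_ne s k
      have e4 := B.eta_ne s l
      have e5 := mul_ne_zero e3 e4
      apply mul_left_cancel₀ e5
      linear_combination e) x hx
    exact sub_eq_zero.1 hv
  · intro x hx j l
    have ha := contDiffOn_ip s (hZ j) (hZ l)
    have hb := contDiffOn_ip s (contDiffOn_pd h.hU h.hX.1 j) (hZ l)
    have hv := vanish h.hU (ha.sub hb) (fun Om hO hs hne _ K _ _ B => by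
      obtain ⟨-, -, k3, -⟩ := ta_key (h.mono hO hs) hne hW (fun y hy => hE y (hs hy)) B
      refine (B.sub (ha.mono hs) (hb.mono hs)).trans ?_
      rw [B.φ_ip s ((hZ j).mono hs) ((hZ l).mono hs),
        B.φ_ip s ((contDiffOn_pd h.hU h.hX.1 j).mono hs) ((hZ l).mono hs), k3 j l, sub_self]) x hx
    exact sub_eq_zero.1 hv
  · intro x hx
    have hb : ∀ j l : Fin 2, ContDiffOn ℝ ∞ (fun x => ip s (pd j X x) (Zv s X W l x)) U :=
      fun j l => contDiffOn_ip s (contDiffOn_pd h.hU h.hX.1 j) (hZ l)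
    have hg : ∀ j l : Fin 2, ContDiffOn ℝ ∞ (fun x => (metric s X x)⁻¹ j l) U :=
      fun j l => contDiffOn_metric_inv h.hU h.hX j l
    have hsum : ContDiffOn ℝ ∞ (fun x => ∑ j, ∑ l, (metric s X x)⁻¹ j l *
        ip s (pd j X x) (Zv s X W l x)) U :=
      ContDiffOn.sum fun j _ => ContDiffOn.sum fun l _ => (hg j l).mul (hb j l)
    have hv := vanish h.hU (hsum.sub contDiffOn_const (g := fun _ => (1 : ℝ)))
      (fun Om hO hs hne _ K _ _ B => by
      obtain ⟨-, -, -, k4⟩ := ta_key (h.mono hO hs) hne hW (fun y hy => hE y (hs hy)) B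
      refine (B.sub (hsum.mono hs) contDiffOn_const).trans ?_
      rw [B.one]
      have hXO : IsSurface s X Om := (h.mono hO hs).hX
      have e1 : B.φ (fun x => ∑ j, ∑ l, (metric s X x)⁻¹ j l * ip s (pd j X x) (Zv s X W l x))
          = ∑ j, ∑ l, gi B.D (B.Φ s X) j l * (B.Φ s (pd j X) ⬝ᵥ B.Φ s (Zv s X W l)) := by
        rw [B.sum Finset.univ (fun j x => ∑ l, (metric s X x)⁻¹ j l *
          ip s (pd j X x) (Zv s X W l x)) (fun j _ => (ContDiffOn.sum fun l _ =>
            (hg j l).mul (hb j l)).mono hs)]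
        refine Finset.sum_congr rfl fun j _ => ?_
        rw [B.sum Finset.univ (fun l x => (metric s X x)⁻¹ j l *
          ip s (pd j X x) (Zv s X W l x)) (fun l _ => ((hg j l).mul (hb j l)).mono hs)]
        refine Finset.sum_congr rfl fun l _ => ?_
        rw [B.mul _ _ ((hg j l).mono hs) ((hb j l).mono hs), φ_metric_inv B hO hXO,
          B.φ_ip s ((contDiffOn_pd h.hU h.hX.1 j).mono hs) ((hZ l).mono hs)]
      rw [e1, k4, sub_self]) x hx
    exact sub_eq_zero.1 hv

end Pool.H60.NC
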