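import Pool.Agent.H60.NC.KId

/-!
# The identities for B-scrolls over the differential field

`E ≠ 0` excludes the first type of `NFr.tri`, so `W = 2c`.  `P = X + m/c`.
* Last type: `f1 P = v1 + (1/c)(-c v1) = 0`, `f2 P = 0`, so `d_i P = 0` and `B^(a) = 0`: all
  identities are trivial.
* `be = 0`, `f2 m = -c v2`: `f2 P = v2 + (1/c) f2 m = 0`.  With `f2 = b 0 d_0 + b 1 d_1` this is
  `b 0 d_0 P_a = - b 1 d_1 P_a` for each `a`, so `(d_1 P_a, -d_0 P_a) = mu_a (b 0, b 1)` for some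
  `mu_a` and `B^(a) = mu_a v2`.  First identity: `d_0 P_a d_1 P_b - d_1 P_a d_0 P_b =
  -mu_a b 1 mu_b b 0 + mu_a b 0 mu_b b 1 = 0`.  Second: `v2.v2 = 0`.  Third: `v2.f2 P = 0`,
  `v2.f1 P = v2.v1 + (1/c) v2.f1 m = 2 - W/c = 0` (`f1 m . v2 = -m.m`), and `d_i` is a combination of
  `f1`, `f2`.  Fourth: `f1 v2 = -w1 v2 + m`, `f2 v2 = -w2 v2`, so `d_i v2 = xi_i v2 + eta_i m` with
  `v2.X_i = 2 eta_i` (`f1 X.v2 = 2`, `f2 X.v2 = 0`): `eta_i = (1/2) v2.X_i`, hence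
  `d_i B^(a) - (1/2)(B^(a).X_i) m` is a multiple of `v2` and, `B^(a)` being `mu_a v2`, the identity
  holds (for `mu_a = 0` both sides are `0`).
* `al = 0`: the same with the two null directions exchanged (`NFr.swap`).
-/

namespace Pool.H60.NC

open Matrix
open Pool.H60.PE

variable {K : Type} [Field K]

private lemma KB_dv_add (D : Derivation ℤ K K) (u v : Fin 4 → K) : dv D (u + v) = dv D u + dv D v := by
  funext k
  simp [dv]

private lemma KB_dv_smul (D : Derivation ℤ K K) (t : K) (v : Fin 4 → K) :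
    dv D (t • v) = D t • v + t • dv D v := by
  funext k
  simp only [dv, Pi.smul_apply, Pi.add_apply, smul_eq_mul, Derivation.leibniz]
  ring

private lemma KB_d_dot (D : Derivation ℤ K K) (u v : Fin 4 → K) :
    D (u ⬝ᵥ v) = dv D u ⬝ᵥ v + u ⬝ᵥ dv D v := by
  simp only [dotProduct, Fin.sum_univ_four, map_add, Derivation.leibniz, dv, smul_eq_mul]
  ring

private lemma KB_alg {a0 a1 b0 b1 t00 t01 t10 t11 x y w : K} (hxy : x * y = 1)
    (e11 : a0 * (a0 * t00) + a1 * (a0 * t10) + (a0 * (a1 * t01) + a1 * (a1 * t11)) = -(x * w))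
    (e12 : a0 * (b0 * t00) + a0 * (b1 * t10) + (a1 * (b0 * t01) + a1 * (b1 * t11)) = -w)
    (e21 : b0 * (a0 * t00) + b0 * (a1 * t10) + (b1 * (a0 * t01) + b1 * (a1 * t11)) = -w)
    (e22 : b0 * (b0 * t00) + b1 * (b0 * t10) + (b0 * (b1 * t01) + b1 * (b1 * t11)) = -(y * w)) :
    (a0 * b1 - a1 * b0) ^ 2 * (t00 * t11 - t10 * t01) = 0 := by
  linear_combination (b0 * (b0 * t00) + b1 * (b0 * t10) + (b0 * (b1 * t01) + b1 * (b1 * t11))) * e11
    + (-(x * w)) * e22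
    - (b0 * (a0 * t00) + b0 * (a1 * t10) + (b1 * (a0 * t01) + b1 * (a1 * t11))) * e12
    + w * e21 + w ^ 2 * hxy

/-- the common part of the two types -/
private lemma KB_core {D : DC K} {X m : Fin 4 → K} {c : K} {g h : Derivation ℤ K K}
    {a b : Fin 2 → K} (hh : ∀ f, h f = a 0 * D.d 0 f + a 1 * D.d 1 f)
    (hg : ∀ f, g f = b 0 * D.d 0 f + b 1 * D.d 1 f) (hdet : a 0 * b 1 - a 1 * b 0 ≠ 0)
    {v : Fin 4 → K} (hv : v = dv g X) (vv : v ⬝ᵥ v = 0) (hX : v ⬝ᵥ dv h X = 2) {ρ σ : K}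
    (gv : dv g v = ρ • v) (hv' : dv h v = σ • v + m) (hm : m = trK D X)
    (h2 : (2 : K) ≠ 0)
    (gP : dv g (PK D X c) = 0) (hP : v ⬝ᵥ dv h (PK D X c) = 0) :
    (∀ a b : Fin 4, D.d 0 (PK D X c a) * D.d 1 (PK D X c b)
      = D.d 1 (PK D X c a) * D.d 0 (PK D X c b)) ∧
    (∀ a : Fin 4, BK D X c a ⬝ᵥ BK D X c a = 0) ∧
    (∀ (a : Fin 4) (i : Fin 2), BK D X c a ⬝ᵥ dv (D.d i) (PK D X c) = 0) ∧
    ∀ (a : Fin 4) (i : Fin 2) (k l : Fin 4),
      (D.d i (BK D X c a k) - 2⁻¹ * (BK D X c a ⬝ᵥ dv (D.d i) X) * trK D X k) * BK D X c a l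
      = (D.d i (BK D X c a l) - 2⁻¹ * (BK D X c a ⬝ᵥ dv (D.d i) X) * trK D X l)
        * BK D X c a k := by
  obtain ⟨δ, hδ⟩ : ∃ δ, δ = a 0 * b 1 - a 1 * b 0 := ⟨_, rfl⟩
  rw [← hδ] at hdet
  -- derivations in terms of the frame
  have d0 : ∀ f, δ * D.d 0 f = b 1 * h f - a 1 * g f := by
    intro f
    rw [hh, hg, hδ]
    ring
  have d1 : ∀ f, δ * D.d 1 f = a 0 * g f - b 0 * h f := by
    intro f
    rw [hh, hg, hδ]
    ring
  obtain ⟨ε, hε⟩ : ∃ ε : Fin 2 → K, ε = ![b 1 / δ, -(b 0 / δ)] := ⟨_, rfl⟩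
  obtain ⟨ζ, hζ⟩ : ∃ ζ : Fin 2 → K, ζ = ![-(a 1 / δ), a 0 / δ] := ⟨_, rfl⟩
  have dd : ∀ (i : Fin 2) (f : K), D.d i f = ε i * h f + ζ i * g f := by
    intro i f
    refine mul_left_cancel₀ hdet ?_
    fin_cases i
    · change δ * D.d 0 f = δ * (ε 0 * h f + ζ 0 * g f)
      have x1 : ε 0 = b 1 / δ := by rw [hε]; rfl
      have x2 : ζ 0 = -(a 1 / δ) := by rw [hζ]; rfl
      rw [d0, x1, x2]
      field_simp
      ring
    · change δ * D.d 1 f = δ * (ε 1 * h f + ζ 1 * g f)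
      have x1 : ε 1 = -(b 0 / δ) := by rw [hε]; rfl
      have x2 : ζ 1 = a 0 / δ := by rw [hζ]; rfl
      rw [d1, x1, x2]
      field_simp
      ring
  have ddv : ∀ (i : Fin 2) (w : Fin 4 → K), dv (D.d i) w = ε i • dv h w + ζ i • dv g w := by
    intro i w
    funext k
    exact dd i (w k)
  obtain ⟨P, hPdef⟩ : ∃ P, P = PK D X c := ⟨_, rfl⟩
  rw [← hPdef] at gP hP
  obtain ⟨μ, hμ⟩ : ∃ μ : Fin 4 → K, μ = fun j => -(h (P j) / δ) := ⟨_, rfl⟩
  have gP' : ∀ j, g (P j) = 0 := fun j => congrFun gP j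
  have p0 : ∀ j, D.d 0 (P j) = -(μ j * b 1) := by
    intro j
    refine mul_left_cancel₀ hdet ?_
    rw [d0, gP', hμ]
    field_simp
    ring
  have p1 : ∀ j, D.d 1 (P j) = μ j * b 0 := by
    intro j
    refine mul_left_cancel₀ hdet ?_
    rw [d1, gP', hμ]
    field_simp
    ring
  have hB : ∀ j, BK D X c j = μ j • v := by
    intro j
    unfold BK
    rw [← hPdef, p0, p1, hv]
    funext k
    simp only [Pi.sub_apply, Pi.smul_apply, smul_eq_mul, dv, hg]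
    ring
  rw [← hPdef]
  refine ⟨?_, ?_, ?_, ?_⟩
  · intro j l
    rw [p0, p1, p0, p1]
    ring
  · intro j
    rw [hB, smul_dotProduct, dotProduct_smul, vv, smul_zero, smul_zero]
  · intro j i
    rw [hB, ddv, gP, smul_zero, add_zero, smul_dotProduct, dotProduct_smul, hP, smul_zero, smul_zero]
  · intro j i k l
    have e1 : BK D X c j ⬝ᵥ dv (D.d i) X = 2 * (μ j * ε i) := by
      rw [hB, ddv, ← hv, smul_dotProduct, dotProduct_add, dotProduct_smul, dotProduct_smul, vv, hX]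
      simp only [smul_eq_mul]
      ring
    have e2 : ∀ k, D.d i (BK D X c j k) = D.d i (μ j) * v k + μ j * (ε i * (σ * v k + m k) +
        ζ i * (ρ * v k)) := by
      intro k
      rw [hB]
      simp only [Pi.smul_apply, smul_eq_mul, Derivation.leibniz]
      rw [dd i (v k)]
      have h3 := congrFun hv' k
      have h4 := congrFun gv k
      simp only [dv, Pi.add_apply, Pi.smul_apply, smul_eq_mul] at h3 h4
      rw [h3, h4]
      ring
    rw [e1, e2, e2, ← hm, hB]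
    simp only [Pi.smul_apply, smul_eq_mul]
    have h5 : (2 : K)⁻¹ * (2 * (μ j * ε i)) = μ j * ε i := by
      rw [← mul_assoc, inv_mul_cancel₀ h2, one_mul]
    rw [h5]
    ring

theorem k_B [CharZero K] (I : Im0 K) (hW : trK I.D I.X ⬝ᵥ trK I.D I.X ≠ 0)
    (hd : ∀ i, I.D.d i (trK I.D I.X ⬝ᵥ trK I.D I.X) = 0) (hE : EK I.D I.X ≠ 0) :
    (∀ a b : Fin 4, I.D.d 0 (PK I.D I.X I.c a) * I.D.d 1 (PK I.D I.X I.c b)
      = I.D.d 1 (PK I.D I.X I.c a) * I.D.d 0 (PK I.D I.X I.c b)) ∧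
    (∀ a : Fin 4, BK I.D I.X I.c a ⬝ᵥ BK I.D I.X I.c a = 0) ∧
    (∀ (a : Fin 4) (i : Fin 2), BK I.D I.X I.c a ⬝ᵥ dv (I.D.d i) (PK I.D I.X I.c) = 0) ∧
    ∀ (a : Fin 4) (i : Fin 2) (k l : Fin 4),
      (I.D.d i (BK I.D I.X I.c a k)
        - 2⁻¹ * (BK I.D I.X I.c a ⬝ᵥ dv (I.D.d i) I.X) * trK I.D I.X k) * BK I.D I.X I.c a l
      = (I.D.d i (BK I.D I.X I.c a l)
        - 2⁻¹ * (BK I.D I.X I.c a ⬝ᵥ dv (I.D.d i) I.X) * trK I.D I.X l) * BK I.D I.X I.c a k := by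
  have h2 : (2 : K) ≠ 0 := by norm_num
  obtain ⟨N, a, b, hf1, hf2, hdet, hv1, hv2, hm, hc⟩ := exists_nfr I
  have hW' : N.m ⬝ᵥ N.m ≠ 0 := by rw [hm]; exact hW
  have k1 : N.f1 (N.m ⬝ᵥ N.m) = 0 := by rw [hm, hf1, hd, hd]; ring
  have k2 : N.f2 (N.m ⬝ᵥ N.m) = 0 := by rw [hm, hf2, hd, hd]; ring
  have o21 : N.v2 ⬝ᵥ N.v1 = 2 := by rw [dotProduct_comm]; exact N.o12
  have hz : ∀ (D : Derivation ℤ K K) (v w' : Fin 4 → K), v ⬝ᵥ w' = 0 →
      dv D v ⬝ᵥ w' + v ⬝ᵥ dv D w' = 0 := by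
    intro D v w' h1
    rw [← KB_d_dot, h1, map_zero]
  have e11 : N.v1 ⬝ᵥ dv N.f1 N.m = -(N.al ⬝ᵥ N.m) := by
    have := hz N.f1 N.v1 N.m N.n1
    rw [N.s11, add_dotProduct, smul_dotProduct, N.n1, smul_eq_mul] at this
    linear_combination this
  have e12 : N.v2 ⬝ᵥ dv N.f1 N.m = -(N.m ⬝ᵥ N.m) := by
    have := hz N.f1 N.v2 N.m N.n2
    rw [N.s12, add_dotProduct, smul_dotProduct, N.n2, smul_eq_mul] at this
    linear_combination this
  have e21 : N.v1 ⬝ᵥ dv N.f2 N.m = -(N.m ⬝ᵥ N.m) := by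
    have := hz N.f2 N.v1 N.m N.n1
    rw [N.s21, add_dotProduct, smul_dotProduct, N.n1, smul_eq_mul] at this
    linear_combination this
  have e22 : N.v2 ⬝ᵥ dv N.f2 N.m = -(N.be ⬝ᵥ N.m) := by
    have := hz N.f2 N.v2 N.m N.n2
    rw [N.s22, add_dotProduct, smul_dotProduct, N.n2, smul_eq_mul] at this
    linear_combination this
  -- derivatives of `P`
  have hPf : ∀ D : Derivation ℤ K K, (∀ i, I.D.d i I.c = 0) → D I.c = 0 →
      dv D (PK I.D I.X I.c) = dv D I.X + I.c⁻¹ • dv D N.m := by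
    intro D _ hD
    unfold PK
    rw [KB_dv_add, KB_dv_smul, ← hm]
    have h3 : D (I.c⁻¹) = 0 := by
      rw [Derivation.leibniz_inv, hD, smul_zero]
    rw [h3, zero_smul, zero_add]
  have hfc1 : N.f1 I.c = 0 := by rw [← hc]; exact N.c1
  have hfc2 : N.f2 I.c = 0 := by rw [← hc]; exact N.c2
  have hP1 := hPf N.f1 I.hdc hfc1
  have hP2 := hPf N.f2 I.hdc hfc2
  have hIc := I.hc
  rcases N.tri I.D.root hW' k1 k2 with ⟨x, y, hal, hbe, hxy, -, -⟩ | ⟨hWc, hcase⟩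
  · exfalso
    apply hE
    have hdv1 : ∀ w, dv N.f1 w = a 0 • dv (I.D.d 0) w + a 1 • dv (I.D.d 1) w := by
      intro w
      funext k
      exact hf1 (w k)
    have hdv2 : ∀ w, dv N.f2 w = b 0 • dv (I.D.d 0) w + b 1 • dv (I.D.d 1) w := by
      intro w
      funext k
      exact hf2 (w k)
    rw [hal, smul_dotProduct, smul_eq_mul] at e11
    rw [hbe, smul_dotProduct, smul_eq_mul] at e22
    rw [hv1, hdv1, hdv1, hm] at e11
    rw [hv2, hdv2, hdv1, hm] at e12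
    rw [hv1, hdv1, hdv2, hm] at e21
    rw [hv2, hdv2, hdv2, hm] at e22
    simp only [add_dotProduct, dotProduct_add, smul_dotProduct, dotProduct_smul,
      smul_eq_mul] at e11 e12 e21 e22
    have hfin : (a 0 * b 1 - a 1 * b 0) ^ 2 * EK I.D I.X = 0 := by
      unfold EK
      rw [dotProduct_comm (dv (I.D.d 0) (trK I.D I.X)) (dv (I.D.d 0) I.X),
        dotProduct_comm (dv (I.D.d 1) (trK I.D I.X)) (dv (I.D.d 1) I.X),
        dotProduct_comm (dv (I.D.d 0) (trK I.D I.X)) (dv (I.D.d 1) I.X),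
        dotProduct_comm (dv (I.D.d 1) (trK I.D I.X)) (dv (I.D.d 0) I.X)]
      exact KB_alg (w := trK I.D I.X ⬝ᵥ trK I.D I.X) hxy (by linear_combination e11)
        (by linear_combination e12) (by linear_combination e21) (by linear_combination e22)
    exact (mul_eq_zero.mp hfin).resolve_left (pow_ne_zero 2 hdet)
  · rcases hcase with ⟨hbe, hfm⟩ | ⟨hal, hfm⟩ | ⟨-, -, hfm1, hfm2⟩
    · -- `be = 0`
      refine KB_core (g := N.f2) (h := N.f1) (v := N.v2) (m := N.m) (ρ := -N.w2) (σ := -N.w1)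
        hf1 hf2 hdet hv2 N.o22 ?_ ?_ N.s12 hm h2 ?_ ?_
      · rw [← hv1]
        exact o21
      · rw [N.s22, hbe, add_zero]
      · rw [hP2, ← hv2, hfm, hc, neg_smul, smul_neg, smul_smul, inv_mul_cancel₀ hIc, one_smul,
          add_neg_cancel]
      · rw [hP1, ← hv1, dotProduct_add, dotProduct_smul, e12, o21, hWc, hc, smul_eq_mul]
        field_simp
        ring
    · -- `al = 0`
      have hdet' : b 0 * a 1 - b 1 * a 0 ≠ 0 := by
        intro h
        apply hdet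
        linear_combination -h
      refine KB_core (g := N.f1) (h := N.f2) (v := N.v1) (m := N.m) (ρ := N.w1) (σ := N.w2)
        hf2 hf1 hdet' hv1 N.o11 ?_ ?_ N.s21 hm h2 ?_ ?_
      · rw [← hv2]
        exact N.o12
      · rw [N.s11, hal, add_zero]
      · rw [hP1, ← hv1, hfm, hc, neg_smul, smul_neg, smul_smul, inv_mul_cancel₀ hIc, one_smul,
          add_neg_cancel]
      · rw [hP2, ← hv2, dotProduct_add, dotProduct_smul, e21, N.o12, hWc, hc, smul_eq_mul]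
        field_simp
        ring
    · -- both
      have q1 : dv N.f1 (PK I.D I.X I.c) = 0 := by
        rw [hP1, ← hv1, hfm1, hc, neg_smul, smul_neg, smul_smul, inv_mul_cancel₀ hIc, one_smul,
          add_neg_cancel]
      have q2 : dv N.f2 (PK I.D I.X I.c) = 0 := by
        rw [hP2, ← hv2, hfm2, hc, neg_smul, smul_neg, smul_smul, inv_mul_cancel₀ hIc, one_smul,
          add_neg_cancel]
      have r : ∀ j, I.D.d 0 (PK I.D I.X I.c j) = 0 ∧ I.D.d 1 (PK I.D I.X I.c j) = 0 := by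
        intro j
        have t1 := congrFun q1 j
        have t2 := congrFun q2 j
        simp only [dv, Pi.zero_apply] at t1 t2
        rw [hf1] at t1
        rw [hf2] at t2
        constructor
        · refine (mul_eq_zero.mp ?_).resolve_left hdet
          linear_combination b 1 * t1 - a 1 * t2
        · refine (mul_eq_zero.mp ?_).resolve_left hdet
          linear_combination a 0 * t2 - b 0 * t1
      have hB : ∀ j, BK I.D I.X I.c j = 0 := by
        intro j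
        unfold BK
        rw [(r j).1, (r j).2, zero_smul, zero_smul, sub_zero]
      refine ⟨?_, ?_, ?_, ?_⟩
      · intro j l
        rw [(r j).1, (r j).2, zero_mul, zero_mul]
      · intro j
        rw [hB, zero_dotProduct]
      · intro j i
        rw [hB, zero_dotProduct]
      · intro j i k l
        rw [hB]
        simp

end Pool.H60.NC
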