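import Pool.Agent.H60.NC.Tr
import Pool.Agent.H60.NC.KB

/-!
# The identities for B-scrolls, for smooth functions

Transfer of `k_B` with `vanish`.  On each open nonempty `Om ⊆ U` one has `EK ≠ 0` by `B.ne`.
`BK a = B.eta s a • B.Φ s (Bv a)` (`Φ_Bv`), and `B.eta s a` is a nonzero constant.
-/

namespace Pool.H60.NC

open scoped ContDiff
open Matrix
open Pool.Agent.H99.N2 (E2 E4 pd contDiffOn_pd contDiffOn_comp)
open Pool.H60.PE

variable {s : ℕ} {X : E2 → E4} {U : Set E2} {c W : ℝ}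

private theorem tb_key {Om : Set E2} {K : Type} [Field K] [CharZero K] (B : CBr Om K)
    (hne : Om.Nonempty) (h : Hyp s X Om c W) (hW : W ≠ 0) (hE : ∀ x ∈ Om, Edet s X x ≠ 0) :
    (∀ a b : Fin 4, B.D.d 0 (B.Φ s (Pv s X c) a) * B.D.d 1 (B.Φ s (Pv s X c) b)
      = B.D.d 1 (B.Φ s (Pv s X c) a) * B.D.d 0 (B.Φ s (Pv s X c) b)) ∧
    (∀ a : Fin 4, (B.eta s a • B.Φ s (Bv s X c a)) ⬝ᵥ (B.eta s a • B.Φ s (Bv s X c a)) = 0) ∧
    (∀ (a : Fin 4) (i : Fin 2), (B.eta s a • B.Φ s (Bv s X c a)) ⬝ᵥ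
      dv (B.D.d i) (B.Φ s (Pv s X c)) = 0) ∧
    ∀ (a : Fin 4) (i : Fin 2) (k l : Fin 4),
      (B.D.d i ((B.eta s a • B.Φ s (Bv s X c a)) k)
        - 2⁻¹ * ((B.eta s a • B.Φ s (Bv s X c a)) ⬝ᵥ dv (B.D.d i) (B.Φ s X))
          * B.Φ s (trc s X) k) * (B.eta s a • B.Φ s (Bv s X c a)) l
      = (B.D.d i ((B.eta s a • B.Φ s (Bv s X c a)) l)
        - 2⁻¹ * ((B.eta s a • B.Φ s (Bv s X c a)) ⬝ᵥ dv (B.D.d i) (B.Φ s X))
          * B.Φ s (trc s X) l) * (B.eta s a • B.Φ s (Bv s X c a)) k := by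
  obtain ⟨I, hD, hX, hc⟩ := exists_im0 B hne h
  have hWK := φ_W B h
  have hEK := φ_E B h
  have h1 : trK I.D I.X ⬝ᵥ trK I.D I.X ≠ 0 := by
    rw [hD, hX, hWK]
    exact B.const_ne hne hW
  have h2 : ∀ i, I.D.d i (trK I.D I.X ⬝ᵥ trK I.D I.X) = 0 := by
    intro i
    rw [hD, hX, hWK]
    exact B.const_der W i
  have h3 : EK I.D I.X ≠ 0 := by
    rw [hD, hX, ← hEK]
    exact B.ne _ h.E_smooth hE
  have hk := k_B I h1 h2 h3
  rw [hD, hX, hc] at hk
  simp only [← Φ_Pv B h, ← Φ_Bv B h, ← Φ_trc B h] at hk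
  exact hk

private theorem tb_dP {Om : Set E2} {K : Type} [Field K] [CharZero K] (B : CBr Om K)
    (hO : IsOpen Om) {f : E2 → E4} (hf : ContDiffOn ℝ ∞ f Om) (i : Fin 2) (a : Fin 4) :
    B.D.d i (B.Φ s f a) = B.eta s a * B.φ (fun x => pd i f x a) := by
  have h1 := congrFun (B.Φ_pd s hO hf i) a
  exact h1.symm

private theorem tb_half {Om : Set E2} {K : Type} [Field K] [CharZero K] (B : CBr Om K) :
    B.φ (fun _ => (2 : ℝ)⁻¹) = 2⁻¹ := by
  have h1 := B.inv (f := fun _ => (2 : ℝ)) contDiffOn_const (fun _ _ => two_ne_zero)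
  rw [B.two] at h1
  exact h1

theorem t_B (h : Hyp s X U c W) (hW : W ≠ 0) (hE : ∀ x ∈ U, Edet s X x ≠ 0) : IdB s X U c := by
  have hU := h.hU
  have hXs := h.hX.1
  have hP := h.P_smooth
  have hT := h.trc_smooth
  have hpP : ∀ (i : Fin 2) (a : Fin 4), ContDiffOn ℝ ∞ (fun x => pd i (Pv s X c) x a) U :=
    fun i a => contDiffOn_comp (contDiffOn_pd hU hP i) a
  have hBs : ∀ a : Fin 4, ContDiffOn ℝ ∞ (Bv s X c a) U := fun a => h.B_smooth a
  have hBk : ∀ a k : Fin 4, ContDiffOn ℝ ∞ (fun x => Bv s X c a x k) U :=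
    fun a k => contDiffOn_comp (hBs a) k
  have hpB : ∀ (i : Fin 2) (a k : Fin 4), ContDiffOn ℝ ∞ (fun x => pd i (Bv s X c a) x k) U :=
    fun i a k => contDiffOn_comp (contDiffOn_pd hU (hBs a) i) k
  have hTk : ∀ k : Fin 4, ContDiffOn ℝ ∞ (fun x => trc s X x k) U := fun k => contDiffOn_comp hT k
  have hip : ∀ (a : Fin 4) (i : Fin 2),
      ContDiffOn ℝ ∞ (fun x => ip s (Bv s X c a x) (pd i X x)) U :=
    fun a i => contDiffOn_ip s (hBs a) (contDiffOn_pd hU hXs i)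
  have hhalf : ∀ (a : Fin 4) (i : Fin 2) (k : Fin 4),
      ContDiffOn ℝ ∞ (fun x => 2⁻¹ * ip s (Bv s X c a x) (pd i X x) * trc s X x k) U :=
    fun a i k => (contDiffOn_const.mul (hip a i)).mul (hTk k)
  have hdif : ∀ (a : Fin 4) (i : Fin 2) (k l : Fin 4), ContDiffOn ℝ ∞ (fun x =>
      (pd i (Bv s X c a) x k - 2⁻¹ * ip s (Bv s X c a x) (pd i X x) * trc s X x k) *
        Bv s X c a x l) U :=
    fun a i k l => ((hpB i a k).sub (hhalf a i k)).mul (hBk a l)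
  refine ⟨fun x hx a b => ?_, fun x hx a => ?_, fun x hx a i => ?_, fun x hx a i k l => ?_⟩
  · refine sub_eq_zero.1 (vanish hU (f := fun x => pd 0 (Pv s X c) x a * pd 1 (Pv s X c) x b -
      pd 1 (Pv s X c) x a * pd 0 (Pv s X c) x b)
      (((hpP 0 a).mul (hpP 1 b)).sub ((hpP 1 a).mul (hpP 0 b))) ?_ x hx)
    intro Om hO hs hne _ K _ _ B
    have hm := h.mono hO hs
    obtain ⟨k1, -, -, -⟩ := tb_key B hne hm hW fun x hx => hE x (hs hx)
    have h1 := k1 a b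
    rw [tb_dP B hO hm.P_smooth, tb_dP B hO hm.P_smooth, tb_dP B hO hm.P_smooth,
      tb_dP B hO hm.P_smooth] at h1
    rw [B.sub (((hpP 0 a).mono hs).mul ((hpP 1 b).mono hs))
      (((hpP 1 a).mono hs).mul ((hpP 0 b).mono hs)),
      B.mul _ _ ((hpP 0 a).mono hs) ((hpP 1 b).mono hs),
      B.mul _ _ ((hpP 1 a).mono hs) ((hpP 0 b).mono hs)]
    apply mul_left_cancel₀ (mul_ne_zero (B.eta_ne s a) (B.eta_ne s b))
    rw [mul_zero]
    linear_combination h1
  · refine vanish hU (f := fun x => ip s (Bv s X c a x) (Bv s X c a x))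
      (contDiffOn_ip s (hBs a) (hBs a)) ?_ x hx
    intro Om hO hs hne _ K _ _ B
    have hm := h.mono hO hs
    obtain ⟨-, k2, -, -⟩ := tb_key B hne hm hW fun x hx => hE x (hs hx)
    have h1 := k2 a
    rw [B.φ_ip s (hm.B_smooth a) (hm.B_smooth a)]
    rw [smul_dotProduct, dotProduct_smul, smul_eq_mul, smul_eq_mul] at h1
    exact (mul_eq_zero.1 ((mul_eq_zero.1 h1).resolve_left (B.eta_ne s a))).resolve_left
      (B.eta_ne s a)
  · refine vanish hU (f := fun x => ip s (Bv s X c a x) (pd i (Pv s X c) x))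
      (contDiffOn_ip s (hBs a) (contDiffOn_pd hU hP i)) ?_ x hx
    intro Om hO hs hne _ K _ _ B
    have hm := h.mono hO hs
    obtain ⟨-, -, k3, -⟩ := tb_key B hne hm hW fun x hx => hE x (hs hx)
    have h1 := k3 a i
    rw [B.φ_ip s (hm.B_smooth a) (contDiffOn_pd hO hm.P_smooth i), B.Φ_pd s hO hm.P_smooth i]
    rw [smul_dotProduct, smul_eq_mul] at h1
    exact (mul_eq_zero.1 h1).resolve_left (B.eta_ne s a)
  · refine sub_eq_zero.1 (vanish hU (f := fun x =>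
      (pd i (Bv s X c a) x k - 2⁻¹ * ip s (Bv s X c a x) (pd i X x) * trc s X x k) *
        Bv s X c a x l -
      (pd i (Bv s X c a) x l - 2⁻¹ * ip s (Bv s X c a x) (pd i X x) * trc s X x l) *
        Bv s X c a x k)
      ((hdif a i k l).sub (hdif a i l k)) ?_ x hx)
    intro Om hO hs hne _ K _ _ B
    have hm := h.mono hO hs
    obtain ⟨-, -, -, k4⟩ := tb_key B hne hm hW fun x hx => hE x (hs hx)
    have h1 := k4 a i k l
    have hφ : ∀ k l : Fin 4, B.φ (fun x =>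
        (pd i (Bv s X c a) x k - 2⁻¹ * ip s (Bv s X c a x) (pd i X x) * trc s X x k) *
          Bv s X c a x l) =
        (B.φ (fun x => pd i (Bv s X c a) x k) -
          2⁻¹ * B.φ (fun x => ip s (Bv s X c a x) (pd i X x)) * B.φ (fun x => trc s X x k)) *
          B.φ (fun x => Bv s X c a x l) := by
      intro k l
      rw [B.mul _ _ (((hpB i a k).sub (hhalf a i k)).mono hs) ((hBk a l).mono hs),
        B.sub ((hpB i a k).mono hs) ((hhalf a i k).mono hs),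
        B.mul _ _ ((contDiffOn_const.mul (hip a i)).mono hs) ((hTk k).mono hs),
        B.mul _ _ contDiffOn_const ((hip a i).mono hs), tb_half B]
    have hBK : ∀ k : Fin 4, (B.eta s a • B.Φ s (Bv s X c a)) k =
        B.eta s a * (B.eta s k * B.φ (fun x => Bv s X c a x k)) := fun k => rfl
    have hdB : ∀ k : Fin 4, B.D.d i ((B.eta s a • B.Φ s (Bv s X c a)) k) =
        B.eta s a * (B.eta s k * B.φ (fun x => pd i (Bv s X c a) x k)) := by
      intro k
      have e1 : (B.eta s a • B.Φ s (Bv s X c a)) k = B.eta s a * B.Φ s (Bv s X c a) k := rfl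
      rw [e1, Derivation.leibniz, B.eta_der, smul_zero, add_zero, smul_eq_mul,
        tb_dP B hO (hm.B_smooth a)]
    have hdot : (B.eta s a • B.Φ s (Bv s X c a)) ⬝ᵥ dv (B.D.d i) (B.Φ s X) =
        B.eta s a * B.φ (fun x => ip s (Bv s X c a x) (pd i X x)) := by
      rw [smul_dotProduct, smul_eq_mul, B.φ_ip s (hm.B_smooth a) (contDiffOn_pd hO hm.hX.1 i),
        B.Φ_pd s hO hm.hX.1 i]
    have htr : ∀ k : Fin 4, B.Φ s (trc s X) k = B.eta s k * B.φ (fun x => trc s X x k) :=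
      fun k => rfl
    rw [hdB, hdB, hdot, htr, htr, hBK, hBK] at h1
    rw [B.sub ((hdif a i k l).mono hs) ((hdif a i l k).mono hs), hφ k l, hφ l k]
    apply mul_left_cancel₀ (mul_ne_zero (mul_ne_zero (B.eta_ne s a) (B.eta_ne s a))
      (mul_ne_zero (B.eta_ne s k) (B.eta_ne s l)))
    rw [mul_zero]
    linear_combination h1

end Pool.H60.NC
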