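import Pool.Agent.H60.NC.KId

/-!
# The alternative for `E` and the case `<M,M> = 0`

Null frame (`exists_nfr`), `δ = a 0 b 1 - a 1 b 0`:
`δ^2 E = (f1 m . v1)(f2 m . v2) - (f1 m . v2)(f2 m . v1)` and `δ^2 gdet = v1.v1 v2.v2 - (v1.v2)^2 = -4`.
`f1 m . v1 = -m.al`, `f1 m . v2 = f2 m . v1 = -m.m = -W`, `f2 m . v2 = -m.be`
(differentiate `m.v1 = m.v2 = 0`), so `δ^2 E = (m.al)(m.be) - W^2`.
First type of `NFr.tri`: `(m.al)(m.be) = a b W^2 = W^2`, `E = 0`.  Other types: `W = 2c` and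
`(m.al)(m.be) = 0`, `δ^2 E = -4 c^2 = c^2 δ^2 gdet`.
-/

namespace Pool.H60.NC

open Matrix
open Pool.H60.PE

variable {K : Type} [Field K]

private theorem kdich_dv (I : Im0 K) {D : Derivation ℤ K K} {a : Fin 2 → K}
    (h : ∀ f, D f = a 0 * I.D.d 0 f + a 1 * I.D.d 1 f) (v : Fin 4 → K) :
    dv D v = a 0 • dv (I.D.d 0) v + a 1 • dv (I.D.d 1) v := by
  funext k
  simp only [dv, Pi.add_apply, Pi.smul_apply, smul_eq_mul]
  exact h (v k)

private theorem kdich_pair (I : Im0 K) {D E : Derivation ℤ K K} {a b : Fin 2 → K}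
    (hD : ∀ f, D f = a 0 * I.D.d 0 f + a 1 * I.D.d 1 f)
    (hE : ∀ f, E f = b 0 * I.D.d 0 f + b 1 * I.D.d 1 f) (v : Fin 4 → K) :
    (a 0 * b 1 - a 1 * b 0) ^ 2 *
      ((dv (I.D.d 0) v ⬝ᵥ dv (I.D.d 0) I.X) * (dv (I.D.d 1) v ⬝ᵥ dv (I.D.d 1) I.X)
        - (dv (I.D.d 0) v ⬝ᵥ dv (I.D.d 1) I.X) * (dv (I.D.d 1) v ⬝ᵥ dv (I.D.d 0) I.X))
      = (dv D v ⬝ᵥ dv D I.X) * (dv E v ⬝ᵥ dv E I.X)
        - (dv D v ⬝ᵥ dv E I.X) * (dv E v ⬝ᵥ dv D I.X) := by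
  rw [kdich_dv I hD v, kdich_dv I hE v, kdich_dv I hD I.X, kdich_dv I hE I.X]
  simp only [add_dotProduct, dotProduct_add, smul_dotProduct, dotProduct_smul, smul_eq_mul]
  ring

private theorem kdich_11 (N : NFr K) : dv N.f1 N.m ⬝ᵥ N.v1 = -(N.m ⬝ᵥ N.al) := by
  have h := cpf_der_dot N.f1 N.m N.v1
  rw [N.s11, dotProduct_add, dotProduct_smul, dotProduct_comm N.m N.v1, N.n1, map_zero,
    smul_zero, zero_add] at h
  linear_combination -h

private theorem kdich_12 (N : NFr K) : dv N.f1 N.m ⬝ᵥ N.v2 = -(N.m ⬝ᵥ N.m) := by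
  have h := cpf_der_dot N.f1 N.m N.v2
  rw [N.s12, dotProduct_add, dotProduct_smul, dotProduct_comm N.m N.v2, N.n2, map_zero,
    smul_zero, zero_add] at h
  linear_combination -h

private theorem kdich_21 (N : NFr K) : dv N.f2 N.m ⬝ᵥ N.v1 = -(N.m ⬝ᵥ N.m) := by
  have h := cpf_der_dot N.f2 N.m N.v1
  rw [N.s21, dotProduct_add, dotProduct_smul, dotProduct_comm N.m N.v1, N.n1, map_zero,
    smul_zero, zero_add] at h
  linear_combination -h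

private theorem kdich_22 (N : NFr K) : dv N.f2 N.m ⬝ᵥ N.v2 = -(N.m ⬝ᵥ N.be) := by
  have h := cpf_der_dot N.f2 N.m N.v2
  rw [N.s22, dotProduct_add, dotProduct_smul, dotProduct_comm N.m N.v2, N.n2, map_zero,
    smul_zero, zero_add] at h
  linear_combination -h

theorem k_dich [CharZero K] (I : Im0 K) (hW : trK I.D I.X ⬝ᵥ trK I.D I.X ≠ 0)
    (hd : ∀ i, I.D.d i (trK I.D I.X ⬝ᵥ trK I.D I.X) = 0) :
    EK I.D I.X * (EK I.D I.X - I.c ^ 2 * gdet I.D I.X) = 0 ∧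
      EK I.D I.X * (trK I.D I.X ⬝ᵥ trK I.D I.X - 2 * I.c) = 0 := by
  obtain ⟨N, a, b, hf1, hf2, hδ, hv1, hv2, hm, hc⟩ := exists_nfr I
  have hW' : N.m ⬝ᵥ N.m ≠ 0 := by rw [hm]; exact hW
  have k1 : N.f1 (N.m ⬝ᵥ N.m) = 0 := by
    rw [hm, hf1, hd 0, hd 1]
    ring
  have k2 : N.f2 (N.m ⬝ᵥ N.m) = 0 := by
    rw [hm, hf2, hd 0, hd 1]
    ring
  have hE : (a 0 * b 1 - a 1 * b 0) ^ 2 * EK I.D I.X
      = (N.m ⬝ᵥ N.al) * (N.m ⬝ᵥ N.be) - (N.m ⬝ᵥ N.m) ^ 2 := by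
    have e := kdich_pair I hf1 hf2 (trK I.D I.X)
    rw [← hm, ← hv1, ← hv2, kdich_11 N, kdich_12 N, kdich_21 N, kdich_22 N] at e
    unfold EK
    rw [← hm]
    linear_combination e
  have hG : (a 0 * b 1 - a 1 * b 0) ^ 2 * gdet I.D I.X = -4 := by
    have e := kdich_pair I hf1 hf2 I.X
    rw [← hv1, ← hv2, N.o11, N.o12, N.o22, dotProduct_comm N.v2 N.v1, N.o12] at e
    unfold gdet gm
    have e2 := dotProduct_comm (dv (I.D.d 1) I.X) (dv (I.D.d 0) I.X)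
    rw [e2] at e
    linear_combination e
  have hδ2 : (a 0 * b 1 - a 1 * b 0) ^ 2 ≠ 0 := pow_ne_zero 2 hδ
  rcases N.tri I.D.root hW' k1 k2 with ⟨r, s, ha, hb, hrs, -, -⟩ | ⟨hw, h3⟩
  · have hz : EK I.D I.X = 0 := by
      apply (mul_eq_zero.1 _).resolve_left hδ2
      rw [hE, ha, hb, dotProduct_smul, dotProduct_smul, smul_eq_mul, smul_eq_mul]
      linear_combination (N.m ⬝ᵥ N.m) ^ 2 * hrs
    rw [hz]
    exact ⟨zero_mul _, zero_mul _⟩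
  · have hp : (N.m ⬝ᵥ N.al) * (N.m ⬝ᵥ N.be) = 0 := by
      rcases h3 with ⟨h, -⟩ | ⟨h, -⟩ | ⟨h, -, -, -⟩
      · rw [h, dotProduct_zero, mul_zero]
      · rw [h, dotProduct_zero, zero_mul]
      · rw [h, zero_mul]
    have hz : EK I.D I.X - I.c ^ 2 * gdet I.D I.X = 0 := by
      apply (mul_eq_zero.1 _).resolve_left hδ2
      rw [hp, hw, hc] at hE
      linear_combination hE - I.c ^ 2 * hG
    have hz2 : trK I.D I.X ⬝ᵥ trK I.D I.X - 2 * I.c = 0 := by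
      rw [← hm, hw, hc, sub_self]
    rw [hz, hz2]
    exact ⟨mul_zero _, mul_zero _⟩

/-- If `<M,M> = 0` then `M` and `M_i` are parallel (`NFr.null`; trivial if `M = 0`). -/
theorem k_zero [CharZero K] (I : Im0 K) (hW : trK I.D I.X ⬝ᵥ trK I.D I.X = 0)
    (i : Fin 2) (k l : Fin 4) :
    trK I.D I.X k * I.D.d i (trK I.D I.X l) = trK I.D I.X l * I.D.d i (trK I.D I.X k) := by
  obtain ⟨N, a, b, hf1, hf2, hδ, hv1, hv2, hm, hc⟩ := exists_nfr I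
  by_cases h0 : N.m = 0
  · rw [← hm, h0]
    simp
  · have hW' : N.m ⬝ᵥ N.m = 0 := by rw [hm]; exact hW
    obtain ⟨o1, o2, h1, h2⟩ := N.null hW' h0
    rw [hm] at h1 h2
    have e1 : ∀ k, a 0 * I.D.d 0 (trK I.D I.X k) + a 1 * I.D.d 1 (trK I.D I.X k)
        = o1 * trK I.D I.X k := by
      intro k
      rw [← hf1]
      exact congrFun h1 k
    have e2 : ∀ k, b 0 * I.D.d 0 (trK I.D I.X k) + b 1 * I.D.d 1 (trK I.D I.X k)
        = o2 * trK I.D I.X k := by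
      intro k
      rw [← hf2]
      exact congrFun h2 k
    have g0 : ∀ k, (a 0 * b 1 - a 1 * b 0) * I.D.d 0 (trK I.D I.X k)
        = (b 1 * o1 - a 1 * o2) * trK I.D I.X k := by
      intro k
      linear_combination b 1 * e1 k - a 1 * e2 k
    have g1 : ∀ k, (a 0 * b 1 - a 1 * b 0) * I.D.d 1 (trK I.D I.X k)
        = (a 0 * o2 - b 0 * o1) * trK I.D I.X k := by
      intro k
      linear_combination a 0 * e2 k - b 0 * e1 k
    apply mul_left_cancel₀ hδ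
    fin_cases i
    · show (a 0 * b 1 - a 1 * b 0) * (trK I.D I.X k * I.D.d 0 (trK I.D I.X l))
        = (a 0 * b 1 - a 1 * b 0) * (trK I.D I.X l * I.D.d 0 (trK I.D I.X k))
      linear_combination trK I.D I.X k * g0 l - trK I.D I.X l * g0 k
    · show (a 0 * b 1 - a 1 * b 0) * (trK I.D I.X k * I.D.d 1 (trK I.D I.X l))
        = (a 0 * b 1 - a 1 * b 0) * (trK I.D I.X l * I.D.d 1 (trK I.D I.X k))
      linear_combination trK I.D I.X k * g1 l - trK I.D I.X l * g1 k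

end Pool.H60.NC
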