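import Pool.Agent.H60.NC.Tr
import Pool.Agent.H60.NC.KDich

/-!
# The alternative for `E` and the identity `Id0`, for smooth functions

Apply `vanish` to `E (E - c^2 det g)`, `E (W - 2c)` and `M_k ∂_i M_l - M_l ∂_i M_k` and use `k_dich`,
`k_zero` for the `Im0` of `exists_im0`.  (`B.φ (pd i M · l)` times `B.eta s l` is
`B.D.d i (B.Φ s M l)`; `B.eta` is not `0`.)  For `W ≠ 0`: `B.φ (fun _ => W) ≠ 0` by `B.const_ne` and
its derivatives vanish by `B.const_der`; for `W = 0` it is `0` by `B.zero`.
-/

namespace Pool.H60.NC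

open scoped ContDiff
open Matrix
open Pool.Agent.H99.N2 (E2 E4 pd contDiffOn_pd contDiffOn_comp)
open Pool.H60.PE

variable {s : ℕ} {X : E2 → E4} {U : Set E2} {c W : ℝ}

private theorem t_dich_field {Om : Set E2} {K : Type} [Field K] [CharZero K] (B : CBr Om K)
    (hne : Om.Nonempty) (h : Hyp s X Om c W) (hW : W ≠ 0) :
    B.φ (Edet s X) * (B.φ (Edet s X)
      - B.φ (fun _ => c) ^ 2 * B.φ (fun x => (metric s X x).det)) = 0 ∧
      B.φ (Edet s X) * (B.φ (fun _ => W) - 2 * B.φ (fun _ => c)) = 0 := by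
  obtain ⟨I, hD, hX, hc⟩ := exists_im0 B hne h
  have hw := φ_W B h
  have hk := k_dich I (by rw [hD, hX, hw]; exact B.const_ne hne hW)
    (by intro i; rw [hD, hX, hw]; exact B.const_der W i)
  rw [hD, hX, hc, hw, ← φ_E B h, ← φ_det B h.hU h.hX] at hk
  exact hk

theorem t_dich (h : Hyp s X U c W) (hW : W ≠ 0) : ∀ x ∈ U,
    Edet s X x * (Edet s X x - c ^ 2 * (metric s X x).det) = 0 ∧
      Edet s X x * (W - 2 * c) = 0 := by
  have k1 : ∀ x ∈ U, Edet s X x * (Edet s X x - c ^ 2 * (metric s X x).det) = 0 := by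
    refine vanish h.hU (f := fun x => Edet s X x * (Edet s X x - c ^ 2 * (metric s X x).det))
      (h.E_smooth.mul (h.E_smooth.sub (contDiffOn_const.mul (contDiffOn_det h.hU h.hX)))) ?_
    intro Om hO hs hne _ K _ _ B
    have hm := h.mono hO hs
    have hE := hm.E_smooth
    have hd := contDiffOn_det hm.hU hm.hX
    have hc2 : B.φ (fun _ => c ^ 2) = B.φ (fun _ => c) ^ 2 := by
      have e : (fun _ : E2 => c ^ 2) = fun _ : E2 => c * c := by
        funext x
        ring
      rw [e, B.mul (fun _ => c) (fun _ => c) contDiffOn_const contDiffOn_const, sq]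
    rw [B.mul (Edet s X) (fun x => Edet s X x - c ^ 2 * (metric s X x).det) hE
        (hE.sub (contDiffOn_const.mul hd)),
      B.sub hE (contDiffOn_const.mul hd), B.mul (fun _ => c ^ 2) _ contDiffOn_const hd, hc2]
    exact (t_dich_field B hne hm hW).1
  have k2 : ∀ x ∈ U, Edet s X x * (W - 2 * c) = 0 := by
    refine vanish h.hU (f := fun x => Edet s X x * (W - 2 * c))
      (h.E_smooth.mul contDiffOn_const) ?_
    intro Om hO hs hne _ K _ _ B
    have hm := h.mono hO hs
    rw [B.mul (Edet s X) (fun _ => W - 2 * c) hm.E_smooth contDiffOn_const,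
      B.sub (f := fun _ => W) (g := fun _ => 2 * c) contDiffOn_const contDiffOn_const,
      B.mul (fun _ => 2) (fun _ => c) contDiffOn_const contDiffOn_const, B.two]
    exact (t_dich_field B hne hm hW).2
  exact fun x hx => ⟨k1 x hx, k2 x hx⟩

theorem t_zero (h : Hyp s X U c 0) : Id0 s X U := by
  intro x hx i k l
  have hM := h.trc_smooth
  have hMi := contDiffOn_pd h.hU hM i
  have key : ∀ x ∈ U, trc s X x k * pd i (trc s X) x l - trc s X x l * pd i (trc s X) x k = 0 := by
    refine vanish h.hU (f := fun x => trc s X x k * pd i (trc s X) x l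
      - trc s X x l * pd i (trc s X) x k)
      (((contDiffOn_comp hM k).mul (contDiffOn_comp hMi l)).sub
        ((contDiffOn_comp hM l).mul (contDiffOn_comp hMi k))) ?_
    intro Om hO hs hne _ K _ _ B
    have hm := h.mono hO hs
    have hM := hm.trc_smooth
    have hMi := contDiffOn_pd hm.hU hM i
    obtain ⟨I, hD, hX, hc⟩ := exists_im0 B hne hm
    have hw := φ_W B hm
    have hk := k_zero I (by rw [hD, hX, hw]; exact B.zero) i k l
    rw [hD, hX, ← Φ_trc B hm] at hk
    have hp := B.Φ_pd s hO hM i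
    have e : ∀ j : Fin 4, B.D.d i (B.Φ s (trc s X) j)
        = B.eta s j * B.φ (fun x => pd i (trc s X) x j) := fun j => (congrFun hp j).symm
    have e' : ∀ j : Fin 4, B.Φ s (trc s X) j = B.eta s j * B.φ (fun x => trc s X x j) :=
      fun j => rfl
    rw [e, e, e', e'] at hk
    rw [B.sub ((contDiffOn_comp hM k).mul (contDiffOn_comp hMi l))
        ((contDiffOn_comp hM l).mul (contDiffOn_comp hMi k)),
      B.mul _ _ (contDiffOn_comp hM k) (contDiffOn_comp hMi l),
      B.mul _ _ (contDiffOn_comp hM l) (contDiffOn_comp hMi k)]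
    have hk' : (B.eta s k * B.eta s l) * (B.φ (fun x => trc s X x k)
        * B.φ (fun x => pd i (trc s X) x l) - B.φ (fun x => trc s X x l)
        * B.φ (fun x => pd i (trc s X) x k)) = 0 := by
      linear_combination hk
    exact (mul_eq_zero.1 hk').resolve_left (mul_ne_zero (B.eta_ne s k) (B.eta_ne s l))
  linarith [key x hx]

end Pool.H60.NC
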