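import Pool.Agent.H60.PE.Main
import Pool.Agent.H60.NC.LapR
import Pool.Agent.H60.NC.TDich
import Pool.Agent.H60.NC.TA
import Pool.Agent.H60.NC.TB
import Pool.Agent.H60.NC.DA3
import Pool.Agent.H60.NC.DB2
import Pool.Agent.H60.NC.DC3
import Pool.Agent.H60.NC.ConA
import Pool.Agent.H60.NC.ConB2
import Pool.Agent.H60.NC.ConC

/-!
# The classification
-/

namespace Pool.H60.NC

open scoped ContDiff
open Pool.Agent.H99.N2 (E2 E4 pd contDiffOn_pd contDiffOn_comp pd_comp)
open Pool.H60.PE

/-- A continuous function on a connected set with `f (f - g) = 0`, `g ≠ 0` continuous, is `0`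
everywhere or nowhere. -/
private theorem fin_alt {U : Set E2} (hc : IsPreconnected U) {f g : E2 → ℝ}
    (hf : ContinuousOn f U) (hg : ContinuousOn g U) (hg0 : ∀ x ∈ U, g x ≠ 0)
    (h : ∀ x ∈ U, f x * (f x - g x) = 0) : (∀ x ∈ U, f x = 0) ∨ ∀ x ∈ U, f x ≠ 0 := by
  by_contra hcon
  push Not at hcon
  obtain ⟨⟨x, hx, hx0⟩, y, hy, hy0⟩ := hcon
  have hq : ContinuousOn (fun z => f z / g z) U := hf.div hg hg0
  have hT : Set.MapsTo (fun z => f z / g z) U ({0, 1} : Set ℝ) := by
    intro z hz
    rcases mul_eq_zero.1 (h z hz) with h1 | h1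
    · left
      simp [h1]
    · right
      have h2 : f z = g z := by linarith
      change f z / g z = 1
      rw [h2, div_self (hg0 z hz)]
  have hd : IsDiscrete ({0, 1} : Set ℝ) := (Set.toFinite _).isDiscrete
  have h3 := hc.constant_of_mapsTo hd hq hT hx hy
  have h4 : f x / g x = 0 := by
    change f x / g x = f y / g y at h3
    rw [h3, hy0, zero_div]
  rcases div_eq_zero_iff.1 h4 with h5 | h5
  · exact hx0 h5
  · exact hg0 x hx h5

theorem direct {s : ℕ} {U : Set E2} (hU : IsOpen U) (hc : IsPreconnected U) {X : E2 → E4}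
    (hX : IsSurface s X U)
    (h : FlatNormalBundle s X U ∨
      ∃ C : ℝ, ∀ x ∈ U, ip s (meanCurv s X x) (meanCurv s X x) = C)
    {x0 : E4} {X1 X2 : E2 → E4} {c : ℝ} (hc0 : c ≠ 0) (hd : IsDecomposition s X U x0 X1 X2 c)
    {x : E2} (hx : x ∈ U) (h1 : fderiv ℝ X1 x ≠ 0) (h2 : X2 x ≠ 0) :
    LocalForm X U x (IsHelixCylinder s c) ∨ LocalForm X U x (IsBScroll s c) ∨
      LocalForm X U x (IsNullGraph s c) := by
  obtain ⟨s1, s2, hsum, hl1, hl2⟩ := hd
  -- `H = -(c/2) X2`
  have hlap : ∀ y ∈ U, lap s X X y = c • X2 y := by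
    intro y hy
    rw [lap_congr_on hU X hsum hy, lap_add_at hU hX (contDiffOn_const.add s1) s2 hy,
      lap_add_at hU hX contDiffOn_const s1 hy, lap_const_at, hl1 y hy, hl2 y hy]
    simp
  have hmc : ∀ y ∈ U, meanCurv s X y = (-(c / 2)) • X2 y := by
    intro y hy
    have h3 := beltrami hU hX hy
    rw [hlap y hy] at h3
    have h4 : meanCurv s X y = (-(1 / 2 : ℝ)) • (-(2 : ℝ) • meanCurv s X y) := by
      rw [smul_smul]; norm_num
    rw [h4, ← h3, smul_smul]
    congr 1
    ring
  have hM : ∀ y ∈ U, lap s X (meanCurv s X) y = c • meanCurv s X y := by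
    intro y hy
    rw [lap_congr_on hU X hmc hy, lap_smul_at hU hX s2 _ hy, hl2 y hy, hmc y hy, smul_comm]
  -- `⟨H,H⟩` is constant
  obtain ⟨C, hC⟩ : ∃ C : ℝ, ∀ y ∈ U, ip s (meanCurv s X y) (meanCurv s X y) = C := by
    rcases h with h | h
    · exact main s hU hc hX h ⟨c, hc0, hM⟩
    · exact h
  have hyp : Hyp s X U c (4 * C) :=
    { hU := hU
      hX := hX
      hc := hc0
      hM := hM
      hW := by
        intro y hy
        unfold trc
        rw [ip_smul, ip_comm, ip_smul, hC y hy]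
        ring }
  have htrc : ∀ y ∈ U, trc s X y = (-c) • X2 y := by
    intro y hy
    unfold trc
    rw [hmc y hy, smul_smul]
    congr 1
    ring
  by_cases hW : 4 * C = 0
  · rw [hW] at hyp
    right; right
    refine dir_C hyp (t_zero hyp) hx ?_
    rw [htrc x hx]
    exact smul_ne_zero (neg_ne_zero.2 hc0) h2
  have hD := t_dich hyp hW
  rcases fin_alt hc hyp.E_smooth.continuousOn
    (continuousOn_const.mul (contDiffOn_det hU hX).continuousOn)
    (fun y hy => mul_ne_zero (pow_ne_zero 2 hc0) (hX.2 y hy)) (fun y hy => (hD y hy).1) with hE | hE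
  · left
    exact dir_A hyp hW (t_A hyp hW hE) hx
  · right; left
    have hWc : 4 * C = 2 * c := by
      have := (mul_eq_zero.1 (hD x hx).2).resolve_left (hE x hx)
      linarith
    refine dir_B hyp hWc (t_B hyp hW hE) hx ?_
    by_contra hcon
    push Not at hcon
    apply h1
    have hP : ∀ y ∈ U, Pv s X c y = x0 + X1 y := by
      intro y hy
      unfold Pv
      rw [htrc y hy, hsum y hy, smul_smul]
      have : c⁻¹ * -c = -1 := by field_simp
      rw [this]
      simp
    have h5 : ∀ i, fderiv ℝ X1 x (EuclideanSpace.single i 1) = 0 := by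
      intro i
      have h6 := hcon i
      rw [pd_congr_on hU hP hx,
        pd_add_at (differentiableAt_const _) (smooth_diffAt hU s1 hx), pd_const_at, zero_add] at h6
      exact h6
    apply ContinuousLinearMap.coe_injective
    refine (EuclideanSpace.basisFun (Fin 2) ℝ).toBasis.ext fun j => ?_
    simpa using h5 j

theorem converse {s : ℕ} {c : ℝ} (hc : c ≠ 0) {V : Set E2} (hV : IsOpen V) (hne : V.Nonempty)
    {F : E2 → E4} (h : IsHelixCylinder s c F V ∨ IsBScroll s c F V ∨ IsNullGraph s c F V) :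
    IsSurface s F V ∧ FlatNormalBundle s F V ∧ IsNullTwoType s F V := by
  rcases h with h | h | h
  · exact con_A hc hV hne h
  · exact ⟨(con_B1 hc hV h).1, (con_B1 hc hV h).2, con_B2 hc hV hne h⟩
  · exact con_C hc hV hne h

end Pool.H60.NC
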