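import Pool.Agent.H60.NC.Defs

/-!
# The identities between smooth functions which are transferred from the differential field

These definitions are used inside the proof only.
-/

namespace Pool.H60.NC

open scoped ContDiff
open Pool.Agent.H99.N2 (E2 E4 pd)
open Pool.H60.PE

/-- `M = 2 H`, the trace of the second fundamental form. -/
noncomputable def trc (s : ℕ) (X : E2 → E4) (x : E2) : E4 := (2 : ℝ) • meanCurv s X x

/-- tangential part -/
noncomputable def tanPart (s : ℕ) (X : E2 → E4) (x : E2) (v : E4) : E4 :=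
  v - normalPart s X x v

/-- the determinant of the matrix `⟨M_i, X_j⟩` -/
noncomputable def Edet (s : ℕ) (X : E2 → E4) (x : E2) : ℝ :=
  ip s (pd 0 (trc s X) x) (pd 0 X x) * ip s (pd 1 (trc s X) x) (pd 1 X x)
    - ip s (pd 0 (trc s X) x) (pd 1 X x) * ip s (pd 1 (trc s X) x) (pd 0 X x)

/-- `Z_j = X_j + (1/W) tan(M_j)` -/
noncomputable def Zv (s : ℕ) (X : E2 → E4) (W : ℝ) (j : Fin 2) (x : E2) : E4 :=
  pd j X x + W⁻¹ • tanPart s X x (pd j (trc s X) x)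

/-- `P = X + M/c` -/
noncomputable def Pv (s : ℕ) (X : E2 → E4) (c : ℝ) (x : E2) : E4 := X x + c⁻¹ • trc s X x

/-- `B^(a) = ∂_1 P_a X_0 - ∂_0 P_a X_1` -/
noncomputable def Bv (s : ℕ) (X : E2 → E4) (c : ℝ) (a : Fin 4) (x : E2) : E4 :=
  pd 1 (Pv s X c) x a • pd 0 X x - pd 0 (Pv s X c) x a • pd 1 X x

/-- the hypothesis on the surface: `Δ M = c M`, `⟨M,M⟩ = W` -/
structure Hyp (s : ℕ) (X : E2 → E4) (U : Set E2) (c W : ℝ) : Prop where
  hU : IsOpen U
  hX : IsSurface s X U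
  hc : c ≠ 0
  hM : ∀ x ∈ U, lap s X (meanCurv s X) x = c • meanCurv s X x
  hW : ∀ x ∈ U, ip s (trc s X x) (trc s X x) = W

/-- the direction of `M` is constant -/
def Id0 (s : ℕ) (X : E2 → E4) (U : Set E2) : Prop :=
  ∀ x ∈ U, ∀ (i : Fin 2) (k l : Fin 4),
    trc s X x k * pd i (trc s X) x l = trc s X x l * pd i (trc s X) x k

/-- the identities in the case of cylinders -/
structure IdA (s : ℕ) (X : E2 → E4) (U : Set E2) (W : ℝ) : Prop where
  dir : ∀ x ∈ U, ∀ (j i : Fin 2) (k l : Fin 4),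
    Zv s X W j x k * pd i (Zv s X W j) x l = Zv s X W j x l * pd i (Zv s X W j) x k
  par : ∀ x ∈ U, ∀ k l : Fin 4, Zv s X W 0 x k * Zv s X W 1 x l = Zv s X W 0 x l * Zv s X W 1 x k
  prj : ∀ x ∈ U, ∀ j l : Fin 2,
    ip s (Zv s X W j x) (Zv s X W l x) = ip s (pd j X x) (Zv s X W l x)
  tra : ∀ x ∈ U, ∑ j, ∑ l, (metric s X x)⁻¹ j l * ip s (pd j X x) (Zv s X W l x) = 1

/-- the identities in the case of B-scrolls -/
structure IdB (s : ℕ) (X : E2 → E4) (U : Set E2) (c : ℝ) : Prop where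
  rank : ∀ x ∈ U, ∀ a b : Fin 4,
    pd 0 (Pv s X c) x a * pd 1 (Pv s X c) x b = pd 1 (Pv s X c) x a * pd 0 (Pv s X c) x b
  null : ∀ x ∈ U, ∀ a : Fin 4, ip s (Bv s X c a x) (Bv s X c a x) = 0
  orth : ∀ x ∈ U, ∀ (a : Fin 4) (i : Fin 2), ip s (Bv s X c a x) (pd i (Pv s X c) x) = 0
  dir : ∀ x ∈ U, ∀ (a : Fin 4) (i : Fin 2) (k l : Fin 4),
    (pd i (Bv s X c a) x k - 2⁻¹ * ip s (Bv s X c a x) (pd i X x) * trc s X x k) * Bv s X c a x l
      = (pd i (Bv s X c a) x l - 2⁻¹ * ip s (Bv s X c a x) (pd i X x) * trc s X x l)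
        * Bv s X c a x k

end Pool.H60.NC
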