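import Pool.Agent.H60.PE.CGeo
import Pool.Agent.H60.NC.KNf

/-!
# Null frames in which `al` is a multiple of `be`: `<m,m>` is constant

`NFr.boost` multiplies the null directions by `η` and `η⁻¹`.

`flat1` (`al = be`): if `m.m = 0` there is nothing to prove.  Let `i ^ 2 = -1` (`root`; `f1 i = f2 i = 0` by
`der_i`), `e1 = (1/2) (f1 + f2)`, `e2 = (1/(2 i)) (f1 - f2)` (as derivations, with the coefficients `2⁻¹`,
`-(i / 2)`, `i / 2`), `u1 = (v1 + v2)/2`, `u2 = (v1 - v2)/(2 i)`, `a1 = (al + m)/2`, `a2 = (m - al)/2`,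
`p = i (w1 + w2)/2`, `q = (w2 - w1)/2`.  These are a `PF`:
`u1.u1 = (2 v1.v2)/4 = 1`, `u2.u2 = (-2 v1.v2)/(-4) = 1`, `u1.u2 = 0`,
`dv e1 u1 = (1/4)(w1 v1 + al + w2 v1 + m - w1 v2 + m - w2 v2 + be) = p u2 + a1` since
`(w1 + w2)(v1 - v2)/4 = p u2`, and so on.  The sign of `p`, `q` is to be checked with `comm`.
Then `a1 + a2 = m` and `exists_nf`, `NG.const` give the claim, as in `Pool.H60.PE.geo_main`;
`f1 = e1 + i e2`, `f2 = e1 - i e2`.

`flat` (`al = t be`): if `t = 0` use `BF.const` for the frame `N.swap` (see the proof of `NFr.circ`);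
if `t ≠ 0` choose `η` with `η ^ 4 = 1 / t` (`root` twice) and use `flat1` for `N.boost η`.
-/

namespace Pool.H60.NC

open Matrix
open Pool.H60.PE

variable {K : Type} [Field K]

private theorem kflat_inv (D : Derivation ℤ K K) (a : K) : D a⁻¹ = -(a⁻¹ ^ 2 * D a) := by
  rw [Derivation.leibniz_inv, smul_eq_mul, neg_mul]

/-- change of the scale of the two null directions -/
def NFr.boost (N : NFr K) (η : K) (h : η ≠ 0) : NFr K where
  f1 := η • N.f1
  f2 := η⁻¹ • N.f2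
  w1 := N.f1 η + η * N.w1
  w2 := η⁻¹ * N.w2 + η⁻¹ ^ 2 * N.f2 η
  c := N.c
  v1 := η • N.v1
  v2 := η⁻¹ • N.v2
  al := η ^ 2 • N.al
  be := η⁻¹ ^ 2 • N.be
  m := N.m
  comm := by
    intro g
    have hi : η * η⁻¹ = 1 := mul_inv_cancel₀ h
    have h0 := N.comm g
    show η * N.f1 (η⁻¹ * N.f2 g) - η⁻¹ * N.f2 (η * N.f1 g) =
      -(N.f1 η + η * N.w1) * (η⁻¹ * N.f2 g) -
        (η⁻¹ * N.w2 + η⁻¹ ^ 2 * N.f2 η) * (η * N.f1 g)
    rw [Derivation.leibniz, Derivation.leibniz, kflat_inv]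
    simp only [smul_eq_mul]
    linear_combination (η * η⁻¹) * h0 + (η⁻¹ * N.f1 g * N.f2 η - η⁻¹ * N.f1 η * N.f2 g) * hi
  hc := N.hc
  c1 := by
    rw [Derivation.smul_apply, N.c1, smul_zero]
  c2 := by
    rw [Derivation.smul_apply, N.c2, smul_zero]
  o11 := by
    rw [smul_dotProduct, dotProduct_smul, N.o11, smul_zero, smul_zero]
  o12 := by
    rw [smul_dotProduct, dotProduct_smul, N.o12, smul_smul, mul_inv_cancel₀ h, one_smul]
  o22 := by
    rw [smul_dotProduct, dotProduct_smul, N.o22, smul_zero, smul_zero]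
  a1 := by rw [smul_dotProduct, dotProduct_smul, N.a1, smul_zero, smul_zero]
  a2 := by rw [smul_dotProduct, dotProduct_smul, N.a2, smul_zero, smul_zero]
  b1 := by rw [smul_dotProduct, dotProduct_smul, N.b1, smul_zero, smul_zero]
  b2 := by rw [smul_dotProduct, dotProduct_smul, N.b2, smul_zero, smul_zero]
  n1 := by rw [smul_dotProduct, N.n1, smul_zero]
  n2 := by rw [smul_dotProduct, N.n2, smul_zero]
  s11 := by
    funext k
    have h0 : N.f1 (N.v1 k) = N.w1 * N.v1 k + N.al k := congrFun N.s11 k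
    show η * N.f1 (η * N.v1 k) = (N.f1 η + η * N.w1) * (η * N.v1 k) + η ^ 2 * N.al k
    rw [Derivation.leibniz]
    simp only [smul_eq_mul]
    linear_combination η ^ 2 * h0
  s12 := by
    funext k
    have hi : η * η⁻¹ = 1 := mul_inv_cancel₀ h
    have h0 : N.f1 (N.v2 k) = -N.w1 * N.v2 k + N.m k := congrFun N.s12 k
    show η * N.f1 (η⁻¹ * N.v2 k) = -(N.f1 η + η * N.w1) * (η⁻¹ * N.v2 k) + N.m k
    rw [Derivation.leibniz, kflat_inv]
    simp only [smul_eq_mul]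
    linear_combination (η * η⁻¹) * h0 + (N.m k - η⁻¹ * N.v2 k * N.f1 η) * hi
  s21 := by
    funext k
    have hi : η * η⁻¹ = 1 := mul_inv_cancel₀ h
    have h0 : N.f2 (N.v1 k) = N.w2 * N.v1 k + N.m k := congrFun N.s21 k
    show η⁻¹ * N.f2 (η * N.v1 k) =
      (η⁻¹ * N.w2 + η⁻¹ ^ 2 * N.f2 η) * (η * N.v1 k) + N.m k
    rw [Derivation.leibniz]
    simp only [smul_eq_mul]
    linear_combination (η * η⁻¹) * h0 + (N.m k - η⁻¹ * N.v1 k * N.f2 η) * hi
  s22 := by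
    funext k
    have h0 : N.f2 (N.v2 k) = -N.w2 * N.v2 k + N.be k := congrFun N.s22 k
    show η⁻¹ * N.f2 (η⁻¹ * N.v2 k) =
      -(η⁻¹ * N.w2 + η⁻¹ ^ 2 * N.f2 η) * (η⁻¹ * N.v2 k) + η⁻¹ ^ 2 * N.be k
    rw [Derivation.leibniz, kflat_inv]
    simp only [smul_eq_mul]
    linear_combination η⁻¹ ^ 2 * h0
  lap := by
    funext k
    have hi : η * η⁻¹ = 1 := mul_inv_cancel₀ h
    have h0 : N.f1 (N.f2 (N.m k)) + N.f2 (N.f1 (N.m k)) + N.w1 * N.f2 (N.m k) -
      N.w2 * N.f1 (N.m k) = -(2 * N.c) * N.m k := congrFun N.lap k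
    show η * N.f1 (η⁻¹ * N.f2 (N.m k)) + η⁻¹ * N.f2 (η * N.f1 (N.m k)) +
      (N.f1 η + η * N.w1) * (η⁻¹ * N.f2 (N.m k)) -
        (η⁻¹ * N.w2 + η⁻¹ ^ 2 * N.f2 η) * (η * N.f1 (N.m k)) = -(2 * N.c) * N.m k
    rw [Derivation.leibniz, Derivation.leibniz, kflat_inv]
    simp only [smul_eq_mul]
    linear_combination (η * η⁻¹) * h0 -
      (η⁻¹ * N.f2 (N.m k) * N.f1 η + η⁻¹ * N.f1 (N.m k) * N.f2 η + 2 * N.c * N.m k) * hi

/-- the principal frame of a null frame with `al = be` -/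
private def kflat_pf [CharZero K] (N : NFr K) (root : ∀ a : K, ∃ b, a = b ^ 2) (h : N.al = N.be)
    (i : K) (hi : i ^ 2 = -1) : PF K where
  e1 := (2⁻¹ : K) • (N.f1 + N.f2)
  e2 := (-(i * 2⁻¹)) • (N.f1 - N.f2)
  p := i * 2⁻¹ * (N.w1 + N.w2)
  q := 2⁻¹ * (N.w2 - N.w1)
  c := N.c
  u1 := (2⁻¹ : K) • (N.v1 + N.v2)
  u2 := (-(i * 2⁻¹)) • (N.v1 - N.v2)
  a1 := (2⁻¹ : K) • (N.al + N.m)
  a2 := (2⁻¹ : K) • (N.m - N.al)
  comm := by
    intro g
    have h2 : (2 : K) * 2⁻¹ = 1 := mul_inv_cancel₀ two_ne_zero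
    have d1 : ∀ (D : Derivation ℤ K K), D (2⁻¹ : K) = 0 := fun D => by
      rw [kflat_inv]
      have : D (2 : K) = 0 := by
        have e : (2 : K) = 1 + 1 := by norm_num
        rw [e, map_add, Derivation.map_one_eq_zero, add_zero]
      rw [this, mul_zero, neg_zero]
    have i1 := der_i N.f1 hi
    have i2 := der_i N.f2 hi
    have h0 := N.comm g
    show (2⁻¹ : K) * (N.f1 (-(i * 2⁻¹) * (N.f1 g - N.f2 g)) +
        N.f2 (-(i * 2⁻¹) * (N.f1 g - N.f2 g))) -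
      (-(i * 2⁻¹)) * (N.f1 (2⁻¹ * (N.f1 g + N.f2 g)) - N.f2 (2⁻¹ * (N.f1 g + N.f2 g))) =
      -(i * 2⁻¹ * (N.w1 + N.w2)) * (2⁻¹ * (N.f1 g + N.f2 g)) +
        2⁻¹ * (N.w2 - N.w1) * (-(i * 2⁻¹) * (N.f1 g - N.f2 g))
    simp only [Derivation.leibniz, map_neg, map_sub, map_add, smul_eq_mul, d1, i1, i2]
    linear_combination (2 * i * 2⁻¹ ^ 2) * h0
  root := root
  hc1 := by
    show (2⁻¹ : K) * (N.f1 N.c + N.f2 N.c) = 0
    rw [N.c1, N.c2, add_zero, mul_zero]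
  hc2 := by
    show (-(i * 2⁻¹)) * (N.f1 N.c - N.f2 N.c) = 0
    rw [N.c1, N.c2, sub_zero, mul_zero]
  hc := N.hc
  o11 := by
    have h2 : (2 : K) * 2⁻¹ = 1 := mul_inv_cancel₀ two_ne_zero
    have o21 : N.v2 ⬝ᵥ N.v1 = 2 := by rw [dotProduct_comm]; exact N.o12
    rw [smul_dotProduct, dotProduct_smul, add_dotProduct, dotProduct_add, dotProduct_add, N.o11,
      N.o12, N.o22, o21]
    simp only [smul_eq_mul]
    linear_combination (2 * 2⁻¹ + 1) * h2
  o12 := by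
    have o21 : N.v2 ⬝ᵥ N.v1 = 2 := by rw [dotProduct_comm]; exact N.o12
    rw [smul_dotProduct, dotProduct_smul, add_dotProduct, dotProduct_sub, dotProduct_sub, N.o11,
      N.o12, N.o22, o21]
    simp only [smul_eq_mul]
    ring
  o22 := by
    have h2 : (2 : K) * 2⁻¹ = 1 := mul_inv_cancel₀ two_ne_zero
    have o21 : N.v2 ⬝ᵥ N.v1 = 2 := by rw [dotProduct_comm]; exact N.o12
    rw [smul_dotProduct, dotProduct_smul, sub_dotProduct, dotProduct_sub, dotProduct_sub, N.o11,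
      N.o12, N.o22, o21]
    simp only [smul_eq_mul]
    linear_combination (2 * 2⁻¹ + 1) * h2 - 4 * 2⁻¹ ^ 2 * hi
  n11 := by
    rw [smul_dotProduct, dotProduct_smul, add_dotProduct, dotProduct_add, dotProduct_add, N.a1,
      N.a2, N.n1, N.n2]
    simp
  n12 := by
    rw [smul_dotProduct, dotProduct_smul, add_dotProduct, dotProduct_sub, dotProduct_sub, N.a1,
      N.a2, N.n1, N.n2]
    simp
  n21 := by
    rw [smul_dotProduct, dotProduct_smul, sub_dotProduct, dotProduct_add, dotProduct_add, N.a1,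
      N.a2, N.n1, N.n2]
    simp
  n22 := by
    rw [smul_dotProduct, dotProduct_smul, sub_dotProduct, dotProduct_sub, dotProduct_sub, N.a1,
      N.a2, N.n1, N.n2]
    simp
  s11 := by
    funext k
    have hal : N.al k = N.be k := congrFun h k
    have d1 : ∀ (D : Derivation ℤ K K), D (2⁻¹ : K) = 0 := fun D => by
      rw [kflat_inv]
      have : D (2 : K) = 0 := by
        have e : (2 : K) = 1 + 1 := by norm_num
        rw [e, map_add, Derivation.map_one_eq_zero, add_zero]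
      rw [this, mul_zero, neg_zero]
    have h2 : (2 : K) * 2⁻¹ = 1 := mul_inv_cancel₀ two_ne_zero
    have e1 : N.f1 (N.v1 k) = N.w1 * N.v1 k + N.al k := congrFun N.s11 k
    have e2 : N.f1 (N.v2 k) = -N.w1 * N.v2 k + N.m k := congrFun N.s12 k
    have e3 : N.f2 (N.v1 k) = N.w2 * N.v1 k + N.m k := congrFun N.s21 k
    have e4 : N.f2 (N.v2 k) = -N.w2 * N.v2 k + N.be k := congrFun N.s22 k
    show (2⁻¹ : K) * (N.f1 (2⁻¹ * (N.v1 k + N.v2 k)) + N.f2 (2⁻¹ * (N.v1 k + N.v2 k))) =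
      i * 2⁻¹ * (N.w1 + N.w2) * (-(i * 2⁻¹) * (N.v1 k - N.v2 k)) + 2⁻¹ * (N.al k + N.m k)
    simp only [Derivation.leibniz, map_add, smul_eq_mul, d1, e1, e2, e3, e4]
    linear_combination (2⁻¹ * (N.al k + N.m k)) * h2 - 2⁻¹ ^ 2 * hal +
      (2⁻¹ ^ 2 * (N.w1 + N.w2) * (N.v1 k - N.v2 k)) * hi
  s12 := by
    funext k
    have hal : N.al k = N.be k := congrFun h k
    have d1 : ∀ (D : Derivation ℤ K K), D (2⁻¹ : K) = 0 := fun D => by
      rw [kflat_inv]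
      have : D (2 : K) = 0 := by
        have e : (2 : K) = 1 + 1 := by norm_num
        rw [e, map_add, Derivation.map_one_eq_zero, add_zero]
      rw [this, mul_zero, neg_zero]
    have i1 := der_i N.f1 hi
    have i2 := der_i N.f2 hi
    have e1 : N.f1 (N.v1 k) = N.w1 * N.v1 k + N.al k := congrFun N.s11 k
    have e2 : N.f1 (N.v2 k) = -N.w1 * N.v2 k + N.m k := congrFun N.s12 k
    have e3 : N.f2 (N.v1 k) = N.w2 * N.v1 k + N.m k := congrFun N.s21 k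
    have e4 : N.f2 (N.v2 k) = -N.w2 * N.v2 k + N.be k := congrFun N.s22 k
    show (2⁻¹ : K) * (N.f1 (-(i * 2⁻¹) * (N.v1 k - N.v2 k)) +
      N.f2 (-(i * 2⁻¹) * (N.v1 k - N.v2 k))) =
      -(i * 2⁻¹ * (N.w1 + N.w2)) * (2⁻¹ * (N.v1 k + N.v2 k))
    simp only [Derivation.leibniz, map_neg, map_sub, smul_eq_mul, d1, i1, i2, e1, e2, e3, e4]
    linear_combination (-(i * 2⁻¹ ^ 2)) * hal
  s21 := by
    funext k
    have hal : N.al k = N.be k := congrFun h k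
    have d1 : ∀ (D : Derivation ℤ K K), D (2⁻¹ : K) = 0 := fun D => by
      rw [kflat_inv]
      have : D (2 : K) = 0 := by
        have e : (2 : K) = 1 + 1 := by norm_num
        rw [e, map_add, Derivation.map_one_eq_zero, add_zero]
      rw [this, mul_zero, neg_zero]
    have e1 : N.f1 (N.v1 k) = N.w1 * N.v1 k + N.al k := congrFun N.s11 k
    have e2 : N.f1 (N.v2 k) = -N.w1 * N.v2 k + N.m k := congrFun N.s12 k
    have e3 : N.f2 (N.v1 k) = N.w2 * N.v1 k + N.m k := congrFun N.s21 k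
    have e4 : N.f2 (N.v2 k) = -N.w2 * N.v2 k + N.be k := congrFun N.s22 k
    show (-(i * 2⁻¹)) * (N.f1 (2⁻¹ * (N.v1 k + N.v2 k)) - N.f2 (2⁻¹ * (N.v1 k + N.v2 k))) =
      -(2⁻¹ * (N.w2 - N.w1)) * (-(i * 2⁻¹) * (N.v1 k - N.v2 k))
    simp only [Derivation.leibniz, map_add, smul_eq_mul, d1, e1, e2, e3, e4]
    linear_combination (-(i * 2⁻¹ ^ 2)) * hal
  s22 := by
    funext k
    have hal : N.al k = N.be k := congrFun h k
    have d1 : ∀ (D : Derivation ℤ K K), D (2⁻¹ : K) = 0 := fun D => by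
      rw [kflat_inv]
      have : D (2 : K) = 0 := by
        have e : (2 : K) = 1 + 1 := by norm_num
        rw [e, map_add, Derivation.map_one_eq_zero, add_zero]
      rw [this, mul_zero, neg_zero]
    have h2 : (2 : K) * 2⁻¹ = 1 := mul_inv_cancel₀ two_ne_zero
    have i1 := der_i N.f1 hi
    have i2 := der_i N.f2 hi
    have e1 : N.f1 (N.v1 k) = N.w1 * N.v1 k + N.al k := congrFun N.s11 k
    have e2 : N.f1 (N.v2 k) = -N.w1 * N.v2 k + N.m k := congrFun N.s12 k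
    have e3 : N.f2 (N.v1 k) = N.w2 * N.v1 k + N.m k := congrFun N.s21 k
    have e4 : N.f2 (N.v2 k) = -N.w2 * N.v2 k + N.be k := congrFun N.s22 k
    show (-(i * 2⁻¹)) * (N.f1 (-(i * 2⁻¹) * (N.v1 k - N.v2 k)) -
      N.f2 (-(i * 2⁻¹) * (N.v1 k - N.v2 k))) =
      2⁻¹ * (N.w2 - N.w1) * (2⁻¹ * (N.v1 k + N.v2 k)) + 2⁻¹ * (N.m k - N.al k)
    simp only [Derivation.leibniz, map_neg, map_sub, smul_eq_mul, d1, i1, i2, e1, e2, e3, e4]
    linear_combination (2⁻¹ * (N.m k - N.al k)) * h2 + 2⁻¹ ^ 2 * hal +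
      (2⁻¹ ^ 2 * ((N.w1 - N.w2) * (N.v1 k + N.v2 k) + N.al k + N.be k - 2 * N.m k)) * hi
  lap := by
    funext k
    have h2 : (2 : K) * 2⁻¹ = 1 := mul_inv_cancel₀ two_ne_zero
    have d1 : ∀ (D : Derivation ℤ K K), D (2⁻¹ : K) = 0 := fun D => by
      rw [kflat_inv]
      have : D (2 : K) = 0 := by
        have e : (2 : K) = 1 + 1 := by norm_num
        rw [e, map_add, Derivation.map_one_eq_zero, add_zero]
      rw [this, mul_zero, neg_zero]
    have i1 := der_i N.f1 hi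
    have i2 := der_i N.f2 hi
    have em : (2⁻¹ : K) • (N.al + N.m) + (2⁻¹ : K) • (N.m - N.al) = N.m := by
      funext j
      show (2⁻¹ : K) * (N.al j + N.m j) + 2⁻¹ * (N.m j - N.al j) = N.m j
      linear_combination N.m j * h2
    have h0 : N.f1 (N.f2 (N.m k)) + N.f2 (N.f1 (N.m k)) + N.w1 * N.f2 (N.m k) -
      N.w2 * N.f1 (N.m k) = -(2 * N.c) * N.m k := congrFun N.lap k
    rw [em]
    show (2⁻¹ : K) * (N.f1 (2⁻¹ * (N.f1 (N.m k) + N.f2 (N.m k))) +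
        N.f2 (2⁻¹ * (N.f1 (N.m k) + N.f2 (N.m k)))) +
      (-(i * 2⁻¹)) * (N.f1 (-(i * 2⁻¹) * (N.f1 (N.m k) - N.f2 (N.m k))) -
        N.f2 (-(i * 2⁻¹) * (N.f1 (N.m k) - N.f2 (N.m k)))) -
      i * 2⁻¹ * (N.w1 + N.w2) * (-(i * 2⁻¹) * (N.f1 (N.m k) - N.f2 (N.m k))) -
      2⁻¹ * (N.w2 - N.w1) * (2⁻¹ * (N.f1 (N.m k) + N.f2 (N.m k))) = -N.c * N.m k
    simp only [Derivation.leibniz, map_neg, map_sub, map_add, smul_eq_mul, d1, i1, i2]
    linear_combination (2 * 2⁻¹ ^ 2) * h0 - (N.c * N.m k * (2 * 2⁻¹ + 1)) * h2 +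
      (2⁻¹ ^ 2 * (N.f1 (N.f1 (N.m k)) - N.f1 (N.f2 (N.m k)) - N.f2 (N.f1 (N.m k)) +
        N.f2 (N.f2 (N.m k)) + (N.w1 + N.w2) * (N.f1 (N.m k) - N.f2 (N.m k)))) * hi

theorem NFr.flat1 [CharZero K] (N : NFr K) (root : ∀ a : K, ∃ b, a = b ^ 2) (h : N.al = N.be) :
    N.f1 (N.m ⬝ᵥ N.m) = 0 ∧ N.f2 (N.m ⬝ᵥ N.m) = 0 := by
  obtain ⟨i, hi'⟩ := root (-1)
  have hi : i ^ 2 = -1 := hi'.symm
  have h2 : (2 : K) * 2⁻¹ = 1 := mul_inv_cancel₀ two_ne_zero
  by_cases hm : N.m ⬝ᵥ N.m = 0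
  · rw [hm]
    exact ⟨map_zero _, map_zero _⟩
  have em : (kflat_pf N root h i hi).a1 + (kflat_pf N root h i hi).a2 = N.m := by
    show (2⁻¹ : K) • (N.al + N.m) + (2⁻¹ : K) • (N.m - N.al) = N.m
    funext j
    show (2⁻¹ : K) * (N.al j + N.m j) + 2⁻¹ * (N.m j - N.al j) = N.m j
    linear_combination N.m j * h2
  obtain ⟨D, h1, h2', hw⟩ := exists_nf (kflat_pf N root h i hi) (by rw [em]; exact hm)
  obtain ⟨k1, k2⟩ := D.const
  rw [em] at hw
  rw [h1] at k1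
  rw [h2'] at k2
  have c1 : (2⁻¹ : K) * (N.f1 D.w + N.f2 D.w) = 0 := k1
  have c2 : (-(i * 2⁻¹)) * (N.f1 D.w - N.f2 D.w) = 0 := k2
  have g1 : N.f1 D.w = 0 := by
    linear_combination c1 + i * c2 - (N.f1 D.w) * h2 +
      (2⁻¹ * (N.f1 D.w - N.f2 D.w)) * hi
  have g2 : N.f2 D.w = 0 := by
    linear_combination c1 - i * c2 - (N.f2 D.w) * h2 -
      (2⁻¹ * (N.f1 D.w - N.f2 D.w)) * hi
  rw [← hw, pow_two]
  constructor
  · rw [Derivation.leibniz, g1]
    simp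
  · rw [Derivation.leibniz, g2]
    simp

theorem NFr.flat [CharZero K] (N : NFr K) (root : ∀ a : K, ∃ b, a = b ^ 2) (t : K)
    (h : N.al = t • N.be) : N.f1 (N.m ⬝ᵥ N.m) = 0 ∧ N.f2 (N.m ⬝ᵥ N.m) = 0 := by
  by_cases ht : t = 0
  · have hal : N.al = 0 := by rw [h, ht, zero_smul]
    have hc := BF.const { f1 := N.swap.f1, f2 := N.swap.f2, w1 := N.swap.w1, w2 := N.swap.w2,
                          c := N.swap.c, v1 := N.swap.v1, v2 := N.swap.v2, m := N.swap.m,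
                          nu := N.swap.al, comm := N.swap.comm, o11 := N.swap.o11,
                          o12 := N.swap.o12, o22 := N.swap.o22, n1 := N.swap.n1,
                          n2 := N.swap.n2, k1 := N.swap.a1, k2 := N.swap.a2,
                          s11 := N.swap.s11, s12 := N.swap.s12, s21 := N.swap.s21,
                          s22 := by
                            rw [N.swap.s22]
                            have : N.swap.be = 0 := hal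
                            rw [this, add_zero],
                          lap := N.swap.lap }
    exact ⟨hc.2, hc.1⟩
  · obtain ⟨a, ha⟩ := root t⁻¹
    obtain ⟨η, hη⟩ := root a
    have h4 : t * η ^ 4 = 1 := by
      have e : η ^ 4 = t⁻¹ := by rw [ha, hη]; ring
      rw [e, mul_inv_cancel₀ ht]
    have hη0 : η ≠ 0 := by
      rintro rfl
      simp at h4
    have hi : η * η⁻¹ = 1 := mul_inv_cancel₀ hη0
    have hb : (N.boost η hη0).al = (N.boost η hη0).be := by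
      show η ^ 2 • N.al = η⁻¹ ^ 2 • N.be
      rw [h, smul_smul]
      congr 1
      have e : η⁻¹ ^ 2 * (η * η⁻¹) ^ 2 = η⁻¹ ^ 2 := by rw [hi]; ring
      linear_combination (η⁻¹ ^ 2) * h4 - (t * η ^ 2 * (η * η⁻¹ + 1)) * hi
    obtain ⟨c1, c2⟩ := (N.boost η hη0).flat1 root hb
    have c1' : η * N.f1 (N.m ⬝ᵥ N.m) = 0 := c1
    have c2' : η⁻¹ * N.f2 (N.m ⬝ᵥ N.m) = 0 := c2
    exact ⟨(mul_eq_zero.1 c1').resolve_left hη0,
      (mul_eq_zero.1 c2').resolve_left (inv_ne_zero hη0)⟩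

end Pool.H60.NC
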