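import Pool.Agent.H60.PE.CNf
import Pool.Agent.H60.NC.KNf

/-!
# Null frames with `<m,m> = 0`, `m ≠ 0`

Notation as in `KTri`.  `D_i m` is orthogonal to `m` and normal; the normal plane
(orthogonal to `v1`, `v2`) is nondegenerate of dimension 2 and `m` is isotropic in it, so
`D_i m = o_i m`, that is `f1 m = -(m.al/2) v2 + o1 m`, `f2 m = -(m.be/2) v1 + o2 m`.
The products of (L1) with `v1` and `m` give `o2 (m.al) = 0`, `(m.al)(m.be) = 0`, the product of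
(L2) with `v2` gives `o1 (m.be) = 0`.
If `m.al ≠ 0` then `m.be = 0` and `o2 = 0`, so `f2 m = 0` and (L1) reads `0 = -c m`,
a contradiction; in the same way (L2) excludes `m.be ≠ 0`.  So `m.al = m.be = 0`.

(`D_i m = o_i m`: choose a normal `y` with `y.m = 1`; then each normal `x` with `x.m = 0` is
`(x.y) m`: the difference is orthogonal to `v1`, `v2`, `m`, `y`, and these four are a basis.)
-/

namespace Pool.H60.NC

open Matrix
open Pool.H60.PE

variable {K : Type} [Field K]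

/-- a vector orthogonal to `v1`, `v2`, `m`, `y` is zero -/
private theorem knull_basis [CharZero K] {v1 v2 m y d : Fin 4 → K} (o11 : v1 ⬝ᵥ v1 = 0)
    (o12 : v1 ⬝ᵥ v2 = 2) (o22 : v2 ⬝ᵥ v2 = 0) (n1 : v1 ⬝ᵥ m = 0) (n2 : v2 ⬝ᵥ m = 0)
    (hm : m ⬝ᵥ m = 0) (y1 : v1 ⬝ᵥ y = 0) (y2 : v2 ⬝ᵥ y = 0) (ym : m ⬝ᵥ y = 1)
    (d1 : v1 ⬝ᵥ d = 0) (d2 : v2 ⬝ᵥ d = 0) (dm : m ⬝ᵥ d = 0) (dy : y ⬝ᵥ d = 0) : d = 0 := by
  have h2 : (2 : K) ≠ 0 := by norm_num
  obtain ⟨t, ht⟩ : ∃ t, y ⬝ᵥ y = t := ⟨_, rfl⟩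
  have hG : (Matrix.of ![v1, v2, m, y]) * (Matrix.of ![v1, v2, m, y])ᵀ
      = Matrix.of ![![0, 2, 0, 0], ![2, 0, 0, 0], ![0, 0, 0, 1], ![0, 0, 1, t]] := by
    ext i j
    have e : ((Matrix.of ![v1, v2, m, y]) * (Matrix.of ![v1, v2, m, y])ᵀ) i j
        = (![v1, v2, m, y] i) ⬝ᵥ (![v1, v2, m, y] j) := by
      rw [Matrix.mul_apply]
      rfl
    rw [e]
    fin_cases i <;> fin_cases j <;>
      simp [o11, o12, o22, n1, n2, hm, y1, y2, ym, ht, dotProduct_comm v2 v1,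
        dotProduct_comm m v1, dotProduct_comm m v2, dotProduct_comm y v1, dotProduct_comm y v2,
        dotProduct_comm y m]
  have hH : (Matrix.of ![![0, 2, 0, 0], ![2, 0, 0, 0], ![0, 0, 0, 1], ![0, 0, 1, t]] :
      Matrix (Fin 4) (Fin 4) K) *
      Matrix.of ![![0, 2⁻¹, 0, 0], ![2⁻¹, 0, 0, 0], ![0, 0, -t, 1], ![0, 0, 1, 0]] = 1 := by
    ext i j
    fin_cases i <;> fin_cases j <;>
      simp [Matrix.mul_apply, Fin.sum_univ_four, h2]
  have h1 : (Matrix.of ![v1, v2, m, y]) * ((Matrix.of ![v1, v2, m, y])ᵀ *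
      Matrix.of ![![0, 2⁻¹, 0, 0], ![2⁻¹, 0, 0, 0], ![0, 0, -t, 1], ![0, 0, 1, 0]]) = 1 := by
    rw [← Matrix.mul_assoc, hG, hH]
  have h3 := mul_eq_one_comm.mp h1
  have h4 : (Matrix.of ![v1, v2, m, y]).mulVec d = 0 := by
    funext i
    fin_cases i
    · exact d1
    · exact d2
    · exact dm
    · exact dy
  have h5 : (((Matrix.of ![v1, v2, m, y])ᵀ *
      Matrix.of ![![0, 2⁻¹, 0, 0], ![2⁻¹, 0, 0, 0], ![0, 0, -t, 1], ![0, 0, 1, 0]]) *
      (Matrix.of ![v1, v2, m, y])).mulVec d = 0 := by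
    rw [← Matrix.mulVec_mulVec, h4, Matrix.mulVec_zero]
  rw [h3, Matrix.one_mulVec] at h5
  exact h5

/-- a normal vector orthogonal to the isotropic `m` is a multiple of `m` -/
private theorem knull_mult [CharZero K] {v1 v2 m x : Fin 4 → K} (o11 : v1 ⬝ᵥ v1 = 0)
    (o12 : v1 ⬝ᵥ v2 = 2) (o22 : v2 ⬝ᵥ v2 = 0) (n1 : v1 ⬝ᵥ m = 0) (n2 : v2 ⬝ᵥ m = 0)
    (hm : m ⬝ᵥ m = 0) (h0 : m ≠ 0) (x1 : v1 ⬝ᵥ x = 0) (x2 : v2 ⬝ᵥ x = 0) (xm : m ⬝ᵥ x = 0) :
    ∃ o : K, x = o • m := by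
  classical
  have h2 : (2 : K) ≠ 0 := by norm_num
  obtain ⟨k, hk⟩ : ∃ k, m k ≠ 0 := by
    by_contra hc
    apply h0
    funext k
    by_contra hk
    exact hc ⟨k, hk⟩
  obtain ⟨z, hz⟩ : ∃ z : Fin 4 → K, m ⬝ᵥ z = 1 := by
    refine ⟨Pi.single k (m k)⁻¹, ?_⟩
    rw [dotProduct_single, mul_inv_cancel₀ hk]
  obtain ⟨p, hp⟩ : ∃ p, v1 ⬝ᵥ z = p := ⟨_, rfl⟩
  obtain ⟨q, hq⟩ : ∃ q, v2 ⬝ᵥ z = q := ⟨_, rfl⟩
  have o21 : v2 ⬝ᵥ v1 = 2 := by rw [dotProduct_comm]; exact o12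
  have m1 : m ⬝ᵥ v1 = 0 := by rw [dotProduct_comm]; exact n1
  have m2 : m ⬝ᵥ v2 = 0 := by rw [dotProduct_comm]; exact n2
  obtain ⟨y, y1, y2, ym⟩ : ∃ y : Fin 4 → K, v1 ⬝ᵥ y = 0 ∧ v2 ⬝ᵥ y = 0 ∧ m ⬝ᵥ y = 1 := by
    refine ⟨z - (q / 2) • v1 - (p / 2) • v2, ?_, ?_, ?_⟩
    · rw [dotProduct_sub, dotProduct_sub, dotProduct_smul, dotProduct_smul, hp, o11, o12]
      simp only [smul_eq_mul]
      field_simp
      ring
    · rw [dotProduct_sub, dotProduct_sub, dotProduct_smul, dotProduct_smul, hq, o21, o22]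
      simp only [smul_eq_mul]
      field_simp
      ring
    · rw [dotProduct_sub, dotProduct_sub, dotProduct_smul, dotProduct_smul, hz, m1, m2]
      simp
  have ym' : y ⬝ᵥ m = 1 := by rw [dotProduct_comm]; exact ym
  refine ⟨y ⬝ᵥ x, ?_⟩
  have hd : x - (y ⬝ᵥ x) • m = 0 := by
    apply knull_basis o11 o12 o22 n1 n2 hm y1 y2 ym
    · rw [dotProduct_sub, dotProduct_smul, x1, n1]; simp
    · rw [dotProduct_sub, dotProduct_smul, x2, n2]; simp
    · rw [dotProduct_sub, dotProduct_smul, xm, hm]; simp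
    · rw [dotProduct_sub, dotProduct_smul, ym']; simp
  exact sub_eq_zero.mp hd

/-- Case `<m,m> = 0`. -/
theorem NFr.null [CharZero K] (N : NFr K) (hW : N.m ⬝ᵥ N.m = 0) (hm : N.m ≠ 0) :
    ∃ o1 o2 : K, dv N.f1 N.m = o1 • N.m ∧ dv N.f2 N.m = o2 • N.m := by
  have h2 : (2 : K) ≠ 0 := by norm_num
  have o21 : N.v2 ⬝ᵥ N.v1 = 2 := by rw [dotProduct_comm]; exact N.o12
  have m1 : N.m ⬝ᵥ N.v1 = 0 := by rw [dotProduct_comm]; exact N.n1
  have m2 : N.m ⬝ᵥ N.v2 = 0 := by rw [dotProduct_comm]; exact N.n2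
  obtain ⟨α, hα⟩ : ∃ α, N.al ⬝ᵥ N.m = α := ⟨_, rfl⟩
  obtain ⟨β, hβ⟩ : ∃ β, N.be ⬝ᵥ N.m = β := ⟨_, rfl⟩
  have hα' : N.m ⬝ᵥ N.al = α := by rw [dotProduct_comm]; exact hα
  have hβ' : N.m ⬝ᵥ N.be = β := by rw [dotProduct_comm]; exact hβ
  have hz : ∀ (D : Derivation ℤ K K) (v w' : Fin 4 → K), v ⬝ᵥ w' = 0 →
      dv D v ⬝ᵥ w' + v ⬝ᵥ dv D w' = 0 := by
    intro D v w' h1
    rw [← GNfAux.d_dot, h1, map_zero]
  -- products of the derivatives of `m`
  have e11 : N.v1 ⬝ᵥ dv N.f1 N.m = -α := by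
    have := hz N.f1 N.v1 N.m N.n1
    rw [N.s11, add_dotProduct, smul_dotProduct, N.n1, hα, smul_eq_mul] at this
    linear_combination this
  have e12 : N.v2 ⬝ᵥ dv N.f1 N.m = 0 := by
    have := hz N.f1 N.v2 N.m N.n2
    rw [N.s12, add_dotProduct, smul_dotProduct, N.n2, hW, smul_eq_mul] at this
    linear_combination this
  have e21 : N.v1 ⬝ᵥ dv N.f2 N.m = 0 := by
    have := hz N.f2 N.v1 N.m N.n1
    rw [N.s21, add_dotProduct, smul_dotProduct, N.n1, hW, smul_eq_mul] at this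
    linear_combination this
  have e22 : N.v2 ⬝ᵥ dv N.f2 N.m = -β := by
    have := hz N.f2 N.v2 N.m N.n2
    rw [N.s22, add_dotProduct, smul_dotProduct, N.n2, hβ, smul_eq_mul] at this
    linear_combination this
  have em : ∀ D : Derivation ℤ K K, N.m ⬝ᵥ dv D N.m = 0 := by
    intro D
    have := hz D N.m N.m hW
    rw [dotProduct_comm (dv D N.m) N.m] at this
    have h3 : 2 * (N.m ⬝ᵥ dv D N.m) = 0 := by linear_combination this
    exact (mul_eq_zero.mp h3).resolve_left h2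
  -- the derivatives of `m`
  obtain ⟨o1, h1⟩ : ∃ o : K, dv N.f1 N.m = -(α / 2) • N.v2 + o • N.m := by
    obtain ⟨o, ho⟩ := knull_mult (x := dv N.f1 N.m + (α / 2) • N.v2) N.o11 N.o12 N.o22 N.n1 N.n2
      hW hm (by rw [dotProduct_add, dotProduct_smul, e11, N.o12, smul_eq_mul]; field_simp; ring)
      (by rw [dotProduct_add, dotProduct_smul, e12, N.o22, smul_eq_mul]; ring)
      (by rw [dotProduct_add, dotProduct_smul, em, m2, smul_eq_mul]; ring)
    refine ⟨o, ?_⟩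
    rw [← ho]
    funext k
    simp
  obtain ⟨o2, h3⟩ : ∃ o : K, dv N.f2 N.m = -(β / 2) • N.v1 + o • N.m := by
    obtain ⟨o, ho⟩ := knull_mult (x := dv N.f2 N.m + (β / 2) • N.v1) N.o11 N.o12 N.o22 N.n1 N.n2
      hW hm (by rw [dotProduct_add, dotProduct_smul, e21, N.o11, smul_eq_mul]; ring)
      (by rw [dotProduct_add, dotProduct_smul, e22, o21, smul_eq_mul]; field_simp; ring)
      (by rw [dotProduct_add, dotProduct_smul, em, m1, smul_eq_mul]; ring)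
    refine ⟨o, ?_⟩
    rw [← ho]
    funext k
    simp
  -- the two halves of the equation
  have hcm : dv N.f1 (dv N.f2 N.m) - dv N.f2 (dv N.f1 N.m)
      = -N.w1 • dv N.f2 N.m - N.w2 • dv N.f1 N.m := by
    funext k
    have := N.comm (N.m k)
    simp only [dv, Pi.sub_apply, Pi.smul_apply, smul_eq_mul]
    exact this
  have L1 : dv N.f1 (dv N.f2 N.m) + N.w1 • dv N.f2 N.m = -N.c • N.m := by
    funext k
    have a1 := congrFun N.lap k
    have a2 := congrFun hcm k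
    simp only [Pi.add_apply, Pi.sub_apply, Pi.smul_apply, smul_eq_mul] at a1 a2 ⊢
    have : 2 * ((dv N.f1 (dv N.f2 N.m)) k + N.w1 * (dv N.f2 N.m) k - -N.c * N.m k) = 0 := by
      linear_combination a1 + a2
    have := (mul_eq_zero.mp this).resolve_left h2
    linear_combination this
  have L2 : dv N.f2 (dv N.f1 N.m) - N.w2 • dv N.f1 N.m = -N.c • N.m := by
    funext k
    have a1 := congrFun N.lap k
    have a2 := congrFun hcm k
    simp only [Pi.add_apply, Pi.sub_apply, Pi.smul_apply, smul_eq_mul] at a1 a2 ⊢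
    have : 2 * ((dv N.f2 (dv N.f1 N.m)) k - N.w2 * (dv N.f1 N.m) k - -N.c * N.m k) = 0 := by
      linear_combination a1 - a2
    have := (mul_eq_zero.mp this).resolve_left h2
    linear_combination this
  -- second derivatives
  have g1 : dv N.f1 (dv N.f2 N.m) = N.f1 (-(β / 2)) • N.v1 + -(β / 2) • (N.w1 • N.v1 + N.al)
      + (N.f1 o2 • N.m + o2 • (-(α / 2) • N.v2 + o1 • N.m)) := by
    conv_lhs => rw [h3]
    rw [GNfAux.dv_add, GNfAux.dv_smul, GNfAux.dv_smul, N.s11, h1]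
  have g2 : dv N.f2 (dv N.f1 N.m) = N.f2 (-(α / 2)) • N.v2 + -(α / 2) • (-N.w2 • N.v2 + N.be)
      + (N.f2 o1 • N.m + o1 • (-(β / 2) • N.v1 + o2 • N.m)) := by
    conv_lhs => rw [h1]
    rw [GNfAux.dv_add, GNfAux.dv_smul, GNfAux.dv_smul, N.s22, h3]
  have L1' := L1
  rw [g1, h3] at L1'
  have L2' := L2
  rw [g2, h1] at L2'
  have k1 : o2 * α = 0 := by
    have := congrArg (fun x => N.v1 ⬝ᵥ x) L1'
    simp only [dotProduct_add, dotProduct_smul, smul_eq_mul, N.o11, N.o12, N.a1,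
      N.n1] at this
    linear_combination -this
  have k2 : α * β = 0 := by
    have := congrArg (fun x => N.m ⬝ᵥ x) L1'
    simp only [dotProduct_add, dotProduct_smul, smul_eq_mul, m1, m2, hα', hW] at this
    linear_combination -(2 * this)
  have k3 : o1 * β = 0 := by
    have := congrArg (fun x => N.v2 ⬝ᵥ x) L2'
    simp only [dotProduct_add, dotProduct_sub, dotProduct_smul, smul_eq_mul, N.o22, o21,
      N.b2, N.n2] at this
    linear_combination -this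
  have hcm0 : -N.c • N.m ≠ 0 := by
    intro h
    exact hm ((smul_eq_zero.mp h).resolve_left (neg_ne_zero.mpr N.hc))
  have dz : ∀ D : Derivation ℤ K K, dv D (0 : Fin 4 → K) = 0 := by
    intro D
    funext k
    simp [dv]
  have hα0 : α = 0 := by
    by_contra hne
    have hb : β = 0 := (mul_eq_zero.mp k2).resolve_left hne
    have ho : o2 = 0 := (mul_eq_zero.mp k1).resolve_right hne
    have hx : dv N.f2 N.m = 0 := by
      rw [h3, hb, ho]
      simp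
    rw [hx, dz, smul_zero, add_zero] at L1
    exact hcm0 L1.symm
  have hβ0 : β = 0 := by
    by_contra hne
    have ho : o1 = 0 := (mul_eq_zero.mp k3).resolve_right hne
    have hx : dv N.f1 N.m = 0 := by
      rw [h1, hα0, ho]
      simp
    rw [hx, dz, smul_zero, sub_zero] at L2
    exact hcm0 L2.symm
  refine ⟨o1, o2, ?_, ?_⟩
  · rw [h1, hα0]
    simp
  · rw [h3, hβ0]
    simp

end Pool.H60.NC
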