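import Pool.Agent.H60.PE.CNf
import Pool.Agent.H60.NC.KNf

/-!
# The three types of null frames with `<m,m>` constant and not `0`

For a normal vector `x` (orthogonal to `v1`, `v2`) write `D_i x` for the normal part of `f_i x`:
`f1 x = -(x.m/2) v1 - (x.al/2) v2 + D1 x`, `f2 x = -(x.be/2) v1 - (x.m/2) v2 + D2 x`
(differentiate `x.v1 = x.v2 = 0`).  Commutator on `v1`, `v2`:
`D2 al = D1 m + 2 w2 al`, `D1 be = D2 m - 2 w1 be` (Codazzi),
`f1 w2 - f2 w1 + 2 w1 w2 = (m.m - al.be)/2` (Gauss, `v1`-part of the first).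
With the commutator `N.lap` becomes
`(L1) f1 f2 m + w1 f2 m = -c m`, `(L2) f2 f1 m - w2 f1 m = -c m`.
`v2`-part of (L1): `f1(m.m) = -(D2 m).al`; `v1`-part of (L1) and Codazzi: `f2(m.m) = -(D1 m).be`.
Normal parts: `-(m.be/2) al - (m.m/2) m + D1 D2 m + w1 D2 m = -c m`,
`-(m.al/2) be - (m.m/2) m + D2 D1 m - w2 D1 m = -c m`.

Since `W = m.m` is constant: `m.D1 m = m.D2 m = 0`, `be.D1 m = 0`, `al.D2 m = 0`.
Take `n` with `n.n = 1`, orthogonal to `v1`, `v2`, `m` (a multiple of the cross product, `root`);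
`v1`, `v2`, `m`, `n` is a basis.  `D_i m = o_i n`, `al = a m + a' n`, `be = b m + b' n`,
`o1 b' = 0`, `o2 a' = 0`.
* `o1 = o2 = 0`: the normal parts of (L1), (L2) give `a b W = 2c - W`, `b a' = 0`, `a b' = 0`.
  If `a, b ≠ 0` then `a' = b' = 0`, Codazzi: `f2 a = 2 w2 a`, `f1 b = -2 w1 b`, `a b` is constant, so
  `f1 a = 2 w1 a`, `f2 b = -2 w2 b`; the commutator on `a` gives `f1 w2 - f2 w1 = -2 w1 w2`, and
  Gauss gives `W = al.be = a b W`, `a b = 1`: first type.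
  If `b = 0`: `W = 2c`, and `a = 0` (last type) or `b' = 0` (`be = 0`).
  If `a = 0`: `W = 2c`, and `b = 0` (last type) or `a' = 0` (`al = 0`).
* `o1 ≠ 0`: `b' = 0`; Codazzi for `be`: `b o1 = o2`, `f1 b = -2 w1 b`.  `b = 0`: `be = 0`, `o2 = 0`,
  (L1): `W = 2c`.  `b ≠ 0`: `o2 ≠ 0`, `a' = 0`, Codazzi for `al`: `a o2 = o1`, `f2 a = 2 w2 a`, so
  `a b = 1` and `f2 b = -2 w2 b`: first type.
* `o1 = 0`, `o2 ≠ 0`: `a' = 0`, Codazzi for `al`: `a o2 = 0`, so `al = 0`, and (L2): `W = 2c`.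
-/

namespace Pool.H60.NC

open Matrix
open Pool.H60.PE
open Pool.H60.PE.GNfAux

variable {K : Type} [Field K]

/-- completeness in a null frame -/
private theorem kTri_cpl [CharZero K] (root : ∀ a : K, ∃ b, a = b ^ 2)
    {v1 v2 m n : Fin 4 → K} (o11 : v1 ⬝ᵥ v1 = 0) (o12 : v1 ⬝ᵥ v2 = 2) (o22 : v2 ⬝ᵥ v2 = 0)
    (n1 : v1 ⬝ᵥ m = 0) (n2 : v2 ⬝ᵥ m = 0) (hW : m ⬝ᵥ m ≠ 0) (q1 : v1 ⬝ᵥ n = 0)
    (q2 : v2 ⬝ᵥ n = 0) (q3 : m ⬝ᵥ n = 0) (q4 : n ⬝ᵥ n = 1) (v : Fin 4 → K) :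
    v = (2⁻¹ * (v2 ⬝ᵥ v)) • v1 + (2⁻¹ * (v1 ⬝ᵥ v)) • v2 + ((m ⬝ᵥ m)⁻¹ * (m ⬝ᵥ v)) • m
      + (n ⬝ᵥ v) • n := by
  obtain ⟨i, hi⟩ := root (-1)
  obtain ⟨r, hr⟩ := root (m ⬝ᵥ m)
  have hr0 : r ≠ 0 := by
    rintro rfl
    apply hW
    rw [hr]
    ring
  have h2 : (2 : K) ≠ 0 := by norm_num
  have o21 : v2 ⬝ᵥ v1 = 2 := by rw [dotProduct_comm]; exact o12
  have n1' : m ⬝ᵥ v1 = 0 := by rw [dotProduct_comm]; exact n1
  have n2' : m ⬝ᵥ v2 = 0 := by rw [dotProduct_comm]; exact n2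
  have hc := complete (a := (2⁻¹ : K) • (v1 + v2)) (b := (2⁻¹ * i) • (v1 - v2))
    (c := r⁻¹ • m) (d := n)
    (by simp only [smul_dotProduct, dotProduct_smul, add_dotProduct, dotProduct_add, smul_eq_mul,
          o11, o12, o21, o22]
        field_simp
        ring)
    (by simp only [smul_dotProduct, dotProduct_smul, add_dotProduct, dotProduct_sub, smul_eq_mul,
          o11, o12, o21, o22]
        ring)
    (by simp only [smul_dotProduct, dotProduct_smul, add_dotProduct, smul_eq_mul, n1, n2]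
        ring)
    (by simp only [smul_dotProduct, add_dotProduct, smul_eq_mul, q1, q2]
        ring)
    (by simp only [smul_dotProduct, dotProduct_smul, sub_dotProduct, dotProduct_sub, smul_eq_mul,
          o11, o12, o21, o22]
        field_simp
        linear_combination 4 * hi)
    (by simp only [smul_dotProduct, dotProduct_smul, sub_dotProduct, smul_eq_mul, n1, n2]
        ring)
    (by simp only [smul_dotProduct, sub_dotProduct, smul_eq_mul, q1, q2]
        ring)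
    (by simp only [smul_dotProduct, dotProduct_smul, smul_eq_mul]
        rw [hr]
        field_simp)
    (by simp only [smul_dotProduct, smul_eq_mul, q3]
        ring)
    q4 v
  conv_lhs => rw [hc]
  have hri : (m ⬝ᵥ m)⁻¹ = r⁻¹ * r⁻¹ := by
    rw [hr]
    field_simp
  funext k
  simp only [smul_dotProduct, add_dotProduct, sub_dotProduct, smul_eq_mul, Pi.add_apply,
    Pi.smul_apply, Pi.sub_apply]
  rw [hri]
  have hi' : i * i = -1 := by rw [hi]; ring
  have e : (2⁻¹ * i * (v1 ⬝ᵥ v - v2 ⬝ᵥ v)) * (2⁻¹ * i * (v1 k - v2 k))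
      = -(2⁻¹ * 2⁻¹ * (v1 ⬝ᵥ v - v2 ⬝ᵥ v) * (v1 k - v2 k)) := by
    linear_combination (2⁻¹ * 2⁻¹ * (v1 ⬝ᵥ v - v2 ⬝ᵥ v) * (v1 k - v2 k)) * hi'
  rw [e]
  have h22 : (2⁻¹ : K) * 2 = 1 := inv_mul_cancel₀ h2
  linear_combination (2⁻¹ * ((v1 ⬝ᵥ v) * v2 k + (v2 ⬝ᵥ v) * v1 k)) * h22

/-- the scalar structure equations, `<m,m>` constant and not `0` -/
private theorem kTri_struct [CharZero K] (N : NFr K) (root : ∀ a : K, ∃ b, a = b ^ 2)
    (hW : N.m ⬝ᵥ N.m ≠ 0) (k1 : N.f1 (N.m ⬝ᵥ N.m) = 0) (k2 : N.f2 (N.m ⬝ᵥ N.m) = 0) :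
    ∃ (n : Fin 4 → K) (a a' b b' o1 o2 : K),
      N.al = a • N.m + a' • n ∧ N.be = b • N.m + b' • n ∧
      dv N.f1 N.m = -(2⁻¹ * (N.m ⬝ᵥ N.m)) • N.v1 + -(2⁻¹ * (a * (N.m ⬝ᵥ N.m))) • N.v2 + o1 • n ∧
      dv N.f2 N.m = -(2⁻¹ * (b * (N.m ⬝ᵥ N.m))) • N.v1 + -(2⁻¹ * (N.m ⬝ᵥ N.m)) • N.v2 + o2 • n ∧
      N.m ⬝ᵥ N.al = a * (N.m ⬝ᵥ N.m) ∧ N.m ⬝ᵥ N.be = b * (N.m ⬝ᵥ N.m) ∧
      b' * o1 = 0 ∧ a' * o2 = 0 ∧
      a * b * (N.m ⬝ᵥ N.m) + N.m ⬝ᵥ N.m + 2 * (o1 * o2) * (N.m ⬝ᵥ N.m)⁻¹ = 2 * N.c ∧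
      N.f1 b = -(2 * N.w1 * b) ∧ N.f2 a = 2 * N.w2 * a ∧
      N.f2 a' = 2 * N.w2 * a' + o1 - a * o2 ∧ N.f1 b' = -(2 * N.w1 * b') + o2 - b * o1 ∧
      2 * N.f1 o2 = -(2 * N.w1 * o2) + a' * b * (N.m ⬝ᵥ N.m) ∧
      2 * N.f2 o1 = 2 * N.w2 * o1 + a * b' * (N.m ⬝ᵥ N.m) ∧
      2 * (N.f1 N.w2 - N.f2 N.w1 + 2 * N.w1 * N.w2)
        = N.m ⬝ᵥ N.m - a * b * (N.m ⬝ᵥ N.m) - a' * b' := by
  obtain ⟨W, hWd⟩ : ∃ W, N.m ⬝ᵥ N.m = W := ⟨_, rfl⟩
  rw [hWd] at hW k1 k2
  rw [hWd]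
  have h2 : (2 : K) ≠ 0 := by norm_num
  -- the vector `n`
  obtain ⟨r, hr⟩ := root (-(4 * W))
  have hr0 : r ≠ 0 := by
    rintro rfl
    apply hW
    have : 4 * W = 0 := by linear_combination -hr
    exact (mul_eq_zero.mp this).resolve_left (by norm_num)
  obtain ⟨n, q1, q2, q3, q4⟩ : ∃ n : Fin 4 → K, N.v1 ⬝ᵥ n = 0 ∧ N.v2 ⬝ᵥ n = 0 ∧
      N.m ⬝ᵥ n = 0 ∧ n ⬝ᵥ n = 1 := by
    refine ⟨r⁻¹ • cross N.v1 N.v2 N.m, ?_, ?_, ?_, ?_⟩
    · rw [dotProduct_smul, cross_left, smul_zero]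
    · rw [dotProduct_smul, cross_mid, smul_zero]
    · rw [dotProduct_smul, cross_right, smul_zero]
    · rw [dotProduct_smul, smul_dotProduct, GNfAux.cross_self, N.o11, N.o12, N.o22, N.n1, N.n2, hWd,
        smul_eq_mul, smul_eq_mul]
      field_simp
      linear_combination hr
  have cpl := kTri_cpl root N.o11 N.o12 N.o22 N.n1 N.n2 (by rw [hWd]; exact hW) q1 q2 q3 q4
  rw [hWd] at cpl
  have o21 : N.v2 ⬝ᵥ N.v1 = 2 := by rw [dotProduct_comm]; exact N.o12
  have n1' : N.m ⬝ᵥ N.v1 = 0 := by rw [dotProduct_comm]; exact N.n1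
  have n2' : N.m ⬝ᵥ N.v2 = 0 := by rw [dotProduct_comm]; exact N.n2
  have q1' : n ⬝ᵥ N.v1 = 0 := by rw [dotProduct_comm]; exact q1
  have q2' : n ⬝ᵥ N.v2 = 0 := by rw [dotProduct_comm]; exact q2
  have q3' : n ⬝ᵥ N.m = 0 := by rw [dotProduct_comm]; exact q3
  -- components of al and be
  obtain ⟨a, ha⟩ : ∃ a, W⁻¹ * (N.m ⬝ᵥ N.al) = a := ⟨_, rfl⟩
  obtain ⟨a', ha'⟩ : ∃ a', n ⬝ᵥ N.al = a' := ⟨_, rfl⟩
  obtain ⟨b, hb⟩ : ∃ b, W⁻¹ * (N.m ⬝ᵥ N.be) = b := ⟨_, rfl⟩
  obtain ⟨b', hb'⟩ : ∃ b', n ⬝ᵥ N.be = b' := ⟨_, rfl⟩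
  have hal : N.al = a • N.m + a' • n := by
    have := cpl N.al
    rw [N.a1, N.a2, ha, ha', mul_zero, zero_smul, zero_smul, zero_add, zero_add] at this
    exact this
  have hbe : N.be = b • N.m + b' • n := by
    have := cpl N.be
    rw [N.b1, N.b2, hb, hb', mul_zero, zero_smul, zero_smul, zero_add, zero_add] at this
    exact this
  have hma : N.m ⬝ᵥ N.al = a * W := by
    rw [← ha]
    field_simp
  have hmb : N.m ⬝ᵥ N.be = b * W := by
    rw [← hb]
    field_simp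
  have h00 : ∀ D : Derivation ℤ K K, D (0 : K) = 0 := fun D => by simp
  have h10 : ∀ D : Derivation ℤ K K, D (1 : K) = 0 := fun D => by simp
  have hd : ∀ (D : Derivation ℤ K K) (v w' : Fin 4 → K) (t : K), v ⬝ᵥ w' = t → D t = 0 →
      dv D v ⬝ᵥ w' + v ⬝ᵥ dv D w' = 0 := by
    intro D v w' t h1 h2
    rw [← d_dot, h1, h2]
  obtain ⟨o1, ho1⟩ : ∃ o1, n ⬝ᵥ dv N.f1 N.m = o1 := ⟨_, rfl⟩
  obtain ⟨o2, ho2⟩ : ∃ o2, n ⬝ᵥ dv N.f2 N.m = o2 := ⟨_, rfl⟩
  have s11 := N.s11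
  have s12 := N.s12
  have s21 := N.s21
  have s22 := N.s22
  rw [hal] at s11
  rw [hbe] at s22
  -- derivatives of m
  have f1m : dv N.f1 N.m = -(2⁻¹ * W) • N.v1 + -(2⁻¹ * (a * W)) • N.v2 + o1 • n := by
    have c1 := hd N.f1 N.v1 N.m 0 N.n1 (h00 _)
    have c2 := hd N.f1 N.v2 N.m 0 N.n2 (h00 _)
    have c3 := hd N.f1 N.m N.m W hWd k1
    rw [s11] at c1
    rw [s12] at c2
    rw [dotProduct_comm (dv N.f1 N.m) N.m] at c3
    simp only [add_dotProduct, smul_dotProduct, smul_eq_mul, N.n1, N.n2, q3', hWd] at c1 c2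
    have e1 : N.v1 ⬝ᵥ dv N.f1 N.m = -(a * W) := by linear_combination c1
    have e2 : N.v2 ⬝ᵥ dv N.f1 N.m = -W := by linear_combination c2
    have e3 : N.m ⬝ᵥ dv N.f1 N.m = 0 := by
      have : 2 * (N.m ⬝ᵥ dv N.f1 N.m) = 0 := by linear_combination c3
      exact (mul_eq_zero.mp this).resolve_left h2
    have := cpl (dv N.f1 N.m)
    rw [e1, e2, e3, ho1] at this
    rw [this]
    simp
  have f2m : dv N.f2 N.m = -(2⁻¹ * (b * W)) • N.v1 + -(2⁻¹ * W) • N.v2 + o2 • n := by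
    have c1 := hd N.f2 N.v1 N.m 0 N.n1 (h00 _)
    have c2 := hd N.f2 N.v2 N.m 0 N.n2 (h00 _)
    have c3 := hd N.f2 N.m N.m W hWd k2
    rw [s21] at c1
    rw [s22] at c2
    rw [dotProduct_comm (dv N.f2 N.m) N.m] at c3
    simp only [add_dotProduct, smul_dotProduct, smul_eq_mul, N.n1, N.n2, q3', hWd] at c1 c2
    have e1 : N.v1 ⬝ᵥ dv N.f2 N.m = -W := by linear_combination c1
    have e2 : N.v2 ⬝ᵥ dv N.f2 N.m = -(b * W) := by linear_combination c2
    have e3 : N.m ⬝ᵥ dv N.f2 N.m = 0 := by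
      have : 2 * (N.m ⬝ᵥ dv N.f2 N.m) = 0 := by linear_combination c3
      exact (mul_eq_zero.mp this).resolve_left h2
    have := cpl (dv N.f2 N.m)
    rw [e1, e2, e3, ho2] at this
    rw [this]
    simp
  -- derivatives of n
  have f1n : dv N.f1 n = -(2⁻¹ * a') • N.v2 + -(W⁻¹ * o1) • N.m := by
    have c1 := hd N.f1 N.v1 n 0 q1 (h00 _)
    have c2 := hd N.f1 N.v2 n 0 q2 (h00 _)
    have c3 := hd N.f1 n n 1 q4 (h10 _)
    have c4 := hd N.f1 N.m n 0 q3 (h00 _)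
    rw [s11] at c1
    rw [s12] at c2
    rw [dotProduct_comm (dv N.f1 N.m) n, ho1] at c4
    rw [dotProduct_comm (dv N.f1 n) n] at c3
    simp only [add_dotProduct, smul_dotProduct, smul_eq_mul, q1, q2, q3, q4] at c1 c2
    have e1 : N.v1 ⬝ᵥ dv N.f1 n = -a' := by linear_combination c1
    have e2 : N.v2 ⬝ᵥ dv N.f1 n = 0 := by linear_combination c2
    have e3 : n ⬝ᵥ dv N.f1 n = 0 := by
      have : 2 * (n ⬝ᵥ dv N.f1 n) = 0 := by linear_combination c3
      exact (mul_eq_zero.mp this).resolve_left h2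
    have e4 : N.m ⬝ᵥ dv N.f1 n = -o1 := by linear_combination c4
    have := cpl (dv N.f1 n)
    rw [e1, e2, e3, e4] at this
    rw [this]
    simp
  have f2n : dv N.f2 n = -(2⁻¹ * b') • N.v1 + -(W⁻¹ * o2) • N.m := by
    have c1 := hd N.f2 N.v1 n 0 q1 (h00 _)
    have c2 := hd N.f2 N.v2 n 0 q2 (h00 _)
    have c3 := hd N.f2 n n 1 q4 (h10 _)
    have c4 := hd N.f2 N.m n 0 q3 (h00 _)
    rw [s21] at c1
    rw [s22] at c2
    rw [dotProduct_comm (dv N.f2 N.m) n, ho2] at c4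
    rw [dotProduct_comm (dv N.f2 n) n] at c3
    simp only [add_dotProduct, smul_dotProduct, smul_eq_mul, q1, q2, q3, q4] at c1 c2
    have e1 : N.v1 ⬝ᵥ dv N.f2 n = 0 := by linear_combination c1
    have e2 : N.v2 ⬝ᵥ dv N.f2 n = -b' := by linear_combination c2
    have e3 : n ⬝ᵥ dv N.f2 n = 0 := by
      have : 2 * (n ⬝ᵥ dv N.f2 n) = 0 := by linear_combination c3
      exact (mul_eq_zero.mp this).resolve_left h2
    have e4 : N.m ⬝ᵥ dv N.f2 n = -o2 := by linear_combination c4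
    have := cpl (dv N.f2 n)
    rw [e1, e2, e3, e4] at this
    rw [this]
    simp
  -- commutator
  have vc : ∀ v : Fin 4 → K, dv N.f1 (dv N.f2 v) - dv N.f2 (dv N.f1 v)
      = -N.w1 • dv N.f2 v - N.w2 • dv N.f1 v := by
    intro v
    funext k
    have := N.comm (v k)
    simpa [dv] using this
  have L1 : dv N.f1 (dv N.f2 N.m) + N.w1 • dv N.f2 N.m + N.c • N.m = 0 := by
    have h1 := N.lap
    have h2' := vc N.m
    funext k
    have h3 := congrFun h1 k
    have h4 := congrFun h2' k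
    simp only [Pi.add_apply, Pi.sub_apply, Pi.smul_apply, smul_eq_mul, Pi.zero_apply] at h3 h4 ⊢
    have : 2 * (dv N.f1 (dv N.f2 N.m) k + N.w1 * dv N.f2 N.m k + N.c * N.m k) = 0 := by
      linear_combination h3 + h4
    exact (mul_eq_zero.mp this).resolve_left h2
  have L2 : dv N.f2 (dv N.f1 N.m) - N.w2 • dv N.f1 N.m + N.c • N.m = 0 := by
    have h1 := N.lap
    have h2' := vc N.m
    funext k
    have h3 := congrFun h1 k
    have h4 := congrFun h2' k
    simp only [Pi.add_apply, Pi.sub_apply, Pi.smul_apply, smul_eq_mul, Pi.zero_apply] at h3 h4 ⊢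
    have : 2 * (dv N.f2 (dv N.f1 N.m) k - N.w2 * dv N.f1 N.m k + N.c * N.m k) = 0 := by
      linear_combination h3 - h4
    exact (mul_eq_zero.mp this).resolve_left h2
  have C1 := vc N.v1
  have C2 := vc N.v2
  have hi2 : ∀ D : Derivation ℤ K K, D (2⁻¹ : K) = 0 := by
    intro D
    have h3 : D ((2 : K) * 2⁻¹) = 0 := by rw [mul_inv_cancel₀ h2]; exact h10 D
    rw [Derivation.leibniz] at h3
    have h4 : D (2 : K) = 0 := by
      have : (2 : K) = 1 + 1 := by norm_num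
      rw [this, map_add, h10, add_zero]
    rw [h4, smul_zero, add_zero, smul_eq_mul] at h3
    exact (mul_eq_zero.mp h3).resolve_left h2
  rw [s21, s11] at C1
  rw [s22, s12] at C2
  rw [f2m] at L1
  rw [f1m] at L2
  simp only [dv_add, dv_smul, s11, s12, s21, s22, f1m, f2m, f1n, f2n] at C1 C2 L1 L2
  have C1v := congrArg (fun v => v ⬝ᵥ N.v2) C1
  have C1m := congrArg (fun v => v ⬝ᵥ N.m) C1
  have C1n := congrArg (fun v => v ⬝ᵥ n) C1
  have C2m := congrArg (fun v => v ⬝ᵥ N.m) C2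
  have C2n := congrArg (fun v => v ⬝ᵥ n) C2
  have L1v := congrArg (fun v => v ⬝ᵥ N.v2) L1
  have L1w := congrArg (fun v => v ⬝ᵥ N.v1) L1
  have L1m := congrArg (fun v => v ⬝ᵥ N.m) L1
  have L1n := congrArg (fun v => v ⬝ᵥ n) L1
  have L2w := congrArg (fun v => v ⬝ᵥ N.v1) L2
  have L2n := congrArg (fun v => v ⬝ᵥ n) L2
  simp only [add_dotProduct, sub_dotProduct, smul_dotProduct, smul_eq_mul, neg_dotProduct,
    zero_dotProduct, N.o11, N.o12, N.o22, o21, N.n1, N.n2, n1', n2', q1, q2, q3, q1', q2', q3', q4,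
    hWd, map_neg, map_add, Derivation.leibniz, hi2, k1, k2, mul_zero, mul_one, add_zero, zero_add,
    neg_zero, sub_zero, zero_sub]
    at C1v C1m C1n C2m C2n L1v L1w L1m L1n L2w L2n
  have h22 : (2⁻¹ : K) * 2 = 1 := inv_mul_cancel₀ h2
  have hWW : W⁻¹ * W = 1 := inv_mul_cancel₀ hW
  have e1 : N.f1 b = -(2 * N.w1 * b) := by
    have : W * (N.f1 b + 2 * N.w1 * b) = 0 := by
      linear_combination -L1v - (W * N.f1 b + 2 * (b * W * N.w1)) * h22
    linear_combination (mul_eq_zero.mp this).resolve_left hW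
  have e2 : N.f2 a = 2 * N.w2 * a := by
    have : W * (N.f2 a - 2 * N.w2 * a) = 0 := by
      linear_combination -L2w - (W * N.f2 a - 2 * (a * W * N.w2)) * h22
    linear_combination (mul_eq_zero.mp this).resolve_left hW
  refine ⟨n, a, a', b, b', o1, o2, hal, hbe, f1m, f2m, hma, hmb, ?_, ?_, ?_, e1, e2, ?_, ?_, ?_,
    ?_, ?_⟩
  · linear_combination W * e1 - C2m - b' * o1 * hWW
  · linear_combination -L1w - a' * o2 * h22
  · have : W * (a * b * W + W + 2 * (o1 * o2) * W⁻¹ - 2 * N.c) = 0 := by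
      linear_combination -2 * L1m - (a * b * W * W + W * W) * h22
    linear_combination (mul_eq_zero.mp this).resolve_left hW
  · linear_combination -C1n
  · linear_combination C2n
  · linear_combination 2 * L1n + a' * b * W * h22
  · linear_combination 2 * L2n + a * b' * W * h22
  · linear_combination C1v + (W - a * b * W - a' * b') * h22

/-- Case `<m,m> ≠ 0` constant: the three types. -/
theorem NFr.tri [CharZero K] (N : NFr K) (root : ∀ a : K, ∃ b, a = b ^ 2)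
    (hW : N.m ⬝ᵥ N.m ≠ 0) (k1 : N.f1 (N.m ⬝ᵥ N.m) = 0) (k2 : N.f2 (N.m ⬝ᵥ N.m) = 0) :
    (∃ a b : K, N.al = a • N.m ∧ N.be = b • N.m ∧ a * b = 1 ∧
      N.f1 b = -(2 * N.w1 * b) ∧ N.f2 b = -(2 * N.w2 * b)) ∨
    (N.m ⬝ᵥ N.m = 2 * N.c ∧
      ((N.be = 0 ∧ dv N.f2 N.m = -N.c • N.v2) ∨ (N.al = 0 ∧ dv N.f1 N.m = -N.c • N.v1) ∨
        (N.m ⬝ᵥ N.al = 0 ∧ N.m ⬝ᵥ N.be = 0 ∧ dv N.f1 N.m = -N.c • N.v1 ∧
          dv N.f2 N.m = -N.c • N.v2))) := by
  obtain ⟨n, a, a', b, b', o1, o2, hal, hbe, f1m, f2m, hma, hmb, g1, g2, g3, e1, e2, e3, e4, e5,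
    e6, g4⟩ := kTri_struct N root hW k1 k2
  obtain ⟨W, hWd⟩ : ∃ W, N.m ⬝ᵥ N.m = W := ⟨_, rfl⟩
  rw [hWd] at hW k1 k2 f1m f2m hma hmb g3 e5 e6 g4
  rw [hWd]
  have h2 : (2 : K) ≠ 0 := by norm_num
  have h22 : (2⁻¹ : K) * 2 = 1 := inv_mul_cancel₀ h2
  have h00 : ∀ D : Derivation ℤ K K, D (0 : K) = 0 := fun D => by simp
  have h10 : ∀ D : Derivation ℤ K K, D (1 : K) = 0 := fun D => by simp
  -- `f2 b` when `a b` is a nonzero constant
  have fb : a ≠ 0 → N.f2 (a * b) = 0 → N.f2 b = -(2 * N.w2 * b) := by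
    intro ha0 h
    rw [Derivation.leibniz, smul_eq_mul, smul_eq_mul, e2] at h
    have : a * (N.f2 b + 2 * N.w2 * b) = 0 := by linear_combination h
    linear_combination (mul_eq_zero.mp this).resolve_left ha0
  have fa : b ≠ 0 → N.f1 (a * b) = 0 → N.f1 a = 2 * N.w1 * a := by
    intro hb0 h
    rw [Derivation.leibniz, smul_eq_mul, smul_eq_mul, e1] at h
    have : b * (N.f1 a - 2 * N.w1 * a) = 0 := by linear_combination h
    linear_combination (mul_eq_zero.mp this).resolve_left hb0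
  have cW : 2⁻¹ * (2 * N.c) = N.c := by linear_combination N.c * h22
  by_cases ho1 : o1 = 0
  · by_cases ho2 : o2 = 0
    · subst ho1 ho2
      have z1 : N.f1 (0 : K) = 0 := h00 _
      have z2 : N.f2 (0 : K) = 0 := h00 _
      have ab' : a' * b = 0 := by
        have : W * (a' * b) = 0 := by linear_combination 2 * z1 - e5
        exact (mul_eq_zero.mp this).resolve_left hW
      have ba' : a * b' = 0 := by
        have : W * (a * b') = 0 := by linear_combination 2 * z2 - e6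
        exact (mul_eq_zero.mp this).resolve_left hW
      by_cases ha0 : a = 0
      · subst ha0
        have hW2 : W = 2 * N.c := by linear_combination g3
        right
        refine ⟨hW2, ?_⟩
        rcases mul_eq_zero.mp ab' with h | h
        · subst h
          refine Or.inr (Or.inl ⟨?_, ?_⟩)
          · rw [hal]; simp
          · rw [f1m, hW2, cW]; simp
        · subst h
          refine Or.inr (Or.inr ⟨?_, ?_, ?_, ?_⟩)
          · rw [hma]; ring
          · rw [hmb]; ring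
          · rw [f1m, hW2, cW]; simp
          · rw [f2m, hW2, cW]; simp
      · have hb' : b' = 0 := (mul_eq_zero.mp ba').resolve_left ha0
        subst hb'
        by_cases hb0 : b = 0
        · subst hb0
          have hW2 : W = 2 * N.c := by linear_combination g3
          right
          refine ⟨hW2, Or.inl ⟨?_, ?_⟩⟩
          · rw [hbe]; simp
          · rw [f2m, hW2, cW]; simp
        · have ha' : a' = 0 := (mul_eq_zero.mp ab').resolve_right hb0
          subst ha'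
          left
          have hd2 : ∀ (D : Derivation ℤ K K) (f : K), D (2 * f) = 2 * D f := by
            intro D f
            rw [two_mul, two_mul, map_add]
          have hk : ∀ D : Derivation ℤ K K, D W = 0 → D N.c = 0 → D (a * b) = 0 := by
            intro D hDW hDc
            have h3 : D (a * b * W + W) = D (2 * N.c) := by
              congr 1
              linear_combination g3
            rw [hd2, hDc, map_add, Derivation.leibniz, hDW, smul_eq_mul, smul_eq_mul] at h3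
            have : W * D (a * b) = 0 := by linear_combination h3
            exact (mul_eq_zero.mp this).resolve_left hW
          have fb' := fb ha0 (hk _ k2 N.c2)
          have fa' := fa hb0 (hk _ k1 N.c1)
          have cm := N.comm a
          rw [fa', e2] at cm
          have l1 : N.f1 (2 * N.w2 * a) = 2 * N.f1 N.w2 * a + 2 * N.w2 * N.f1 a := by
            rw [Derivation.leibniz, hd2, smul_eq_mul, smul_eq_mul]
            ring
          have l2 : N.f2 (2 * N.w1 * a) = 2 * N.f2 N.w1 * a + 2 * N.w1 * N.f2 a := by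
            rw [Derivation.leibniz, hd2, smul_eq_mul, smul_eq_mul]
            ring
          rw [l1, l2, fa', e2] at cm
          have gg : N.f1 N.w2 - N.f2 N.w1 + 2 * N.w1 * N.w2 = 0 := by
            have : 2 * a * (N.f1 N.w2 - N.f2 N.w1 + 2 * N.w1 * N.w2) = 0 := by
              linear_combination cm
            exact (mul_eq_zero.mp this).resolve_left (mul_ne_zero h2 ha0)
          have hab : a * b = 1 := by
            have : W * (a * b - 1) = 0 := by linear_combination g4 - 2 * gg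
            linear_combination (mul_eq_zero.mp this).resolve_left hW
          refine ⟨a, b, ?_, ?_, hab, e1, fb'⟩
          · rw [hal]; simp
          · rw [hbe]; simp
    · subst ho1
      have ha' : a' = 0 := (mul_eq_zero.mp g2).resolve_right ho2
      subst ha'
      have ha0 : a = 0 := by
        have z2 : N.f2 (0 : K) = 0 := h00 _
        have : a * o2 = 0 := by linear_combination e3 - z2
        exact (mul_eq_zero.mp this).resolve_right ho2
      subst ha0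
      have hW2 : W = 2 * N.c := by linear_combination g3
      right
      refine ⟨hW2, Or.inr (Or.inl ⟨?_, ?_⟩)⟩
      · rw [hal]; simp
      · rw [f1m, hW2, cW]; simp
  · have hb' : b' = 0 := (mul_eq_zero.mp g1).resolve_right ho1
    subst hb'
    have ho2 : o2 = b * o1 := by
      have z1 : N.f1 (0 : K) = 0 := h00 _
      linear_combination z1 - e4
    by_cases hb0 : b = 0
    · subst hb0
      have ho2' : o2 = 0 := by rw [ho2, zero_mul]
      subst ho2'
      have hW2 : W = 2 * N.c := by linear_combination g3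
      right
      refine ⟨hW2, Or.inl ⟨?_, ?_⟩⟩
      · rw [hbe]; simp
      · rw [f2m, hW2, cW]; simp
    · have ho20 : o2 ≠ 0 := by rw [ho2]; exact mul_ne_zero hb0 ho1
      have ha' : a' = 0 := (mul_eq_zero.mp g2).resolve_right ho20
      subst ha'
      have z2 : N.f2 (0 : K) = 0 := h00 _
      have hao : a * o2 = o1 := by linear_combination e3 - z2
      have hab : a * b = 1 := by
        have : o1 * (a * b - 1) = 0 := by
          rw [ho2] at hao
          linear_combination hao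
        linear_combination (mul_eq_zero.mp this).resolve_left ho1
      have ha0 : a ≠ 0 := by
        rintro rfl
        rw [zero_mul] at hab
        exact zero_ne_one hab
      left
      refine ⟨a, b, ?_, ?_, hab, e1, fb ha0 (by rw [hab]; exact h10 _)⟩
      · rw [hal]; simp
      · rw [hbe]; simp

end Pool.H60.NC
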