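import Pool.Agent.H60.NC.KEx
import Pool.Agent.H60.NC.KTri
import Pool.Agent.H60.NC.KNull

/-!
# Definitions for the identities over the differential field
-/

namespace Pool.H60.NC

open Matrix
open Pool.H60.PE

variable {K : Type} [Field K]

/-- tangential part -/
def tanK (D : DC K) (X : Fin 4 → K) (v : Fin 4 → K) : Fin 4 → K := v - norK D X v

/-- determinant of `<M_i, X_j>` -/
def EK (D : DC K) (X : Fin 4 → K) : K :=
  (dv (D.d 0) (trK D X) ⬝ᵥ dv (D.d 0) X) * (dv (D.d 1) (trK D X) ⬝ᵥ dv (D.d 1) X)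
    - (dv (D.d 0) (trK D X) ⬝ᵥ dv (D.d 1) X) * (dv (D.d 1) (trK D X) ⬝ᵥ dv (D.d 0) X)

/-- `Z_j = X_j + (1/W) tan(M_j)` -/
def ZK (D : DC K) (X : Fin 4 → K) (j : Fin 2) : Fin 4 → K :=
  dv (D.d j) X + (trK D X ⬝ᵥ trK D X)⁻¹ • tanK D X (dv (D.d j) (trK D X))

/-- `P = X + M/c` -/
def PK (D : DC K) (X : Fin 4 → K) (c : K) : Fin 4 → K := X + c⁻¹ • trK D X

/-- `B^(a)` -/
def BK (D : DC K) (X : Fin 4 → K) (c : K) (a : Fin 4) : Fin 4 → K :=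
  D.d 1 (PK D X c a) • dv (D.d 0) X - D.d 0 (PK D X c a) • dv (D.d 1) X

end Pool.H60.NC
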