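import Pool.Agent.H60.PE.CNf
import Pool.Agent.H60.NC.KFlat

/-!
# Null frames with a direction in which `dm` is a multiple of `dX`: `<m,m>` is constant

Write `W = m.m`, `Uu = m.al`, `V = m.be`.  `f1 m = -(W/2) v1 - (Uu/2) v2 + D1`,
`f2 m = -(V/2) v1 - (W/2) v2 + D2` with `D1`, `D2` orthogonal to `v1`, `v2` (differentiate `m.v1 = m.v2 = 0`;
see the beginning of `Pool.H60.NC.KCirc`).  The product of (L1) `f1 f2 m + w1 f2 m = -c m` with `v1` and of
(L2) `f2 f1 m - w2 f1 m = -c m` with `v2` give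
(T1) `f1 W = 2 m.D1 = -D2.al`,  (T2) `f2 W = 2 m.D2 = -D1.be`.
(They are proved in `KCirc`: `f1 W = -(f2 m).al`, `f2 W = -(f1 m).be`.)

The hypothesis `h` gives (products with `v2`, `v1`, and the rest)
`s1 W + s2 V = -2 μ s1`, `s1 Uu + s2 W = -2 μ s2`, `s1 D1 + s2 D2 = 0`, hence `s2^2 V = s1^2 Uu`.
* `s2 = 0`: `D1 = 0`, so `f1 W = 2 m.D1 = 0` and `f2 W = -D1.be = 0`.  `s1 = 0`: the same with `D2`.
* `s1, s2 ≠ 0`, `t = -s2/s1`: `D1 = t D2`, `Uu = t^2 V`.  Let `δ = al - t^2 be`.  `m.δ = 0`, and by (T1), (T2)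
  `D2.δ = -2 t m.D2 + 2 t m.D2 = 0`.
  - `D2 = 0`: constant by (T1), (T2).
  - `δ = 0`: `NFr.flat`.
  - `m.m = 0`: nothing to prove.
  - Otherwise `m.m ≠ 0` and `D2 ≠ 0`, `δ ≠ 0`.  The vectors orthogonal to `v1`, `v2` are a plane with a
    nondegenerate product, `m`, `D2` are orthogonal to `δ`, and `m.m ≠ 0`, so `δ.δ ≠ 0` and
    `D2 = d m` with `d = D2.m / m.m ≠ 0`, and `x = (x.m / m.m) m + (x.δ / δ.δ) δ` for each normal `x`.
    (T1), (T2): `2 t d W = -d Uu`, so `Uu = -2 t W`, `V = -(2/t) W`.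
    Product of (L1) with `δ`: `f2 m = -(V/2) v1 - (W/2) v2 + d m` gives
    `(f1 f2 m).δ = -(V/2) al.δ - (W/2) m.δ + f1(d) m.δ + d (f1 m).δ = -(V/2) al.δ`, since `(f1 m).δ = D1.δ = 0`;
    `(f2 m).δ = 0`, `m.δ = 0`.  So `V al.δ = 0`, and in the same way (L2) gives `Uu be.δ = 0`.  As `V`, `Uu ≠ 0`,
    `δ.δ = al.δ - t^2 be.δ = 0`, a contradiction.
-/

namespace Pool.H60.NC

open Matrix
open Pool.H60.PE

variable {K : Type} [Field K]

/-- four vectors `v1`, `v2`, `m`, `δ` with `m`, `δ` normal, `m.m ≠ 0`, `m.δ = 0`, `δ ≠ 0` are a basis -/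
private theorem KRod_basis [CharZero K] {v1 v2 m e z : Fin 4 → K} (o11 : v1 ⬝ᵥ v1 = 0)
    (o12 : v1 ⬝ᵥ v2 = 2) (o22 : v2 ⬝ᵥ v2 = 0) (n1 : v1 ⬝ᵥ m = 0) (n2 : v2 ⬝ᵥ m = 0)
    (hm : m ⬝ᵥ m ≠ 0) (e1 : v1 ⬝ᵥ e = 0) (e2 : v2 ⬝ᵥ e = 0) (em : m ⬝ᵥ e = 0) (he : e ≠ 0)
    (z1 : v1 ⬝ᵥ z = 0) (z2 : v2 ⬝ᵥ z = 0) (zm : m ⬝ᵥ z = 0) (ze : e ⬝ᵥ z = 0) : z = 0 := by
  have h2 : (2 : K) ≠ 0 := two_ne_zero
  have hdet : (Matrix.of ![v1, v2, m, e]).det ≠ 0 := by
    intro h0
    obtain ⟨a, ha, hv⟩ := Matrix.exists_vecMul_eq_zero_iff.mpr h0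
    have hr : a 0 • v1 + a 1 • v2 + a 2 • m + a 3 • e = 0 := by
      funext k
      have := congrFun hv k
      simp only [Matrix.vecMul, dotProduct, Fin.sum_univ_four, Matrix.of_apply,
        Matrix.cons_val_zero, Matrix.cons_val_one, Pi.zero_apply] at this
      simpa using this
    have r1 := congrArg (fun x => v1 ⬝ᵥ x) hr
    have r2 := congrArg (fun x => v2 ⬝ᵥ x) hr
    have r3 := congrArg (fun x => m ⬝ᵥ x) hr
    have o21 : v2 ⬝ᵥ v1 = 2 := by rw [dotProduct_comm]; exact o12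
    have m1 : m ⬝ᵥ v1 = 0 := by rw [dotProduct_comm]; exact n1
    have m2 : m ⬝ᵥ v2 = 0 := by rw [dotProduct_comm]; exact n2
    simp only [dotProduct_add, dotProduct_smul, smul_eq_mul, dotProduct_zero, o11, o12, n1, e1]
      at r1
    simp only [dotProduct_add, dotProduct_smul, smul_eq_mul, dotProduct_zero, o22, o21, n2, e2]
      at r2
    simp only [dotProduct_add, dotProduct_smul, smul_eq_mul, dotProduct_zero, m1, m2, em] at r3
    have a1 : a 1 = 0 := by
      have : a 1 * 2 = 0 := by linear_combination r1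
      exact (mul_eq_zero.mp this).resolve_right h2
    have a0 : a 0 = 0 := by
      have : a 0 * 2 = 0 := by linear_combination r2
      exact (mul_eq_zero.mp this).resolve_right h2
    have a2 : a 2 = 0 := by
      have : a 2 * (m ⬝ᵥ m) = 0 := by linear_combination r3
      exact (mul_eq_zero.mp this).resolve_right hm
    rw [a0, a1, a2, zero_smul, zero_smul, zero_smul, zero_add, zero_add, zero_add] at hr
    have a3 : a 3 = 0 := (smul_eq_zero.mp hr).resolve_right he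
    apply ha
    funext k
    fin_cases k
    · exact a0
    · exact a1
    · exact a2
    · exact a3
  apply Matrix.eq_zero_of_mulVec_eq_zero hdet
  funext k
  fin_cases k
  · exact z1
  · exact z2
  · exact zm
  · exact ze

theorem NFr.rod [CharZero K] (N : NFr K) (root : ∀ a : K, ∃ b, a = b ^ 2) (s1 s2 μ : K)
    (hs : s1 ≠ 0 ∨ s2 ≠ 0)
    (h : s1 • dv N.f1 N.m + s2 • dv N.f2 N.m = μ • (s1 • N.v1 + s2 • N.v2)) :
    N.f1 (N.m ⬝ᵥ N.m) = 0 ∧ N.f2 (N.m ⬝ᵥ N.m) = 0 := by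
  have h2 : (2 : K) ≠ 0 := two_ne_zero
  obtain ⟨u, hu⟩ : ∃ u, N.m ⬝ᵥ N.m = 2 * u := ⟨(N.m ⬝ᵥ N.m) / 2, by field_simp⟩
  obtain ⟨q, hq⟩ : ∃ q, N.al ⬝ᵥ N.m = 2 * q := ⟨(N.al ⬝ᵥ N.m) / 2, by field_simp⟩
  obtain ⟨p, hp⟩ : ∃ p, N.be ⬝ᵥ N.m = 2 * p := ⟨(N.be ⬝ᵥ N.m) / 2, by field_simp⟩
  have hq' : N.m ⬝ᵥ N.al = 2 * q := by rw [dotProduct_comm]; exact hq
  have hp' : N.m ⬝ᵥ N.be = 2 * p := by rw [dotProduct_comm]; exact hp
  have o21 : N.v2 ⬝ᵥ N.v1 = 2 := by rw [dotProduct_comm]; exact N.o12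
  have m1 : N.m ⬝ᵥ N.v1 = 0 := by rw [dotProduct_comm]; exact N.n1
  have m2 : N.m ⬝ᵥ N.v2 = 0 := by rw [dotProduct_comm]; exact N.n2
  have al1 : N.al ⬝ᵥ N.v1 = 0 := by rw [dotProduct_comm]; exact N.a1
  have al2 : N.al ⬝ᵥ N.v2 = 0 := by rw [dotProduct_comm]; exact N.a2
  have be1 : N.be ⬝ᵥ N.v1 = 0 := by rw [dotProduct_comm]; exact N.b1
  have be2 : N.be ⬝ᵥ N.v2 = 0 := by rw [dotProduct_comm]; exact N.b2
  have hd2 : ∀ (D : Derivation ℤ K K) (x : K), D (2 * x) = 2 * D x := by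
    intro D x
    rw [two_mul, two_mul, map_add]
  have hz : ∀ (D : Derivation ℤ K K) (v w' : Fin 4 → K) (t : K), v ⬝ᵥ w' = t →
      dv D v ⬝ᵥ w' + v ⬝ᵥ dv D w' = D t := by
    intro D v w' t h1
    rw [← GNfAux.d_dot, h1]
  have vc : ∀ v : Fin 4 → K, dv N.f1 (dv N.f2 v) - dv N.f2 (dv N.f1 v)
      = -N.w1 • dv N.f2 v - N.w2 • dv N.f1 v := by
    intro v
    funext k
    exact N.comm (v k)
  have b11 : N.v1 ⬝ᵥ dv N.f1 N.m = -(2 * q) := by
    have := hz N.f1 N.v1 N.m 0 N.n1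
    rw [N.s11, add_dotProduct, smul_dotProduct, N.n1, hq, smul_eq_mul, map_zero] at this
    linear_combination this
  have b12 : N.v2 ⬝ᵥ dv N.f1 N.m = -(2 * u) := by
    have := hz N.f1 N.v2 N.m 0 N.n2
    rw [N.s12, add_dotProduct, smul_dotProduct, N.n2, hu, smul_eq_mul, map_zero] at this
    linear_combination this
  have b21 : N.v1 ⬝ᵥ dv N.f2 N.m = -(2 * u) := by
    have := hz N.f2 N.v1 N.m 0 N.n1
    rw [N.s21, add_dotProduct, smul_dotProduct, N.n1, hu, smul_eq_mul, map_zero] at this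
    linear_combination this
  have b22 : N.v2 ⬝ᵥ dv N.f2 N.m = -(2 * p) := by
    have := hz N.f2 N.v2 N.m 0 N.n2
    rw [N.s22, add_dotProduct, smul_dotProduct, N.n2, hp, smul_eq_mul, map_zero] at this
    linear_combination this
  -- the two halves of the equation
  have L1 : dv N.f1 (dv N.f2 N.m) + N.w1 • dv N.f2 N.m = -N.c • N.m := by
    funext k
    have a1 := congrFun N.lap k
    have a2 := congrFun (vc N.m) k
    simp only [Pi.add_apply, Pi.sub_apply, Pi.smul_apply, smul_eq_mul] at a1 a2 ⊢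
    have : 2 * ((dv N.f1 (dv N.f2 N.m)) k + N.w1 * (dv N.f2 N.m) k - -N.c * N.m k) = 0 := by
      linear_combination a1 + a2
    have := (mul_eq_zero.mp this).resolve_left h2
    linear_combination this
  have L2 : dv N.f2 (dv N.f1 N.m) - N.w2 • dv N.f1 N.m = -N.c • N.m := by
    funext k
    have a1 := congrFun N.lap k
    have a2 := congrFun (vc N.m) k
    simp only [Pi.add_apply, Pi.sub_apply, Pi.smul_apply, smul_eq_mul] at a1 a2 ⊢
    have : 2 * ((dv N.f2 (dv N.f1 N.m)) k - N.w2 * (dv N.f1 N.m) k - -N.c * N.m k) = 0 := by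
      linear_combination a1 - a2
    have := (mul_eq_zero.mp this).resolve_left h2
    linear_combination this
  -- the normal parts of the derivatives of `m`
  obtain ⟨D1, hD1⟩ : ∃ D, dv N.f1 N.m = -u • N.v1 + -q • N.v2 + D :=
    ⟨dv N.f1 N.m + u • N.v1 + q • N.v2, by
      funext k
      simp only [Pi.add_apply, Pi.smul_apply, smul_eq_mul]
      ring⟩
  obtain ⟨D2, hD2⟩ : ∃ D, dv N.f2 N.m = -p • N.v1 + -u • N.v2 + D :=
    ⟨dv N.f2 N.m + p • N.v1 + u • N.v2, by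
      funext k
      simp only [Pi.add_apply, Pi.smul_apply, smul_eq_mul]
      ring⟩
  have d11 : N.v1 ⬝ᵥ D1 = 0 := by
    rw [hD1] at b11
    simp only [dotProduct_add, dotProduct_smul, smul_eq_mul, N.o11, N.o12] at b11
    linear_combination b11
  have d12 : N.v2 ⬝ᵥ D1 = 0 := by
    rw [hD1] at b12
    simp only [dotProduct_add, dotProduct_smul, smul_eq_mul, N.o22, o21] at b12
    linear_combination b12
  have d21 : N.v1 ⬝ᵥ D2 = 0 := by
    rw [hD2] at b21
    simp only [dotProduct_add, dotProduct_smul, smul_eq_mul, N.o11, N.o12] at b21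
    linear_combination b21
  have d22 : N.v2 ⬝ᵥ D2 = 0 := by
    rw [hD2] at b22
    simp only [dotProduct_add, dotProduct_smul, smul_eq_mul, N.o22, o21] at b22
    linear_combination b22
  -- `f1 u = m.D1`, `2 (f1 u) = - al.D2`
  have T1 : N.f1 u = N.m ⬝ᵥ D1 := by
    have e1 := hz N.f1 N.m N.m _ hu
    rw [dotProduct_comm (dv N.f1 N.m) N.m, hD1, hd2] at e1
    simp only [dotProduct_add, dotProduct_smul, smul_eq_mul, m1, m2] at e1
    have : 2 * (N.f1 u - N.m ⬝ᵥ D1) = 0 := by linear_combination -e1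
    have := (mul_eq_zero.mp this).resolve_left h2
    linear_combination this
  have T2 : N.f2 u = N.m ⬝ᵥ D2 := by
    have e1 := hz N.f2 N.m N.m _ hu
    rw [dotProduct_comm (dv N.f2 N.m) N.m, hD2, hd2] at e1
    simp only [dotProduct_add, dotProduct_smul, smul_eq_mul, m1, m2] at e1
    have : 2 * (N.f2 u - N.m ⬝ᵥ D2) = 0 := by linear_combination -e1
    have := (mul_eq_zero.mp this).resolve_left h2
    linear_combination this
  have T3 : 2 * N.f1 u = -(N.al ⬝ᵥ D2) := by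
    have e1 := hz N.f1 N.v1 (dv N.f2 N.m) _ b21
    have e2 := congrArg (fun x => N.v1 ⬝ᵥ x) L1
    simp only [dotProduct_add, dotProduct_smul, smul_eq_mul, b21, N.n1] at e2
    rw [N.s11, add_dotProduct, smul_dotProduct, b21, map_neg, hd2, smul_eq_mul, hD2] at e1
    simp only [dotProduct_add, dotProduct_smul, smul_eq_mul, al1, al2] at e1
    rw [← hD2] at e1
    linear_combination e1 - e2
  have T4 : 2 * N.f2 u = -(N.be ⬝ᵥ D1) := by
    have e1 := hz N.f2 N.v2 (dv N.f1 N.m) _ b12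
    have e2 := congrArg (fun x => N.v2 ⬝ᵥ x) L2
    simp only [dotProduct_sub, dotProduct_smul, smul_eq_mul, b12, N.n2] at e2
    rw [N.s22, add_dotProduct, smul_dotProduct, b12, map_neg, hd2, smul_eq_mul, hD1] at e1
    simp only [dotProduct_add, dotProduct_smul, smul_eq_mul, be1, be2] at e1
    rw [← hD1] at e1
    linear_combination e1 - e2
  have hfin : N.f1 u = 0 → N.f2 u = 0 →
      N.f1 (N.m ⬝ᵥ N.m) = 0 ∧ N.f2 (N.m ⬝ᵥ N.m) = 0 := by
    intro k1 k2
    rw [hu, hd2, hd2, k1, k2, mul_zero]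
    exact ⟨rfl, rfl⟩
  -- the hypothesis
  have r1 : s1 * q + s2 * u = -(μ * s2) := by
    have e1 := congrArg (fun x => N.v1 ⬝ᵥ x) h
    simp only [dotProduct_add, dotProduct_smul, smul_eq_mul, b11, b21, N.o11, N.o12] at e1
    have : 2 * (s1 * q + s2 * u + μ * s2) = 0 := by linear_combination -e1
    have := (mul_eq_zero.mp this).resolve_left h2
    linear_combination this
  have r2 : s1 * u + s2 * p = -(μ * s1) := by
    have e1 := congrArg (fun x => N.v2 ⬝ᵥ x) h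
    simp only [dotProduct_add, dotProduct_smul, smul_eq_mul, b12, b22, N.o22, o21] at e1
    have : 2 * (s1 * u + s2 * p + μ * s1) = 0 := by linear_combination -e1
    have := (mul_eq_zero.mp this).resolve_left h2
    linear_combination this
  have r3 : s1 • D1 + s2 • D2 = 0 := by
    rw [hD1, hD2] at h
    funext k
    have := congrFun h k
    simp only [Pi.add_apply, Pi.smul_apply, smul_eq_mul, Pi.zero_apply] at this ⊢
    linear_combination this + N.v2 k * r1 + N.v1 k * r2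
  by_cases hs2 : s2 = 0
  · have hs1 : s1 ≠ 0 := hs.resolve_right (fun hh => hh hs2)
    rw [hs2, zero_smul, add_zero] at r3
    have hD : D1 = 0 := (smul_eq_zero.mp r3).resolve_left hs1
    apply hfin
    · rw [T1, hD, dotProduct_zero]
    · rw [hD, dotProduct_zero, neg_zero] at T4
      exact (mul_eq_zero.mp T4).resolve_left h2
  by_cases hs1 : s1 = 0
  · rw [hs1, zero_smul, zero_add] at r3
    have hD : D2 = 0 := (smul_eq_zero.mp r3).resolve_left hs2
    apply hfin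
    · rw [hD, dotProduct_zero, neg_zero] at T3
      exact (mul_eq_zero.mp T3).resolve_left h2
    · rw [T2, hD, dotProduct_zero]
  obtain ⟨t, ht⟩ : ∃ t, t = -(s2 / s1) := ⟨_, rfl⟩
  have ht1 : s1 * t = -s2 := by
    rw [ht]
    field_simp
  have ht0 : t ≠ 0 := by
    rintro rfl
    apply hs2
    linear_combination ht1
  have hDt : D1 = t • D2 := by
    have : s1 • (D1 - t • D2) = 0 := by
      rw [smul_sub, smul_smul, ht1, neg_smul, sub_neg_eq_add]
      exact r3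
    exact sub_eq_zero.mp ((smul_eq_zero.mp this).resolve_left hs1)
  have hqp : q = t ^ 2 * p := by
    have : s1 ^ 2 * (q - t ^ 2 * p) = 0 := by
      have e1 : s1 ^ 2 * q = s2 ^ 2 * p := by linear_combination s1 * r1 - s2 * r2
      have e2 : s1 ^ 2 * t ^ 2 = s2 ^ 2 := by linear_combination (s1 * t - s2) * ht1
      linear_combination e1 - p * e2
    have := (mul_eq_zero.mp this).resolve_left (pow_ne_zero 2 hs1)
    linear_combination this
  by_cases hD : D2 = 0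
  · rw [hD, smul_zero] at hDt
    apply hfin
    · rw [T1, hDt, dotProduct_zero]
    · rw [T2, hD, dotProduct_zero]
  by_cases hde : N.al - t ^ 2 • N.be = 0
  · exact NFr.flat N root (t ^ 2) (sub_eq_zero.mp hde)
  by_cases hW : N.m ⬝ᵥ N.m = 0
  · rw [hW]
    exact ⟨map_zero _, map_zero _⟩
  exfalso
  obtain ⟨e, he⟩ : ∃ e, N.al - t ^ 2 • N.be = e := ⟨_, rfl⟩
  rw [he] at hde
  have hu0 : u ≠ 0 := by
    rintro rfl
    apply hW
    rw [hu, mul_zero]
  have e1 : N.v1 ⬝ᵥ e = 0 := by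
    rw [← he, dotProduct_sub, dotProduct_smul, N.a1, N.b1, smul_zero, sub_zero]
  have e2 : N.v2 ⬝ᵥ e = 0 := by
    rw [← he, dotProduct_sub, dotProduct_smul, N.a2, N.b2, smul_zero, sub_zero]
  have em : N.m ⬝ᵥ e = 0 := by
    rw [← he, dotProduct_sub, dotProduct_smul, hq', hp', hqp, smul_eq_mul]
    ring
  have eD : D2 ⬝ᵥ e = 0 := by
    rw [← he, dotProduct_sub, dotProduct_smul, dotProduct_comm D2 N.al, dotProduct_comm D2 N.be,
      smul_eq_mul]
    rw [hDt, dotProduct_smul, smul_eq_mul] at T1 T4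
    linear_combination T3 - 2 * T1 - t * T4 + 2 * t * T2
  have ee : e ⬝ᵥ e ≠ 0 := by
    intro h0
    exact hde (KRod_basis N.o11 N.o12 N.o22 N.n1 N.n2 hW e1 e2 em hde e1 e2 em h0)
  obtain ⟨d, hd⟩ : ∃ d, D2 = d • N.m := by
    refine ⟨N.m ⬝ᵥ D2 / (2 * u), ?_⟩
    apply sub_eq_zero.mp
    apply KRod_basis N.o11 N.o12 N.o22 N.n1 N.n2 hW e1 e2 em hde
    · rw [dotProduct_sub, dotProduct_smul, d21, N.n1]; simp
    · rw [dotProduct_sub, dotProduct_smul, d22, N.n2]; simp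
    · rw [dotProduct_sub, dotProduct_smul, hu, smul_eq_mul]
      field_simp
      ring
    · rw [dotProduct_sub, dotProduct_smul, dotProduct_comm e D2, eD, dotProduct_comm e N.m, em]
      simp
  have hd0 : d ≠ 0 := by
    rintro rfl
    apply hD
    rw [hd, zero_smul]
  have hqu : q = -(2 * t * u) := by
    rw [hDt, dotProduct_smul, hd, dotProduct_smul, hu, smul_eq_mul, smul_eq_mul] at T1
    rw [hd, dotProduct_smul, hq, smul_eq_mul] at T3
    have : 2 * d * (q + 2 * t * u) = 0 := by linear_combination T3 - 2 * T1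
    have := (mul_eq_zero.mp this).resolve_left (mul_ne_zero h2 hd0)
    linear_combination this
  have hq0 : q ≠ 0 := by
    rw [hqu]
    exact neg_ne_zero.mpr (mul_ne_zero (mul_ne_zero h2 ht0) hu0)
  have hp0 : p ≠ 0 := by
    rintro rfl
    apply hq0
    rw [hqp, mul_zero]
  have w1e : dv N.f1 N.m ⬝ᵥ e = 0 := by
    rw [hD1, hDt]
    simp only [add_dotProduct, smul_dotProduct, smul_eq_mul, e1, e2, eD]
    ring
  have w2e : dv N.f2 N.m ⬝ᵥ e = 0 := by
    rw [hD2]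
    simp only [add_dotProduct, smul_dotProduct, smul_eq_mul, e1, e2, eD]
    ring
  have k1 : N.al ⬝ᵥ e = 0 := by
    have x1 := congrArg (fun x => x ⬝ᵥ e) L1
    simp only [add_dotProduct, smul_dotProduct, smul_eq_mul, w2e, em] at x1
    rw [hD2, hd] at x1
    simp only [GNfAux.dv_add, GNfAux.dv_smul, N.s11, N.s12, add_dotProduct, smul_dotProduct,
      smul_eq_mul, e1, e2, em, w1e] at x1
    have : p * (N.al ⬝ᵥ e) = 0 := by linear_combination -x1
    exact (mul_eq_zero.mp this).resolve_left hp0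
  have k2 : N.be ⬝ᵥ e = 0 := by
    have x1 := congrArg (fun x => x ⬝ᵥ e) L2
    simp only [sub_dotProduct, smul_dotProduct, smul_eq_mul, w1e, em] at x1
    rw [hD1, hDt, hd] at x1
    simp only [GNfAux.dv_add, GNfAux.dv_smul, N.s21, N.s22, add_dotProduct, smul_dotProduct,
      smul_eq_mul, e1, e2, em, w2e] at x1
    have : q * (N.be ⬝ᵥ e) = 0 := by linear_combination -x1
    exact (mul_eq_zero.mp this).resolve_left hq0
  apply ee
  have : e ⬝ᵥ e = (N.al - t ^ 2 • N.be) ⬝ᵥ e := by rw [he]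
  rw [this, sub_dotProduct, smul_dotProduct, k1, k2, smul_zero, sub_zero]

end Pool.H60.NC
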