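import Pool.Agent.H60.NC.KEx
import Pool.Agent.H60.NC.KRod

/-!
# The case of a common direction, in coordinates

`rod_im0`: take a null frame (`exists_nfr`), `f1 = Σ a_i d_i`, `f2 = Σ b_i d_i`, `δ = a_0 b_1 - a_1 b_0 ≠ 0`,
`s1 = (r_0 b_1 - r_1 b_0)/δ`, `s2 = (a_0 r_1 - a_1 r_0)/δ`: then `r_i = s1 a_i + s2 b_i`, and `NFr.rod` (with
`root = I.D.root`) gives `f1 W = f2 W = 0`, hence `d_i W = 0`.

`rod_poly`: `n i = norK (M_i)`.  If `n 0 = n 1 = 0`: `d_i (M.M) = 2 M.M_i = 2 M.(n i) = 0`, since `M = trK` is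
orthogonal to the `X_j`.  Otherwise choose `a` with `n 0 a ≠ 0` or `n 1 a ≠ 0` and `r = (n 1 a, - n 0 a) ≠ 0`.
By `h1` the vector `R = Σ r_i M_i` has `norK R = 0`, by `h2` the vectors `(R.X_0, R.X_1)` and
`(Y.X_0, Y.X_1)`, `Y = Σ r_i X_i`, are linearly dependent; the second is not `0` (`gdet ≠ 0`), so
`R - μ Y` is orthogonal to `X_0`, `X_1` for some `μ`; since `norK (R - μ Y) = 0` it is tangent, so `0`.
-/

namespace Pool.H60.NC

open Matrix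
open Pool.H60.PE

variable {K : Type} [Field K]

private theorem KRodI_nor (D : DC K) (X v : Fin 4 → K) :
    norK D X v = v - (gi D X 0 0 * (dv (D.d 0) X ⬝ᵥ v) + gi D X 1 0 * (dv (D.d 1) X ⬝ᵥ v)) •
        dv (D.d 0) X
      - (gi D X 0 1 * (dv (D.d 0) X ⬝ᵥ v) + gi D X 1 1 * (dv (D.d 1) X ⬝ᵥ v)) •
        dv (D.d 1) X := by
  unfold norK
  funext k
  simp only [Fin.sum_univ_two, Pi.sub_apply, Pi.add_apply, Pi.smul_apply, smul_eq_mul]
  ring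

private theorem KRodI_orth (D : DC K) (X v : Fin 4 → K) (h : gdet D X ≠ 0) (k : Fin 2) :
    dv (D.d k) X ⬝ᵥ norK D X v = 0 := by
  have e : dv (D.d 1) X ⬝ᵥ dv (D.d 0) X = dv (D.d 0) X ⬝ᵥ dv (D.d 1) X := dotProduct_comm _ _
  rw [KRodI_nor, dotProduct_sub, dotProduct_sub, dotProduct_smul, dotProduct_smul]
  simp only [gi, Matrix.of_apply, Matrix.cons_val_zero, Matrix.cons_val_one, Matrix.cons_val',
    Matrix.cons_val_fin_one, smul_eq_mul]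
  obtain ⟨p, hp⟩ : ∃ p, dv (D.d 0) X ⬝ᵥ v = p := ⟨_, rfl⟩
  obtain ⟨q, hq⟩ : ∃ q, dv (D.d 1) X ⬝ᵥ v = q := ⟨_, rfl⟩
  have hg : gdet D X = gm D X 0 0 * gm D X 1 1 - gm D X 0 1 ^ 2 := rfl
  fin_cases k
  · change dv (D.d 0) X ⬝ᵥ v - _ * (dv (D.d 0) X ⬝ᵥ dv (D.d 0) X)
      - _ * (dv (D.d 0) X ⬝ᵥ dv (D.d 1) X) = 0
    rw [hp, hq]
    change p - _ * gm D X 0 0 - _ * gm D X 0 1 = 0
    field_simp
    rw [hg]
    ring
  · change dv (D.d 1) X ⬝ᵥ v - _ * (dv (D.d 1) X ⬝ᵥ dv (D.d 0) X)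
      - _ * (dv (D.d 1) X ⬝ᵥ dv (D.d 1) X) = 0
    rw [hp, hq, e]
    change q - _ * gm D X 0 1 - _ * gm D X 1 1 = 0
    field_simp
    rw [hg]
    ring

private theorem KRodI_tr (D : DC K) (X : Fin 4 → K) (h : gdet D X ≠ 0) (k : Fin 2) :
    trK D X ⬝ᵥ dv (D.d k) X = 0 := by
  rw [dotProduct_comm]
  unfold trK
  simp only [Fin.sum_univ_two, dotProduct_add, dotProduct_smul, KRodI_orth D X _ h, smul_zero,
    add_zero]

theorem rod_im0 [CharZero K] (I : Im0 K) (r : Fin 2 → K) (μ : K) (hr : r ≠ 0)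
    (h : ∑ i, r i • dv (I.D.d i) (trK I.D I.X) = μ • ∑ i, r i • dv (I.D.d i) I.X) (i : Fin 2) :
    I.D.d i (trK I.D I.X ⬝ᵥ trK I.D I.X) = 0 := by
  obtain ⟨N, a, b, h1, h2, hδ, hv1, hv2, hm, -⟩ := exists_nfr I
  obtain ⟨δ, hd⟩ : ∃ δ, a 0 * b 1 - a 1 * b 0 = δ := ⟨_, rfl⟩
  rw [hd] at hδ
  obtain ⟨s1, hs1⟩ : ∃ s, s = (r 0 * b 1 - r 1 * b 0) / δ := ⟨_, rfl⟩
  obtain ⟨s2, hs2⟩ : ∃ s, s = (a 0 * r 1 - a 1 * r 0) / δ := ⟨_, rfl⟩
  have r0 : s1 * a 0 + s2 * b 0 = r 0 := by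
    rw [hs1, hs2]
    field_simp
    rw [← hd]
    ring
  have r1 : s1 * a 1 + s2 * b 1 = r 1 := by
    rw [hs1, hs2]
    field_simp
    rw [← hd]
    ring
  have k1 : ∀ v : Fin 4 → K, dv N.f1 v = a 0 • dv (I.D.d 0) v + a 1 • dv (I.D.d 1) v := by
    intro v
    funext k
    exact h1 (v k)
  have k2 : ∀ v : Fin 4 → K, dv N.f2 v = b 0 • dv (I.D.d 0) v + b 1 • dv (I.D.d 1) v := by
    intro v
    funext k
    exact h2 (v k)
  have hk : ∀ v : Fin 4 → K, s1 • dv N.f1 v + s2 • dv N.f2 v = ∑ i, r i • dv (I.D.d i) v := by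
    intro v
    rw [k1, k2, Fin.sum_univ_two]
    funext k
    simp only [Pi.add_apply, Pi.smul_apply, smul_eq_mul]
    linear_combination (dv (I.D.d 0) v k) * r0 + (dv (I.D.d 1) v k) * r1
  have hs : s1 ≠ 0 ∨ s2 ≠ 0 := by
    by_contra hc
    push Not at hc
    apply hr
    funext k
    fin_cases k
    · change r 0 = 0
      rw [← r0, hc.1, hc.2]
      ring
    · change r 1 = 0
      rw [← r1, hc.1, hc.2]
      ring
  obtain ⟨e1, e2⟩ := N.rod I.D.root s1 s2 μ hs (by rw [hv1, hv2, hk, hk, hm, h])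
  rw [hm, h1] at e1
  rw [hm, h2] at e2
  have z0 : δ * I.D.d 0 (trK I.D I.X ⬝ᵥ trK I.D I.X) = 0 := by
    rw [← hd]
    linear_combination b 1 * e1 - a 1 * e2
  have z1 : δ * I.D.d 1 (trK I.D I.X ⬝ᵥ trK I.D I.X) = 0 := by
    rw [← hd]
    linear_combination a 0 * e2 - b 0 * e1
  fin_cases i
  · exact (mul_eq_zero.mp z0).resolve_left hδ
  · exact (mul_eq_zero.mp z1).resolve_left hδ

theorem rod_poly [CharZero K] (I : Im0 K) (n M : Fin 2 → Fin 4 → K)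
    (hM : ∀ i, M i = dv (I.D.d i) (trK I.D I.X)) (hn : ∀ i, n i = norK I.D I.X (M i))
    (h1 : ∀ a b : Fin 4, n 0 a * n 1 b = n 0 b * n 1 a)
    (h2 : ∀ a : Fin 4,
      ((n 1 a • M 0 - n 0 a • M 1) ⬝ᵥ dv (I.D.d 0) I.X) *
          ((n 1 a • dv (I.D.d 0) I.X - n 0 a • dv (I.D.d 1) I.X) ⬝ᵥ dv (I.D.d 1) I.X)
        = ((n 1 a • M 0 - n 0 a • M 1) ⬝ᵥ dv (I.D.d 1) I.X) *
          ((n 1 a • dv (I.D.d 0) I.X - n 0 a • dv (I.D.d 1) I.X) ⬝ᵥ dv (I.D.d 0) I.X))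
    (i : Fin 2) : I.D.d i (trK I.D I.X ⬝ᵥ trK I.D I.X) = 0 := by
  have hg := I.gdet_ne
  have h2' : ∀ j, trK I.D I.X ⬝ᵥ M j = trK I.D I.X ⬝ᵥ n j := by
    intro j
    rw [hn j, KRodI_nor, dotProduct_sub, dotProduct_sub, dotProduct_smul, dotProduct_smul,
      KRodI_tr I.D I.X hg, KRodI_tr I.D I.X hg]
    simp
  by_cases h0 : n 0 = 0 ∧ n 1 = 0
  · have hn0 : n i = 0 := by
      fin_cases i
      · exact h0.1
      · exact h0.2
    have e1 := GNfAux.d_dot (I.D.d i) (trK I.D I.X) (trK I.D I.X)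
    rw [e1, dotProduct_comm (dv (I.D.d i) (trK I.D I.X)), ← hM i, h2' i, hn0, dotProduct_zero,
      add_zero]
  obtain ⟨a, ha⟩ : ∃ a, n 0 a ≠ 0 ∨ n 1 a ≠ 0 := by
    by_contra hc
    push Not at hc
    apply h0
    constructor
    · funext a
      exact (hc a).1
    · funext a
      exact (hc a).2
  obtain ⟨x, hx⟩ : ∃ x, n 1 a = x := ⟨_, rfl⟩
  obtain ⟨y, hy⟩ : ∃ y, n 0 a = y := ⟨_, rfl⟩
  have h2a := h2 a
  rw [hx, hy] at h2a
  obtain ⟨R, hR⟩ : ∃ R, x • M 0 - y • M 1 = R := ⟨_, rfl⟩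
  obtain ⟨Y, hY⟩ : ∃ Y, x • dv (I.D.d 0) I.X - y • dv (I.D.d 1) I.X = Y := ⟨_, rfl⟩
  rw [hR, hY] at h2a
  have eY0 : Y ⬝ᵥ dv (I.D.d 0) I.X = x * gm I.D I.X 0 0 - y * gm I.D I.X 0 1 := by
    rw [← hY, sub_dotProduct, smul_dotProduct, smul_dotProduct,
      dotProduct_comm (dv (I.D.d 1) I.X)]
    rfl
  have eY1 : Y ⬝ᵥ dv (I.D.d 1) I.X = x * gm I.D I.X 0 1 - y * gm I.D I.X 1 1 := by
    rw [← hY, sub_dotProduct, smul_dotProduct, smul_dotProduct]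
    rfl
  have hYne : Y ⬝ᵥ dv (I.D.d 0) I.X ≠ 0 ∨ Y ⬝ᵥ dv (I.D.d 1) I.X ≠ 0 := by
    by_contra hc
    push Not at hc
    rw [eY0, eY1] at hc
    have zx : gdet I.D I.X * x = 0 := by
      unfold gdet
      linear_combination gm I.D I.X 1 1 * hc.1 - gm I.D I.X 0 1 * hc.2
    have zy : gdet I.D I.X * y = 0 := by
      unfold gdet
      linear_combination gm I.D I.X 0 1 * hc.1 - gm I.D I.X 0 0 * hc.2
    rcases ha with ha | ha
    · apply ha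
      rw [hy]
      exact (mul_eq_zero.mp zy).resolve_left hg
    · apply ha
      rw [hx]
      exact (mul_eq_zero.mp zx).resolve_left hg
  obtain ⟨μ, m0, m1⟩ : ∃ μ : K, R ⬝ᵥ dv (I.D.d 0) I.X = μ * (Y ⬝ᵥ dv (I.D.d 0) I.X) ∧
      R ⬝ᵥ dv (I.D.d 1) I.X = μ * (Y ⬝ᵥ dv (I.D.d 1) I.X) := by
    rcases hYne with hne | hne
    · refine ⟨R ⬝ᵥ dv (I.D.d 0) I.X / (Y ⬝ᵥ dv (I.D.d 0) I.X), ?_, ?_⟩
      · field_simp
      · field_simp
        linear_combination -h2a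
    · refine ⟨R ⬝ᵥ dv (I.D.d 1) I.X / (Y ⬝ᵥ dv (I.D.d 1) I.X), ?_, ?_⟩
      · field_simp
        linear_combination h2a
      · field_simp
  have hnR : norK I.D I.X R = 0 := by
    have e1 : norK I.D I.X R = x • norK I.D I.X (M 0) - y • norK I.D I.X (M 1) := by
      rw [← hR, KRodI_nor, KRodI_nor I.D I.X (M 0), KRodI_nor I.D I.X (M 1)]
      funext k
      simp only [dotProduct_sub, dotProduct_smul, Pi.sub_apply, Pi.smul_apply, smul_eq_mul]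
      ring
    rw [e1, ← hn 0, ← hn 1]
    funext k
    simp only [Pi.sub_apply, Pi.smul_apply, smul_eq_mul, Pi.zero_apply]
    have := h1 a k
    rw [hx, hy] at this
    linear_combination -this
  have hRY : R - μ • Y = 0 := by
    have e0 : dv (I.D.d 0) I.X ⬝ᵥ (R - μ • Y) = 0 := by
      rw [dotProduct_sub, dotProduct_smul, dotProduct_comm _ R, dotProduct_comm _ Y, m0,
        smul_eq_mul, sub_self]
    have e1 : dv (I.D.d 1) I.X ⬝ᵥ (R - μ • Y) = 0 := by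
      rw [dotProduct_sub, dotProduct_smul, dotProduct_comm _ R, dotProduct_comm _ Y, m1,
        smul_eq_mul, sub_self]
    -- `R - μ Y` is tangent
    obtain ⟨p, q, hpq⟩ : ∃ p q : K, R - μ • Y = p • dv (I.D.d 0) I.X + q • dv (I.D.d 1) I.X := by
      rw [KRodI_nor] at hnR
      refine ⟨(gi I.D I.X 0 0 * (dv (I.D.d 0) I.X ⬝ᵥ R) + gi I.D I.X 1 0 *
        (dv (I.D.d 1) I.X ⬝ᵥ R)) - μ * x, (gi I.D I.X 0 1 * (dv (I.D.d 0) I.X ⬝ᵥ R) +
        gi I.D I.X 1 1 * (dv (I.D.d 1) I.X ⬝ᵥ R)) + μ * y, ?_⟩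
      funext k
      have := congrFun hnR k
      rw [← hY]
      simp only [Pi.sub_apply, Pi.add_apply, Pi.smul_apply, smul_eq_mul, Pi.zero_apply]
        at this ⊢
      linear_combination this
    rw [hpq] at e0 e1 ⊢
    have f0 : p * gm I.D I.X 0 0 + q * gm I.D I.X 0 1 = 0 := by
      rw [dotProduct_add, dotProduct_smul, dotProduct_smul] at e0
      exact e0
    have f1 : p * gm I.D I.X 0 1 + q * gm I.D I.X 1 1 = 0 := by
      rw [dotProduct_add, dotProduct_smul, dotProduct_smul,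
        dotProduct_comm _ (dv (I.D.d 0) I.X)] at e1
      exact e1
    have zp : gdet I.D I.X * p = 0 := by
      unfold gdet
      linear_combination gm I.D I.X 1 1 * f0 - gm I.D I.X 0 1 * f1
    have zq : gdet I.D I.X * q = 0 := by
      unfold gdet
      linear_combination gm I.D I.X 0 0 * f1 - gm I.D I.X 0 1 * f0
    rw [(mul_eq_zero.mp zp).resolve_left hg, (mul_eq_zero.mp zq).resolve_left hg, zero_smul,
      zero_smul, add_zero]
  apply rod_im0 I ![x, -y] μ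
  · intro hc
    have c0 := congrFun hc 0
    have c1 := congrFun hc 1
    simp only [Matrix.cons_val_zero, Matrix.cons_val_one, Pi.zero_apply] at c0 c1
    rcases ha with ha | ha
    · exact ha (by rw [hy]; exact neg_eq_zero.mp c1)
    · exact ha (by rw [hx]; exact c0)
  · rw [Fin.sum_univ_two, Fin.sum_univ_two, ← hM 0, ← hM 1]
    simp only [Matrix.cons_val_zero, Matrix.cons_val_one, neg_smul]
    rw [← sub_eq_add_neg, ← sub_eq_add_neg, hR, hY]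
    exact sub_eq_zero.mp hRY

end Pool.H60.NC
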