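import Pool.Agent.H60.PE.PBel
import Pool.Agent.H60.NC.Defs

/-!
# The Laplace operator of a composition

`lap s X (h ∘ ψ) = -Σ_ab G_ab (∂_a ∂_b h) ∘ ψ + Σ_a (Δ ψ_a) (∂_a h) ∘ ψ`,
`G_ab = Σ_ij g^ij ∂_i ψ_a ∂_j ψ_b`.  With the chain rule `∂_j (h ∘ ψ) = Σ_a ∂_j ψ_a • (∂_a h) ∘ ψ`:
`∂_i (Σ_j vol g^ij ∂_j (h ∘ ψ)) = Σ_a ∂_i (Σ_j vol g^ij ∂_j ψ_a) • (∂_a h) ∘ ψ
  + Σ_a Σ_j vol g^ij ∂_j ψ_a • Σ_b ∂_i ψ_b • (∂_b ∂_a h) ∘ ψ`; sum over `i`, multiply with
`-1/vol`.  (`∂_b ∂_a h = ∂_a ∂_b h` is not needed if `G_ab` is paired with `pd a (pd b h)` as below and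
`G` is symmetric.)
-/

namespace Pool.H60.NC

open scoped ContDiff
open Pool.Agent.H99.N2 (E2 E4 pd contDiffOn_pd contDiffOn_comp pd_comp)
open Pool.H60.PE

/-- `G_ab = Σ_ij g^ij ∂_i ψ_a ∂_j ψ_b` -/
noncomputable def gram (s : ℕ) (X : E2 → E4) (ψ : E2 → E2) (a b : Fin 2) (x : E2) : ℝ :=
  ∑ i, ∑ j, (metric s X x)⁻¹ i j * (pd i ψ x a * pd j ψ x b)

private theorem lapC_diffAt {U : Set E2} (hU : IsOpen U) {F : Type} [NormedAddCommGroup F]
    [NormedSpace ℝ F] {f : E2 → F} (hf : ContDiffOn ℝ ∞ f U) {x : E2} (hx : x ∈ U) :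
    DifferentiableAt ℝ f x :=
  (hf.contDiffAt (hU.mem_nhds hx)).differentiableAt (by simp)

private theorem lapC_pd_congr {F : Type} [NormedAddCommGroup F] [NormedSpace ℝ F] {f g : E2 → F}
    {x : E2} (h : f =ᶠ[nhds x] g) (i : Fin 2) : pd i f x = pd i g x := by
  unfold pd
  rw [h.fderiv_eq]

private theorem lapC_dec (v : E2) : v = ∑ a : Fin 2, v a • EuclideanSpace.single a (1 : ℝ) := by
  ext k
  fin_cases k <;> simp [Fin.sum_univ_two]

private theorem lapC_comp {U : Set E2} (hU : IsOpen U) {ψ : E2 → E2} (hψ : ContDiffOn ℝ ∞ ψ U)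
    (a : Fin 2) : ContDiffOn ℝ ∞ (fun z => ψ z a) U :=
  (EuclideanSpace.proj a : E2 →L[ℝ] ℝ).contDiff.comp_contDiffOn hψ

private theorem lapC_pd_comp {U : Set E2} (hU : IsOpen U) {ψ : E2 → E2} (hψ : ContDiffOn ℝ ∞ ψ U)
    {x : E2} (hx : x ∈ U) (i a : Fin 2) : pd i (fun z => ψ z a) x = pd i ψ x a := by
  unfold pd
  have h2 : HasFDerivAt (fun z => ψ z a) ((EuclideanSpace.proj a : E2 →L[ℝ] ℝ).comp
      (fderiv ℝ ψ x)) x :=
    ((EuclideanSpace.proj a : E2 →L[ℝ] ℝ).hasFDerivAt).comp x (lapC_diffAt hU hψ hx).hasFDerivAt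
  rw [h2.fderiv]
  rfl

/-- chain rule for partial derivatives -/
theorem pd_chain {W V : Set E2} (hW : IsOpen W) (hV : IsOpen V) {ψ : E2 → E2}
    (hψ : ContDiffOn ℝ ∞ ψ W) (hm : Set.MapsTo ψ W V) {F : Type} [NormedAddCommGroup F]
    [NormedSpace ℝ F] {h : E2 → F} (hh : ContDiffOn ℝ ∞ h V) {x : E2} (hx : x ∈ W) (i : Fin 2) :
    pd i (fun z => h (ψ z)) x = ∑ a, pd i ψ x a • pd a h (ψ x) := by
  unfold pd
  have h1 : HasFDerivAt (fun z => h (ψ z)) ((fderiv ℝ h (ψ x)).comp (fderiv ℝ ψ x)) x :=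
    (lapC_diffAt hV hh (hm hx)).hasFDerivAt.comp x (lapC_diffAt hW hψ hx).hasFDerivAt
  rw [h1.fderiv, ContinuousLinearMap.comp_apply]
  conv_lhs => rw [lapC_dec (fderiv ℝ ψ x (EuclideanSpace.single i 1)), map_sum]
  refine Finset.sum_congr rfl fun a _ => ?_
  rw [map_smul]

private theorem lapC_pd_sum {F : Type} [NormedAddCommGroup F] [NormedSpace ℝ F]
    {f : Fin 2 → E2 → F} {x : E2} (hf : ∀ a, DifferentiableAt ℝ (f a) x) (i : Fin 2) :
    pd i (fun y => ∑ a, f a y) x = ∑ a, pd i (f a) x := by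
  unfold pd
  rw [fderiv_fun_sum fun a _ => hf a]
  simp

private theorem lapC_pd_smul {F : Type} [NormedAddCommGroup F] [NormedSpace ℝ F]
    {A : E2 → ℝ} {f : E2 → F} {x : E2} (hA : DifferentiableAt ℝ A x)
    (hf : DifferentiableAt ℝ f x) (i : Fin 2) :
    pd i (fun y => A y • f y) x = A x • pd i f x + pd i A x • f x := by
  unfold pd
  rw [fderiv_fun_smul hA hf]
  simp

theorem lap_chain {s : ℕ} {W V : Set E2} (hW : IsOpen W) (hV : IsOpen V) {X : E2 → E4}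
    (hX : IsSurface s X W) {ψ : E2 → E2} (hψ : ContDiffOn ℝ ∞ ψ W) (hm : Set.MapsTo ψ W V)
    {F : Type} [NormedAddCommGroup F] [NormedSpace ℝ F] {h : E2 → F} (hh : ContDiffOn ℝ ∞ h V)
    {x : E2} (hx : x ∈ W) :
    lap s X (fun z => h (ψ z)) x = -(∑ a, ∑ b, gram s X ψ a b x • pd a (pd b h) (ψ x))
      + ∑ a, lap s X (fun z => ψ z a) x • pd a h (ψ x) := by
  classical
  have hvol : vol s X x ≠ 0 := by
    unfold vol
    exact (Real.sqrt_pos.2 (abs_pos.2 (hX.2 x hx))).ne'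
  -- the coefficients
  let A : Fin 2 → Fin 2 → E2 → ℝ := fun i a y =>
    ∑ j, (vol s X y * (metric s X y)⁻¹ i j) • pd j (fun z => ψ z a) y
  have hA : ∀ i a, ContDiffOn ℝ ∞ (A i a) W := fun i a =>
    ContDiffOn.sum fun j _ => ((contDiffOn_vol hW hX).mul (contDiffOn_metric_inv hW hX i j)).smul
      (contDiffOn_pd hW (lapC_comp hW hψ a) j)
  have hH : ∀ a, ContDiffOn ℝ ∞ (fun y => pd a h (ψ y)) W := fun a =>
    (contDiffOn_pd hV hh a).comp hψ hm
  have h1 : ∀ i, pd i (fun y => ∑ j, (vol s X y * (metric s X y)⁻¹ i j) •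
      pd j (fun z => h (ψ z)) y) x =
      ∑ a, (A i a x • (∑ b, pd i ψ x b • pd b (pd a h) (ψ x)) + pd i (A i a) x • pd a h (ψ x)) := by
    intro i
    have e1 : (fun y => ∑ j, (vol s X y * (metric s X y)⁻¹ i j) • pd j (fun z => h (ψ z)) y)
        =ᶠ[nhds x] fun y => ∑ a, A i a y • pd a h (ψ y) := by
      filter_upwards [hW.mem_nhds hx] with y hy
      simp only [A]
      rw [show (∑ a, (∑ j, (vol s X y * (metric s X y)⁻¹ i j) • pd j (fun z => ψ z a) y) •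
        pd a h (ψ y)) = ∑ a, ∑ j, ((vol s X y * (metric s X y)⁻¹ i j) •
          pd j (fun z => ψ z a) y) • pd a h (ψ y) from
        Finset.sum_congr rfl fun a _ => Finset.sum_smul, Finset.sum_comm]
      refine Finset.sum_congr rfl fun j _ => ?_
      rw [pd_chain hW hV hψ hm hh hy j, Finset.smul_sum]
      refine Finset.sum_congr rfl fun a _ => ?_
      rw [lapC_pd_comp hW hψ hy j a, smul_smul, smul_eq_mul]
    have e2 : ∀ a, DifferentiableAt ℝ (fun y => A i a y • pd a h (ψ y)) x := fun a =>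
      (lapC_diffAt hW (hA i a) hx).smul (lapC_diffAt hW (hH a) hx)
    rw [lapC_pd_congr e1, lapC_pd_sum e2]
    refine Finset.sum_congr rfl fun a _ => ?_
    rw [lapC_pd_smul (lapC_diffAt hW (hA i a) hx) (lapC_diffAt hW (hH a) hx)]
    congr 2
    exact pd_chain hW hV hψ hm (contDiffOn_pd hV hh a) hx i
  have h2 : ∀ a, lap s X (fun z => ψ z a) x = -((vol s X x)⁻¹ * ∑ i, pd i (A i a) x) := fun a => rfl
  have h3 : lap s X (fun z => h (ψ z)) x = -((vol s X x)⁻¹ • ∑ i, ∑ a, (A i a x •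
      (∑ b, pd i ψ x b • pd b (pd a h) (ψ x)) + pd i (A i a) x • pd a h (ψ x))) := by
    unfold lap
    congr 2
    exact Finset.sum_congr rfl fun i _ => h1 i
  rw [h3]
  have h4 : ∀ i a, A i a x = vol s X x * ∑ j, (metric s X x)⁻¹ i j * pd j ψ x a := by
    intro i a
    simp only [A, Finset.mul_sum]
    refine Finset.sum_congr rfl fun j _ => ?_
    rw [lapC_pd_comp hW hψ hx j a, smul_eq_mul, mul_assoc]
  simp only [Finset.sum_add_distrib, smul_add, neg_add]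
  congr 1
  · congr 1
    rw [Finset.sum_comm]
    simp only [Finset.smul_sum, smul_smul]
    -- sum over `a, i, b` against `a, b`
    rw [Finset.sum_comm (f := fun a b => gram s X ψ a b x • pd a (pd b h) (ψ x))]
    refine Finset.sum_congr rfl fun a _ => ?_
    rw [Finset.sum_comm]
    refine Finset.sum_congr rfl fun b _ => ?_
    rw [← Finset.sum_smul]
    congr 1
    unfold gram
    refine Finset.sum_congr rfl fun i _ => ?_
    rw [h4, ← mul_assoc, ← mul_assoc, inv_mul_cancel₀ hvol, one_mul, Finset.sum_mul]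
    refine Finset.sum_congr rfl fun j _ => ?_
    ring
  · rw [Finset.sum_comm, Finset.smul_sum, ← Finset.sum_neg_distrib]
    refine Finset.sum_congr rfl fun a _ => ?_
    rw [h2, ← Finset.sum_smul, smul_smul, neg_smul]

end Pool.H60.NC
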