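import Pool.Agent.H60.PE.Defs

/-!
# Surfaces whose mean curvature vector is parallel in a principal direction
-/

namespace Pool.H60.NC

open Pool.Agent.H99.N2 (E2 E4 pd)
open Pool.H60.PE

/-- At each point of `U` there is a tangent vector `r ≠ 0` such that the derivative of the mean
curvature vector `H` in the direction `r` is a multiple of `r` (as a vector of `R^4`): `H` is parallel in the
direction `r` with respect to the normal connection and `r` is an eigenvector of the shape operator
of `H`. -/
def ParallelInPrincipal (s : ℕ) (X : E2 → E4) (U : Set E2) : Prop :=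
  ∀ x ∈ U, ∃ (r : Fin 2 → ℝ) (μ : ℝ), r ≠ 0 ∧
    ∑ i, r i • pd i (meanCurv s X) x = μ • ∑ i, r i • pd i X x

end Pool.H60.NC
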