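import Pool.Agent.H60.PE.PImm
import Pool.Agent.H60.NC.RodDef

/-!
# `H` parallel in a principal direction: two identities at a point

Let `N_i = normalPart (H_i)`, `H_i = pd i H x`.  The hypothesis gives `Σ r_i N_i = 0`, `r ≠ 0` (the normal
part of `X_i` is `0`), so all `2 × 2` minors of `(N_0, N_1)` vanish (identity (1)).  For each `a` put
`v = (N_1 a, - N_0 a)`.  If `v ≠ 0` it is a multiple of `r` (both are orthogonal to `(N_0 a, N_1 a) ≠ 0`), so
`Σ v_i H_i = μ Σ v_i X_i`, and with `⟨·, X_0⟩`, `⟨·, X_1⟩` one has identity (2).  If `v = 0` it is trivial.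
-/

namespace Pool.H60.NC

open scoped ContDiff
open Matrix
open Pool.Agent.H99.N2 (E2 E4 pd contDiffOn_pd contDiffOn_comp)
open Pool.H60.PE

theorem rod_pt {s : ℕ} {X : E2 → E4} {x : E2} (hx : (metric s X x).det ≠ 0)
    (h : ∃ (r : Fin 2 → ℝ) (μ : ℝ), r ≠ 0 ∧
      ∑ i, r i • pd i (meanCurv s X) x = μ • ∑ i, r i • pd i X x)
    (N : Fin 2 → E4) (hN : ∀ i, N i = normalPart s X x (pd i (meanCurv s X) x)) :
    (∀ a b : Fin 4, N 0 a * N 1 b = N 0 b * N 1 a) ∧
    ∀ a : Fin 4,
      ip s (N 1 a • pd 0 (meanCurv s X) x - N 0 a • pd 1 (meanCurv s X) x) (pd 0 X x) *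
          ip s (N 1 a • pd 0 X x - N 0 a • pd 1 X x) (pd 1 X x)
        = ip s (N 1 a • pd 0 (meanCurv s X) x - N 0 a • pd 1 (meanCurv s X) x) (pd 1 X x) *
          ip s (N 1 a • pd 0 X x - N 0 a • pd 1 X x) (pd 0 X x) := by
  obtain ⟨r, μ, hr, h⟩ := h
  have hD' := metric_det s X x
  have key : (metric s X x).det⁻¹ * (metric s X x 0 0 * metric s X x 1 1
      - metric s X x 0 1 * metric s X x 0 1) = 1 := by
    rw [← hD', inv_mul_cancel₀ hx]
  simp only [Fin.sum_univ_two] at h
  -- the inner products of the hypothesis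
  have hi : ∀ k : Fin 2, r 0 * ip s (pd k X x) (pd 0 (meanCurv s X) x)
      + r 1 * ip s (pd k X x) (pd 1 (meanCurv s X) x)
      = μ * (r 0 * metric s X x k 0 + r 1 * metric s X x k 1) := by
    intro k
    have := congrArg (fun w => ip s (pd k X x) w) h
    simp only [ip_add, ip_smul] at this
    rw [this, metric_app, metric_app]
  have hc : ∀ a : Fin 4, r 0 * pd 0 (meanCurv s X) x a + r 1 * pd 1 (meanCurv s X) x a
      = μ * (r 0 * pd 0 X x a + r 1 * pd 1 X x a) := by
    intro a
    have := congrArg (fun w : E4 => w a) h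
    simpa only [PiLp.add_apply, PiLp.smul_apply, smul_eq_mul] using this
  have hn : ∀ a : Fin 4, r 0 * N 0 a + r 1 * N 1 a = 0 := by
    intro a
    have e0 := hi 0
    have e1 := hi 1
    have e2 := hc a
    rw [metric_symm] at e1
    rw [hN 0, hN 1]
    unfold normalPart
    simp only [Fin.sum_univ_two, metric_inv, PiLp.sub_apply, PiLp.add_apply, PiLp.smul_apply,
      smul_eq_mul]
    simp only [Matrix.of_apply, Matrix.cons_val', Matrix.cons_val_zero,
      Matrix.cons_val_one, Matrix.cons_val_fin_one, div_eq_mul_inv]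
    generalize ip s (pd 0 X x) (pd 0 (meanCurv s X) x) = A0 at *
    generalize ip s (pd 1 X x) (pd 0 (meanCurv s X) x) = A1 at *
    generalize ip s (pd 0 X x) (pd 1 (meanCurv s X) x) = B0 at *
    generalize ip s (pd 1 X x) (pd 1 (meanCurv s X) x) = B1 at *
    generalize (metric s X x).det⁻¹ = D at *
    generalize metric s X x 0 0 = g0 at *
    generalize metric s X x 0 1 = g1 at *
    generalize metric s X x 1 1 = g2 at *
    generalize pd 0 X x a = x0 at *
    generalize pd 1 X x a = x1 at *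
    linear_combination e2 - (g2 * D * x0 - g1 * D * x1) * e0
      - (g0 * D * x1 - g1 * D * x0) * e1 - μ * (r 0 * x0 + r 1 * x1) * key
  have hr' : r 0 ≠ 0 ∨ r 1 ≠ 0 := by
    by_contra hcon
    push Not at hcon
    apply hr
    funext i
    fin_cases i
    · exact hcon.1
    · exact hcon.2
  constructor
  · intro a b
    have h1 := hn a
    have h2 := hn b
    rcases hr' with h0 | h0
    · apply mul_left_cancel₀ h0
      linear_combination N 1 b * h1 - N 1 a * h2
    · apply mul_left_cancel₀ h0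
      linear_combination N 0 a * h2 - N 0 b * h1
  · intro a
    obtain ⟨t, ht0, ht1⟩ : ∃ t : ℝ, N 1 a = t * r 0 ∧ N 0 a = -(t * r 1) := by
      have h1 := hn a
      rcases hr' with h0 | h0
      · refine ⟨N 1 a / r 0, (div_mul_cancel₀ _ h0).symm, ?_⟩
        field_simp
        linear_combination h1
      · refine ⟨-N 0 a / r 1, ?_, ?_⟩
        · field_simp
          linear_combination h1
        · rw [div_mul_cancel₀ _ h0, neg_neg]
    have e0 := hi 0
    have e1 := hi 1
    rw [metric_symm] at e1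
    rw [ip_comm s _ (pd 0 X x), ip_comm s _ (pd 1 X x), ip_comm s _ (pd 1 X x),
      ip_comm s _ (pd 0 X x)]
    simp only [ip_sub, ip_smul]
    rw [← metric_app, ← metric_app, ← metric_app, ← metric_app, metric_symm, ht0, ht1]
    generalize ip s (pd 0 X x) (pd 0 (meanCurv s X) x) = A0 at *
    generalize ip s (pd 1 X x) (pd 0 (meanCurv s X) x) = A1 at *
    generalize ip s (pd 0 X x) (pd 1 (meanCurv s X) x) = B0 at *
    generalize ip s (pd 1 X x) (pd 1 (meanCurv s X) x) = B1 at *
    generalize metric s X x 0 0 = g0 at *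
    generalize metric s X x 0 1 = g1 at *
    generalize metric s X x 1 1 = g2 at *
    linear_combination t ^ 2 * (r 0 * g1 + r 1 * g2) * e0 - t ^ 2 * (r 0 * g0 + r 1 * g1) * e1

end Pool.H60.NC
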