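import Pool.Agent.H60.PE.Main
import Pool.Agent.H60.NC.TRodP
import Pool.Agent.H60.NC.KRodI

/-!
# Surfaces with `Δ H = c H` and `H` parallel in a principal direction have constant `<H,H>`

Scheme of `Pool.H60.NC.circ_const` (file `TCirc`, whose private lemma `tcirc_im0` may be copied): if `pd i W ≠ 0`
somewhere, restrict to the open set `Om` where it is not `0`, take the differential field of `Om`
(`exists_cbr`) and an `Im0` with `D = B.D`, `X = B.Φ s X`.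

`rod_pt` (file `TRodP`) gives the identities (1), (2).

Transfer (1) and (2) for `M = 2 H` or for `H` (`Φ_meanCurv` : `2 • B.Φ s (meanCurv s X) = trK ..`, `B.Φ_pd`,
`Φ_normalPart`, `B.φ_ip`, `B.Φ_smul`, `B.Φ_sub`; the coordinates of `B.Φ s f` are `B.eta s k * B.φ (f k)`, and
`B.eta s k ≠ 0`): they are the hypotheses `h1`, `h2` of `rod_poly` up to factors `4`, `8`, `B.eta s a`.
-/

namespace Pool.H60.NC

open scoped ContDiff
open Matrix
open Pool.Agent.H99.N2 (E2 E4 pd contDiffOn_pd contDiffOn_comp)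
open Pool.H60.PE

section field

variable {s : ℕ} {Om : Set E2} {K : Type} [Field K] [CharZero K]

/-- a surface with `Δ H = c H` over the differential field -/
private theorem trod_im0 (B : CBr Om K) (hO : IsOpen Om) (hne : Om.Nonempty) {X : E2 → E4}
    (hX : IsSurface s X Om) {c : ℝ} (hc : c ≠ 0)
    (hH : ∀ x ∈ Om, lap s X (meanCurv s X) x = c • meanCurv s X x) :
    ∃ I : Im0 K, I.D = B.D ∧ I.X = B.Φ s X := by
  have hm := contDiffOn_meanCurv hO hX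
  refine ⟨⟨B.D, B.Φ s X, delK B s X, B.φ (fun _ => c), delK_pow B hO hX, delK_ne B hO hX,
    B.const_ne hne hc, B.const_der c, ?_⟩, rfl, rfl⟩
  intro k
  have h1 : B.Φ s (lap s X (meanCurv s X)) = B.φ (fun _ => c) • B.Φ s (meanCurv s X) := by
    rw [← B.Φ_smul s (contDiffOn_const (c := c)) hm]
    exact B.Φ_congr s (contDiffOn_lap hO hX hm) ((contDiffOn_const (c := c)).smul hm) hH
  have h2 := Φ_lap B hO hX hm k
  rw [h1] at h2
  rw [← Φ_meanCurv B hO hX]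
  simp only [Pi.smul_apply, smul_eq_mul] at h2 ⊢
  have hlin : ∀ a : K, lapK B.D (B.Φ s X) (delK B s X) (2 * a)
      = 2 * lapK B.D (B.Φ s X) (delK B s X) a := by
    intro a
    have h2a : ∀ (j : Fin 2) (b : K), B.D.d j (2 * b) = 2 * B.D.d j b := by
      intro j b
      rw [two_mul, map_add, two_mul]
    simp only [lapK, h2a]
    have : ∀ i : Fin 2, B.D.d i (∑ j, delK B s X * gi B.D (B.Φ s X) i j * (2 * B.D.d j a))
        = 2 * B.D.d i (∑ j, delK B s X * gi B.D (B.Φ s X) i j * B.D.d j a) := by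
      intro i
      rw [← h2a, Finset.mul_sum]
      congr 1
      exact Finset.sum_congr rfl fun j _ => by ring
    simp only [this, ← Finset.mul_sum]
    ring
  rw [hlin, ← h2]
  ring

omit [CharZero K] in
private theorem trod_dv2 (d : Derivation ℤ K K) (v : Fin 4 → K) :
    dv d ((2 : K) • v) = (2 : K) • dv d v := by
  funext k
  change d (2 * v k) = 2 * d (v k)
  rw [two_mul, map_add, two_mul]

omit [CharZero K] in
private theorem trod_nor2 (D : DC K) (X v : Fin 4 → K) :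
    norK D X ((2 : K) • v) = (2 : K) • norK D X v := by
  unfold norK
  funext k
  simp only [Fin.sum_univ_two, dotProduct_smul, Pi.sub_apply, Pi.add_apply, Pi.smul_apply,
    smul_eq_mul]
  ring

end field

theorem rod_const (s : ℕ) {U : Set E2} (hU : IsOpen U) {X : E2 → E4}
    (hX : IsSurface s X U) (hs : ParallelInPrincipal s X U)
    (hH : ∃ c : ℝ, c ≠ 0 ∧ ∀ x ∈ U, lap s X (meanCurv s X) x = c • meanCurv s X x) :
    ∀ i : Fin 2, ∀ x ∈ U,
      pd i (fun y => ip s (meanCurv s X y) (meanCurv s X y)) x = 0 := by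
  obtain ⟨c, hc0, hH⟩ := hH
  have hsm : ContDiffOn ℝ ∞ (meanCurv s X) U := contDiffOn_meanCurv hU hX
  set W : E2 → ℝ := fun x => ip s (meanCurv s X x) (meanCurv s X x) with hWdef
  have hW : ContDiffOn ℝ ∞ W U := contDiffOn_ip s hsm hsm
  intro i
  by_contra hcon
  push Not at hcon
  obtain ⟨x0, hx0, hne0⟩ := hcon
  have hpd : ContDiffOn ℝ ∞ (pd i W) U := contDiffOn_pd hU hW i
  set Om : Set E2 := U ∩ pd i W ⁻¹' {0}ᶜ with hOmdef
  have hO : IsOpen Om := hpd.continuousOn.isOpen_inter_preimage hU isOpen_compl_singleton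
  have hOU : Om ⊆ U := Set.inter_subset_left
  have hne : Om.Nonempty := ⟨x0, hx0, hne0⟩
  obtain ⟨K, hF, hK, ⟨B⟩⟩ := exists_cbr Om hO hne
  have hX' : IsSurface s X Om := ⟨hX.1.mono hOU, fun x hx => hX.2 x (hOU hx)⟩
  obtain ⟨I, hD, hIX⟩ := trod_im0 B hO hne hX' hc0 fun x hx => hH x (hOU hx)
  have h1 : B.φ (pd i W) ≠ 0 := B.ne _ (hpd.mono hOU) fun x hx => hx.2
  apply h1
  rw [B.der i W (hW.mono hOU)]
  have hsm' : ContDiffOn ℝ ∞ (meanCurv s X) Om := hsm.mono hOU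
  have h2 : B.φ W = B.Φ s (meanCurv s X) ⬝ᵥ B.Φ s (meanCurv s X) :=
    B.φ_ip s hsm' hsm'
  have h3 := Φ_meanCurv B hO hX'
  -- the functions
  have sX : ∀ j : Fin 2, ContDiffOn ℝ ∞ (pd j X) Om := fun j => contDiffOn_pd hO hX'.1 j
  have sP : ∀ j : Fin 2, ContDiffOn ℝ ∞ (pd j (meanCurv s X)) Om := fun j =>
    contDiffOn_pd hO hsm' j
  set Nn : Fin 2 → E2 → E4 := fun j x => normalPart s X x (pd j (meanCurv s X) x) with hNn
  have sN : ∀ j : Fin 2, ContDiffOn ℝ ∞ (Nn j) Om := fun j =>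
    contDiffOn_normalPart hO hX' (sP j)
  have sNa : ∀ (j : Fin 2) (a : Fin 4), ContDiffOn ℝ ∞ (fun x => Nn j x a) Om := fun j a =>
    contDiffOn_comp (sN j) a
  have ΦX : ∀ j : Fin 2, B.Φ s (pd j X) = dv (B.D.d j) (B.Φ s X) := fun j =>
    B.Φ_pd s hO hX'.1 j
  have ΦM : ∀ j : Fin 2, dv (B.D.d j) (trK B.D (B.Φ s X)) = (2 : K) • B.Φ s (pd j (meanCurv s X)) := by
    intro j
    rw [← h3, trod_dv2, B.Φ_pd s hO hsm' j]
  have ΦN : ∀ j : Fin 2, norK B.D (B.Φ s X) (dv (B.D.d j) (trK B.D (B.Φ s X)))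
      = (2 : K) • B.Φ s (Nn j) := by
    intro j
    rw [ΦM j, trod_nor2, hNn, Φ_normalPart B hO hX' (sP j)]
  have ΦNa : ∀ (j : Fin 2) (a : Fin 4), B.Φ s (Nn j) a = B.eta s a * B.φ (fun x => Nn j x a) :=
    fun j a => rfl
  have hpt : ∀ x ∈ Om, _ := fun x hx =>
    rod_pt (hX.2 x (hOU hx)) (hs x (hOU hx)) (fun j => Nn j x) (fun j => rfl)
  have key := rod_poly I (fun j => norK B.D (B.Φ s X) (dv (B.D.d j) (trK B.D (B.Φ s X))))
    (fun j => dv (B.D.d j) (trK B.D (B.Φ s X))) (by rw [hD, hIX]; exact fun _ => rfl)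
    (by rw [hD, hIX]; exact fun _ => rfl) ?_ ?_ i
  · rw [hD, hIX, ← h3] at key
    have h5 : ((2 : K) • B.Φ s (meanCurv s X)) ⬝ᵥ ((2 : K) • B.Φ s (meanCurv s X))
        = ((4 : ℕ) : K) * B.φ W := by
      rw [h2, smul_dotProduct, dotProduct_smul, smul_eq_mul, smul_eq_mul]
      push_cast
      ring
    rw [h5, ← nsmul_eq_mul, map_nsmul, nsmul_eq_mul] at key
    rcases mul_eq_zero.1 key with h6 | h6
    · exact absurd h6 (by norm_num)
    · exact h6
  · intro a b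
    have e : B.φ (fun x => Nn 0 x a) * B.φ (fun x => Nn 1 x b)
        = B.φ (fun x => Nn 0 x b) * B.φ (fun x => Nn 1 x a) := by
      rw [← B.mul _ _ (sNa 0 a) (sNa 1 b), ← B.mul _ _ (sNa 0 b) (sNa 1 a)]
      exact B.congr _ _ ((sNa 0 a).mul (sNa 1 b)) ((sNa 0 b).mul (sNa 1 a))
        fun x hx => (hpt x hx).1 a b
    simp only [ΦN, Pi.smul_apply, smul_eq_mul, ΦNa]
    linear_combination (4 * B.eta s a * B.eta s b) * e
  · intro a
    set V : E2 → E4 := fun x => Nn 1 x a • pd 0 (meanCurv s X) x - Nn 0 x a • pd 1 (meanCurv s X) x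
      with hV
    set Y : E2 → E4 := fun x => Nn 1 x a • pd 0 X x - Nn 0 x a • pd 1 X x with hY
    have sV : ContDiffOn ℝ ∞ V Om := ((sNa 1 a).smul (sP 0)).sub ((sNa 0 a).smul (sP 1))
    have sY : ContDiffOn ℝ ∞ Y Om := ((sNa 1 a).smul (sX 0)).sub ((sNa 0 a).smul (sX 1))
    have ΦV : B.Φ s V = B.φ (fun x => Nn 1 x a) • B.Φ s (pd 0 (meanCurv s X))
        - B.φ (fun x => Nn 0 x a) • B.Φ s (pd 1 (meanCurv s X)) :=
      (B.Φ_sub s ((sNa 1 a).smul (sP 0)) ((sNa 0 a).smul (sP 1))).trans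
        (congrArg₂ (fun p q => p - q) (B.Φ_smul s (sNa 1 a) (sP 0)) (B.Φ_smul s (sNa 0 a) (sP 1)))
    have ΦY : B.Φ s Y = B.φ (fun x => Nn 1 x a) • B.Φ s (pd 0 X)
        - B.φ (fun x => Nn 0 x a) • B.Φ s (pd 1 X) :=
      (B.Φ_sub s ((sNa 1 a).smul (sX 0)) ((sNa 0 a).smul (sX 1))).trans
        (congrArg₂ (fun p q => p - q) (B.Φ_smul s (sNa 1 a) (sX 0)) (B.Φ_smul s (sNa 0 a) (sX 1)))
    have e : (B.Φ s V ⬝ᵥ B.Φ s (pd 0 X)) * (B.Φ s Y ⬝ᵥ B.Φ s (pd 1 X))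
        = (B.Φ s V ⬝ᵥ B.Φ s (pd 1 X)) * (B.Φ s Y ⬝ᵥ B.Φ s (pd 0 X)) := by
      have c1 := contDiffOn_ip s sV (sX 0)
      have c2 := contDiffOn_ip s sY (sX 1)
      have c3 := contDiffOn_ip s sV (sX 1)
      have c4 := contDiffOn_ip s sY (sX 0)
      rw [← B.φ_ip s sV (sX 0), ← B.φ_ip s sY (sX 1), ← B.φ_ip s sV (sX 1),
        ← B.φ_ip s sY (sX 0), ← B.mul _ _ c1 c2, ← B.mul _ _ c3 c4]
      exact B.congr _ _ (c1.mul c2) (c3.mul c4) fun x hx => (hpt x hx).2 a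
    rw [hD, hIX]
    have eV : norK B.D (B.Φ s X) (dv (B.D.d 1) (trK B.D (B.Φ s X))) a •
          dv (B.D.d 0) (trK B.D (B.Φ s X)) -
        norK B.D (B.Φ s X) (dv (B.D.d 0) (trK B.D (B.Φ s X))) a •
          dv (B.D.d 1) (trK B.D (B.Φ s X)) = (4 * B.eta s a) • B.Φ s V := by
      rw [ΦV, ΦN 0, ΦN 1, ΦM 0, ΦM 1]
      funext k
      simp only [Pi.smul_apply, Pi.sub_apply, smul_eq_mul, ΦNa]
      ring
    have eY : norK B.D (B.Φ s X) (dv (B.D.d 1) (trK B.D (B.Φ s X))) a • dv (B.D.d 0) (B.Φ s X) -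
        norK B.D (B.Φ s X) (dv (B.D.d 0) (trK B.D (B.Φ s X))) a • dv (B.D.d 1) (B.Φ s X)
          = (2 * B.eta s a) • B.Φ s Y := by
      rw [ΦY, ΦN 0, ΦN 1, ΦX 0, ΦX 1]
      funext k
      simp only [Pi.smul_apply, Pi.sub_apply, smul_eq_mul, ΦNa]
      ring
    rw [eV, eY, ← ΦX 0, ← ΦX 1]
    simp only [smul_dotProduct, smul_eq_mul]
    linear_combination (8 * B.eta s a * B.eta s a) * e

end Pool.H60.NC
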