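import Pool.Agent.H60.NC.MCirc
import Pool.Agent.H60.NC.TIso
import Pool.Agent.H60.NC.TRod

/-!
# `<H,H>` is constant under a condition at a dense set of points
-/

namespace Pool.H60.NC

open scoped ContDiff
open Matrix
open Pool.Agent.H99.N2 (E2 E4 pd contDiffOn_pd contDiffOn_comp)
open Pool.H60.PE

/-- Each neighbourhood of each point of `U` contains a nonempty open subset of `U` on which the
normal bundle is flat, or `h(r,r)` is isotropic for an isotropic `r`, or `H` is parallel in a principal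
direction. -/
def DenselySpecial (s : ℕ) (X : E2 → E4) (U : Set E2) : Prop :=
  ∀ x ∈ U, ∀ N ∈ nhds x, ∃ O : Set E2, IsOpen O ∧ O.Nonempty ∧ O ⊆ N ∩ U ∧
    (FlatNormalBundle s X O ∨ HasIsotropic s X O ∨ ParallelInPrincipal s X O)

theorem main_three (s : ℕ) {U : Set E2} (hU : IsOpen U) (hc : IsPreconnected U) {X : E2 → E4}
    (hX : IsSurface s X U) (hloc : DenselySpecial s X U)
    (hH : ∃ c : ℝ, c ≠ 0 ∧ ∀ x ∈ U, lap s X (meanCurv s X) x = c • meanCurv s X x) :
    ∃ C : ℝ, ∀ x ∈ U, ip s (meanCurv s X x) (meanCurv s X x) = C := by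
  have hsm : ContDiffOn ℝ ∞ (meanCurv s X) U := contDiffOn_meanCurv hU hX
  set W : E2 → ℝ := fun x => ip s (meanCurv s X x) (meanCurv s X x) with hWdef
  have hW : ContDiffOn ℝ ∞ W U := contDiffOn_ip s hsm hsm
  have key : ∀ i : Fin 2, ∀ x ∈ U, pd i W x = 0 := by
    intro i x hx
    by_contra hne
    have hpd : ContDiffOn ℝ ∞ (pd i W) U := contDiffOn_pd hU hW i
    have hO : IsOpen (U ∩ pd i W ⁻¹' {0}ᶜ) :=
      hpd.continuousOn.isOpen_inter_preimage hU isOpen_compl_singleton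
    obtain ⟨O, hOo, ⟨y, hy⟩, hON, h⟩ := hloc x hx _ (hO.mem_nhds ⟨hx, hne⟩)
    have hOU : O ⊆ U := fun z hz => (hON hz).2
    have hX' : IsSurface s X O := ⟨hX.1.mono hOU, fun x hx => hX.2 x (hOU hx)⟩
    obtain ⟨c, hc0, hH⟩ := hH
    have hH' : ∃ c : ℝ, c ≠ 0 ∧ ∀ x ∈ O, lap s X (meanCurv s X) x = c • meanCurv s X x :=
      ⟨c, hc0, fun x hx => hH x (hOU hx)⟩
    have h0 : pd i W y = 0 := by
      rcases h with h | h | h
      · exact flat_grad s hOo hX' h hH' i y hy
      · exact iso_const s hOo hX' h hH' i y hy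
      · exact rod_const s hOo hX' h hH' i y hy
    exact (hON hy).1.2 h0
  have hf : Set.EqOn (fderiv ℝ W) 0 U := by
    intro x hx
    have hb : ∀ j : Fin 2, fderiv ℝ W x (EuclideanSpace.single j 1) = 0 := fun j => key j x hx
    apply ContinuousLinearMap.coe_injective
    refine (EuclideanSpace.basisFun (Fin 2) ℝ).toBasis.ext fun j => ?_
    simpa using hb j
  obtain ⟨a, ha⟩ := hU.exists_is_const_of_fderiv_eq_zero hc
    (hW.differentiableOn (by simp)) hf
  exact ⟨a, fun x hx => ha x hx⟩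

end Pool.H60.NC
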