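import Pool.Agent.H60.PE.PBel
import Pool.Agent.H60.NC.Defs

/-!
# The Ricci equation

`normalPart_eq`: the definition of `normalPart` and `metric_inv`.
`flat_of_ricci`: let `n` be a smooth normal field.  Differentiating `<X_k, n> = 0`:
`<X_k, n_i> = -<X_ik, n>` (`n_i = pd i n`), so `∇_i n = normalPart(n_i)
= n_i + Σ_kl g^kl <X_ik, n> X_l`.  Apply `∂_j` and `normalPart` (which kills the `X_l`):
`∇_j ∇_i n = normalPart(∂_j n_i) + Σ_kl g^kl <X_ik, n> normalPart(X_jl)`.  The difference for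
`(j, i) = (0, 1)` and `(1, 0)` is the sum in `h` for the vector `n x`, since `∂_0 n_1 = ∂_1 n_0`.
-/

namespace Pool.H60.NC

open scoped ContDiff
open Pool.Agent.H99.N2 (E2 E4 pd contDiffOn_pd contDiffOn_comp pd_comp)
open Pool.H60.PE

theorem normalPart_eq {s : ℕ} {X : E2 → E4} {x : E2} (hx : (metric s X x).det ≠ 0) {v n : E4}
    {a b : ℝ} (hv : v = a • pd 0 X x + b • pd 1 X x + n) (hn : ∀ k, ip s (pd k X x) n = 0) :
    normalPart s X x v = n := by
  have hD' := metric_det s X x
  have key : (metric s X x).det⁻¹ * (metric s X x 0 0 * metric s X x 1 1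
      - metric s X x 0 1 * metric s X x 0 1) = 1 := by
    rw [← hD', inv_mul_cancel₀ hx]
  have hip : ∀ k, ip s (pd k X x) v = a * metric s X x k 0 + b * metric s X x k 1 := by
    intro k
    rw [hv, ip_add, ip_add, ip_smul, ip_smul, hn k, add_zero]
    rfl
  have h0 : (metric s X x)⁻¹ 0 0 * ip s (pd 0 X x) v + (metric s X x)⁻¹ 1 0 * ip s (pd 1 X x) v
      = a := by
    rw [hip, hip, metric_inv, metric_inv, metric_symm]
    simp only [Matrix.of_apply, Matrix.cons_val', Matrix.cons_val_zero,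
      Matrix.cons_val_one, Matrix.cons_val_fin_one, div_eq_mul_inv]
    linear_combination a * key
  have h1 : (metric s X x)⁻¹ 0 1 * ip s (pd 0 X x) v + (metric s X x)⁻¹ 1 1 * ip s (pd 1 X x) v
      = b := by
    rw [hip, hip, metric_inv, metric_inv, metric_symm]
    simp only [Matrix.of_apply, Matrix.cons_val', Matrix.cons_val_zero,
      Matrix.cons_val_one, Matrix.cons_val_fin_one, div_eq_mul_inv]
    linear_combination b * key
  unfold normalPart
  simp only [Fin.sum_univ_two]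
  have e : (((metric s X x)⁻¹ 0 0 * ip s (pd 0 X x) v) • pd 0 X x +
      ((metric s X x)⁻¹ 0 1 * ip s (pd 0 X x) v) • pd 1 X x +
      (((metric s X x)⁻¹ 1 0 * ip s (pd 1 X x) v) • pd 0 X x +
      ((metric s X x)⁻¹ 1 1 * ip s (pd 1 X x) v) • pd 1 X x)) =
      a • pd 0 X x + b • pd 1 X x := by
    rw [← h0, ← h1, add_smul, add_smul]
    abel
  rw [e]
  nth_rewrite 1 [hv]
  abel

/-- each vector is tangential + normal -/
theorem exists_tan {s : ℕ} {X : E2 → E4} (x : E2) (v : E4) :
    ∃ a b : ℝ, v = a • pd 0 X x + b • pd 1 X x + normalPart s X x v := by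
  refine ⟨(metric s X x)⁻¹ 0 0 * ip s (pd 0 X x) v + (metric s X x)⁻¹ 1 0 * ip s (pd 1 X x) v,
    (metric s X x)⁻¹ 0 1 * ip s (pd 0 X x) v + (metric s X x)⁻¹ 1 1 * ip s (pd 1 X x) v, ?_⟩
  unfold normalPart
  simp only [Fin.sum_univ_two]
  rw [add_smul, add_smul]
  abel

private theorem ric_diff {V : Set E2} (hV : IsOpen V) {F : Type} [NormedAddCommGroup F]
    [NormedSpace ℝ F] {f : E2 → F} (hf : ContDiffOn ℝ ∞ f V) {x : E2} (hx : x ∈ V) :
    DifferentiableAt ℝ f x :=
  (hf.contDiffAt (hV.mem_nhds hx)).differentiableAt (by simp)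

private theorem ric_comm {F : Type} [NormedAddCommGroup F] [NormedSpace ℝ F] {f : E2 → F} {x : E2}
    (hf : ContDiffAt ℝ ∞ f x) : pd 0 (pd 1 f) x = pd 1 (pd 0 f) x := by
  have hs : IsSymmSndFDerivAt ℝ f x := hf.isSymmSndFDerivAt (by simp; exact ENat.LEInfty.out)
  have hd : DifferentiableAt ℝ (fderiv ℝ f) x :=
    (hf.fderiv_right (m := ∞) (by simp)).differentiableAt (by simp)
  have key : ∀ i j : Fin 2, pd i (pd j f) x =
      fderiv ℝ (fderiv ℝ f) x (EuclideanSpace.single i 1) (EuclideanSpace.single j 1) := by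
    intro i j
    have h1 : HasFDerivAt (fun y => fderiv ℝ f y (EuclideanSpace.single j (1 : ℝ)))
        ((fderiv ℝ (fderiv ℝ f) x).flip (EuclideanSpace.single j (1 : ℝ))) x := by
      have := hd.hasFDerivAt.clm_apply (hasFDerivAt_const (EuclideanSpace.single j (1 : ℝ)) x)
      simpa using this
    unfold pd
    have h2 : fderiv ℝ (fun y => fderiv ℝ f y (EuclideanSpace.single j (1 : ℝ))) x =
      ((fderiv ℝ (fderiv ℝ f) x).flip (EuclideanSpace.single j (1 : ℝ))) := h1.fderiv
    change fderiv ℝ (fun y => fderiv ℝ f y (EuclideanSpace.single j (1 : ℝ))) x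
      (EuclideanSpace.single i (1 : ℝ)) = _
    rw [h2]
    rfl
  rw [key, key]
  exact hs _ _

private theorem ric_add {F : Type} [NormedAddCommGroup F] [NormedSpace ℝ F] {f g : E2 → F}
    {x : E2} (hf : DifferentiableAt ℝ f x) (hg : DifferentiableAt ℝ g x) (i : Fin 2) :
    pd i (fun y => f y + g y) x = pd i f x + pd i g x := by
  unfold pd
  rw [fderiv_fun_add hf hg]
  rfl

private theorem ric_add5 {F : Type} [NormedAddCommGroup F] [NormedSpace ℝ F] {f a b c e : E2 → F}
    {x : E2} (hf : DifferentiableAt ℝ f x) (ha : DifferentiableAt ℝ a x)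
    (hb : DifferentiableAt ℝ b x) (hc : DifferentiableAt ℝ c x) (he : DifferentiableAt ℝ e x)
    (i : Fin 2) : pd i (fun y => f y + ((a y + b y) + (c y + e y))) x =
      pd i f x + ((pd i a x + pd i b x) + (pd i c x + pd i e x)) := by
  have h1 : DifferentiableAt ℝ (fun y => a y + b y) x := ha.add hb
  have h2 : DifferentiableAt ℝ (fun y => c y + e y) x := hc.add he
  have h3 : DifferentiableAt ℝ (fun y => (a y + b y) + (c y + e y)) x := h1.add h2
  rw [ric_add hf h3 i, ric_add h1 h2 i, ric_add ha hb i, ric_add hc he i]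

private theorem ric_smul {F : Type} [NormedAddCommGroup F] [NormedSpace ℝ F] {c : E2 → ℝ}
    {f : E2 → F} {x : E2} (hc : DifferentiableAt ℝ c x) (hf : DifferentiableAt ℝ f x) (i : Fin 2) :
    pd i (fun y => c y • f y) x = c x • pd i f x + pd i c x • f x := by
  unfold pd
  rw [fderiv_fun_smul hc hf]
  rfl

private theorem ric_mul {f g : E2 → ℝ} {x : E2} (hf : DifferentiableAt ℝ f x)
    (hg : DifferentiableAt ℝ g x) (i : Fin 2) :
    pd i (fun y => f y * g y) x = f x * pd i g x + g x * pd i f x := by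
  unfold pd
  rw [fderiv_fun_mul hf hg]
  simp

private theorem ric_congr {F : Type} [NormedAddCommGroup F] [NormedSpace ℝ F] {f g : E2 → F}
    {V : Set E2} (hV : IsOpen V) (h : ∀ y ∈ V, f y = g y) {x : E2} (hx : x ∈ V) (i : Fin 2) :
    pd i f x = pd i g x := by
  unfold pd
  have h' : f =ᶠ[nhds x] g := by
    filter_upwards [hV.mem_nhds hx] with y hy
    exact h y hy
  rw [h'.fderiv_eq]

/-- the derivative of the scalar product -/
private theorem ric_ip (s : ℕ) {V : Set E2} (hV : IsOpen V) {f g : E2 → E4}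
    (hf : ContDiffOn ℝ ∞ f V) (hg : ContDiffOn ℝ ∞ g V) {x : E2} (hx : x ∈ V) (i : Fin 2) :
    pd i (fun y => ip s (f y) (g y)) x = ip s (pd i f x) (g x) + ip s (f x) (pd i g x) := by
  have hd : ∀ k : Fin 4, DifferentiableAt ℝ (fun y => sgn s k * (f y k * g y k)) x := fun k =>
    (ric_diff hV ((contDiffOn_comp hf k).mul (contDiffOn_comp hg k)) hx).const_mul (sgn s k)
  have h1 : pd i (fun y => ip s (f y) (g y)) x =
      ∑ k, pd i (fun y => sgn s k * (f y k * g y k)) x := by
    unfold pd ip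
    rw [fderiv_fun_sum fun k _ => hd k]
    rw [ContinuousLinearMap.sum_apply]
  rw [h1]
  unfold ip
  rw [← Finset.sum_add_distrib]
  refine Finset.sum_congr rfl fun k _ => ?_
  have h2 : pd i (fun y => sgn s k * (f y k * g y k)) x = sgn s k * pd i (fun y => f y k * g y k) x := by
    have h3 := ric_mul (f := fun _ : E2 => sgn s k) (g := fun y => f y k * g y k) (x := x)
      (differentiableAt_const _) (ric_diff hV ((contDiffOn_comp hf k).mul (contDiffOn_comp hg k)) hx) i
    have h4 : pd i (fun _ : E2 => sgn s k) x = 0 := by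
      unfold pd
      simp
    rw [h3, h4, mul_zero, add_zero]
  rw [h2, ric_mul (ric_diff hV (contDiffOn_comp hf k) hx) (ric_diff hV (contDiffOn_comp hg k) hx) i,
    pd_comp hV hf i k hx, pd_comp hV hg i k hx]
  ring

private theorem ric_np_add (s : ℕ) (X : E2 → E4) (x : E2) (v w : E4) :
    normalPart s X x (v + w) = normalPart s X x v + normalPart s X x w := by
  unfold normalPart
  simp only [Fin.sum_univ_two, ip_add, mul_add, add_smul]
  abel

private theorem ric_np_smul (s : ℕ) (X : E2 → E4) (x : E2) (c : ℝ) (v : E4) :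
    normalPart s X x (c • v) = c • normalPart s X x v := by
  unfold normalPart
  simp only [Fin.sum_univ_two, ip_smul, smul_sub, smul_add, smul_smul]
  congr 1
  congr 1 <;> congr 1 <;> congr 1 <;> ring

private theorem ric_np_tan {s : ℕ} {X : E2 → E4} {x : E2} (hx : (metric s X x).det ≠ 0)
    (l : Fin 2) : normalPart s X x (pd l X x) = 0 := by
  have h0 : ∀ k : Fin 2, ip s (pd k X x) 0 = 0 := fun k => by
    unfold ip
    simp
  fin_cases l
  · refine normalPart_eq (a := 1) (b := 0) hx ?_ h0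
    simp
  · refine normalPart_eq (a := 0) (b := 1) hx ?_ h0
    simp

/-- the derivative of the normal field in the normal connection -/
private theorem ric_nab {s : ℕ} {V : Set E2} (hV : IsOpen V) {X : E2 → E4} (hX : IsSurface s X V)
    {n : E2 → E4} (hn : ContDiffOn ℝ ∞ n V) (hn0 : ∀ x ∈ V, ∀ i, ip s (pd i X x) (n x) = 0)
    (i : Fin 2) {y : E2} (hy : y ∈ V) : nablaPerp s X i n y = pd i n y +
      ∑ k, ∑ l, ((metric s X y)⁻¹ k l * ip s (pd i (pd k X) y) (n y)) • pd l X y := by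
  have h1 : ∀ k : Fin 2, ip s (pd k X y) (pd i n y) = -ip s (pd i (pd k X) y) (n y) := by
    intro k
    have h2 := ric_ip s hV (contDiffOn_pd hV hX.1 k) hn hy i
    have h3 : pd i (fun z => ip s (pd k X z) (n z)) y = 0 := by
      rw [ric_congr hV (g := fun _ => (0 : ℝ)) (fun z hz => hn0 z hz k) hy i]
      unfold pd
      simp
    rw [h3] at h2
    linarith
  unfold nablaPerp normalPart
  rw [sub_eq_add_neg, ← Finset.sum_neg_distrib]
  congr 1
  refine Finset.sum_congr rfl fun k _ => ?_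
  rw [← Finset.sum_neg_distrib]
  refine Finset.sum_congr rfl fun l _ => ?_
  rw [h1 k, ← neg_smul]
  congr 1
  ring

/-- the second derivative of the normal field in the normal connection -/
private theorem ric_nab2 {s : ℕ} {V : Set E2} (hV : IsOpen V) {X : E2 → E4}
    (hX : IsSurface s X V) {n : E2 → E4} (hn : ContDiffOn ℝ ∞ n V)
    (hn0 : ∀ x ∈ V, ∀ i, ip s (pd i X x) (n x) = 0) (i j : Fin 2) {x : E2} (hx : x ∈ V) :
    nablaPerp s X j (nablaPerp s X i n) x = normalPart s X x (pd j (pd i n) x) +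
      ∑ k, ∑ l, ((metric s X x)⁻¹ k l * ip s (pd i (pd k X) x) (n x)) •
        normalPart s X x (pd j (pd l X) x) := by
  have hc : ∀ k l : Fin 2, ContDiffOn ℝ ∞ (fun y => (metric s X y)⁻¹ k l *
      ip s (pd i (pd k X) y) (n y)) V := fun k l =>
    (contDiffOn_metric_inv hV hX k l).mul
      (contDiffOn_ip s (contDiffOn_pd hV (contDiffOn_pd hV hX.1 k) i) hn)
  have hpl : ∀ l : Fin 2, ContDiffOn ℝ ∞ (pd l X) V := fun l => contDiffOn_pd hV hX.1 l
  have hni : ContDiffOn ℝ ∞ (pd i n) V := contDiffOn_pd hV hn i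
  have hterm : ∀ k l : Fin 2, ContDiffOn ℝ ∞ (fun y => ((metric s X y)⁻¹ k l *
      ip s (pd i (pd k X) y) (n y)) • pd l X y) V := fun k l => (hc k l).smul (hpl l)
  have h1 : pd j (nablaPerp s X i n) x = pd j (fun y => pd i n y +
      ((((metric s X y)⁻¹ 0 0 * ip s (pd i (pd 0 X) y) (n y)) • pd 0 X y +
        ((metric s X y)⁻¹ 0 1 * ip s (pd i (pd 0 X) y) (n y)) • pd 1 X y) +
      (((metric s X y)⁻¹ 1 0 * ip s (pd i (pd 1 X) y) (n y)) • pd 0 X y +
        ((metric s X y)⁻¹ 1 1 * ip s (pd i (pd 1 X) y) (n y)) • pd 1 X y))) x := by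
    refine ric_congr hV (fun y hy => ?_) hx j
    rw [ric_nab hV hX hn hn0 i hy]
    simp only [Fin.sum_univ_two]
  have hd := fun k l => ric_diff hV (hterm k l) hx
  unfold nablaPerp at h1 ⊢
  rw [h1, ric_add5 (ric_diff hV hni hx) (hd 0 0) (hd 0 1) (hd 1 0) (hd 1 1) j,
    ric_smul (ric_diff hV (hc 0 0) hx) (ric_diff hV (hpl 0) hx) j,
    ric_smul (ric_diff hV (hc 0 1) hx) (ric_diff hV (hpl 1) hx) j,
    ric_smul (ric_diff hV (hc 1 0) hx) (ric_diff hV (hpl 0) hx) j,
    ric_smul (ric_diff hV (hc 1 1) hx) (ric_diff hV (hpl 1) hx) j]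
  simp only [ric_np_add, ric_np_smul, ric_np_tan (hX.2 x hx), smul_zero, add_zero, Fin.sum_univ_two]

theorem flat_of_ricci {s : ℕ} {V : Set E2} (hV : IsOpen V) {X : E2 → E4} (hX : IsSurface s X V)
    (h : ∀ x ∈ V, ∀ n : E4, (∀ k, ip s (pd k X x) n = 0) →
      ∑ k, ∑ l, (metric s X x)⁻¹ k l •
        (ip s (pd 1 (pd k X) x) n • normalPart s X x (pd 0 (pd l X) x)
          - ip s (pd 0 (pd k X) x) n • normalPart s X x (pd 1 (pd l X) x)) = 0) :
    FlatNormalBundle s X V := by
  intro n hn hn0 x hx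
  have h1 := h x hx (n x) (hn0 x hx)
  rw [ric_nab2 hV hX hn hn0 1 0 hx, ric_nab2 hV hX hn hn0 0 1 hx,
    ric_comm (hn.contDiffAt (hV.mem_nhds hx))]
  congr 1
  rw [← sub_eq_zero, ← h1, ← Finset.sum_sub_distrib]
  refine Finset.sum_congr rfl fun k _ => ?_
  rw [← Finset.sum_sub_distrib]
  refine Finset.sum_congr rfl fun l _ => ?_
  rw [smul_sub, smul_smul, smul_smul]

end Pool.H60.NC
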