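import Pool.Agent.H60.PE.Main
import Pool.Agent.H60.NC.CircDef
import Pool.Agent.H60.NC.KEx
import Pool.Agent.H60.NC.KCirc

/-!
# Superconformal surfaces with `Δ H = c H` have constant `<H,H>`

The proof follows `Pool.H60.PE.main`: if `pd i W ≠ 0` somewhere, restrict to the open set `Om` where
it is not `0`, take the differential field of `Om` (`exists_cbr`) and an `Im0` with `D = B.D`,
`X = B.Φ s X`, `c = B.φ (fun _ => c)` (built as in `Pool.H60.PE.exists_imm`, without `flat`), and a null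
frame `N` (`exists_nfr`), `f2 = b_0 d_0 + b_1 d_1`, `v2 = Σ b_i X_i`.
`be = norK(dv f2 v2)`: `N.s22` says `dv f2 v2 = -w2 v2 + be`, `be` is orthogonal to `v1`, `v2` hence to
`X_0`, `X_1` (`δ ≠ 0`), so `norK be = be`, `norK v2 = 0`.  Since `dv f2 v2 = Σ b_i b_j X_ij + Σ (f2 b_j) X_j`:
`be = Σ b_i b_j h_ij`, `h_ij = norK X_ij`.
From `hs` with `r = (1,0), (0,1), (1,1), (1,-1), (1,2)` (or by comparing coefficients of polynomials in
`r`) one gets the five coefficient identities of the quartic form, e.g.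
`<h_00,h_00> = g_00 L_00`, `4 <h_00,h_01> = 2 g_01 L_00 + g_00 (L_01 + L_10)`, ...; transferred to the
field (`Φ_normalPart`, `φ_ip`, `φ_metric` ...) they give
`be.be = (Σ g_ij b_i b_j)(Σ L_ij b_i b_j) = (v2.v2)(...) = 0`.  `NFr.circ` gives `f1 W = f2 W = 0`, so
`d_i W = 0` (`δ ≠ 0`), a contradiction as in `main`.
-/

namespace Pool.H60.NC

open scoped ContDiff
open Matrix
open Pool.Agent.H99.N2 (E2 E4 pd contDiffOn_pd contDiffOn_comp)
open Pool.H60.PE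

section field

variable {s : ℕ} {Om : Set E2} {K : Type} [Field K] [CharZero K]

/-- a surface with `Δ H = c H` over the differential field -/
private theorem tcirc_im0 (B : CBr Om K) (hO : IsOpen Om) (hne : Om.Nonempty) {X : E2 → E4}
    (hX : IsSurface s X Om) {c : ℝ} (hc : c ≠ 0)
    (hH : ∀ x ∈ Om, lap s X (meanCurv s X) x = c • meanCurv s X x) :
    ∃ I : Im0 K, I.D = B.D ∧ I.X = B.Φ s X := by
  have hm := contDiffOn_meanCurv hO hX
  refine ⟨⟨B.D, B.Φ s X, delK B s X, B.φ (fun _ => c), delK_pow B hO hX, delK_ne B hO hX,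
    B.const_ne hne hc, B.const_der c, ?_⟩, rfl, rfl⟩
  intro k
  have h1 : B.Φ s (lap s X (meanCurv s X)) = B.φ (fun _ => c) • B.Φ s (meanCurv s X) := by
    rw [← B.Φ_smul s (contDiffOn_const (c := c)) hm]
    exact B.Φ_congr s (contDiffOn_lap hO hX hm) ((contDiffOn_const (c := c)).smul hm) hH
  have h2 := Φ_lap B hO hX hm k
  rw [h1] at h2
  rw [← Φ_meanCurv B hO hX]
  simp only [Pi.smul_apply, smul_eq_mul] at h2 ⊢
  have hlin : ∀ a : K, lapK B.D (B.Φ s X) (delK B s X) (2 * a)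
      = 2 * lapK B.D (B.Φ s X) (delK B s X) a := by
    intro a
    have h2a : ∀ (j : Fin 2) (b : K), B.D.d j (2 * b) = 2 * B.D.d j b := by
      intro j b
      rw [two_mul, map_add, two_mul]
    simp only [lapK, h2a]
    have : ∀ i : Fin 2, B.D.d i (∑ j, delK B s X * gi B.D (B.Φ s X) i j * (2 * B.D.d j a))
        = 2 * B.D.d i (∑ j, delK B s X * gi B.D (B.Φ s X) i j * B.D.d j a) := by
      intro i
      rw [← h2a, Finset.mul_sum]
      congr 1
      exact Finset.sum_congr rfl fun j _ => by ring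
    simp only [this, ← Finset.mul_sum]
    ring
  rw [hlin, ← h2]
  ring

variable {D : DC K} {X : Fin 4 → K}

private theorem tcirc_nadd (v w : Fin 4 → K) :
    norK D X (v + w) = norK D X v + norK D X w := by
  unfold norK
  funext k
  simp only [Fin.sum_univ_two, dotProduct_add, Pi.sub_apply, Pi.add_apply, Pi.smul_apply,
    smul_eq_mul]
  ring

private theorem tcirc_coord (h : gdet D X ≠ 0) (k : Fin 2) :
    norK D X (dv (D.d k) X) = 0 := by
  have hs : gm D X 1 0 = gm D X 0 1 := dotProduct_comm _ _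
  have hg : gm D X 0 0 * gm D X 1 1 - gm D X 0 1 ^ 2 ≠ 0 := h
  funext n
  have e : ∀ i, dv (D.d i) X ⬝ᵥ dv (D.d k) X = gm D X i k := fun i => rfl
  unfold norK
  simp only [e, Fin.sum_univ_two, gi, gdet, Pi.sub_apply, Pi.add_apply, Pi.smul_apply,
    smul_eq_mul, Pi.zero_apply, Matrix.of_apply, Matrix.cons_val', Matrix.cons_val_zero,
    Matrix.cons_val_one, Matrix.cons_val_fin_one]
  have hi := mul_inv_cancel₀ hg
  fin_cases k
  · simp only [Fin.zero_eta, Fin.isValue, hs]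
    linear_combination (-(dv (D.d 0) X n)) * hi
  · simp only [Fin.mk_one, Fin.isValue]
    linear_combination (-(dv (D.d 1) X n)) * hi

private theorem tcirc_be (hg : gdet D X ≠ 0) (N : NFr K) {a b : Fin 2 → K}
    (h1 : ∀ f, N.f1 f = a 0 * D.d 0 f + a 1 * D.d 1 f)
    (h2 : ∀ f, N.f2 f = b 0 * D.d 0 f + b 1 * D.d 1 f)
    (hδ : a 0 * b 1 - a 1 * b 0 ≠ 0) (hv1 : N.v1 = dv N.f1 X) (hv2 : N.v2 = dv N.f2 X) :
    N.be = (b 0 * b 0) • norK D X (dv (D.d 0) (dv (D.d 0) X)) +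
      (b 0 * b 1) • (norK D X (dv (D.d 0) (dv (D.d 1) X)) +
        norK D X (dv (D.d 1) (dv (D.d 0) X))) +
      (b 1 * b 1) • norK D X (dv (D.d 1) (dv (D.d 1) X)) := by
  have e1 : N.v1 = a 0 • dv (D.d 0) X + a 1 • dv (D.d 1) X := by
    rw [hv1]
    funext k
    exact h1 (X k)
  have hdv2 : ∀ v : Fin 4 → K, dv N.f2 v = b 0 • dv (D.d 0) v + b 1 • dv (D.d 1) v := by
    intro v
    funext k
    exact h2 (v k)
  have e2 : N.v2 = b 0 • dv (D.d 0) X + b 1 • dv (D.d 1) X := by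
    rw [hv2]
    exact hdv2 X
  have p1 := N.b1
  have p2 := N.b2
  rw [e1, add_dotProduct, smul_dotProduct, smul_dotProduct, smul_eq_mul, smul_eq_mul] at p1
  rw [e2, add_dotProduct, smul_dotProduct, smul_dotProduct, smul_eq_mul, smul_eq_mul] at p2
  have z0 : dv (D.d 0) X ⬝ᵥ N.be = 0 := by
    have : (a 0 * b 1 - a 1 * b 0) * (dv (D.d 0) X ⬝ᵥ N.be) = 0 := by
      linear_combination b 1 * p1 - a 1 * p2
    exact (mul_eq_zero.mp this).resolve_left hδ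
  have z1 : dv (D.d 1) X ⬝ᵥ N.be = 0 := by
    have : (a 0 * b 1 - a 1 * b 0) * (dv (D.d 1) X ⬝ᵥ N.be) = 0 := by
      linear_combination a 0 * p2 - b 0 * p1
    exact (mul_eq_zero.mp this).resolve_left hδ
  have hn : norK D X N.be = N.be := by
    unfold norK
    simp only [Fin.sum_univ_two, z0, z1, mul_zero, zero_smul, add_zero, sub_zero]
  have hb : N.be = dv N.f2 N.v2 + N.w2 • N.v2 := by
    rw [N.s22]
    funext k
    simp only [Pi.add_apply, Pi.smul_apply, smul_eq_mul]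
    ring
  have hc : dv N.f2 N.v2 + N.w2 • N.v2 =
      (b 0 * b 0) • dv (D.d 0) (dv (D.d 0) X) +
      (b 0 * b 1) • (dv (D.d 0) (dv (D.d 1) X) + dv (D.d 1) (dv (D.d 0) X)) +
      (b 1 * b 1) • dv (D.d 1) (dv (D.d 1) X) +
      ((N.f2 (b 0) + N.w2 * b 0) • dv (D.d 0) X + (N.f2 (b 1) + N.w2 * b 1) • dv (D.d 1) X) := by
    rw [e2, cpf_dv_add, cpf_dv_smul, cpf_dv_smul, hdv2 (dv (D.d 0) X), hdv2 (dv (D.d 1) X)]
    funext k
    simp only [Pi.add_apply, Pi.smul_apply, smul_eq_mul]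
    ring
  rw [← hn, hb, hc]
  simp only [tcirc_nadd, norK_smul, tcirc_coord hg, smul_zero, add_zero]

end field

private theorem tcirc_quad (s : ℕ) (h00 h01 h10 h11 : E4) (p q t : ℝ) :
    ip s (p • h00 + q • h01 + (q • h10 + t • h11)) (p • h00 + q • h01 + (q • h10 + t • h11))
      = p ^ 2 * ip s h00 h00 + 2 * (p * q) * ip s h00 (h01 + h10)
        + (q ^ 2 * ip s (h01 + h10) (h01 + h10) + 2 * (p * t) * ip s h00 h11)
        + 2 * (q * t) * ip s (h01 + h10) h11 + t ^ 2 * ip s h11 h11 := by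
  simp only [ip, Fin.sum_univ_four, PiLp.add_apply, PiLp.smul_apply, smul_eq_mul]
  ring

/-- comparison of coefficients -/
private theorem tcirc_coef {A B C E F a b c e f : ℝ}
    (h : ∀ x y : ℝ, (x * x) ^ 2 * A + 2 * ((x * x) * (x * y)) * B
        + ((x * y) ^ 2 * C + 2 * ((x * x) * (y * y)) * E) + 2 * ((x * y) * (y * y)) * F
        + (y * y) ^ 2 * a
      = x ^ 4 * b + x ^ 3 * y * c + x ^ 2 * y ^ 2 * e + x * y ^ 3 * f) :
    A = b ∧ 2 * B = c ∧ C + 2 * E = e ∧ 2 * F = f ∧ a = 0 := by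
  have h1 := h 1 0
  have h2 := h 0 1
  have h3 := h 1 1
  have h4 := h 1 (-1)
  have h5 := h 1 2
  ring_nf at h1 h2 h3 h4 h5
  refine ⟨by linarith, by linarith, by linarith, by linarith, by linarith⟩

/-- the coefficients of the quartic form -/
private theorem tcirc_pt {s : ℕ} {X : E2 → E4} {x : E2} {L : Fin 2 → Fin 2 → ℝ}
    (h : ∀ r : Fin 2 → ℝ, ip s (sff s X x r) (sff s X x r)
      = fff s X x r * ∑ i, ∑ j, L i j * (r i * r j)) :
    ip s (normalPart s X x (pd 0 (pd 0 X) x)) (normalPart s X x (pd 0 (pd 0 X) x))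
      = metric s X x 0 0 * L 0 0 ∧
    2 * ip s (normalPart s X x (pd 0 (pd 0 X) x))
        (normalPart s X x (pd 0 (pd 1 X) x) + normalPart s X x (pd 1 (pd 0 X) x))
      = (metric s X x 0 1 + metric s X x 1 0) * L 0 0 + metric s X x 0 0 * (L 0 1 + L 1 0) ∧
    ip s (normalPart s X x (pd 0 (pd 1 X) x) + normalPart s X x (pd 1 (pd 0 X) x))
        (normalPart s X x (pd 0 (pd 1 X) x) + normalPart s X x (pd 1 (pd 0 X) x))
      + 2 * ip s (normalPart s X x (pd 0 (pd 0 X) x)) (normalPart s X x (pd 1 (pd 1 X) x))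
      = metric s X x 0 0 * L 1 1 + metric s X x 1 1 * L 0 0
        + (metric s X x 0 1 + metric s X x 1 0) * (L 0 1 + L 1 0) ∧
    2 * ip s (normalPart s X x (pd 0 (pd 1 X) x) + normalPart s X x (pd 1 (pd 0 X) x))
        (normalPart s X x (pd 1 (pd 1 X) x))
      = (metric s X x 0 1 + metric s X x 1 0) * L 1 1 + metric s X x 1 1 * (L 0 1 + L 1 0) ∧
    ip s (normalPart s X x (pd 1 (pd 1 X) x)) (normalPart s X x (pd 1 (pd 1 X) x))
      = metric s X x 1 1 * L 1 1 := by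
  set h00 := normalPart s X x (pd 0 (pd 0 X) x)
  set h01 := normalPart s X x (pd 0 (pd 1 X) x)
  set h10 := normalPart s X x (pd 1 (pd 0 X) x)
  set h11 := normalPart s X x (pd 1 (pd 1 X) x)
  have key := tcirc_coef (A := ip s h00 h00) (B := ip s h00 (h01 + h10))
    (C := ip s (h01 + h10) (h01 + h10)) (E := ip s h00 h11) (F := ip s (h01 + h10) h11)
    (a := ip s h11 h11 - metric s X x 1 1 * L 1 1) (b := metric s X x 0 0 * L 0 0)
    (c := (metric s X x 0 1 + metric s X x 1 0) * L 0 0 + metric s X x 0 0 * (L 0 1 + L 1 0))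
    (e := metric s X x 0 0 * L 1 1 + metric s X x 1 1 * L 0 0
        + (metric s X x 0 1 + metric s X x 1 0) * (L 0 1 + L 1 0))
    (f := (metric s X x 0 1 + metric s X x 1 0) * L 1 1 + metric s X x 1 1 * (L 0 1 + L 1 0))
    (by
      intro p q
      have h1 := h ![p, q]
      have e1 : sff s X x ![p, q] = (p * p) • h00 + (p * q) • h01
          + ((p * q) • h10 + (q * q) • h11) := by
        simp only [sff, Fin.sum_univ_two, Matrix.cons_val_zero, Matrix.cons_val_one]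
        rw [mul_comm q p]
      have e2 : fff s X x ![p, q] = metric s X x 0 0 * (p * p) + metric s X x 0 1 * (p * q)
          + (metric s X x 1 0 * (q * p) + metric s X x 1 1 * (q * q)) := by
        simp only [fff, Fin.sum_univ_two, Matrix.cons_val_zero, Matrix.cons_val_one]
      rw [e1, tcirc_quad, e2] at h1
      simp only [Fin.sum_univ_two, Matrix.cons_val_zero, Matrix.cons_val_one] at h1
      linear_combination h1)
  obtain ⟨k1, k2, k3, k4, k5⟩ := key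
  exact ⟨k1, k2, k3, k4, by linarith⟩

theorem circ_const (s : ℕ) {U : Set E2} (hU : IsOpen U) {X : E2 → E4}
    (hX : IsSurface s X U) (hs : IsSuperconformal s X U)
    (hH : ∃ c : ℝ, c ≠ 0 ∧ ∀ x ∈ U, lap s X (meanCurv s X) x = c • meanCurv s X x) :
    ∀ i : Fin 2, ∀ x ∈ U,
      pd i (fun y => ip s (meanCurv s X y) (meanCurv s X y)) x = 0 := by
  obtain ⟨c, hc0, hH⟩ := hH
  obtain ⟨L, hL, hL2⟩ := hs
  have hsm : ContDiffOn ℝ ∞ (meanCurv s X) U := contDiffOn_meanCurv hU hX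
  set W : E2 → ℝ := fun x => ip s (meanCurv s X x) (meanCurv s X x) with hWdef
  have hW : ContDiffOn ℝ ∞ W U := contDiffOn_ip s hsm hsm
  intro i
  by_contra hcon
  push Not at hcon
  obtain ⟨x0, hx0, hne0⟩ := hcon
  have hpd : ContDiffOn ℝ ∞ (pd i W) U := contDiffOn_pd hU hW i
  set Om : Set E2 := U ∩ pd i W ⁻¹' {0}ᶜ with hOmdef
  have hO : IsOpen Om := hpd.continuousOn.isOpen_inter_preimage hU isOpen_compl_singleton
  have hOU : Om ⊆ U := Set.inter_subset_left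
  have hne : Om.Nonempty := ⟨x0, hx0, hne0⟩
  obtain ⟨K, hF, hK, ⟨B⟩⟩ := exists_cbr Om hO hne
  have hX' : IsSurface s X Om := ⟨hX.1.mono hOU, fun x hx => hX.2 x (hOU hx)⟩
  obtain ⟨I, hD, hIX⟩ := tcirc_im0 B hO hne hX' hc0 fun x hx => hH x (hOU hx)
  have h1 : B.φ (pd i W) ≠ 0 := B.ne _ (hpd.mono hOU) fun x hx => hx.2
  apply h1
  rw [B.der i W (hW.mono hOU)]
  have h2 : B.φ W = B.Φ s (meanCurv s X) ⬝ᵥ B.Φ s (meanCurv s X) :=
    B.φ_ip s (hsm.mono hOU) (hsm.mono hOU)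
  have h3 := Φ_meanCurv B hO hX'
  obtain ⟨N, a, b, q1, q2, hδ, hv1, hv2, hm, -⟩ := exists_nfr I
  have hgI := I.gdet_ne
  rw [hD, hIX] at hgI
  rw [hD] at q1 q2
  rw [hIX] at hv1 hv2
  rw [hD, hIX] at hm
  have hbe := tcirc_be hgI N q1 q2 hδ hv1 hv2
  -- the functions
  have hpd1 : ∀ j : Fin 2, ContDiffOn ℝ ∞ (pd j X) Om := fun j => contDiffOn_pd hO hX'.1 j
  have hpd2 : ∀ k j : Fin 2, ContDiffOn ℝ ∞ (pd k (pd j X)) Om := fun k j =>
    contDiffOn_pd hO (hpd1 j) k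
  have hh : ∀ k j : Fin 2, ContDiffOn ℝ ∞ (fun x => normalPart s X x (pd k (pd j X) x)) Om :=
    fun k j => contDiffOn_normalPart hO hX' (hpd2 k j)
  have hΦ : ∀ k j : Fin 2, B.Φ s (fun x => normalPart s X x (pd k (pd j X) x))
      = norK B.D (B.Φ s X) (dv (B.D.d k) (dv (B.D.d j) (B.Φ s X))) := by
    intro k j
    rw [Φ_normalPart B hO hX' (hpd2 k j), B.Φ_pd s hO (hpd1 j) k, B.Φ_pd s hO hX'.1 j]
  rw [← hΦ 0 0, ← hΦ 0 1, ← hΦ 1 0, ← hΦ 1 1] at hbe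
  set H00 : E2 → E4 := fun x => normalPart s X x (pd 0 (pd 0 X) x) with hH00
  set H01 : E2 → E4 := fun x => normalPart s X x (pd 0 (pd 1 X) x) with hH01
  set H10 : E2 → E4 := fun x => normalPart s X x (pd 1 (pd 0 X) x) with hH10
  set H11 : E2 → E4 := fun x => normalPart s X x (pd 1 (pd 1 X) x) with hH11
  have s00 : ContDiffOn ℝ ∞ H00 Om := hh 0 0
  have s01 : ContDiffOn ℝ ∞ H01 Om := hh 0 1
  have s10 : ContDiffOn ℝ ∞ H10 Om := hh 1 0
  have s11 : ContDiffOn ℝ ∞ H11 Om := hh 1 1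
  have sS : ContDiffOn ℝ ∞ (fun x => H01 x + H10 x) Om := s01.add s10
  have hS : B.Φ s (fun x => H01 x + H10 x) = B.Φ s H01 + B.Φ s H10 := B.Φ_add s s01 s10
  rw [← hS] at hbe
  have hL' : ∀ k j : Fin 2, ContDiffOn ℝ ∞ (L k j) Om := fun k j => (hL k j).mono hOU
  have hg' : ∀ k j : Fin 2, ContDiffOn ℝ ∞ (fun x => metric s X x k j) Om := fun k j =>
    contDiffOn_metric hO hX' k j
  have hpt : ∀ x ∈ Om, _ := fun x hx => tcirc_pt (L := fun k j => L k j x) (hL2 x (hOU hx))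
  have hgs : ContDiffOn ℝ ∞ (fun x => metric s X x 0 1 + metric s X x 1 0) Om :=
    (hg' 0 1).add (hg' 1 0)
  have hLs : ContDiffOn ℝ ∞ (fun x => L 0 1 x + L 1 0 x) Om := (hL' 0 1).add (hL' 1 0)
  have hgsφ : B.φ (fun x => metric s X x 0 1 + metric s X x 1 0)
      = gm B.D (B.Φ s X) 0 1 + gm B.D (B.Φ s X) 1 0 := by
    rw [B.add _ _ (hg' 0 1) (hg' 1 0), φ_metric B hO hX', φ_metric B hO hX']
  have hLsφ : B.φ (fun x => L 0 1 x + L 1 0 x) = B.φ (L 0 1) + B.φ (L 1 0) :=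
    B.add _ _ (hL' 0 1) (hL' 1 0)
  have two : ∀ f : E2 → ℝ, ContDiffOn ℝ ∞ f Om → B.φ (fun x => 2 * f x) = 2 * B.φ f := by
    intro f hf
    rw [B.mul _ _ (contDiffOn_const (c := (2 : ℝ))) hf, B.two]
  have two' : ∀ f : E2 → ℝ, ContDiffOn ℝ ∞ f Om → ContDiffOn ℝ ∞ (fun x => 2 * f x) Om :=
    fun f hf => (contDiffOn_const (c := (2 : ℝ))).mul hf
  have i00 := contDiffOn_ip s s00 s00
  have i0S := contDiffOn_ip s s00 sS
  have iSS := contDiffOn_ip s sS sS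
  have i01 := contDiffOn_ip s s00 s11
  have iS1 := contDiffOn_ip s sS s11
  have i11 := contDiffOn_ip s s11 s11
  have c0 : B.Φ s H00 ⬝ᵥ B.Φ s H00 = gm B.D (B.Φ s X) 0 0 * B.φ (L 0 0) := by
    rw [← B.φ_ip s s00 s00, ← φ_metric B hO hX', ← B.mul _ _ (hg' 0 0) (hL' 0 0)]
    exact B.congr _ _ i00 ((hg' 0 0).mul (hL' 0 0)) fun x hx => (hpt x hx).1
  have c1 : 2 * (B.Φ s H00 ⬝ᵥ B.Φ s (fun x => H01 x + H10 x))
      = (gm B.D (B.Φ s X) 0 1 + gm B.D (B.Φ s X) 1 0) * B.φ (L 0 0)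
        + gm B.D (B.Φ s X) 0 0 * (B.φ (L 0 1) + B.φ (L 1 0)) := by
    rw [← B.φ_ip s s00 sS, ← two _ i0S, ← hgsφ, ← hLsφ, ← φ_metric B hO hX',
      ← B.mul _ _ hgs (hL' 0 0), ← B.mul _ _ (hg' 0 0) hLs,
      ← B.add _ _ (hgs.mul (hL' 0 0)) ((hg' 0 0).mul hLs)]
    exact B.congr _ _ (two' _ i0S) ((hgs.mul (hL' 0 0)).add ((hg' 0 0).mul hLs))
      fun x hx => (hpt x hx).2.1
  have c2 : B.Φ s (fun x => H01 x + H10 x) ⬝ᵥ B.Φ s (fun x => H01 x + H10 x)
        + 2 * (B.Φ s H00 ⬝ᵥ B.Φ s H11)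
      = gm B.D (B.Φ s X) 0 0 * B.φ (L 1 1) + gm B.D (B.Φ s X) 1 1 * B.φ (L 0 0)
        + (gm B.D (B.Φ s X) 0 1 + gm B.D (B.Φ s X) 1 0) * (B.φ (L 0 1) + B.φ (L 1 0)) := by
    rw [← B.φ_ip s sS sS, ← B.φ_ip s s00 s11, ← two _ i01, ← B.add _ _ iSS (two' _ i01),
      ← hgsφ, ← hLsφ, ← φ_metric B hO hX', ← φ_metric B hO hX',
      ← B.mul _ _ (hg' 0 0) (hL' 1 1), ← B.mul _ _ (hg' 1 1) (hL' 0 0), ← B.mul _ _ hgs hLs,
      ← B.add _ _ ((hg' 0 0).mul (hL' 1 1)) ((hg' 1 1).mul (hL' 0 0)),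
      ← B.add _ _ (((hg' 0 0).mul (hL' 1 1)).add ((hg' 1 1).mul (hL' 0 0))) (hgs.mul hLs)]
    exact B.congr _ _ (iSS.add (two' _ i01))
      ((((hg' 0 0).mul (hL' 1 1)).add ((hg' 1 1).mul (hL' 0 0))).add (hgs.mul hLs))
      fun x hx => (hpt x hx).2.2.1
  have c3 : 2 * (B.Φ s (fun x => H01 x + H10 x) ⬝ᵥ B.Φ s H11)
      = (gm B.D (B.Φ s X) 0 1 + gm B.D (B.Φ s X) 1 0) * B.φ (L 1 1)
        + gm B.D (B.Φ s X) 1 1 * (B.φ (L 0 1) + B.φ (L 1 0)) := by
    rw [← B.φ_ip s sS s11, ← two _ iS1, ← hgsφ, ← hLsφ, ← φ_metric B hO hX',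
      ← B.mul _ _ hgs (hL' 1 1), ← B.mul _ _ (hg' 1 1) hLs,
      ← B.add _ _ (hgs.mul (hL' 1 1)) ((hg' 1 1).mul hLs)]
    exact B.congr _ _ (two' _ iS1) ((hgs.mul (hL' 1 1)).add ((hg' 1 1).mul hLs))
      fun x hx => (hpt x hx).2.2.2.1
  have c4 : B.Φ s H11 ⬝ᵥ B.Φ s H11 = gm B.D (B.Φ s X) 1 1 * B.φ (L 1 1) := by
    rw [← B.φ_ip s s11 s11, ← φ_metric B hO hX', ← B.mul _ _ (hg' 1 1) (hL' 1 1)]
    exact B.congr _ _ i11 ((hg' 1 1).mul (hL' 1 1)) fun x hx => (hpt x hx).2.2.2.2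
  -- `v2` is isotropic
  have hiso : b 0 * b 0 * gm B.D (B.Φ s X) 0 0 + b 0 * b 1 * (gm B.D (B.Φ s X) 0 1 +
      gm B.D (B.Φ s X) 1 0) + b 1 * b 1 * gm B.D (B.Φ s X) 1 1 = 0 := by
    have e2 : N.v2 = b 0 • dv (B.D.d 0) (B.Φ s X) + b 1 • dv (B.D.d 1) (B.Φ s X) := by
      rw [hv2]
      funext k
      exact q2 (B.Φ s X k)
    have e3 := N.o22
    rw [e2] at e3
    simp only [add_dotProduct, dotProduct_add, smul_dotProduct, dotProduct_smul, smul_eq_mul]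
      at e3
    unfold gm
    linear_combination e3
  have hbb : N.be ⬝ᵥ N.be = 0 := by
    rw [hbe]
    generalize B.Φ s H00 = A0 at *
    generalize B.Φ s H11 = A1 at *
    generalize B.Φ s (fun x => H01 x + H10 x) = AS at *
    simp only [add_dotProduct, dotProduct_add, smul_dotProduct, dotProduct_smul, smul_eq_mul]
    rw [dotProduct_comm AS A0, dotProduct_comm A1 A0, dotProduct_comm A1 AS]
    linear_combination (b 0) ^ 4 * c0 + (b 0) ^ 3 * b 1 * c1 + (b 0) ^ 2 * (b 1) ^ 2 * c2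
      + b 0 * (b 1) ^ 3 * c3 + (b 1) ^ 4 * c4
      + (b 0 * b 0 * B.φ (L 0 0) + b 0 * b 1 * (B.φ (L 0 1) + B.φ (L 1 0))
        + b 1 * b 1 * B.φ (L 1 1)) * hiso
  obtain ⟨r1, r2⟩ := N.circ hbb
  rw [q1] at r1
  rw [q2] at r2
  have hmm : N.m ⬝ᵥ N.m = (2 * 2) * B.φ W := by
    rw [hm, ← h3, smul_dotProduct, dotProduct_smul, smul_eq_mul, smul_eq_mul, ← h2]
    ring
  have hd : ∀ j : Fin 2, B.D.d j (N.m ⬝ᵥ N.m) = 0 := by
    intro j
    have t0 : (a 0 * b 1 - a 1 * b 0) * B.D.d 0 (N.m ⬝ᵥ N.m) = 0 := by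
      linear_combination b 1 * r1 - a 1 * r2
    have t1 : (a 0 * b 1 - a 1 * b 0) * B.D.d 1 (N.m ⬝ᵥ N.m) = 0 := by
      linear_combination a 0 * r2 - b 0 * r1
    fin_cases j
    · exact (mul_eq_zero.mp t0).resolve_left hδ
    · exact (mul_eq_zero.mp t1).resolve_left hδ
  have h4 := hd i
  rw [hmm] at h4
  have h5 : ((2 : K) * 2) = ((4 : ℕ) : K) := by norm_num
  rw [h5, ← nsmul_eq_mul, map_nsmul, nsmul_eq_mul] at h4
  rcases mul_eq_zero.1 h4 with h6 | h6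
  · exact absurd h6 (by norm_num)
  · exact h6

end Pool.H60.NC
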