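import Pool.Agent.H60.NC.TrS
import Pool.Agent.H60.NC.KId

/-!
# Transfer between smooth functions and the differential field

`exists_im0` is `Pool.H60.PE.exists_imm` without the normal bundle (same proof).  `Φ_trc` is
`Pool.H60.PE.Φ_meanCurv`.  The remaining statements are the rules `B.add`, `B.mul`, `B.Φ_smul`,
`B.Φ_pd`, `B.φ_ip`, `B.inv`, ... and `Φ_normalPart` applied to the definitions.  In `Φ_Bv` the factor
`B.eta s a` comes from `B.D.d i (B.Φ s P a) = B.eta s a * B.φ (fun x => pd i P x a)`.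
-/

namespace Pool.H60.NC

open scoped ContDiff
open Matrix
open Pool.Agent.H99.N2 (E2 E4 pd contDiffOn_pd contDiffOn_comp)
open Pool.H60.PE

variable {s : ℕ} {X : E2 → E4} {Om : Set E2} {c W : ℝ}

section field

variable {K : Type} [Field K] [CharZero K]

theorem exists_im0 (B : CBr Om K) (hne : Om.Nonempty) (h : Hyp s X Om c W) :
    ∃ I : Im0 K, I.D = B.D ∧ I.X = B.Φ s X ∧ I.c = B.φ (fun _ => c) := by
  have hO := h.hU
  have hX := h.hX
  have hm := contDiffOn_meanCurv hO hX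
  refine ⟨⟨B.D, B.Φ s X, delK B s X, B.φ (fun _ => c), delK_pow B hO hX, delK_ne B hO hX,
    B.const_ne hne h.hc, B.const_der c, ?_⟩, rfl, rfl, rfl⟩
  intro k
  have h1 : B.Φ s (lap s X (meanCurv s X)) = B.φ (fun _ => c) • B.Φ s (meanCurv s X) := by
    rw [← B.Φ_smul s (contDiffOn_const (c := c)) hm]
    exact B.Φ_congr s (contDiffOn_lap hO hX hm) ((contDiffOn_const (c := c)).smul hm) h.hM
  have h2 := Φ_lap B hO hX hm k
  rw [h1] at h2
  rw [← Φ_meanCurv B hO hX]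
  simp only [Pi.smul_apply, smul_eq_mul] at h2 ⊢
  have hlin : ∀ a : K, lapK B.D (B.Φ s X) (delK B s X) (2 * a)
      = 2 * lapK B.D (B.Φ s X) (delK B s X) a := by
    intro a
    have h2a : ∀ (j : Fin 2) (b : K), B.D.d j (2 * b) = 2 * B.D.d j b := by
      intro j b
      rw [two_mul, map_add, two_mul]
    simp only [lapK, h2a]
    have : ∀ i : Fin 2, B.D.d i (∑ j, delK B s X * gi B.D (B.Φ s X) i j * (2 * B.D.d j a))
        = 2 * B.D.d i (∑ j, delK B s X * gi B.D (B.Φ s X) i j * B.D.d j a) := by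
      intro i
      rw [← h2a, Finset.mul_sum]
      congr 1
      exact Finset.sum_congr rfl fun j _ => by ring
    simp only [this, ← Finset.mul_sum]
    ring
  rw [hlin, ← h2]
  ring

theorem Φ_trc (B : CBr Om K) (h : Hyp s X Om c W) : B.Φ s (trc s X) = trK B.D (B.Φ s X) := by
  rw [← Φ_meanCurv B h.hU h.hX, ← B.two]
  exact B.Φ_smul s (contDiffOn_const (c := (2 : ℝ))) (contDiffOn_meanCurv h.hU h.hX)

theorem φ_W (B : CBr Om K) (h : Hyp s X Om c W) :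
    trK B.D (B.Φ s X) ⬝ᵥ trK B.D (B.Φ s X) = B.φ (fun _ => W) := by
  rw [← Φ_trc B h, ← B.φ_ip s h.trc_smooth h.trc_smooth]
  exact B.congr _ _ (contDiffOn_ip s h.trc_smooth h.trc_smooth) contDiffOn_const h.hW

theorem Φ_tan (B : CBr Om K) (h : Hyp s X Om c W) {f : E2 → E4} (hf : ContDiffOn ℝ ∞ f Om) :
    B.Φ s (fun x => tanPart s X x (f x)) = tanK B.D (B.Φ s X) (B.Φ s f) := by
  have h1 := B.Φ_sub s hf (contDiffOn_normalPart h.hU h.hX hf)
  rw [Φ_normalPart B h.hU h.hX hf] at h1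
  exact h1

theorem φ_E (B : CBr Om K) (h : Hyp s X Om c W) : B.φ (Edet s X) = EK B.D (B.Φ s X) := by
  have hi : ∀ i j : Fin 2,
      ContDiffOn ℝ ∞ (fun x => ip s (pd i (trc s X) x) (pd j X x)) Om := fun i j =>
    contDiffOn_ip s (contDiffOn_pd h.hU h.trc_smooth i) (contDiffOn_pd h.hU h.hX.1 j)
  have hv : ∀ i j : Fin 2, B.φ (fun x => ip s (pd i (trc s X) x) (pd j X x)) =
      dv (B.D.d i) (trK B.D (B.Φ s X)) ⬝ᵥ dv (B.D.d j) (B.Φ s X) := by
    intro i j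
    have h1 := B.φ_ip s (contDiffOn_pd h.hU h.trc_smooth i) (contDiffOn_pd h.hU h.hX.1 j)
    rw [B.Φ_pd s h.hU h.trc_smooth i, B.Φ_pd s h.hU h.hX.1 j, Φ_trc B h] at h1
    exact h1
  have h2 := B.sub ((hi 0 0).mul (hi 1 1)) ((hi 0 1).mul (hi 1 0))
  rw [B.mul _ _ (hi 0 0) (hi 1 1), B.mul _ _ (hi 0 1) (hi 1 0), hv, hv, hv, hv] at h2
  exact h2

theorem Φ_Zv (B : CBr Om K) (h : Hyp s X Om c W) (hW : W ≠ 0) (j : Fin 2) :
    B.Φ s (Zv s X W j) = ZK B.D (B.Φ s X) j := by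
  have ht := h.tan_smooth (contDiffOn_pd h.hU h.trc_smooth j)
  have hg : ContDiffOn ℝ ∞ (fun x => W⁻¹ • tanPart s X x (pd j (trc s X) x)) Om :=
    (contDiffOn_const (c := W⁻¹)).smul ht
  have h1 := B.Φ_add s (contDiffOn_pd h.hU h.hX.1 j) hg
  rw [B.Φ_smul s (contDiffOn_const (c := W⁻¹)) ht, B.Φ_pd s h.hU h.hX.1 j,
    Φ_tan B h (contDiffOn_pd h.hU h.trc_smooth j), B.Φ_pd s h.hU h.trc_smooth j, Φ_trc B h,
    B.inv (f := fun _ => W) contDiffOn_const (fun _ _ => hW), ← φ_W B h] at h1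
  exact h1

theorem Φ_Pv (B : CBr Om K) (h : Hyp s X Om c W) :
    B.Φ s (Pv s X c) = PK B.D (B.Φ s X) (B.φ fun _ => c) := by
  have hg : ContDiffOn ℝ ∞ (fun x => c⁻¹ • trc s X x) Om :=
    (contDiffOn_const (c := c⁻¹)).smul h.trc_smooth
  have h1 := B.Φ_add s h.hX.1 hg
  rw [B.Φ_smul s (contDiffOn_const (c := c⁻¹)) h.trc_smooth, Φ_trc B h,
    B.inv (f := fun _ => c) contDiffOn_const (fun _ _ => h.hc)] at h1
  exact h1

theorem Φ_Bv (B : CBr Om K) (h : Hyp s X Om c W) (a : Fin 4) :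
    B.eta s a • B.Φ s (Bv s X c a) = BK B.D (B.Φ s X) (B.φ fun _ => c) a := by
  have hp : ∀ i : Fin 2, ContDiffOn ℝ ∞ (fun x => pd i (Pv s X c) x a) Om := fun i =>
    contDiffOn_comp (contDiffOn_pd h.hU h.P_smooth i) a
  have hx : ∀ i : Fin 2, ContDiffOn ℝ ∞ (fun x => pd i X x) Om := fun i =>
    contDiffOn_pd h.hU h.hX.1 i
  have he : ∀ i : Fin 2, B.eta s a * B.φ (fun x => pd i (Pv s X c) x a) =
      B.D.d i (PK B.D (B.Φ s X) (B.φ fun _ => c) a) := by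
    intro i
    have h1 := congrFun (B.Φ_pd s h.hU h.P_smooth i) a
    rw [Φ_Pv B h] at h1
    exact h1
  have g1 : ContDiffOn ℝ ∞ (fun x => pd 1 (Pv s X c) x a • pd 0 X x) Om := (hp 1).smul (hx 0)
  have g2 : ContDiffOn ℝ ∞ (fun x => pd 0 (Pv s X c) x a • pd 1 X x) Om := (hp 0).smul (hx 1)
  have h2 := B.Φ_sub s g1 g2
  rw [B.Φ_smul s (hp 1) (hx 0), B.Φ_smul s (hp 0) (hx 1)] at h2
  have h3 : B.Φ s (Bv s X c a) = B.φ (fun x => pd 1 (Pv s X c) x a) • B.Φ s (fun x => pd 0 X x) -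
      B.φ (fun x => pd 0 (Pv s X c) x a) • B.Φ s (fun x => pd 1 X x) := h2
  have h4 : ∀ i : Fin 2, B.Φ s (fun x => pd i X x) = dv (B.D.d i) (B.Φ s X) := fun i =>
    B.Φ_pd s h.hU h.hX.1 i
  rw [h3, smul_sub, smul_smul, smul_smul, he, he, h4, h4]
  rfl

end field

end Pool.H60.NC
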