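import Pool.Agent.H60.PE.PImm
import Pool.Agent.H60.NC.Idt

/-!
# Smoothness of the auxiliary functions, and the principle of transfer

For `vanish` take `Om = {x ∈ U | f x ≠ 0}`, open since `f` is continuous on `U`; if it is not empty
there is a field (`exists_cbr`) with `B.φ f ≠ 0` by `B.ne`, against `h`.
The other statements follow from `contDiffOn_meanCurv`, `contDiffOn_normalPart`, `contDiffOn_pd`,
`contDiffOn_ip`, `contDiffOn_comp`.
-/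

namespace Pool.H60.NC

open scoped ContDiff
open Matrix
open Pool.Agent.H99.N2 (E2 E4 pd contDiffOn_pd contDiffOn_comp)
open Pool.H60.PE

variable {s : ℕ} {X : E2 → E4} {U Om : Set E2} {c W : ℝ}

theorem Hyp.mono (h : Hyp s X U c W) (hO : IsOpen Om) (hs : Om ⊆ U) : Hyp s X Om c W where
  hU := hO
  hX := ⟨h.hX.1.mono hs, fun x hx => h.hX.2 x (hs hx)⟩
  hc := h.hc
  hM := fun x hx => h.hM x (hs hx)
  hW := fun x hx => h.hW x (hs hx)

theorem vanish (hU : IsOpen U) {f : E2 → ℝ} (hf : ContDiffOn ℝ ∞ f U)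
    (h : ∀ Om : Set E2, IsOpen Om → Om ⊆ U → Om.Nonempty → (∀ x ∈ Om, f x ≠ 0) →
      ∀ (K : Type) [Field K] [CharZero K] (B : CBr Om K), B.φ f = 0) :
    ∀ x ∈ U, f x = 0 := by
  by_contra hcon
  push Not at hcon
  obtain ⟨x0, hx0, hf0⟩ := hcon
  have hO : IsOpen (U ∩ f ⁻¹' {0}ᶜ) :=
    hf.continuousOn.isOpen_inter_preimage hU isOpen_compl_singleton
  have hs : U ∩ f ⁻¹' {0}ᶜ ⊆ U := Set.inter_subset_left
  have hne : (U ∩ f ⁻¹' {0}ᶜ).Nonempty := ⟨x0, hx0, by simpa using hf0⟩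
  have hn : ∀ x ∈ U ∩ f ⁻¹' {0}ᶜ, f x ≠ 0 := fun x hx => by simpa using hx.2
  obtain ⟨L, hL, hC, ⟨B⟩⟩ := exists_cbr _ hO hne
  exact B.ne f (hf.mono hs) hn (h _ hO hs hne hn L B)

theorem Hyp.trc_smooth (h : Hyp s X U c W) : ContDiffOn ℝ ∞ (trc s X) U :=
  ContDiffOn.const_smul (2 : ℝ) (contDiffOn_meanCurv h.hU h.hX)

theorem Hyp.tan_smooth (h : Hyp s X U c W) {f : E2 → E4} (hf : ContDiffOn ℝ ∞ f U) :
    ContDiffOn ℝ ∞ (fun x => tanPart s X x (f x)) U :=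
  hf.sub (contDiffOn_normalPart h.hU h.hX hf)

theorem Hyp.E_smooth (h : Hyp s X U c W) : ContDiffOn ℝ ∞ (Edet s X) U := by
  have hi : ∀ i j : Fin 2,
      ContDiffOn ℝ ∞ (fun x => ip s (pd i (trc s X) x) (pd j X x)) U := fun i j =>
    contDiffOn_ip s (contDiffOn_pd h.hU h.trc_smooth i) (contDiffOn_pd h.hU h.hX.1 j)
  exact ((hi 0 0).mul (hi 1 1)).sub ((hi 0 1).mul (hi 1 0))

theorem Hyp.Z_smooth (h : Hyp s X U c W) (j : Fin 2) : ContDiffOn ℝ ∞ (Zv s X W j) U :=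
  (contDiffOn_pd h.hU h.hX.1 j).add
    (ContDiffOn.const_smul W⁻¹ (h.tan_smooth (contDiffOn_pd h.hU h.trc_smooth j)))

theorem Hyp.P_smooth (h : Hyp s X U c W) : ContDiffOn ℝ ∞ (Pv s X c) U :=
  h.hX.1.add (ContDiffOn.const_smul c⁻¹ h.trc_smooth)

theorem Hyp.B_smooth (h : Hyp s X U c W) (a : Fin 4) : ContDiffOn ℝ ∞ (Bv s X c a) U :=
  ((contDiffOn_comp (contDiffOn_pd h.hU h.P_smooth 1) a).smul
    (contDiffOn_pd h.hU h.hX.1 0)).sub
    ((contDiffOn_comp (contDiffOn_pd h.hU h.P_smooth 0) a).smul (contDiffOn_pd h.hU h.hX.1 1))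

end Pool.H60.NC
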